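import Pool.Agent.Work.MP_33c50c_an.H54.TransB

/-!
# A good place for the cut
-/

set_option autoImplicit false

open MeasureTheory Set Filter Topology Real

noncomputable section

namespace Pool.Agent.Work.MP_33c50c_an.H54

/-- Length of a vertical slice. -/
def len (Om : Set Cyl) (x : ℝ) : ENNReal := ∫⁻ y, (cover ⁻¹' Om).indicator (fun _ => 1) (x, y)

variable {Om : Set Cyl}

theorem ind_meas (hO : IsOpen Om) :
    Measurable ((cover ⁻¹' Om).indicator fun _ : ℝ × ℝ => (1 : ENNReal)) :=
  measurable_const.indicator (hO.preimage cover_cont).measurableSet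

theorem len_meas (hO : IsOpen Om) : Measurable (len Om) := (ind_meas hO).lintegral_prod_right'

theorem ind_per (x y : ℝ) : (cover ⁻¹' Om).indicator (fun _ : ℝ × ℝ => (1 : ENNReal))
    (x + 2 * π, y) = (cover ⁻¹' Om).indicator (fun _ => 1) (x, y) := by
  by_cases h : (x, y) ∈ cover ⁻¹' Om
  · rw [indicator_of_mem h, indicator_of_mem]
    rw [mem_preimage, cover_per]
    exact h
  · rw [indicator_of_notMem h, indicator_of_notMem]
    rw [mem_preimage, cover_per]
    exact h

theorem len_per (x : ℝ) : len Om (x + 2 * π) = len Om x := by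
  unfold len
  exact lintegral_congr fun y => ind_per x y

theorem len_total (hO : IsOpen Om) (a : ℝ) :
    ∫⁻ x in Ioc a (a + 2 * π), len Om x = volume Om := by
  rw [← mu_cover hO.measurableSet, ← lintegral_indicator_one (hO.preimage cover_cont).measurableSet]
  exact (mu_lint _ (ind_meas hO) ind_per a).symm

/-- Area of the unrolled domain. -/
theorem unroll_area (hO : IsOpen Om) (x0 d : ℝ) (hd' : d < 2 * π) :
    volume (unroll Om x0 d) ≤ volume Om + ∫⁻ s in Ioc 0 d, len Om (x0 + s) := by
  have hpi := Real.pi_pos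
  have hm : MeasurableSet (unroll Om x0 d) := (unroll_open hO x0 d).measurableSet
  have hzero : ∀ p : ℝ × ℝ, p.1 ∉ Ioc x0 (x0 + 4 * π) →
      (unroll Om x0 d).indicator (fun _ => (1 : ENNReal)) p = 0 := by
    intro p hp
    refine indicator_of_notMem ?_ _
    rintro ⟨_, hp2, _⟩
    exact hp ⟨hp2.1, by linarith [hp2.2]⟩
  have e1 : volume (unroll Om x0 d) =
      ∫⁻ p, (unroll Om x0 d).indicator (fun _ => (1 : ENNReal)) p := by
    rw [← lintegral_indicator_one hm]
    rfl
  rw [e1, fold _ (measurable_const.indicator hm) x0 hzero]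
  have h1 : ∀ x ∈ Ioc x0 (x0 + 2 * π),
      ∫⁻ y, ((unroll Om x0 d).indicator (fun _ => (1 : ENNReal)) (x, y) +
        (unroll Om x0 d).indicator (fun _ => (1 : ENNReal)) (x + 2 * π, y)) ≤
      len Om x + (Ioc x0 (x0 + d)).indicator (len Om) x := by
    intro x hx
    have hmx : Measurable fun y => (unroll Om x0 d).indicator (fun _ => (1 : ENNReal)) (x, y) :=
      (measurable_const.indicator hm).comp (measurable_const.prodMk measurable_id)
    rw [lintegral_add_left hmx]
    refine add_le_add (lintegral_mono fun y => ?_) ?_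
    · exact indicator_le_indicator_of_subset inter_subset_left (fun _ => zero_le) _
    · by_cases hxd : x < x0 + d
      · have hxm : x ∈ Ioc x0 (x0 + d) := ⟨hx.1, hxd.le⟩
        rw [indicator_of_mem hxm, ← len_per x]
        exact lintegral_mono fun y =>
          indicator_le_indicator_of_subset inter_subset_left (fun _ => zero_le) _
      · have : ∀ y, (unroll Om x0 d).indicator (fun _ => (1 : ENNReal)) (x + 2 * π, y) = 0 := by
          intro y
          refine indicator_of_notMem ?_ _
          rintro ⟨_, hp2, _⟩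
          have := hp2.2
          dsimp only at this
          exact hxd (by linarith)
        simp only [this, lintegral_zero, zero_le]
  refine (setLIntegral_mono' measurableSet_Ioc h1).trans ?_
  rw [lintegral_add_left (len_meas hO), len_total hO x0]
  refine add_le_add le_rfl ?_
  refine (setLIntegral_le_lintegral _ _).trans ?_
  rw [← lintegral_indicator measurableSet_Ioc,
    ← lintegral_add_right_eq_self ((Ioc x0 (x0 + d)).indicator (len Om)) x0]
  refine lintegral_mono fun s => ?_
  by_cases hs : s ∈ Ioc 0 d
  · rw [indicator_of_mem hs, indicator_of_mem, add_comm]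
    exact ⟨by linarith [hs.1], by linarith [hs.2]⟩
  · rw [indicator_of_notMem hs, indicator_of_notMem]
    intro h
    exact hs ⟨by linarith [h.1], by linarith [h.2]⟩

/-- There is a good place for the cut. -/
theorem exists_cut (hO : IsOpen Om) {d : ℝ} (hd : 0 < d) (hd' : d < 2 * π) :
    ∃ x0 : ℝ, volume (unroll Om x0 d) ≤ ENNReal.ofReal (1 + d / (2 * π)) * volume Om := by
  have hpi := Real.pi_pos
  have hmm : Measurable fun q : ℝ × ℝ => len Om (q.1 + q.2) :=
    (len_meas hO).comp (measurable_fst.add measurable_snd)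
  have hm1 : Measurable fun x0 : ℝ => ∫⁻ s in Ioc 0 d, len Om (x0 + s) :=
    hmm.lintegral_prod_right'
  have htot : ∫⁻ x0 in Ioc 0 (2 * π), ∫⁻ s in Ioc 0 d, len Om (x0 + s) =
      ENNReal.ofReal d * volume Om := by
    rw [lintegral_lintegral_swap hmm.aemeasurable]
    have h1 : ∀ s, ∫⁻ x0 in Ioc 0 (2 * π), len Om (x0 + s) = volume Om := by
      intro s
      rw [← len_total hO s, ← lintegral_indicator measurableSet_Ioc,
        ← lintegral_indicator measurableSet_Ioc,
        ← lintegral_add_right_eq_self ((Ioc s (s + 2 * π)).indicator (len Om)) s]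
      refine lintegral_congr fun x => ?_
      by_cases hx : x ∈ Ioc 0 (2 * π)
      · rw [indicator_of_mem hx, indicator_of_mem]
        exact ⟨by linarith [hx.1], by linarith [hx.2]⟩
      · rw [indicator_of_notMem hx, indicator_of_notMem]
        intro h
        exact hx ⟨by linarith [h.1], by linarith [h.2]⟩
    simp only [h1]
    rw [setLIntegral_const, Real.volume_Ioc, sub_zero, mul_comm]
  obtain ⟨x0, _, hx0⟩ := exists_le_setLAverage (μ := volume) (s := Ioc 0 (2 * π))
    (f := fun x0 : ℝ => ∫⁻ s in Ioc 0 d, len Om (x0 + s))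
    (by rw [Real.volume_Ioc, sub_zero]; simpa using hpi)
    (by rw [Real.volume_Ioc]; exact ENNReal.ofReal_ne_top) hm1.aemeasurable
  rw [setLAverage_eq, htot, Real.volume_Ioc, sub_zero] at hx0
  refine ⟨x0, (unroll_area hO x0 d hd').trans ?_⟩
  rw [ENNReal.ofReal_add zero_le_one (by positivity), ENNReal.ofReal_one, add_mul, one_mul]
  refine add_le_add le_rfl (hx0.trans (le_of_eq ?_))
  rw [ENNReal.ofReal_div_of_pos (by positivity), ENNReal.div_eq_inv_mul, ENNReal.div_eq_inv_mul]
  ring

end Pool.Agent.Work.MP_33c50c_an.H54
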