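import Mathlib

/-!
# Functions on the flat cylinder

A function on the cylinder `S^1 x R` is a function on `R x R`, `2 pi`-periodic in the first
variable; `mu` is the area measure of a fundamental domain.
-/

set_option autoImplicit false

open MeasureTheory Set Filter Topology Real

noncomputable section

namespace Pool.Agent.Work.MP_33c50c_an.H54

/-- Smooth functions, periodic in `x`, vanishing for large `|y|`. -/
structure Tst (U : ℝ × ℝ → ℝ) : Prop where
  smooth : ContDiff ℝ ((⊤ : ℕ∞) : WithTop ℕ∞) U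
  per : ∀ x y, U (x + 2 * π, y) = U (x, y)
  bdd : ∃ R : ℝ, ∀ x y, R ≤ |y| → U (x, y) = 0

/-- Area of a fundamental domain. -/
def mu : Measure (ℝ × ℝ) := (volume.restrict (Ioc 0 (2 * π))).prod volume

def dx (U : ℝ × ℝ → ℝ) (p : ℝ × ℝ) : ℝ := fderiv ℝ U p (1, 0)

def dy (U : ℝ × ℝ → ℝ) (p : ℝ × ℝ) : ℝ := fderiv ℝ U p (0, 1)

instance : SFinite mu := by unfold mu; infer_instance

namespace Tst

variable {U V : ℝ × ℝ → ℝ}

theorem cont (h : Tst U) : Continuous U := h.smooth.continuous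

theorem diff (h : Tst U) : Differentiable ℝ U :=
  h.smooth.differentiable (by simp)

theorem add (h : Tst U) (h' : Tst V) : Tst fun p => U p + V p := by
  refine ⟨h.smooth.add h'.smooth, fun x y => by rw [h.per, h'.per], ?_⟩
  obtain ⟨R, hR⟩ := h.bdd
  obtain ⟨S, hS⟩ := h'.bdd
  exact ⟨max R S, fun x y hy => by
    rw [hR x y ((le_max_left _ _).trans hy), hS x y ((le_max_right _ _).trans hy), add_zero]⟩

theorem smul (h : Tst U) (c : ℝ) : Tst fun p => c * U p := by
  refine ⟨contDiff_const.mul h.smooth, fun x y => by rw [h.per], ?_⟩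
  obtain ⟨R, hR⟩ := h.bdd
  exact ⟨R, fun x y hy => by rw [hR x y hy, mul_zero]⟩

theorem zero : Tst fun _ => 0 :=
  ⟨contDiff_const, fun _ _ => rfl, 0, fun _ _ _ => rfl⟩

theorem sum {ι : Type*} (s : Finset ι) (W : ι → ℝ × ℝ → ℝ) (h : ∀ i ∈ s, Tst (W i))
    (c : ι → ℝ) : Tst fun p => ∑ i ∈ s, c i * W i p := by
  classical
  induction s using Finset.induction_on with
  | empty => simpa using zero
  | insert a s ha ih =>
    simp only [Finset.sum_insert ha]
    exact ((h a (Finset.mem_insert_self a s)).smul (c a)).add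
      (ih fun i hi => h i (Finset.mem_insert_of_mem hi))

theorem per' (h : Tst U) (p : ℝ × ℝ) : U (p + (2 * π, 0)) = U p := by
  have h1 : p + (2 * π, 0) = (p.1 + 2 * π, p.2) := by ext <;> simp
  rw [h1, h.per p.1 p.2]

theorem fderiv_per (h : Tst U) (p : ℝ × ℝ) : fderiv ℝ U (p + (2 * π, 0)) = fderiv ℝ U p := by
  have h1 : (fun q => U (q + (2 * π, 0))) = U := funext h.per'
  have h2 := fderiv_comp_add_right (𝕜 := ℝ) (f := U) (x := p) ((2 * π, 0) : ℝ × ℝ)
  rw [h1] at h2
  exact h2.symm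

theorem fderiv_zero (h : Tst U) : ∃ R : ℝ, ∀ x y, R ≤ |y| → fderiv ℝ U (x, y) = 0 := by
  obtain ⟨R, hR⟩ := h.bdd
  refine ⟨R + 1, fun x y hy => ?_⟩
  have h1 : U =ᶠ[𝓝 (x, y)] fun _ => 0 := by
    have : ∀ᶠ q : ℝ × ℝ in 𝓝 (x, y), R < |q.2| :=
      (continuous_snd.abs).continuousAt.eventually (lt_mem_nhds (by simpa using by linarith))
    filter_upwards [this] with q hq
    exact hR q.1 q.2 hq.le
  rw [h1.fderiv_eq]
  simp

theorem dir (h : Tst U) (v : ℝ × ℝ) : Tst fun p => fderiv ℝ U p v := by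
  refine ⟨?_, fun x y => ?_, ?_⟩
  · exact (h.smooth.fderiv_right (m := ((⊤ : ℕ∞) : WithTop ℕ∞)) (by simp)).clm_apply
      contDiff_const
  · have := h.fderiv_per (x, y)
    simp only [Prod.mk_add_mk, add_zero] at this
    rw [this]
  · obtain ⟨R, hR⟩ := h.fderiv_zero
    exact ⟨R, fun x y hy => by rw [hR x y hy]; rfl⟩

theorem dx (h : Tst U) : Tst (dx U) := h.dir _

theorem dy (h : Tst U) : Tst (dy U) := h.dir _

/-- There is a non-negative integrable bound in `y`. -/
theorem bound (h : Tst U) : ∃ C R : ℝ, 0 ≤ C ∧ 0 ≤ R ∧ (∀ x y, |U (x, y)| ≤ C) ∧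
    ∀ x y, R ≤ |y| → U (x, y) = 0 := by
  obtain ⟨R, hR⟩ := h.bdd
  have hc : IsCompact (Icc (0 : ℝ) (2 * π) ×ˢ Icc (-|R|) |R|) := isCompact_Icc.prod isCompact_Icc
  obtain ⟨C, hC⟩ := hc.exists_bound_of_continuousOn h.cont.continuousOn
  have hper : ∀ y, Function.Periodic (fun x => U (x, y)) (2 * π) := fun y x => h.per x y
  refine ⟨max C 0, |R|, le_max_right _ _, abs_nonneg R, fun x y => ?_,
    fun x y hy => hR x y ((le_abs_self R).trans hy)⟩
  rcases le_or_gt |R| |y| with hy | hy
  · rw [hR x y ((le_abs_self R).trans hy), abs_zero]; exact le_max_right _ _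
  · obtain ⟨x', hx', he⟩ := (hper y).exists_mem_Ico₀ (by positivity) x
    rw [he]
    refine le_trans ?_ (le_max_left _ _)
    rw [← Real.norm_eq_abs]
    refine hC (x', y) ⟨⟨hx'.1, hx'.2.le⟩, ?_⟩
    exact abs_le.1 hy.le

/-- Integrability of everything dominated by a bounded function supported in a strip. -/
theorem integrable_of {E : Type*} [NormedAddCommGroup E] {f : ℝ × ℝ → E} (hf : Continuous f)
    {C R : ℝ} (hC : ∀ p, ‖f p‖ ≤ C) (hR : ∀ p, R ≤ |p.2| → f p = 0) : Integrable f mu := by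
  have h1 : Integrable (fun p : ℝ × ℝ => (fun _ : ℝ => (1 : ℝ)) p.1 *
      ((Icc (-|R|) |R|).indicator (fun _ => C) p.2)) mu := by
    unfold mu
    have h2 : Integrable (fun _ : ℝ => (1 : ℝ)) (volume.restrict (Ioc 0 (2 * π))) :=
      integrable_const _
    have h3 : Integrable ((Icc (-|R|) |R|).indicator fun _ : ℝ => C) volume := by
      rw [integrable_indicator_iff measurableSet_Icc]
      exact integrableOn_const (by simp)
    exact h2.mul_prod h3
  refine h1.mono' hf.aestronglyMeasurable (Eventually.of_forall fun p => ?_)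
  rw [one_mul]
  by_cases hp : p.2 ∈ Icc (-|R|) |R|
  · rw [indicator_of_mem hp]; exact hC p
  · rw [indicator_of_notMem hp, hR p, norm_zero]
    rw [mem_Icc, ← abs_le, not_le] at hp
    exact (le_abs_self R).trans hp.le

theorem integrable (h : Tst U) : Integrable U mu := by
  obtain ⟨C, R, _, _, hC, hR⟩ := h.bound
  exact integrable_of h.cont (C := C) (R := R) (fun p => hC p.1 p.2) fun p hp => hR p.1 p.2 hp

theorem integrable_mul (h : Tst U) (h' : Tst V) : Integrable (fun p => U p * V p) mu := by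
  obtain ⟨C, R, hC0, _, hC, hR⟩ := h.bound
  obtain ⟨C', R', _, _, hC', _⟩ := h'.bound
  refine integrable_of (h.cont.mul h'.cont) (C := C * C') (R := R) (fun p => ?_) fun p hp => ?_
  · rw [norm_mul]
    exact mul_le_mul (hC p.1 p.2) (hC' p.1 p.2) (norm_nonneg _) hC0
  · have := hR p.1 p.2 hp
    rw [Prod.mk.eta] at this
    rw [this, zero_mul]

theorem integrable_sq (h : Tst U) : Integrable (fun p => U p ^ 2) mu := by
  simpa [sq] using h.integrable_mul h

end Tst

end Pool.Agent.Work.MP_33c50c_an.H54
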