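import Pool.Agent.Work.MP_33c50c_an.H54.Der

/-!
# Improved Bessel inequality
-/

set_option autoImplicit false

open MeasureTheory Set Filter Topology Real

noncomputable section

namespace Pool.Agent.Work.MP_33c50c_an.H54

/-- Orthonormal families of test functions. -/
structure ON {k : ℕ} (u : Fin k → ℝ × ℝ → ℝ) : Prop where
  tst : ∀ j, Tst (u j)
  orth : ∀ i j, ∫ p, u i p * u j p ∂mu = if i = j then 1 else 0

variable {k : ℕ} {u : Fin k → ℝ × ℝ → ℝ}

theorem ON.comb (h : ON u) (c : Fin k → ℝ) : Tst fun p => ∑ j, c j * u j p :=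
  Tst.sum Finset.univ u (fun j _ => h.tst j) c

theorem ON.sq (h : ON u) (c : Fin k → ℝ) : ∫ p, (∑ j, c j * u j p) ^ 2 ∂mu = ∑ j, c j ^ 2 := by
  have h1 : ∀ p, (∑ j, c j * u j p) ^ 2 = ∑ i, ∑ j, c i * c j * (u i p * u j p) := by
    intro p
    rw [_root_.sq, Finset.sum_mul_sum]
    exact Finset.sum_congr rfl fun i _ => Finset.sum_congr rfl fun j _ => by ring
  simp only [h1]
  have hint : ∀ i j, Integrable (fun p => c i * c j * (u i p * u j p)) mu := fun i j =>
    ((h.tst i).integrable_mul (h.tst j)).const_mul _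
  rw [integral_finsetSum _ fun i _ => integrable_finsetSum _ fun j _ => hint i j]
  refine Finset.sum_congr rfl fun i _ => ?_
  rw [integral_finsetSum _ fun j _ => hint i j]
  simp only [integral_const_mul, h.orth]
  rw [Finset.sum_eq_single i]
  · rw [if_pos rfl]; ring
  · intro j _ hj
    rw [if_neg (Ne.symm hj), mul_zero]
  · intro hi
    exact absurd (Finset.mem_univ i) hi

/-- The kernel of the projection of a phase. -/
def QQ (u : Fin k → ℝ × ℝ → ℝ) (z : ℤ × ℝ) (p : ℝ × ℝ) : ℂ := ∑ j, (u j p : ℂ) * hat (u j) z.1 z.2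

/-- Sum of squares. -/
def FF (u : Fin k → ℝ × ℝ → ℝ) (z : ℤ × ℝ) : ℝ := ∑ j, ‖hat (u j) z.1 z.2‖ ^ 2

theorem hat_comb (h : ON u) (c : Fin k → ℝ) (n : ℤ) (w : ℝ) :
    hat (fun p => ∑ j, c j * u j p) n w = ∑ j, (c j : ℂ) * hat (u j) n w := by
  unfold hat
  simp only [← integral_const_mul]
  rw [← integral_finsetSum _ fun j _ => ((h.tst j).integrable_ph (-n) (-w)).const_mul _]
  refine integral_congr_ae (Eventually.of_forall fun p => ?_)
  dsimp only
  push_cast
  rw [Finset.sum_mul]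
  exact Finset.sum_congr rfl fun j _ => by ring

theorem QQ_cont (h : ON u) (z : ℤ × ℝ) : Continuous (QQ u z) := by
  unfold QQ
  exact continuous_finsetSum _ fun j _ =>
    (Complex.continuous_ofReal.comp (h.tst j).cont).mul continuous_const

theorem QQ_normsq (u : Fin k → ℝ × ℝ → ℝ) (z : ℤ × ℝ) (p : ℝ × ℝ) :
    ‖QQ u z p‖ ^ 2 = (∑ j, (hat (u j) z.1 z.2).re * u j p) ^ 2 +
      (∑ j, (hat (u j) z.1 z.2).im * u j p) ^ 2 := by
  have h1 : (QQ u z p).re = ∑ j, (hat (u j) z.1 z.2).re * u j p := by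
    unfold QQ
    rw [Complex.re_sum]
    exact Finset.sum_congr rfl fun j _ => by rw [Complex.re_ofReal_mul]; ring
  have h2 : (QQ u z p).im = ∑ j, (hat (u j) z.1 z.2).im * u j p := by
    unfold QQ
    rw [Complex.im_sum]
    exact Finset.sum_congr rfl fun j _ => by rw [Complex.im_ofReal_mul]; ring
  rw [Complex.sq_norm, Complex.normSq_apply, h1, h2]; ring

theorem QQ_int (h : ON u) (z : ℤ × ℝ) : Integrable (fun p => ‖QQ u z p‖ ^ 2) mu := by
  simp only [QQ_normsq]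
  exact (h.comb _).integrable_sq.add (h.comb _).integrable_sq

theorem QQ_total (h : ON u) (z : ℤ × ℝ) : ∫ p, ‖QQ u z p‖ ^ 2 ∂mu = FF u z := by
  simp only [QQ_normsq]
  rw [integral_add (h.comb _).integrable_sq (h.comb _).integrable_sq, h.sq, h.sq, FF,
    ← Finset.sum_add_distrib]
  refine Finset.sum_congr rfl fun j _ => ?_
  rw [Complex.sq_norm, Complex.normSq_apply]; ring

theorem QQ_ph_int (h : ON u) (z : ℤ × ℝ) :
    Integrable (fun p => QQ u z p * ph z.1 z.2 p) mu := by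
  unfold QQ
  have h1 : ∀ p, (∑ j, (u j p : ℂ) * hat (u j) z.1 z.2) * ph z.1 z.2 p =
      ∑ j, hat (u j) z.1 z.2 * ((u j p : ℂ) * ph z.1 z.2 p) := by
    intro p
    rw [Finset.sum_mul]
    exact Finset.sum_congr rfl fun j _ => by ring
  simp only [h1]
  exact integrable_finsetSum _ fun j _ => ((h.tst j).integrable_ph z.1 z.2).const_mul _

theorem ph_conj (n : ℤ) (w : ℝ) (p : ℝ × ℝ) : ph (-n) (-w) p = (starRingEnd ℂ) (ph n w p) := by
  unfold ph
  rw [← Complex.exp_conj, map_mul, Complex.conj_I, Complex.conj_ofReal]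
  congr 1
  push_cast
  ring

theorem hat_conj (U : ℝ × ℝ → ℝ) (n : ℤ) (w : ℝ) :
    ∫ p, (U p : ℂ) * ph n w p ∂mu = (starRingEnd ℂ) (hat U n w) := by
  unfold hat
  rw [← integral_conj]
  refine integral_congr_ae (Eventually.of_forall fun p => ?_)
  dsimp only
  rw [ph_conj, map_mul, Complex.conj_ofReal, Complex.conj_conj]

theorem QQ_ph_total (h : ON u) (z : ℤ × ℝ) :
    ∫ p, QQ u z p * ph z.1 z.2 p ∂mu = (FF u z : ℂ) := by
  unfold QQ FF
  have h1 : ∀ p, (∑ j, (u j p : ℂ) * hat (u j) z.1 z.2) * ph z.1 z.2 p =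
      ∑ j, hat (u j) z.1 z.2 * ((u j p : ℂ) * ph z.1 z.2 p) := by
    intro p
    rw [Finset.sum_mul]
    exact Finset.sum_congr rfl fun j _ => by ring
  simp only [h1]
  rw [integral_finsetSum _ fun j _ => ((h.tst j).integrable_ph z.1 z.2).const_mul _]
  push_cast
  refine Finset.sum_congr rfl fun j _ => ?_
  rw [integral_const_mul, hat_conj, Complex.mul_conj, Complex.normSq_eq_norm_sq]
  push_cast
  rfl

/-- **Improved Bessel inequality.** -/
theorem bessel (h : ON u) {S N : Set (ℝ × ℝ)} (hN : MeasurableSet N)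
    (hNS : N ⊆ S) (hfin : mu S ≠ ⊤) (hsupp : ∀ j, ∀ p, p ∉ S → u j p = 0) (z : ℤ × ℝ) :
    FF u z ≤ (mu S).toReal - (mu N).toReal / 2 + ∫ p in N, ‖QQ u z p‖ ^ 2 ∂mu := by
  have hQ0 : ∀ p, p ∉ S → QQ u z p = 0 := by
    intro p hp
    unfold QQ
    exact Finset.sum_eq_zero fun j _ => by rw [hsupp j p hp]; simp
  have hexp : ∀ p, ‖1 - QQ u z p * ph z.1 z.2 p‖ ^ 2 =
      1 - 2 * (QQ u z p * ph z.1 z.2 p).re + ‖QQ u z p‖ ^ 2 := by
    intro p
    have h1 : ‖QQ u z p‖ ^ 2 = ‖QQ u z p * ph z.1 z.2 p‖ ^ 2 := by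
      rw [norm_mul, norm_ph, mul_one]
    rw [h1, Complex.sq_norm, Complex.sq_norm, Complex.normSq_apply, Complex.normSq_apply,
      Complex.sub_re, Complex.sub_im, Complex.one_re, Complex.one_im]
    ring
  have hi1 : IntegrableOn (fun _ : ℝ × ℝ => (1 : ℝ)) S mu := integrableOn_const hfin
  have hi2 : IntegrableOn (fun p => (QQ u z p * ph z.1 z.2 p).re) S mu :=
    (QQ_ph_int h z).re.integrableOn
  have hi3 : IntegrableOn (fun p => ‖QQ u z p‖ ^ 2) S mu := (QQ_int h z).integrableOn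
  have hi12 : IntegrableOn (fun p => 1 - 2 * (QQ u z p * ph z.1 z.2 p).re) S mu :=
    hi1.sub (hi2.const_mul 2)
  have hi : IntegrableOn (fun p => ‖1 - QQ u z p * ph z.1 z.2 p‖ ^ 2) S mu := by
    simp only [hexp]
    exact hi12.add hi3
  have htot : ∫ p in S, ‖1 - QQ u z p * ph z.1 z.2 p‖ ^ 2 ∂mu = (mu S).toReal - FF u z := by
    simp only [hexp]
    rw [integral_add hi12 hi3, integral_sub hi1 (hi2.const_mul 2), integral_const_mul]
    have e1 : ∫ _ in S, (1 : ℝ) ∂mu = (mu S).toReal := by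
      simp [Measure.real]
    have e2 : ∫ p in S, (QQ u z p * ph z.1 z.2 p).re ∂mu = FF u z := by
      rw [setIntegral_eq_integral_of_forall_compl_eq_zero]
      · have := QQ_ph_total h z
        have h5 := congrArg Complex.re this
        rw [Complex.ofReal_re] at h5
        rw [← h5]
        exact integral_re (QQ_ph_int h z)
      · intro p hp
        rw [hQ0 p hp, zero_mul, Complex.zero_re]
    have e3 : ∫ p in S, ‖QQ u z p‖ ^ 2 ∂mu = FF u z := by
      rw [setIntegral_eq_integral_of_forall_compl_eq_zero, QQ_total h]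
      intro p hp
      rw [hQ0 p hp]; simp
    rw [e1, e2, e3]; ring
  have hle : ∫ p in N, ‖1 - QQ u z p * ph z.1 z.2 p‖ ^ 2 ∂mu ≤
      ∫ p in S, ‖1 - QQ u z p * ph z.1 z.2 p‖ ^ 2 ∂mu :=
    setIntegral_mono_set hi (Eventually.of_forall fun p => by positivity) hNS.eventuallyLE
  have hN1 : IntegrableOn (fun _ : ℝ × ℝ => (1 : ℝ) / 2) N mu :=
    integrableOn_const (ne_top_of_le_ne_top hfin (measure_mono hNS))
  have hN3 : IntegrableOn (fun p => ‖QQ u z p‖ ^ 2) N mu := (QQ_int h z).integrableOn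
  have hlow : (mu N).toReal / 2 - ∫ p in N, ‖QQ u z p‖ ^ 2 ∂mu ≤
      ∫ p in N, ‖1 - QQ u z p * ph z.1 z.2 p‖ ^ 2 ∂mu := by
    have e4 : (mu N).toReal / 2 - ∫ p in N, ‖QQ u z p‖ ^ 2 ∂mu =
        ∫ p in N, (1 / 2 - ‖QQ u z p‖ ^ 2) ∂mu := by
      rw [integral_sub hN1 hN3]
      simp [Measure.real]
      ring
    rw [e4]
    refine setIntegral_mono_on (hN1.sub hN3) (hi.mono_set hNS) hN fun p _ => ?_
    have h1 : ‖QQ u z p‖ = ‖QQ u z p * ph z.1 z.2 p‖ := by
      rw [norm_mul, norm_ph, mul_one]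
    have h2 : (1 : ℝ) ≤ ‖1 - QQ u z p * ph z.1 z.2 p‖ + ‖QQ u z p * ph z.1 z.2 p‖ := by
      have := norm_add_le (1 - QQ u z p * ph z.1 z.2 p) (QQ u z p * ph z.1 z.2 p)
      rwa [sub_add_cancel, norm_one] at this
    rw [h1]
    nlinarith [sq_nonneg (‖1 - QQ u z p * ph z.1 z.2 p‖ - ‖QQ u z p * ph z.1 z.2 p‖),
      norm_nonneg (1 - QQ u z p * ph z.1 z.2 p), norm_nonneg (QQ u z p * ph z.1 z.2 p)]
  linarith

/-- The integral over all frequencies. -/
theorem QQ_freq (h : ON u) (N : Set (ℝ × ℝ)) :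
    ∫⁻ z, ENNReal.ofReal (∫ p in N, ‖QQ u z p‖ ^ 2 ∂mu) ∂nu =
      ENNReal.ofReal (2 * π * ∑ j, ∫ p in N, u j p ^ 2 ∂mu) := by
  have h1 : ∀ z, ENNReal.ofReal (∫ p in N, ‖QQ u z p‖ ^ 2 ∂mu) =
      ∫⁻ p in N, ‖QQ u z p‖ₑ ^ 2 ∂mu := by
    intro z
    rw [ofReal_integral_eq_lintegral_ofReal (QQ_int h z).integrableOn
      (Eventually.of_forall fun p => by positivity)]
    refine lintegral_congr fun p => ?_
    rw [ENNReal.ofReal_pow (norm_nonneg _), ofReal_norm]
  simp only [h1]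
  have hmeas : Measurable fun q : (ℤ × ℝ) × (ℝ × ℝ) => ‖QQ u q.1 q.2‖ₑ ^ 2 := by
    refine Measurable.pow_const (Measurable.enorm ?_) 2
    unfold QQ
    refine Finset.measurable_sum _ fun j _ => ?_
    exact ((Complex.measurable_ofReal.comp (h.tst j).cont.measurable).comp measurable_snd).mul
      ((h.tst j).hat_meas.comp measurable_fst)
  have : SFinite nu := by unfold nu; infer_instance
  rw [lintegral_lintegral_swap hmeas.aemeasurable]
  have h2 : ∀ p, ∫⁻ z, ‖QQ u z p‖ₑ ^ 2 ∂nu = ENNReal.ofReal (2 * π * ∑ j, u j p ^ 2) := by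
    intro p
    have h3 : ∀ z : ℤ × ℝ, QQ u z p = hat (fun q => ∑ j, u j p * u j q) z.1 z.2 := by
      intro z
      rw [hat_comb h]; rfl
    simp only [h3]
    rw [(h.comb _).planch, h.sq]
  simp only [h2]
  rw [← ofReal_integral_eq_lintegral_ofReal]
  · rw [integral_const_mul, integral_finsetSum _ fun j _ => (h.tst j).integrable_sq.integrableOn]
  · exact (integrable_finsetSum _ fun j _ => (h.tst j).integrable_sq.integrableOn).const_mul _
  · exact Eventually.of_forall fun p => by positivity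

theorem FF_freq (h : ON u) : ∫⁻ z, ENNReal.ofReal (FF u z) ∂nu = ENNReal.ofReal (2 * π * k) := by
  have h1 : ∀ z, ENNReal.ofReal (FF u z) = ∑ j, ‖hat (u j) z.1 z.2‖ₑ ^ 2 := by
    intro z
    unfold FF
    rw [ENNReal.ofReal_sum_of_nonneg fun j _ => by positivity]
    exact Finset.sum_congr rfl fun j _ => by
      rw [ENNReal.ofReal_pow (norm_nonneg _), ofReal_norm]
  simp only [h1]
  rw [lintegral_finsetSum _ fun j _ => (h.tst j).hat_meas.enorm.pow_const 2]
  have h2 : ∀ j, ∫⁻ z, ‖hat (u j) z.1 z.2‖ₑ ^ 2 ∂nu = ENNReal.ofReal (2 * π) := by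
    intro j
    rw [(h.tst j).planch]
    have := h.orth j j
    rw [if_pos rfl] at this
    simp only [← _root_.sq] at this
    rw [this, mul_one]
  simp only [h2]
  rw [Finset.sum_const, Finset.card_univ, Fintype.card_fin, nsmul_eq_mul,
    ENNReal.ofReal_mul (p := 2 * π) (by positivity), ENNReal.ofReal_natCast, mul_comm]

theorem FF_en (h : ON u) :
    ∫⁻ z, ENNReal.ofReal (((z.1 : ℝ) ^ 2 + (2 * π * z.2) ^ 2) * FF u z) ∂nu =
      ENNReal.ofReal (2 * π * ∑ j, en (u j)) := by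
  have h1 : ∀ z : ℤ × ℝ, ENNReal.ofReal (((z.1 : ℝ) ^ 2 + (2 * π * z.2) ^ 2) * FF u z) =
      ∑ j, ENNReal.ofReal ((z.1 : ℝ) ^ 2 + (2 * π * z.2) ^ 2) * ‖hat (u j) z.1 z.2‖ₑ ^ 2 := by
    intro z
    unfold FF
    rw [ENNReal.ofReal_mul (by positivity), ENNReal.ofReal_sum_of_nonneg fun j _ => by positivity,
      Finset.mul_sum]
    exact Finset.sum_congr rfl fun j _ => by
      rw [ENNReal.ofReal_pow (norm_nonneg _), ofReal_norm]
  simp only [h1]
  have hm : Measurable fun z : ℤ × ℝ => ENNReal.ofReal ((z.1 : ℝ) ^ 2 + (2 * π * z.2) ^ 2) := by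
    fun_prop
  have hm2 : ∀ j, Measurable fun z : ℤ × ℝ =>
      ENNReal.ofReal ((z.1 : ℝ) ^ 2 + (2 * π * z.2) ^ 2) * ‖hat (u j) z.1 z.2‖ₑ ^ 2 :=
    fun j => hm.mul ((h.tst j).hat_meas.enorm.pow_const 2)
  rw [lintegral_finsetSum _ fun j _ => hm2 j]
  rw [Finset.sum_congr rfl fun j _ => (h.tst j).planch_en]
  rw [Finset.mul_sum, ENNReal.ofReal_sum_of_nonneg]
  intro j _
  exact mul_nonneg (by positivity) (integral_nonneg fun p => by positivity)

end Pool.Agent.Work.MP_33c50c_an.H54
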