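import Mathlib

/-!
# A greedy orthonormal family, and existence of Rayleigh bounds
-/

set_option autoImplicit false

open Set Filter Topology

noncomputable section

namespace Pool.Agent.Work.MP_33c50c_an.H54

theorem greedy {V : Type*} [AddCommGroup V] [Module ℝ V] (B : V →ₗ[ℝ] V →ₗ[ℝ] ℝ)
    (hsymm : ∀ v w, B v w = B w v) (hpos : ∀ v, v ≠ 0 → 0 < B v v) (A : V → ℝ)
    (hA : ∀ (c : ℝ) v, A (c • v) = c ^ 2 * A v) (L : ℕ → ℝ) (k : ℕ)
    (h : ∀ j < k, ∃ u : Fin (j + 1) → V, LinearIndependent ℝ u ∧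
      ∀ c : Fin (j + 1) → ℝ, A (∑ i, c i • u i) ≤ L j * B (∑ i, c i • u i) (∑ i, c i • u i)) :
    ∃ w : ℕ → V, (∀ i < k, ∀ j < k, B (w i) (w j) = if i = j then 1 else 0) ∧
      ∀ j < k, A (w j) ≤ L j := by
  induction k with
  | zero => exact ⟨fun _ => 0, fun i hi => absurd hi (by omega), fun i hi => absurd hi (by omega)⟩
  | succ k ih =>
    obtain ⟨w, hw1, hw2⟩ := ih fun j hj => h j (by omega)
    obtain ⟨u, hu1, hu2⟩ := h k (by omega)
    let T : (Fin (k + 1) → ℝ) →ₗ[ℝ] (Fin k → ℝ) :=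
      LinearMap.pi fun i : Fin k => (B (w i)).comp (Fintype.linearCombination ℝ u)
    have hker : LinearMap.ker T ≠ ⊥ := LinearMap.ker_ne_bot_of_finrank_lt (by simp)
    obtain ⟨c, hc, hc0⟩ := Submodule.exists_mem_ne_zero_of_ne_bot hker
    set v : V := ∑ i, c i • u i with hv
    have hv0 : v ≠ 0 := by
      intro h0
      exact hc0 (funext fun i => (Fintype.linearIndependent_iff.1 hu1) c h0 i)
    have horth : ∀ i < k, B (w i) v = 0 := by
      intro i hi
      have h1 : T c ⟨i, hi⟩ = 0 := by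
        rw [LinearMap.mem_ker.1 hc]; rfl
      have h2 : T c ⟨i, hi⟩ = B (w i) v := by
        simp only [T, LinearMap.pi_apply, LinearMap.comp_apply, Fintype.linearCombination_apply,
          hv]
      rw [← h2, h1]
    set s : ℝ := B v v with hs
    have hs0 : 0 < s := hpos v hv0
    have hr : √s ≠ 0 := (Real.sqrt_pos.2 hs0).ne'
    set v' : V := (1 / √s) • v with hv'
    have hsq : (1 / √s) * ((1 / √s) * s) = 1 := by
      have := Real.mul_self_sqrt hs0.le
      field_simp
      rw [sq, this]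
    have h11 : B v' v' = 1 := by
      rw [hv']
      simp only [map_smul, LinearMap.smul_apply, smul_eq_mul]
      exact hsq
    have h0' : ∀ i < k, B (w i) v' = 0 := by
      intro i hi
      rw [hv', map_smul, horth i hi, smul_zero]
    have hAv : A v' ≤ L k := by
      rw [hv', hA]
      have h3 := hu2 c
      rw [← hv, ← hs] at h3
      calc (1 / √s) ^ 2 * A v ≤ (1 / √s) ^ 2 * (L k * s) :=
            mul_le_mul_of_nonneg_left h3 (by positivity)
        _ = L k * ((1 / √s) * ((1 / √s) * s)) := by ring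
        _ = L k := by rw [hsq, mul_one]
    refine ⟨fun j => if j < k then w j else v', ?_, ?_⟩
    · intro i hi j hj
      by_cases hik : i < k
      · by_cases hjk : j < k
        · simp only [hik, hjk, if_true]
          exact hw1 i hik j hjk
        · simp only [hik, hjk, if_true, if_false]
          rw [h0' i hik, if_neg (by omega)]
      · by_cases hjk : j < k
        · simp only [hik, hjk, if_true, if_false]
          rw [hsymm, h0' j hjk, if_neg (by omega)]
        · simp only [hik, hjk, if_false]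
          rw [h11, if_pos (by omega)]
    · intro j hj
      by_cases hjk : j < k
      · simp only [hjk, if_true]
        exact hw2 j hjk
      · simp only [hjk, if_false]
        have : j = k := by omega
        rw [this]
        exact hAv

/-- On a finite dimensional space a quadratic form is bounded by a positive one. -/
theorem rayleigh_bound {k : ℕ} (a b : Fin k → Fin k → ℝ)
    (hb : ∀ c : Fin k → ℝ, c ≠ 0 → 0 < ∑ i, ∑ j, c i * c j * b i j) :
    ∃ L : ℝ, ∀ c : Fin k → ℝ, ∑ i, ∑ j, c i * c j * a i j ≤ L * ∑ i, ∑ j, c i * c j * b i j := by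
  set Qa : (Fin k → ℝ) → ℝ := fun c => ∑ i, ∑ j, c i * c j * a i j with hQa
  set Qb : (Fin k → ℝ) → ℝ := fun c => ∑ i, ∑ j, c i * c j * b i j with hQb
  have ca : Continuous Qa := by rw [hQa]; fun_prop
  have cb : Continuous Qb := by rw [hQb]; fun_prop
  have hom : ∀ (t : ℝ) (c : Fin k → ℝ) (d : Fin k → Fin k → ℝ),
      ∑ i, ∑ j, (t • c) i * (t • c) j * d i j = t ^ 2 * ∑ i, ∑ j, c i * c j * d i j := by
    intro t c d
    rw [Finset.mul_sum]
    refine Finset.sum_congr rfl fun i _ => ?_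
    rw [Finset.mul_sum]
    refine Finset.sum_congr rfl fun j _ => ?_
    simp only [Pi.smul_apply, smul_eq_mul]
    ring
  have hK : IsCompact (Metric.sphere (0 : Fin k → ℝ) 1) := isCompact_sphere _ _
  rcases (Metric.sphere (0 : Fin k → ℝ) 1).eq_empty_or_nonempty with he | hne
  · -- then every vector is zero
    refine ⟨0, fun c => ?_⟩
    have hc : c = 0 := by
      by_contra hc
      have : (‖c‖⁻¹ • c) ∈ Metric.sphere (0 : Fin k → ℝ) 1 := by
        rw [mem_sphere_zero_iff_norm, norm_smul, norm_inv, norm_norm,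
          inv_mul_cancel₀ (norm_ne_zero_iff.2 hc)]
      rw [he] at this
      exact this
    subst hc
    simp
  obtain ⟨x, hx, hxm⟩ := hK.exists_isMinOn hne cb.continuousOn
  obtain ⟨y, hy, hym⟩ := hK.exists_isMaxOn hne ca.continuousOn
  have hx0 : x ≠ 0 := by
    intro h0
    rw [mem_sphere_zero_iff_norm, h0, norm_zero] at hx
    exact zero_ne_one hx
  have hm : 0 < Qb x := hb x hx0
  refine ⟨max (Qa y) 0 / Qb x, fun c => ?_⟩
  by_cases hc : c = 0
  · subst hc; simp
  have hn : 0 < ‖c‖ := norm_pos_iff.2 hc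
  set e : Fin k → ℝ := ‖c‖⁻¹ • c with he
  have hes : e ∈ Metric.sphere (0 : Fin k → ℝ) 1 := by
    rw [mem_sphere_zero_iff_norm, he, norm_smul, norm_inv, norm_norm, inv_mul_cancel₀ hn.ne']
  have hce : c = ‖c‖ • e := by
    rw [he, smul_smul, mul_inv_cancel₀ hn.ne', one_smul]
  have h1 : Qa e ≤ max (Qa y) 0 := (hym hes).trans (le_max_left _ _)
  have h2 : Qb x ≤ Qb e := hxm hes
  have h3 : Qa e ≤ max (Qa y) 0 / Qb x * Qb e := by
    calc Qa e ≤ max (Qa y) 0 / Qb x * Qb x := by rw [div_mul_cancel₀ _ hm.ne']; exact h1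
      _ ≤ _ := mul_le_mul_of_nonneg_left h2 (div_nonneg (le_max_right _ _) hm.le)
  have ea : ∑ i, ∑ j, c i * c j * a i j = ‖c‖ ^ 2 * Qa e := by
    conv_lhs => rw [hce]
    exact hom _ _ _
  have eb : ∑ i, ∑ j, c i * c j * b i j = ‖c‖ ^ 2 * Qb e := by
    conv_lhs => rw [hce]
    exact hom _ _ _
  rw [ea, eb]
  calc ‖c‖ ^ 2 * Qa e ≤ ‖c‖ ^ 2 * (max (Qa y) 0 / Qb x * Qb e) :=
        mul_le_mul_of_nonneg_left h3 (sq_nonneg _)
    _ = _ := by ring

end Pool.Agent.Work.MP_33c50c_an.H54
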