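import Pool.Agent.Work.MP_33c50c_an.H54.Cyl
import Pool.Agent.Work.MP_33c50c_an.H54.Greedy

/-!
# Test functions exist
-/

set_option autoImplicit false

open MeasureTheory Set Filter Topology Real

noncomputable section

namespace Pool.Agent.Work.MP_33c50c_an.H54

theorem expNegInvGlue_ne {x : ℝ} : expNegInvGlue x ≠ 0 ↔ 0 < x := by
  constructor
  · intro h
    by_contra hx
    exact h (expNegInvGlue.zero_of_nonpos (not_lt.1 hx))
  · intro h
    exact (expNegInvGlue.pos_of_pos h).ne'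

theorem cos_per (x0 : ℝ) : Function.Periodic (fun x => Real.cos (x - x0)) (2 * π) := by
  intro x
  show Real.cos (x + 2 * π - x0) = Real.cos (x - x0)
  rw [show x + 2 * π - x0 = x - x0 + 2 * π by ring, Real.cos_add_two_pi]

/-- The bump. -/
def bump (x0 y0 d : ℝ) (z : Cyl) : ℝ :=
  expNegInvGlue ((cos_per x0).lift z.1 - Real.cos d) * expNegInvGlue (d ^ 2 - (z.2 - y0) ^ 2)

theorem lift_bump (x0 y0 d : ℝ) : lift (bump x0 y0 d) = fun p =>
    expNegInvGlue (Real.cos (p.1 - x0) - Real.cos d) *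
      expNegInvGlue (d ^ 2 - (p.2 - y0) ^ 2) := by
  funext p
  simp only [lift, bump, cover, Function.Periodic.lift_coe]

theorem bump_smooth (x0 y0 d : ℝ) :
    ContDiff ℝ ((⊤ : ℕ∞) : WithTop ℕ∞) (lift (bump x0 y0 d)) := by
  rw [lift_bump]
  refine ContDiff.mul ?_ ?_
  · exact expNegInvGlue.contDiff.comp
      ((Real.contDiff_cos.comp (contDiff_fst.sub contDiff_const)).sub contDiff_const)
  · exact expNegInvGlue.contDiff.comp (contDiff_const.sub ((contDiff_snd.sub contDiff_const).pow 2))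

theorem abs_lt_of_cos {t d : ℝ} (hd0 : 0 < d) (ht : |t| ≤ π)
    (h : 0 < Real.cos t - Real.cos d) : |t| < d := by
  by_contra hcon
  push Not at hcon
  have h1 : Real.cos |t| ≤ Real.cos d :=
    Real.cos_le_cos_of_nonneg_of_le_pi hd0.le ht hcon
  rw [Real.cos_abs] at h1
  linarith

theorem bump_supp {x0 y0 d : ℝ} (hd0 : 0 < d) :
    Function.support (bump x0 y0 d) ⊆
      cover '' (Icc (x0 - d) (x0 + d) ×ˢ Icc (y0 - d) (y0 + d)) := by
  intro z hz
  obtain ⟨⟨x1, y⟩, rfl⟩ := cover_surj z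
  -- choose the representative near `x0`
  have hper : Function.Periodic (fun x => cover (x, y)) (2 * π) := fun x => cover_per x y
  obtain ⟨x, hx, hx'⟩ := hper.exists_mem_Ioc (by positivity) x1 (x0 - π)
  change cover (x1, y) = cover (x, y) at hx'
  rw [hx'] at hz ⊢
  have hz' : lift (bump x0 y0 d) (x, y) ≠ 0 := hz
  rw [lift_bump] at hz'
  have h1 := expNegInvGlue_ne.1 (left_ne_zero_of_mul hz')
  have h2 := expNegInvGlue_ne.1 (right_ne_zero_of_mul hz')
  dsimp only at h1 h2
  have h3 : |x - x0| < d := by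
    refine abs_lt_of_cos hd0 ?_ h1
    rw [abs_le]
    constructor
    · linarith [hx.1]
    · linarith [hx.2]
  have h4 : |y - y0| < d := by
    rw [← abs_of_pos hd0]
    exact sq_lt_sq.1 (by linarith)
  rw [abs_lt] at h3 h4
  exact mem_image_of_mem _ ⟨⟨by linarith, by linarith⟩, ⟨by linarith, by linarith⟩⟩

theorem box_compact (x0 y0 d : ℝ) :
    IsCompact (cover '' (Icc (x0 - d) (x0 + d) ×ˢ Icc (y0 - d) (y0 + d))) :=
  (isCompact_Icc.prod isCompact_Icc).image cover_cont

/-- A box around a point of an open set. -/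
theorem exists_box {Om : Set Cyl} (hO : IsOpen Om) (x0 y0 : ℝ) (h0 : cover (x0, y0) ∈ Om) :
    ∃ d : ℝ, 0 < d ∧ d < π ∧
      cover '' (Icc (x0 - d) (x0 + d) ×ˢ Icc (y0 - d) (y0 + d)) ⊆ Om := by
  have hS : IsOpen (cover ⁻¹' Om) := hO.preimage cover_cont
  obtain ⟨e, he, hball⟩ := Metric.isOpen_iff.1 hS (x0, y0) h0
  refine ⟨min (e / 2) 1, by positivity, lt_of_le_of_lt (min_le_right _ _)
    (by linarith [Real.pi_gt_three]), ?_⟩
  rintro _ ⟨⟨x, y⟩, ⟨hx, hy⟩, rfl⟩
  refine hball ?_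
  rw [Metric.mem_ball, Prod.dist_eq, max_lt_iff, Real.dist_eq, Real.dist_eq]
  have h1 : min (e / 2) 1 ≤ e / 2 := min_le_left _ _
  dsimp only at hx hy ⊢
  constructor <;> rw [abs_lt] <;> constructor <;> linarith [hx.1, hx.2, hy.1, hy.2]

/-- Linear independence of a function times powers of a coordinate. -/
theorem indep_pow {X : Type*} (f g : X → ℝ) (hinf : (g '' {x | f x ≠ 0}).Infinite) (k : ℕ) :
    LinearIndependent ℝ (fun (j : Fin k) (x : X) => f x * g x ^ (j : ℕ)) := by
  rw [Fintype.linearIndependent_iff]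
  intro c hc i
  set P : Polynomial ℝ := ∑ j : Fin k, Polynomial.C (c j) * Polynomial.X ^ (j : ℕ) with hP
  have hzero : P = 0 := by
    refine Polynomial.eq_zero_of_infinite_isRoot P (hinf.mono ?_)
    rintro _ ⟨x, hx, rfl⟩
    have h1 := congrFun hc x
    simp only [Finset.sum_apply, Pi.smul_apply, smul_eq_mul, Pi.zero_apply] at h1
    have h2 : f x * ∑ j : Fin k, c j * g x ^ (j : ℕ) = 0 := by
      rw [← h1, Finset.mul_sum]
      exact Finset.sum_congr rfl fun j _ => by ring
    have h3 : ∑ j : Fin k, c j * g x ^ (j : ℕ) = 0 := (mul_eq_zero.1 h2).resolve_left hx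
    show Polynomial.eval (g x) P = 0
    rw [hP, Polynomial.eval_finsetSum, ← h3]
    exact Finset.sum_congr rfl fun j _ => by simp
  have h4 : P.coeff (i : ℕ) = c i := by
    rw [hP, Polynomial.finsetSum_coeff, Finset.sum_eq_single i]
    · simp
    · intro j _ hj
      rw [Polynomial.coeff_C_mul, Polynomial.coeff_X_pow, if_neg, mul_zero]
      intro h
      exact hj (Fin.ext h.symm)
    · intro h
      exact absurd (Finset.mem_univ i) h
  rw [← h4, hzero, Polynomial.coeff_zero]

theorem exists_indep {Om : Set Cyl} (hO : IsOpen Om) (hne : Om.Nonempty) (k : ℕ) :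
    ∃ u : Fin k → Cyl → ℝ, (∀ j, IsTest Om (u j)) ∧ LinearIndependent ℝ u := by
  obtain ⟨z, hz⟩ := hne
  obtain ⟨⟨x0, y0⟩, rfl⟩ := cover_surj z
  obtain ⟨d, hd0, hd, hbox⟩ := exists_box hO x0 y0 hz
  refine ⟨fun j z => bump x0 y0 d z * z.2 ^ (j : ℕ), fun j => ?_, ?_⟩
  · have hl : lift (fun z => bump x0 y0 d z * z.2 ^ (j : ℕ)) = fun p =>
        lift (bump x0 y0 d) p * p.2 ^ (j : ℕ) := rfl
    have hs : Function.support (fun z : Cyl => bump x0 y0 d z * z.2 ^ (j : ℕ)) ⊆
        cover '' (Icc (x0 - d) (x0 + d) ×ˢ Icc (y0 - d) (y0 + d)) :=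
      (Function.support_mul_subset_left _ _).trans (bump_supp hd0)
    refine ⟨?_, HasCompactSupport.of_support_subset_isCompact (box_compact x0 y0 d) hs, ?_⟩
    · rw [hl]
      exact (bump_smooth x0 y0 d).mul (contDiff_snd.pow _)
    · exact (closure_minimal hs (box_compact x0 y0 d).isClosed).trans hbox
  · refine indep_pow (bump x0 y0 d) (fun z => z.2) ?_ k
    refine (Ioo_infinite (show y0 - d < y0 + d by linarith)).mono ?_
    intro y hy
    refine ⟨cover (x0, y), ?_, rfl⟩
    show lift (bump x0 y0 d) (x0, y) ≠ 0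
    rw [lift_bump]
    refine mul_ne_zero (expNegInvGlue_ne.2 ?_) (expNegInvGlue_ne.2 ?_)
    · dsimp only
      rw [sub_self, Real.cos_zero]
      have := Real.cos_lt_cos_of_nonneg_of_le_pi le_rfl hd.le hd0
      rw [Real.cos_zero] at this
      linarith
    · dsimp only
      have : |y - y0| < d := by
        rw [abs_lt]; constructor <;> linarith [hy.1, hy.2]
      nlinarith [sq_abs (y - y0), abs_nonneg (y - y0)]

end Pool.Agent.Work.MP_33c50c_an.H54
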