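import Mathlib

/-!
# Every bounded open set is contained in a bounded domain of almost the same area
-/

set_option autoImplicit false

open MeasureTheory Set Filter Topology Real

noncomputable section

namespace Pool.Agent.Work.MP_33c50c_an.H54

/-- A square. -/
def sqr (R : ℝ) : Set (ℝ × ℝ) := Ioo (-R) R ×ˢ Ioo (-R) R

/-- Points of the square with a rational coordinate. -/
def grid (R : ℝ) : Set (ℝ × ℝ) :=
  {p | p ∈ sqr R ∧ ((∃ q : ℚ, p.1 = q) ∨ ∃ q : ℚ, p.2 = q)}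

theorem grid_null (R : ℝ) : volume (grid R) = 0 := by
  have h1 : grid R ⊆ (⋃ q : ℚ, {(q : ℝ)} ×ˢ (univ : Set ℝ)) ∪
      ⋃ q : ℚ, (univ : Set ℝ) ×ˢ {(q : ℝ)} := by
    rintro ⟨x, y⟩ ⟨_, h | h⟩
    · obtain ⟨q, hq⟩ := h
      exact Or.inl (mem_iUnion.2 ⟨q, hq, mem_univ _⟩)
    · obtain ⟨q, hq⟩ := h
      exact Or.inr (mem_iUnion.2 ⟨q, mem_univ _, hq⟩)
  refine measure_mono_null h1 (measure_union_null (measure_iUnion_null fun q => ?_)
    (measure_iUnion_null fun q => ?_))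
  · rw [Measure.volume_eq_prod, Measure.prod_prod]
    simp
  · rw [Measure.volume_eq_prod, Measure.prod_prod]
    simp

theorem grid_conn {R : ℝ} (hR : 0 < R) : IsConnected (grid R) := by
  have h0 : (0 : ℝ) ∈ Ioo (-R) R := ⟨by linarith, hR⟩
  have hpI : IsPreconnected (Ioo (-R) R) := isPreconnected_Ioo
  refine ⟨⟨(0, 0), ⟨h0, h0⟩, Or.inl ⟨0, by simp⟩⟩, ?_⟩
  refine isPreconnected_of_forall ((0, 0) : ℝ × ℝ) fun p hp => ?_
  obtain ⟨⟨hp1, hp2⟩, hp3⟩ := hp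
  rcases hp3 with ⟨q, hq⟩ | ⟨q, hq⟩
  · refine ⟨({p.1} ×ˢ Ioo (-R) R) ∪ (Ioo (-R) R ×ˢ {0}), ?_, Or.inr ⟨h0, rfl⟩,
      Or.inl ⟨rfl, hp2⟩, ?_⟩
    · rintro z (⟨hz1, hz2⟩ | ⟨hz1, hz2⟩)
      · have hz1' : z.1 = p.1 := hz1
        exact ⟨⟨by rw [hz1']; exact hp1, hz2⟩, Or.inl ⟨q, by rw [hz1', hq]⟩⟩
      · have hz2' : z.2 = 0 := hz2
        exact ⟨⟨hz1, by rw [hz2']; exact h0⟩, Or.inr ⟨0, by rw [hz2']; simp⟩⟩
    · exact IsPreconnected.union (p.1, 0) ⟨rfl, h0⟩ ⟨hp1, rfl⟩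
        (isPreconnected_singleton.prod hpI) (hpI.prod isPreconnected_singleton)
  · refine ⟨(Ioo (-R) R ×ˢ {p.2}) ∪ ({0} ×ˢ Ioo (-R) R), ?_, Or.inr ⟨rfl, h0⟩,
      Or.inl ⟨hp1, rfl⟩, ?_⟩
    · rintro z (⟨hz1, hz2⟩ | ⟨hz1, hz2⟩)
      · have hz2' : z.2 = p.2 := hz2
        exact ⟨⟨hz1, by rw [hz2']; exact hp2⟩, Or.inr ⟨q, by rw [hz2', hq]⟩⟩
      · have hz1' : z.1 = 0 := hz1
        exact ⟨⟨by rw [hz1']; exact h0, hz2⟩, Or.inl ⟨0, by rw [hz1']; simp⟩⟩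
    · exact IsPreconnected.union (0, p.2) ⟨h0, rfl⟩ ⟨rfl, hp2⟩
        (hpI.prod isPreconnected_singleton) (isPreconnected_singleton.prod hpI)

theorem sqr_open (R : ℝ) : IsOpen (sqr R) := isOpen_Ioo.prod isOpen_Ioo

theorem sqr_closure (R : ℝ) : sqr R ⊆ closure (grid R) := by
  rintro ⟨x, y⟩ hp
  rw [_root_.mem_closure_iff]
  intro O hO hpO
  obtain ⟨e, he, hball⟩ := Metric.isOpen_iff.1 (hO.inter (sqr_open R)) (x, y) ⟨hpO, hp⟩
  obtain ⟨q, hq1, hq2⟩ := exists_rat_btwn (show x < x + e by linarith)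
  have h1 : ((q : ℝ), y) ∈ Metric.ball (x, y) e := by
    rw [Metric.mem_ball, Prod.dist_eq, max_lt_iff, Real.dist_eq, Real.dist_eq]
    constructor
    · dsimp only
      rw [abs_lt]
      constructor <;> linarith
    · simpa using he
  obtain ⟨h2, h3⟩ := hball h1
  exact ⟨((q : ℝ), y), h2, h3, Or.inl ⟨q, rfl⟩⟩

theorem connect {W : Set (ℝ × ℝ)} (hO : IsOpen W) (hb : Bornology.IsBounded W) {e : ENNReal}
    (he : 0 < e) : ∃ W' : Set (ℝ × ℝ), IsOpen W' ∧ IsConnected W' ∧ Bornology.IsBounded W' ∧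
      W ⊆ W' ∧ volume W' ≤ volume W + e := by
  obtain ⟨R, hR⟩ := hb.subset_ball (0 : ℝ × ℝ)
  set R' : ℝ := max R 1 with hR'
  have hR0 : 0 < R' := lt_of_lt_of_le one_pos (le_max_right _ _)
  have hW : W ⊆ sqr R' := by
    intro p hp
    have h1 := hR hp
    rw [mem_ball_zero_iff, Prod.norm_def, max_lt_iff, Real.norm_eq_abs, Real.norm_eq_abs,
      abs_lt, abs_lt] at h1
    have h2 : R ≤ R' := le_max_left _ _
    exact ⟨⟨by linarith [h1.1.1], by linarith [h1.1.2]⟩, ⟨by linarith [h1.2.1], by linarith [h1.2.2]⟩⟩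
  obtain ⟨U, hU, hUo, hUe⟩ := (grid R').exists_isOpen_lt_of_lt e (by rw [grid_null]; exact he)
  have hbs : Bornology.IsBounded (sqr R') :=
    (Metric.isBounded_Ioo (-R') R').prod (Metric.isBounded_Ioo (-R') R')
  refine ⟨W ∪ (U ∩ sqr R'), hO.union (hUo.inter (sqr_open R')), ?_,
    hb.union (hbs.subset inter_subset_right), subset_union_left, ?_⟩
  · have hsub : grid R' ⊆ W ∪ (U ∩ sqr R') := fun p hp => Or.inr ⟨hU hp, hp.1⟩
    refine ⟨(grid_conn hR0).nonempty.mono hsub, (grid_conn hR0).isPreconnected.subset_closure hsub ?_⟩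
    exact union_subset (hW.trans (sqr_closure R')) (inter_subset_right.trans (sqr_closure R'))
  · refine (measure_union_le _ _).trans (add_le_add le_rfl ?_)
    exact (measure_mono inter_subset_left).trans hUe.le

end Pool.Agent.Work.MP_33c50c_an.H54
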