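import Pool.Agent.Work.MP_33c50c_an.H54.Planch

/-!
# The lattice sum
-/

set_option autoImplicit false

open MeasureTheory Set Filter Topology Real

noncomputable section

namespace Pool.Agent.Work.MP_33c50c_an.H54

theorem sumIcc (N : ℕ) (c : ℝ) : ∑ n ∈ Finset.Icc (-(N : ℤ)) N, (c - (n : ℝ) ^ 2) =
    (2 * N + 1) * c - N * (N + 1) * (2 * N + 1) / 3 := by
  induction N with
  | zero => simp
  | succ N ih =>
    have h1 : Finset.Icc (-((N + 1 : ℕ) : ℤ)) ((N + 1 : ℕ) : ℤ) =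
        insert (-((N : ℤ) + 1)) (insert ((N : ℤ) + 1) (Finset.Icc (-(N : ℤ)) N)) := by
      ext x
      simp only [Finset.mem_Icc, Finset.mem_insert]
      push_cast
      omega
    rw [h1, Finset.sum_insert, Finset.sum_insert, ih]
    · push_cast; ring
    · simp only [Finset.mem_Icc]; omega
    · simp only [Finset.mem_Icc, Finset.mem_insert]; omega

theorem lat1 (c : ℝ) (hc : 0 ≤ c) :
    ∑' n : ℤ, ENNReal.ofReal (c - (n : ℝ) ^ 2) ≤
      ENNReal.ofReal (4 / 3 * √c ^ 3 + √c / 6 + 1 / 12) := by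
  set s := √c with hs
  have hs0 : 0 ≤ s := Real.sqrt_nonneg c
  have hs2 : s ^ 2 = c := Real.sq_sqrt hc
  set N := ⌊s⌋₊ with hN
  have hN1 : (N : ℝ) ≤ s := Nat.floor_le hs0
  have hN2 : s < N + 1 := Nat.lt_floor_add_one s
  have hzero : ∀ n ∉ Finset.Icc (-(N : ℤ)) N, ENNReal.ofReal (c - (n : ℝ) ^ 2) = 0 := by
    intro n hn
    rw [ENNReal.ofReal_eq_zero]
    have h1 : (N : ℤ) + 1 ≤ |n| := by
      rw [Finset.mem_Icc, ← abs_le, not_le] at hn
      exact hn
    have h2 : (N : ℝ) + 1 ≤ |(n : ℝ)| := by exact_mod_cast h1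
    have h3 : c ≤ (n : ℝ) ^ 2 := by
      rw [← hs2, ← sq_abs (n : ℝ)]
      exact pow_le_pow_left₀ hs0 (by linarith) 2
    linarith
  rw [tsum_eq_sum hzero]
  have hnonneg : ∀ n ∈ Finset.Icc (-(N : ℤ)) N, 0 ≤ c - (n : ℝ) ^ 2 := by
    intro n hn
    rw [Finset.mem_Icc, ← abs_le] at hn
    have h2 : |(n : ℝ)| ≤ N := by exact_mod_cast hn
    have h3 : (n : ℝ) ^ 2 ≤ c := by
      rw [← hs2, ← sq_abs (n : ℝ)]
      exact pow_le_pow_left₀ (abs_nonneg _) (by linarith) 2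
    linarith
  rw [← ENNReal.ofReal_sum_of_nonneg hnonneg, sumIcc]
  refine ENNReal.ofReal_le_ofReal ?_
  rw [← hs2]
  set a : ℝ := N + 1 / 2 with ha
  set t : ℝ := s - a with ht
  have ht1 : -(1 / 2) ≤ t := by rw [ht, ha]; linarith
  have ha1 : 1 / 2 ≤ a := by
    have : (0 : ℝ) ≤ N := Nat.cast_nonneg N
    rw [ha]; linarith
  have key : 4 / 3 * s ^ 3 + s / 6 + 1 / 12 -
      ((2 * N + 1) * s ^ 2 - N * (N + 1) * (2 * N + 1) / 3) =
      2 * t ^ 2 * (a + 2 / 3 * t) + (2 * t + 1) / 12 := by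
    have e1 : s = a + t := by rw [ht]; ring
    have e2 : (N : ℝ) = a - 1 / 2 := by rw [ha]; ring
    rw [e1, e2]; ring
  have h1 : 0 ≤ 2 * t ^ 2 * (a + 2 / 3 * t) := mul_nonneg (by positivity) (by linarith)
  linarith

theorem int_s : ∫ x in (-1 : ℝ)..1, √(1 - x ^ 2) = π / 2 := integral_sqrt_one_sub_sq

theorem int_s3 : ∫ x in (-1 : ℝ)..1, √(1 - x ^ 2) ^ 3 = 3 * π / 8 := by
  have hc : Continuous fun x : ℝ => √(1 - x ^ 2) := by fun_prop
  have h1 := intervalIntegral.integral_eq_sub_of_hasDerivAt_of_le (a := -1) (b := 1) (by norm_num)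
    (f := fun x : ℝ => x * √(1 - x ^ 2) ^ 3)
    (f' := fun x : ℝ => 4 * √(1 - x ^ 2) ^ 3 - 3 * √(1 - x ^ 2))
    (by fun_prop) (fun x hx => ?_) (Continuous.intervalIntegrable (by fun_prop) _ _)
  · rw [intervalIntegral.integral_sub (Continuous.intervalIntegrable (by fun_prop) _ _)
      (Continuous.intervalIntegrable (by fun_prop) _ _), intervalIntegral.integral_const_mul,
      intervalIntegral.integral_const_mul, int_s] at h1
    norm_num at h1
    linarith
  · have hpos : 0 < 1 - x ^ 2 := by nlinarith [hx.1, hx.2]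
    have hs : 0 < √(1 - x ^ 2) := Real.sqrt_pos.2 hpos
    have h2 : HasDerivAt (fun x : ℝ => 1 - x ^ 2) (-(2 * x)) x := by
      simpa using (hasDerivAt_pow 2 x).const_sub 1
    have h3 := h2.sqrt hpos.ne'
    have h4 := (hasDerivAt_id x).mul (h3.pow 3)
    convert! h4 using 1
    have h5 : √(1 - x ^ 2) ^ 2 = 1 - x ^ 2 := Real.sq_sqrt hpos.le
    have h6 : x ^ 2 = 1 - √(1 - x ^ 2) ^ 2 := by rw [h5]; ring
    have h7 : x * (3 * √(1 - x ^ 2) ^ 2 * (-(2 * x) / (2 * √(1 - x ^ 2)))) =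
        -3 * x ^ 2 * √(1 - x ^ 2) := by
      field_simp
    have h8 : -3 * x ^ 2 * √(1 - x ^ 2) = 3 * √(1 - x ^ 2) ^ 3 - 3 * √(1 - x ^ 2) := by
      calc -3 * x ^ 2 * √(1 - x ^ 2) = -3 * (1 - √(1 - x ^ 2) ^ 2) * √(1 - x ^ 2) := by rw [← h6]
        _ = _ := by ring
    simp only [Pi.pow_apply, id, Nat.cast_ofNat, Nat.add_one_sub_one]
    rw [h7, h8]
    ring

theorem int_w (r : ℝ) (hr : 0 < r) (k : ℕ) :
    ∫ w in (-(r / (2 * π)))..(r / (2 * π)), √(r ^ 2 - (2 * π * w) ^ 2) ^ k =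
      r ^ k * (r / (2 * π) * ∫ x in (-1 : ℝ)..1, √(1 - x ^ 2) ^ k) := by
  have hp : (0 : ℝ) < 2 * π := by positivity
  have h1 : ∀ w : ℝ, √(r ^ 2 - (2 * π * w) ^ 2) ^ k = r ^ k * √(1 - (2 * π / r * w) ^ 2) ^ k := by
    intro w
    rw [← mul_pow]
    congr 1
    have : r ^ 2 - (2 * π * w) ^ 2 = r ^ 2 * (1 - (2 * π / r * w) ^ 2) := by
      field_simp
    rw [this, Real.sqrt_mul (by positivity), Real.sqrt_sq hr.le]
  simp only [h1]
  rw [intervalIntegral.integral_const_mul,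
    intervalIntegral.integral_comp_mul_left (fun x => √(1 - x ^ 2) ^ k) (by positivity)]
  congr 1
  rw [smul_eq_mul, inv_div]
  congr 2
  · field_simp
  · field_simp

/-- **The lattice sum.** -/
theorem T_le (r : ℝ) (hr : 0 < r) :
    ∫⁻ z : ℤ × ℝ, ENNReal.ofReal (r ^ 2 - ((z.1 : ℝ) ^ 2 + (2 * π * z.2) ^ 2)) ∂nu ≤
      ENNReal.ofReal (r ^ 4 / 4 + r ^ 2 / 24 + r / (12 * π)) := by
  have hp : (0 : ℝ) < 2 * π := by positivity
  unfold nu
  have hm : Measurable fun z : ℤ × ℝ =>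
      ENNReal.ofReal (r ^ 2 - ((z.1 : ℝ) ^ 2 + (2 * π * z.2) ^ 2)) := by fun_prop
  rw [lintegral_prod_symm _ hm.aemeasurable]
  simp only [lintegral_count]
  set g : ℝ → ℝ := fun w => 4 / 3 * √(r ^ 2 - (2 * π * w) ^ 2) ^ 3 +
    √(r ^ 2 - (2 * π * w) ^ 2) / 6 + 1 / 12 with hg
  have hgc : Continuous g := by fun_prop
  have h1 : ∀ w : ℝ, ∑' n : ℤ, ENNReal.ofReal (r ^ 2 - ((n : ℝ) ^ 2 + (2 * π * w) ^ 2)) ≤
      (Icc (-(r / (2 * π))) (r / (2 * π))).indicator (fun w => ENNReal.ofReal (g w)) w := by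
    intro w
    have e : ∀ n : ℤ, r ^ 2 - ((n : ℝ) ^ 2 + (2 * π * w) ^ 2) =
        r ^ 2 - (2 * π * w) ^ 2 - (n : ℝ) ^ 2 := fun n => by ring
    simp only [e]
    by_cases hw : w ∈ Icc (-(r / (2 * π))) (r / (2 * π))
    · rw [indicator_of_mem hw]
      refine lat1 _ ?_
      have h2 : |2 * π * w| ≤ r := by
        rw [abs_mul, abs_of_pos hp]
        have := abs_le.2 hw
        calc 2 * π * |w| ≤ 2 * π * (r / (2 * π)) := by gcongr
          _ = r := by field_simp
      have h3 := pow_le_pow_left₀ (abs_nonneg _) h2 2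
      rw [sq_abs] at h3
      linarith
    · rw [indicator_of_notMem hw]
      refine le_of_eq (ENNReal.tsum_eq_zero.2 fun n => ENNReal.ofReal_eq_zero.2 ?_)
      have h2 : r ≤ |2 * π * w| := by
        rw [mem_Icc, ← abs_le, not_le] at hw
        rw [abs_mul, abs_of_pos hp]
        calc r = 2 * π * (r / (2 * π)) := by field_simp
          _ ≤ 2 * π * |w| := by gcongr
      have h3 := pow_le_pow_left₀ hr.le h2 2
      rw [sq_abs] at h3
      nlinarith [sq_nonneg (n : ℝ)]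
  refine (lintegral_mono h1).trans ?_
  rw [lintegral_indicator measurableSet_Icc, ← ofReal_integral_eq_lintegral_ofReal
    (hgc.continuousOn.integrableOn_Icc) (Eventually.of_forall fun w => by
      simp only [hg, Pi.zero_apply]; positivity)]
  refine ENNReal.ofReal_le_ofReal (le_of_eq ?_)
  have hle : -(r / (2 * π)) ≤ r / (2 * π) := by
    have : 0 < r / (2 * π) := by positivity
    linarith
  rw [integral_Icc_eq_integral_Ioc, ← intervalIntegral.integral_of_le hle, hg]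
  have i3 := int_w r hr 3
  have i1 := int_w r hr 1
  simp only [pow_one] at i1
  rw [intervalIntegral.integral_add (Continuous.intervalIntegrable (by fun_prop) _ _)
    (Continuous.intervalIntegrable (by fun_prop) _ _),
    intervalIntegral.integral_add (Continuous.intervalIntegrable (by fun_prop) _ _)
    (Continuous.intervalIntegrable (by fun_prop) _ _), intervalIntegral.integral_const_mul,
    intervalIntegral.integral_div, i3, i1, int_s3, int_s, intervalIntegral.integral_const,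
    smul_eq_mul]
  have hpi : π ≠ 0 := Real.pi_ne_zero
  field_simp
  ring

end Pool.Agent.Work.MP_33c50c_an.H54
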