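import Pool.Agent.Work.MP_33c50c_an.H54.Shift

/-!
# A periodic set is moved by a short translation
-/

set_option autoImplicit false

open MeasureTheory Set Filter Topology Real

noncomputable section

namespace Pool.Agent.Work.MP_33c50c_an.H54

/-- Indicator. -/
def oo (S : Set (ℝ × ℝ)) : ℝ × ℝ → ENNReal := S.indicator fun _ => 1

theorem oo_meas {S : Set (ℝ × ℝ)} (hS : MeasurableSet S) : Measurable (oo S) :=
  measurable_const.indicator hS

theorem oo_int {S : Set (ℝ × ℝ)} (hS : MeasurableSet S) : ∫⁻ p, oo S p ∂mu = mu S := by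
  unfold oo
  rw [lintegral_indicator hS, lintegral_const, one_mul, Measure.restrict_apply_univ]

theorem oo_per {S : Set (ℝ × ℝ)} (hp : ∀ p, p + (2 * π, 0) ∈ S ↔ p ∈ S) (x y : ℝ) :
    oo S (x + 2 * π, y) = oo S (x, y) := by
  have h := hp (x, y)
  simp only [Prod.mk_add_mk, add_zero] at h
  unfold oo
  by_cases h1 : (x, y) ∈ S
  · rw [indicator_of_mem h1, indicator_of_mem (h.2 h1)]
  · rw [indicator_of_notMem h1, indicator_of_notMem fun h2 => h1 (h.1 h2)]

theorem mu_shift {S : Set (ℝ × ℝ)} (hS : MeasurableSet S)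
    (hp : ∀ p, p + (2 * π, 0) ∈ S ↔ p ∈ S) (v : ℝ × ℝ) : mu {p | p + v ∈ S} = mu S := by
  have h1 := shift_lint (oo S) (oo_meas hS) (oo_per hp) v
  rw [oo_int hS] at h1
  rw [← h1]
  have h2 : MeasurableSet {p : ℝ × ℝ | p + v ∈ S} := measurable_add_const v hS
  rw [← oo_int h2]
  rfl

theorem per_iff {S : Set (ℝ × ℝ)} (hp : ∀ p, p + (2 * π, 0) ∈ S ↔ p ∈ S) (v p : ℝ × ℝ) :
    p + (2 * π, 0) + v ∈ S ↔ p + v ∈ S := by
  rw [add_right_comm]; exact hp _

/-- Subadditivity of the displacement. -/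
theorem chain {S : Set (ℝ × ℝ)} (hS : MeasurableSet S)
    (hp : ∀ p, p + (2 * π, 0) ∈ S ↔ p ∈ S) (w : ℝ × ℝ) (m : ℕ) :
    mu {p | p ∈ S ∧ p + m • w ∉ S} ≤ m * mu {p | p ∈ S ∧ p + w ∉ S} := by
  have hmeas : ∀ v, MeasurableSet {p : ℝ × ℝ | p ∈ S ∧ p + v ∉ S} := fun v =>
    hS.inter (measurable_add_const v hS).compl
  induction m with
  | zero =>
    have : {p : ℝ × ℝ | p ∈ S ∧ p + 0 • w ∉ S} = ∅ := by
      ext p; simp
    rw [this]; simp
  | succ m ih =>
    have h1 : {p : ℝ × ℝ | p ∈ S ∧ p + (m + 1) • w ∉ S} ⊆ {p | p ∈ S ∧ p + m • w ∉ S} ∪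
        {p | p + m • w ∈ {q : ℝ × ℝ | q ∈ S ∧ q + w ∉ S}} := by
      rintro p ⟨h1, h2⟩
      by_cases h3 : p + m • w ∈ S
      · right
        refine ⟨h3, ?_⟩
        rwa [add_assoc, ← succ_nsmul]
      · left; exact ⟨h1, h3⟩
    refine (measure_mono h1).trans ((measure_union_le _ _).trans ?_)
    rw [mu_shift (hmeas w) (fun p => by
      simp only [mem_ofPred_eq, hp, per_iff hp]) (m • w)]
    push_cast
    rw [add_mul, one_mul]
    exact add_le_add ih le_rfl

/-- A set of small area is moved by a short vector. -/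
theorem exists_vec {S : Set (ℝ × ℝ)} (hS : MeasurableSet S)
    (hp : ∀ p, p + (2 * π, 0) ∈ S ↔ p ∈ S) {a : ℝ} (ha : mu S = ENNReal.ofReal a) (ha0 : 0 < a)
    (ha1 : 3 * a ≤ (2 * π) ^ 2) :
    ∃ v : ℝ × ℝ, v.1 ^ 2 + v.2 ^ 2 ≤ 3 * a / 2 ∧
      ENNReal.ofReal (2 * a / 3) ≤ mu {p | p ∈ S ∧ p + v ∉ S} := by
  set s : ℝ := Real.sqrt (3 * a) with hs
  have hs0 : 0 < s := Real.sqrt_pos.2 (by positivity)
  have hs2 : s ^ 2 = 3 * a := Real.sq_sqrt (by positivity)
  have hs1 : s ≤ 2 * π := by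
    rw [hs]; exact Real.sqrt_le_iff.2 ⟨by positivity, ha1⟩
  set c : ℝ × ℝ := (s / 2, s / 2) with hc
  set Q : Set (ℝ × ℝ) := Ioc 0 s ×ˢ Ioc 0 s with hQ
  have hQm : MeasurableSet Q := measurableSet_Ioc.prod measurableSet_Ioc
  have hvolQ : volume Q = ENNReal.ofReal (3 * a) := by
    rw [hQ, Measure.volume_eq_prod, Measure.prod_prod, Real.volume_Ioc, sub_zero,
      ← ENNReal.ofReal_mul hs0.le, ← sq, hs2]
  set h : ℝ × ℝ → ENNReal := fun v => ∫⁻ p, oo S p * oo S (p + (v - c)) ∂mu with hh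
  have hjm : Measurable fun q : (ℝ × ℝ) × (ℝ × ℝ) => oo S q.2 * oo S (q.2 + (q.1 - c)) := by
    refine ((oo_meas hS).comp measurable_snd).mul ((oo_meas hS).comp ?_)
    fun_prop
  have hhm : Measurable h := hjm.lintegral_prod_right'
  have hrest : (volume : Measure (ℝ × ℝ)).restrict Q ≤ mu := by
    unfold mu
    rw [hQ, Measure.volume_eq_prod, ← Measure.prod_restrict]
    refine Measure.prod_mono (Measure.restrict_mono (Ioc_subset_Ioc_right hs1) le_rfl) ?_
    exact Measure.restrict_le_self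
  have hint : ∫⁻ v in Q, h v ≤ ENNReal.ofReal a * ENNReal.ofReal a := by
    rw [hh, lintegral_lintegral_swap hjm.aemeasurable]
    have h1 : ∀ p, ∫⁻ v in Q, oo S p * oo S (p + (v - c)) ≤ oo S p * ENNReal.ofReal a := by
      intro p
      rw [lintegral_const_mul' _ _ (by
        unfold oo; by_cases h : p ∈ S
        · rw [indicator_of_mem h]; exact ENNReal.one_ne_top
        · rw [indicator_of_notMem h]; exact ENNReal.zero_ne_top)]
      refine mul_le_mul_right ?_ _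
      refine (lintegral_mono' hrest le_rfl).trans ?_
      have h2 := shift_lint (oo S) (oo_meas hS) (oo_per hp) (p - c)
      rw [oo_int hS, ha] at h2
      rw [← h2]
      refine le_of_eq (lintegral_congr fun v => ?_)
      congr 1
      abel
    refine (lintegral_mono h1).trans ?_
    rw [lintegral_mul_const _ (oo_meas hS), oo_int hS, ha]
  obtain ⟨v, hv, hle⟩ := exists_le_setLAverage (μ := volume) (s := Q) (f := h)
    (by rw [hvolQ]; exact (ENNReal.ofReal_pos.2 (by positivity)).ne')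
    (by rw [hvolQ]; exact ENNReal.ofReal_ne_top) hhm.aemeasurable
  have hle2 : h v ≤ ENNReal.ofReal (a / 3) := by
    refine hle.trans ?_
    rw [setLAverage_eq, hvolQ]
    refine (ENNReal.div_le_div_right hint _).trans ?_
    rw [← ENNReal.ofReal_mul ha0.le, ← ENNReal.ofReal_div_of_pos (by positivity)]
    refine ENNReal.ofReal_le_ofReal (le_of_eq ?_)
    field_simp
  refine ⟨v - c, ?_, ?_⟩
  · have h1 := hv.1
    have h2 := hv.2
    simp only [mem_Ioc] at h1 h2
    have e1 : (v.1 - s / 2) ^ 2 ≤ s ^ 2 / 4 := by nlinarith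
    have e2 : (v.2 - s / 2) ^ 2 ≤ s ^ 2 / 4 := by nlinarith
    simp only [Prod.fst_sub, Prod.snd_sub, hc]
    linarith
  · have hm1 : MeasurableSet {p : ℝ × ℝ | p + (v - c) ∈ S} := measurable_add_const (v - c) hS
    have h1 : h v = mu (S ∩ {p | p + (v - c) ∈ S}) := by
      rw [← oo_int (hS.inter hm1)]
      refine lintegral_congr fun p => ?_
      unfold oo
      by_cases h1 : p ∈ S
      · by_cases h2 : p + (v - c) ∈ S
        · rw [indicator_of_mem h1, indicator_of_mem h2,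
            indicator_of_mem (show p ∈ S ∩ {p | p + (v - c) ∈ S} from ⟨h1, h2⟩), one_mul]
        · rw [indicator_of_notMem h2, indicator_of_notMem
            (show p ∉ S ∩ {p | p + (v - c) ∈ S} from fun h => h2 h.2), mul_zero]
      · rw [indicator_of_notMem h1, indicator_of_notMem
          (show p ∉ S ∩ {p | p + (v - c) ∈ S} from fun h => h1 h.1), zero_mul]
    have h2 : mu S = mu (S ∩ {p | p + (v - c) ∈ S}) + mu (S \ {p | p + (v - c) ∈ S}) :=
      (measure_inter_add_sdiff S hm1).symm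
    have h3 : {p : ℝ × ℝ | p ∈ S ∧ p + (v - c) ∉ S} = S \ {p | p + (v - c) ∈ S} := rfl
    rw [h3]
    rw [ha, ← h1] at h2
    have h4 : ENNReal.ofReal (2 * a / 3) + ENNReal.ofReal (a / 3) = ENNReal.ofReal a := by
      rw [← ENNReal.ofReal_add (by positivity) (by positivity)]; congr 1; ring
    have h5 : ENNReal.ofReal (2 * a / 3) + ENNReal.ofReal (a / 3) ≤
        mu (S \ {p | p + (v - c) ∈ S}) + ENNReal.ofReal (a / 3) := by
      rw [h4, h2, add_comm]
      exact add_le_add le_rfl hle2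
    exact (ENNReal.add_le_add_iff_right ENNReal.ofReal_ne_top).1 h5

/-- The short translation at scale `1 / m`. -/
theorem exists_shift {S : Set (ℝ × ℝ)} (hS : MeasurableSet S)
    (hp : ∀ p, p + (2 * π, 0) ∈ S ↔ p ∈ S) {a : ℝ} (ha : mu S = ENNReal.ofReal a) (ha0 : 0 < a)
    (ha1 : 3 * a ≤ (2 * π) ^ 2) (m : ℕ) (hm : 0 < m) :
    ∃ w : ℝ × ℝ, w.1 ^ 2 + w.2 ^ 2 ≤ 3 * a / (2 * m ^ 2) ∧
      ENNReal.ofReal (2 * a / (3 * m)) ≤ mu {p | p ∈ S ∧ p + w ∉ S} := by
  obtain ⟨v, hv1, hv2⟩ := exists_vec hS hp ha ha0 ha1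
  have hm' : (0 : ℝ) < m := by exact_mod_cast hm
  set w : ℝ × ℝ := (m : ℝ)⁻¹ • v with hw
  have hmw : m • w = v := by
    rw [hw, ← Nat.cast_smul_eq_nsmul ℝ, smul_smul, mul_inv_cancel₀ hm'.ne', one_smul]
  refine ⟨w, ?_, ?_⟩
  · have : w.1 ^ 2 + w.2 ^ 2 = (v.1 ^ 2 + v.2 ^ 2) / m ^ 2 := by
      simp only [hw, Prod.smul_fst, Prod.smul_snd, smul_eq_mul]
      field_simp
    rw [this]
    calc (v.1 ^ 2 + v.2 ^ 2) / m ^ 2 ≤ (3 * a / 2) / m ^ 2 := by gcongr
      _ = _ := by field_simp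
  · have h1 := chain hS hp w m
    rw [hmw] at h1
    have h2 := hv2.trans h1
    have h3 : ENNReal.ofReal (2 * a / 3) = m * ENNReal.ofReal (2 * a / (3 * m)) := by
      rw [← ENNReal.ofReal_natCast, ← ENNReal.ofReal_mul hm'.le]
      congr 1; field_simp
    rw [h3] at h2
    have hm0 : (m : ENNReal) ≠ 0 := by exact_mod_cast hm.ne'
    exact (ENNReal.mul_le_mul_iff_right hm0 (ENNReal.natCast_ne_top m)).1 h2

end Pool.Agent.Work.MP_33c50c_an.H54
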