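import Pool.Agent.Work.MP_33c50c_an.H54.Bes
import Pool.Agent.Work.MP_33c50c_an.H54.SetL
import Pool.Agent.Work.MP_33c50c_an.H54.Lat

/-!
# The Berezin-Li-Yau inequality for small domains of the cylinder
-/

set_option autoImplicit false

open MeasureTheory Set Filter Topology Real

noncomputable section

namespace Pool.Agent.Work.MP_33c50c_an.H54

theorem en_nonneg (U : ℝ × ℝ → ℝ) : 0 ≤ en U := integral_nonneg fun p => by positivity

/-- Mass near the boundary. -/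
theorem near {U : ℝ × ℝ → ℝ} (h : Tst U) {S : Set (ℝ × ℝ)} (hS : MeasurableSet S)
    (hsupp : ∀ p, p ∉ S → U p = 0) (w : ℝ × ℝ) :
    ∫ p in {p | p ∈ S ∧ p + w ∉ S}, U p ^ 2 ∂mu ≤ (w.1 ^ 2 + w.2 ^ 2) * en U := by
  have hN : MeasurableSet {p : ℝ × ℝ | p ∈ S ∧ p + w ∉ S} :=
    hS.inter (measurable_add_const w hS).compl
  have h0 : 0 ≤ (w.1 ^ 2 + w.2 ^ 2) * en U := mul_nonneg (by positivity) (en_nonneg U)
  rw [← ENNReal.ofReal_le_ofReal_iff h0, ofReal_integral_eq_lintegral_ofReal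
    h.integrable_sq.integrableOn (Eventually.of_forall fun p => by positivity)]
  refine le_trans ?_ (h.trans w)
  calc ∫⁻ p in {p | p ∈ S ∧ p + w ∉ S}, ENNReal.ofReal (U p ^ 2) ∂mu
      = ∫⁻ p in {p | p ∈ S ∧ p + w ∉ S}, ENNReal.ofReal ((U (p + w) - U p) ^ 2) ∂mu := by
        refine setLIntegral_congr_fun hN fun p hp => ?_
        have : U (p + w) = 0 := hsupp _ hp.2
        simp only [this, zero_sub, neg_sq]
    _ ≤ ∫⁻ p, ENNReal.ofReal ((U (p + w) - U p) ^ 2) ∂mu := setLIntegral_le_lintegral _ _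

/-- The basic inequality. -/
theorem star {k : ℕ} {u : Fin k → ℝ × ℝ → ℝ} (h : ON u) {S : Set (ℝ × ℝ)}
    (hS : MeasurableSet S) (hsupp : ∀ j, ∀ p, p ∉ S → u j p = 0) {a : ℝ}
    (ha : mu S = ENNReal.ofReal a) (ha0 : 0 < a) (w : ℝ × ℝ) (r : ℝ) (hr : 0 < r) (b : ℝ)
    (hb : a - (mu {p | p ∈ S ∧ p + w ∉ S}).toReal / 2 ≤ b) :
    r ^ 2 * (2 * π * k) ≤ 2 * π * (∑ j, en (u j)) + b * (r ^ 4 / 4 + r ^ 2 / 24 + r / (12 * π)) +
      r ^ 2 * (2 * π * ((w.1 ^ 2 + w.2 ^ 2) * ∑ j, en (u j))) := by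
  set N : Set (ℝ × ℝ) := {p | p ∈ S ∧ p + w ∉ S} with hNdef
  have hN : MeasurableSet N := hS.inter (measurable_add_const w hS).compl
  have hNS : N ⊆ S := fun p hp => hp.1
  have hfin : mu S ≠ ⊤ := by rw [ha]; exact ENNReal.ofReal_ne_top
  have haR : (mu S).toReal = a := by rw [ha, ENNReal.toReal_ofReal ha0.le]
  have hNle : (mu N).toReal ≤ a := by
    rw [← haR]; exact ENNReal.toReal_mono hfin (measure_mono hNS)
  have hb0 : 0 ≤ b := by
    have : 0 ≤ (mu N).toReal := ENNReal.toReal_nonneg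
    linarith
  set E := ∑ j, en (u j) with hE
  have hE0 : 0 ≤ E := Finset.sum_nonneg fun j _ => en_nonneg _
  set R : ℤ × ℝ → ℝ := fun z => ∫ p in N, ‖QQ u z p‖ ^ 2 ∂mu with hR
  have hR0 : ∀ z, 0 ≤ R z := fun z => integral_nonneg fun p => by positivity
  have hF0 : ∀ z, 0 ≤ FF u z := fun z => Finset.sum_nonneg fun j _ => by positivity
  have hpt : ∀ z : ℤ × ℝ, ENNReal.ofReal (r ^ 2) * ENNReal.ofReal (FF u z) ≤
      ENNReal.ofReal (((z.1 : ℝ) ^ 2 + (2 * π * z.2) ^ 2) * FF u z) +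
      ENNReal.ofReal b * ENNReal.ofReal (r ^ 2 - ((z.1 : ℝ) ^ 2 + (2 * π * z.2) ^ 2)) +
      ENNReal.ofReal (r ^ 2) * ENNReal.ofReal (R z) := by
    intro z
    have h1 := bessel h hN hNS hfin hsupp z
    rw [haR] at h1
    have h2 : FF u z ≤ b + R z := by simp only [hR]; linarith
    set q : ℝ := (z.1 : ℝ) ^ 2 + (2 * π * z.2) ^ 2 with hq
    have hq0 : 0 ≤ q := by positivity
    rw [← ENNReal.ofReal_mul (by positivity), ← ENNReal.ofReal_mul hb0,
      ← ENNReal.ofReal_mul (by positivity)]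
    rcases le_or_gt q (r ^ 2) with hqr | hqr
    · rw [← ENNReal.ofReal_add (mul_nonneg hq0 (hF0 z)) (mul_nonneg hb0 (by linarith)),
        ← ENNReal.ofReal_add (add_nonneg (mul_nonneg hq0 (hF0 z)) (mul_nonneg hb0 (by linarith)))
          (mul_nonneg (by positivity) (hR0 z))]
      refine ENNReal.ofReal_le_ofReal ?_
      have h3 : (r ^ 2 - q) * FF u z ≤ (r ^ 2 - q) * (b + R z) :=
        mul_le_mul_of_nonneg_left h2 (by linarith)
      have h4 : 0 ≤ q * R z := mul_nonneg hq0 (hR0 z)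
      nlinarith
    · refine le_trans (ENNReal.ofReal_le_ofReal ?_) (le_self_add.trans le_self_add)
      exact mul_le_mul_of_nonneg_right hqr.le (hF0 z)
  have hmF : Measurable fun z => ENNReal.ofReal (FF u z) := by
    unfold FF
    exact (Finset.measurable_sum _ fun j _ => ((h.tst j).hat_meas.norm.pow_const 2)).ennreal_ofReal
  have hmq : Measurable fun z : ℤ × ℝ => (z.1 : ℝ) ^ 2 + (2 * π * z.2) ^ 2 := by fun_prop
  have hmF' : Measurable fun z => FF u z := by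
    unfold FF
    exact Finset.measurable_sum _ fun j _ => ((h.tst j).hat_meas.norm.pow_const 2)
  have hm1 : Measurable fun z : ℤ × ℝ =>
      ENNReal.ofReal (((z.1 : ℝ) ^ 2 + (2 * π * z.2) ^ 2) * FF u z) :=
    (hmq.mul hmF').ennreal_ofReal
  have hm2 : Measurable fun z : ℤ × ℝ =>
      ENNReal.ofReal (r ^ 2 - ((z.1 : ℝ) ^ 2 + (2 * π * z.2) ^ 2)) :=
    (measurable_const.sub hmq).ennreal_ofReal
  have hm12 : Measurable fun z : ℤ × ℝ =>
      ENNReal.ofReal (((z.1 : ℝ) ^ 2 + (2 * π * z.2) ^ 2) * FF u z) +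
      ENNReal.ofReal b * ENNReal.ofReal (r ^ 2 - ((z.1 : ℝ) ^ 2 + (2 * π * z.2) ^ 2)) :=
    hm1.add (hm2.const_mul _)
  have hI := lintegral_mono (μ := nu) hpt
  rw [lintegral_const_mul _ hmF, FF_freq h, lintegral_add_left hm12,
    lintegral_add_left hm1, FF_en h, lintegral_const_mul _ hm2,
    lintegral_const_mul' _ _ ENNReal.ofReal_ne_top, QQ_freq h] at hI
  have hT := T_le r hr
  have hnear : ∑ j, ∫ p in N, u j p ^ 2 ∂mu ≤ (w.1 ^ 2 + w.2 ^ 2) * E := by
    rw [hE, Finset.mul_sum]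
    exact Finset.sum_le_sum fun j _ => near (h.tst j) hS (hsupp j) w
  have hI2 : ENNReal.ofReal (r ^ 2) * ENNReal.ofReal (2 * π * k) ≤
      ENNReal.ofReal (2 * π * E) +
      ENNReal.ofReal b * ENNReal.ofReal (r ^ 4 / 4 + r ^ 2 / 24 + r / (12 * π)) +
      ENNReal.ofReal (r ^ 2) * ENNReal.ofReal (2 * π * ((w.1 ^ 2 + w.2 ^ 2) * E)) := by
    refine hI.trans (add_le_add (add_le_add le_rfl (mul_le_mul_right hT _))
      (mul_le_mul_right (ENNReal.ofReal_le_ofReal ?_) _))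
    exact mul_le_mul_of_nonneg_left hnear (by positivity)
  have hWE : 0 ≤ (w.1 ^ 2 + w.2 ^ 2) * E := mul_nonneg (by positivity) hE0
  rw [← ENNReal.ofReal_mul (by positivity), ← ENNReal.ofReal_mul hb0,
    ← ENNReal.ofReal_mul (by positivity), ← ENNReal.ofReal_add (by positivity) (by positivity),
    ← ENNReal.ofReal_add (by positivity) (by positivity),
    ENNReal.ofReal_le_ofReal_iff (by positivity)] at hI2
  exact hI2

/-- **Berezin-Li-Yau inequality on the cylinder**, area at most `1/10`. -/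
theorem bly {k : ℕ} (hk : 0 < k) {u : Fin k → ℝ × ℝ → ℝ} (h : ON u) {S : Set (ℝ × ℝ)}
    (hS : MeasurableSet S) (hp : ∀ p, p + (2 * π, 0) ∈ S ↔ p ∈ S)
    (hsupp : ∀ j, ∀ p, p ∉ S → u j p = 0) {a : ℝ}
    (ha : mu S = ENNReal.ofReal a) (ha0 : 0 < a) (ha1 : a ≤ 1 / 10) :
    2 * π * (k : ℝ) ^ 2 / a ≤ ∑ j, en (u j) := by
  have hpi := Real.pi_gt_d2
  have hpi' := Real.pi_lt_d2
  have hpi0 := Real.pi_pos
  set x : ℝ := (k : ℝ) with hx
  have hx1 : 1 ≤ x := by rw [hx]; exact_mod_cast hk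
  set m : ℕ := ⌈36 * π * x⌉₊ with hm
  have hm1 : 36 * π * x ≤ m := Nat.le_ceil _
  have hm2 : (m : ℝ) < 36 * π * x + 1 := Nat.ceil_lt_add_one (by positivity)
  have hmpos : (0 : ℝ) < m := lt_of_lt_of_le (by positivity) hm1
  have hm0 : 0 < m := by exact_mod_cast hmpos
  obtain ⟨w, hw1, hw2⟩ := exists_shift hS hp ha ha0 (by nlinarith) m hm0
  set N : Set (ℝ × ℝ) := {p | p ∈ S ∧ p + w ∉ S} with hNdef
  have hfin : mu N ≠ ⊤ := by
    refine ne_top_of_le_ne_top (by rw [ha]; exact ENNReal.ofReal_ne_top)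
      (measure_mono (fun p hp => hp.1 : N ⊆ S))
  have hNr : 2 * a / (3 * m) ≤ (mu N).toReal := by
    rw [← ENNReal.ofReal_le_iff_le_toReal hfin]; exact hw2
  set lam : ℝ := 4 * π * x / a with hlam
  have hlam0 : 0 < lam := by positivity
  set r := √lam with hr
  have hr0 : 0 < r := Real.sqrt_pos.2 hlam0
  have hr2 : r ^ 2 = lam := Real.sq_sqrt hlam0.le
  set b : ℝ := a * (1 - 1 / (3 * m)) with hb
  have hstar := star h hS hsupp ha ha0 w r hr0 b (by
    have : b = a - 2 * a / (3 * m) / 2 := by rw [hb]; field_simp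
    rw [this]; linarith)
  set E := ∑ j, en (u j) with hE
  have hE0 : 0 ≤ E := Finset.sum_nonneg fun j _ => en_nonneg _
  by_contra hcon
  push Not at hcon
  set W := w.1 ^ 2 + w.2 ^ 2 with hW
  have hW0 : 0 ≤ W := by positivity
  set c0 : ℝ := 2 * π * x ^ 2 / a with hc0
  have hc00 : 0 < c0 := by positivity
  -- r ^ 4 = lam ^ 2
  have hr4 : r ^ 4 = lam ^ 2 := by rw [← hr2]; ring
  rw [hr4, hr2] at hstar
  have e1 : lam * (2 * π * x) = 2 * π * (2 * c0) := by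
    rw [hlam, hc0]; field_simp; ring
  have e2 : b * (lam ^ 2 / 4) = 2 * π * ((1 - 1 / (3 * m)) * c0) := by
    rw [hb, hlam, hc0]; field_simp; ring
  have e3 : a * (lam / 24) = 2 * π * (x / 12) := by
    rw [hlam]; field_simp; ring
  have e4 : a * (r / (12 * π)) = 2 * π * (a * r / (24 * π ^ 2)) := by
    field_simp; ring
  have hba : b ≤ a := by
    rw [hb]
    have : 0 < 1 / (3 * (m : ℝ)) := by positivity
    nlinarith
  have hb2 : b * (lam ^ 2 / 4 + lam / 24 + r / (12 * π)) ≤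
      2 * π * ((1 - 1 / (3 * m)) * c0 + x / 12 + a * r / (24 * π ^ 2)) := by
    have h1 : b * (lam / 24 + r / (12 * π)) ≤ a * (lam / 24 + r / (12 * π)) :=
      mul_le_mul_of_nonneg_right hba (by positivity)
    calc b * (lam ^ 2 / 4 + lam / 24 + r / (12 * π))
        = b * (lam ^ 2 / 4) + b * (lam / 24 + r / (12 * π)) := by ring
      _ ≤ b * (lam ^ 2 / 4) + a * (lam / 24 + r / (12 * π)) := by linarith
      _ = b * (lam ^ 2 / 4) + a * (lam / 24) + a * (r / (12 * π)) := by ring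
      _ = _ := by rw [e2, e3, e4]; ring
  have hd : lam * W ≤ 6 * π * x / m ^ 2 := by
    calc lam * W ≤ lam * (3 * a / (2 * m ^ 2)) := mul_le_mul_of_nonneg_left hw1 hlam0.le
      _ = 6 * π * x / m ^ 2 := by rw [hlam]; field_simp; ring
  have h5 : lam * (2 * π * (W * E)) ≤ 2 * π * (6 * π * x / m ^ 2 * c0) := by
    have : lam * W * E ≤ 6 * π * x / m ^ 2 * c0 :=
      mul_le_mul hd hcon.le hE0 (by positivity)
    calc lam * (2 * π * (W * E)) = 2 * π * (lam * W * E) := by ring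
      _ ≤ _ := mul_le_mul_of_nonneg_left this (by positivity)
  have h6 : 2 * π * (2 * c0) ≤ 2 * π * (c0 + ((1 - 1 / (3 * m)) * c0 + x / 12 +
      a * r / (24 * π ^ 2)) + 6 * π * x / m ^ 2 * c0) := by
    have h7 : 2 * π * E ≤ 2 * π * c0 := mul_le_mul_of_nonneg_left hcon.le (by positivity)
    rw [← e1]
    linarith
  have h8 : 2 * c0 ≤ c0 + ((1 - 1 / (3 * m)) * c0 + x / 12 +
      a * r / (24 * π ^ 2)) + 6 * π * x / m ^ 2 * c0 :=
    le_of_mul_le_mul_left h6 (by positivity)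
  have h9 : (1 / (3 * m) - 6 * π * x / m ^ 2) * c0 ≤ x / 12 + a * r / (24 * π ^ 2) := by
    linarith
  -- multiply by `a`
  have h10 : (1 / (3 * m) - 6 * π * x / m ^ 2) * (2 * π * x ^ 2) ≤
      a * (x / 12) + a * (a * r) / (24 * π ^ 2) := by
    have h11 := mul_le_mul_of_nonneg_left h9 ha0.le
    have e5 : a * ((1 / (3 * m) - 6 * π * x / m ^ 2) * c0) =
        (1 / (3 * m) - 6 * π * x / m ^ 2) * (2 * π * x ^ 2) := by
      rw [hc0]; field_simp
    rw [e5] at h11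
    refine h11.trans (le_of_eq ?_)
    ring
  have har : a * r ≤ 1.15 * x := by
    have h12 : (a * r) ^ 2 ≤ (1.15 * x) ^ 2 := by
      have e6 : (a * r) ^ 2 = 4 * π * x * a := by
        rw [mul_pow, hr2, hlam]; field_simp
      rw [e6]
      have h13 : 4 * π * x * a ≤ 4 * π * x * (1 / 10) :=
        mul_le_mul_of_nonneg_left ha1 (by positivity)
      have h14 : 4 * π * x * (1 / 10) ≤ 1.3 * x := by nlinarith
      nlinarith
    exact abs_le_of_sq_le_sq' h12 (by positivity) |>.2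
  have hrhs : a * (x / 12) + a * (a * r) / (24 * π ^ 2) ≤ 0.0089 * x := by
    have h15 : a * (x / 12) ≤ 1 / 10 * (x / 12) := mul_le_mul_of_nonneg_right ha1 (by positivity)
    have h16 : a * (a * r) ≤ 1 / 10 * (1.15 * x) :=
      mul_le_mul ha1 har (by positivity) (by norm_num)
    have h17 : (9.8 : ℝ) ≤ π ^ 2 := by nlinarith
    have h18 : a * (a * r) / (24 * π ^ 2) ≤ 1 / 10 * (1.15 * x) / (24 * 9.8) := by
      gcongr
    have h19 : 1 / 10 * (1.15 * x) / (24 * 9.8) ≤ 0.0005 * x := by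
      rw [div_le_iff₀ (by norm_num)]
      nlinarith
    linarith
  set ρ : ℝ := π * x / m with hρ
  have hρ1 : ρ ≤ 1 / 36 := by
    rw [hρ, div_le_iff₀ hmpos]; linarith
  have hρ2 : 1 / 37 ≤ ρ := by
    rw [hρ, le_div_iff₀ hmpos]
    have : 1 ≤ π * x := by nlinarith
    linarith
  have e7 : (1 / (3 * m) - 6 * π * x / m ^ 2) * (2 * π * x ^ 2) = (2 * ρ / 3 - 12 * ρ ^ 2) * x := by
    rw [hρ]; field_simp; ring
  have hlow : 0.00925 ≤ 2 * ρ / 3 - 12 * ρ ^ 2 := by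
    nlinarith [mul_nonneg (sub_nonneg.2 hρ1) (sub_nonneg.2 hρ2)]
  have h20 : 0.00925 * x ≤ (2 * ρ / 3 - 12 * ρ ^ 2) * x :=
    mul_le_mul_of_nonneg_right hlow (by positivity)
  rw [e7] at h10
  linarith

end Pool.Agent.Work.MP_33c50c_an.H54
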