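import Pool.Agent.Work.MP_33c50c_an.H54.Bump

/-!
# The quadratic forms, and non-emptiness of the set of admissible bounds
-/

set_option autoImplicit false

open MeasureTheory Set Filter Topology Real

noncomputable section

namespace Pool.Agent.Work.MP_33c50c_an.H54

theorem sq_expand {k : ℕ} {W : Fin k → ℝ × ℝ → ℝ} (h : ∀ j, Tst (W j)) (c : Fin k → ℝ) :
    ∫ p, (∑ j, c j * W j p) ^ 2 ∂mu = ∑ i, ∑ j, c i * c j * ∫ p, W i p * W j p ∂mu := by
  have h1 : ∀ p, (∑ j, c j * W j p) ^ 2 = ∑ i, ∑ j, c i * c j * (W i p * W j p) := by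
    intro p
    rw [_root_.sq, Finset.sum_mul_sum]
    exact Finset.sum_congr rfl fun i _ => Finset.sum_congr rfl fun j _ => by ring
  simp only [h1]
  have hint : ∀ i j, Integrable (fun p => c i * c j * (W i p * W j p)) mu := fun i j =>
    ((h i).integrable_mul (h j)).const_mul _
  rw [integral_finsetSum _ fun i _ => integrable_finsetSum _ fun j _ => hint i j]
  refine Finset.sum_congr rfl fun i _ => ?_
  rw [integral_finsetSum _ fun j _ => hint i j]
  simp only [integral_const_mul]

theorem fderiv_comb {k : ℕ} {U : Fin k → ℝ × ℝ → ℝ} (h : ∀ j, Tst (U j)) (c : Fin k → ℝ)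
    (p v : ℝ × ℝ) :
    fderiv ℝ (fun q => ∑ j, c j * U j q) p v = ∑ j, c j * fderiv ℝ (U j) p v := by
  have h1 : HasFDerivAt (fun q => ∑ j, c j * U j q) (∑ j, c j • fderiv ℝ (U j) p) p :=
    HasFDerivAt.fun_sum fun j _ => ((h j).diff p).hasFDerivAt.const_mul (c j)
  rw [h1.fderiv]
  simp only [_root_.sum_apply, _root_.smul_apply, smul_eq_mul]

theorem en_expand {k : ℕ} {U : Fin k → ℝ × ℝ → ℝ} (h : ∀ j, Tst (U j)) (c : Fin k → ℝ) :
    en (fun p => ∑ j, c j * U j p) = ∑ i, ∑ j, c i * c j *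
      (∫ p, dx (U i) p * dx (U j) p ∂mu + ∫ p, dy (U i) p * dy (U j) p ∂mu) := by
  have hx : ∀ p, dx (fun q => ∑ j, c j * U j q) p = ∑ j, c j * dx (U j) p := fun p =>
    fderiv_comb h c p _
  have hy : ∀ p, dy (fun q => ∑ j, c j * U j q) p = ∑ j, c j * dy (U j) p := fun p =>
    fderiv_comb h c p _
  unfold en
  simp only [hx, hy]
  rw [integral_add (Tst.sum Finset.univ _ (fun j _ => (h j).dx) c).integrable_sq
    (Tst.sum Finset.univ _ (fun j _ => (h j).dy) c).integrable_sq,
    sq_expand (fun j => (h j).dx) c, sq_expand (fun j => (h j).dy) c]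
  simp only [mul_add, Finset.sum_add_distrib]

theorem energy_smul {Om : Set Cyl} {u : Cyl → ℝ} (h : IsTest Om u) (c : ℝ) :
    energy (c • u) = c ^ 2 * energy u := by
  have h1 := en_expand (k := 1) (U := fun _ => lift u) (fun _ => h.tst) (fun _ => c)
  have h2 := en_expand (k := 1) (U := fun _ => lift u) (fun _ => h.tst) (fun _ => 1)
  simp only [Finset.univ_unique, Finset.sum_singleton, one_mul] at h1 h2
  rw [energy_eq, energy_eq, lift_smul, h1]
  have h3 : en (lift u) = en (fun p => lift u p) := rfl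
  rw [h3, h2]
  ring

theorem mass_pos {Om : Set Cyl} {u : Cyl → ℝ} (h : IsTest Om u) (hu : u ≠ 0) : 0 < mass u := by
  obtain ⟨z, hz⟩ := Function.ne_iff.1 hu
  obtain ⟨p, rfl⟩ := cover_surj z
  rw [mass_eq]
  exact h.tst.mass_pos (p := p) hz

theorem energy_nonneg (u : Cyl → ℝ) : 0 ≤ energy u :=
  setIntegral_nonneg (measurableSet_Ioc.prod MeasurableSet.univ) fun p _ => by positivity

theorem adm_nonempty {Om : Set Cyl} (hO : IsOpen Om) (hne : Om.Nonempty) (k : ℕ) :
    (Adm Om k).Nonempty := by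
  obtain ⟨u, hu1, hu2⟩ := exists_indep hO hne k
  have hmass : ∀ c : Fin k → ℝ, mass (∑ j, c j • u j) =
      ∑ i, ∑ j, c i * c j * ∫ p, lift (u i) p * lift (u j) p ∂mu := by
    intro c
    rw [mass_eq, lift_sum, sq_expand fun j => (hu1 j).tst]
  have hen : ∀ c : Fin k → ℝ, energy (∑ j, c j • u j) = ∑ i, ∑ j, c i * c j *
      (∫ p, dx (lift (u i)) p * dx (lift (u j)) p ∂mu +
        ∫ p, dy (lift (u i)) p * dy (lift (u j)) p ∂mu) := by
    intro c
    rw [energy_eq, lift_sum, en_expand fun j => (hu1 j).tst]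
  obtain ⟨L, hL⟩ := rayleigh_bound
    (fun i j => ∫ p, dx (lift (u i)) p * dx (lift (u j)) p ∂mu +
        ∫ p, dy (lift (u i)) p * dy (lift (u j)) p ∂mu)
    (fun i j => ∫ p, lift (u i) p * lift (u j) p ∂mu) (fun c hc => by
      rw [← hmass]
      refine mass_pos (IsTest.sum hu1 c) fun h0 => hc ?_
      exact funext fun i => (Fintype.linearIndependent_iff.1 hu2) c h0 i)
  refine ⟨L, u, hu1, hu2, fun c => ?_⟩
  rw [hmass, hen]
  exact hL c

/-- Bounds are non-negative (for `k` positive). -/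
theorem adm_nonneg {Om : Set Cyl} {k : ℕ} (hk : 0 < k) {L : ℝ} (h : L ∈ Adm Om k) : 0 ≤ L := by
  obtain ⟨u, hu1, hu2, hu3⟩ := h
  have h1 : u ⟨0, hk⟩ ≠ 0 := hu2.ne_zero _
  have h2 := hu3 (Pi.single ⟨0, hk⟩ 1)
  have h3 : (∑ j, (Pi.single (⟨0, hk⟩ : Fin k) (1 : ℝ) : Fin k → ℝ) j • u j) = u ⟨0, hk⟩ := by
    rw [Finset.sum_eq_single (⟨0, hk⟩ : Fin k)]
    · simp
    · intro j _ hj
      rw [Pi.single_eq_of_ne hj, zero_smul]
    · intro h
      exact absurd (Finset.mem_univ _) h
  rw [h3] at h2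
  have h4 := mass_pos (hu1 _) h1
  by_contra hL
  push Not at hL
  have h5 := energy_nonneg (u ⟨0, hk⟩)
  have h6 : L * mass (u ⟨0, hk⟩) < 0 := mul_neg_of_neg_of_pos hL h4
  linarith

theorem adm_bddBelow (Om : Set Cyl) {k : ℕ} (hk : 0 < k) : BddBelow (Adm Om k) :=
  ⟨0, fun _ h => adm_nonneg hk h⟩

/-- The inner product. -/
def massForm (Om : Set Cyl) : tests Om →ₗ[ℝ] tests Om →ₗ[ℝ] ℝ :=
  LinearMap.mk₂ ℝ (fun u v => ∫ p, lift (u : Cyl → ℝ) p * lift (v : Cyl → ℝ) p ∂mu)
    (fun u u' v => by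
      have h1 : IsTest Om (u : Cyl → ℝ) := u.2
      have h2 : IsTest Om (u' : Cyl → ℝ) := u'.2
      have h3 : IsTest Om (v : Cyl → ℝ) := v.2
      rw [← integral_add (h1.tst.integrable_mul h3.tst) (h2.tst.integrable_mul h3.tst)]
      refine integral_congr_ae (Eventually.of_forall fun p => ?_)
      simp only [Submodule.coe_add, lift_add]
      ring)
    (fun c u v => by
      rw [smul_eq_mul, ← integral_const_mul]
      refine integral_congr_ae (Eventually.of_forall fun p => ?_)
      simp only [Submodule.coe_smul, lift_smul]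
      ring)
    (fun u v v' => by
      have h1 : IsTest Om (u : Cyl → ℝ) := u.2
      have h2 : IsTest Om (v : Cyl → ℝ) := v.2
      have h3 : IsTest Om (v' : Cyl → ℝ) := v'.2
      rw [← integral_add (h1.tst.integrable_mul h2.tst) (h1.tst.integrable_mul h3.tst)]
      refine integral_congr_ae (Eventually.of_forall fun p => ?_)
      simp only [Submodule.coe_add, lift_add]
      ring)
    (fun c u v => by
      rw [smul_eq_mul, ← integral_const_mul]
      refine integral_congr_ae (Eventually.of_forall fun p => ?_)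
      simp only [Submodule.coe_smul, lift_smul]
      ring)

theorem massForm_apply (Om : Set Cyl) (u v : tests Om) :
    massForm Om u v = ∫ p, lift (u : Cyl → ℝ) p * lift (v : Cyl → ℝ) p ∂mu := rfl

theorem massForm_self (Om : Set Cyl) (u : tests Om) : massForm Om u u = mass (u : Cyl → ℝ) := by
  rw [massForm_apply, mass_eq]
  refine integral_congr_ae (Eventually.of_forall fun p => ?_)
  dsimp only
  ring

/-- Area of an open set of the cylinder. -/
theorem mu_cover {Om : Set Cyl} (hO : MeasurableSet Om) : mu (cover ⁻¹' Om) = volume Om := by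
  have h1 : MeasurePreserving (fun x : ℝ => (x : AddCircle (2 * π)))
      (volume.restrict (Ioc 0 (2 * π))) volume := by
    have := AddCircle.measurePreserving_mk (2 * π) 0
    rwa [zero_add] at this
  have h2 := h1.prod (MeasurePreserving.id (volume : Measure ℝ))
  have h3 : MeasurePreserving cover mu volume := h2
  exact h3.measure_preimage hO.nullMeasurableSet

/-- An orthonormal family realising given bounds. -/
theorem exists_ON {Om : Set Cyl} {k : ℕ} {L : ℕ → ℝ} (h : ∀ j < k, L j ∈ Adm Om (j + 1)) :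
    ∃ w : Fin k → Cyl → ℝ, (∀ j, IsTest Om (w j)) ∧ ON (fun j => lift (w j)) ∧
      ∀ j, energy (w j) ≤ L j := by
  obtain ⟨w, hw1, hw2⟩ := greedy (massForm Om)
    (fun u v => by
      rw [massForm_apply, massForm_apply]
      exact integral_congr_ae (Eventually.of_forall fun p => mul_comm _ _))
    (fun v hv => by
      rw [massForm_self]
      exact mass_pos v.2 fun h0 => hv (Subtype.ext h0))
    (fun v => energy (v : Cyl → ℝ))
    (fun c v => by
      have : IsTest Om (v : Cyl → ℝ) := v.2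
      exact energy_smul this c) L k
    (fun j hj => by
      obtain ⟨u, hu1, hu2, hu3⟩ := h j hj
      refine ⟨fun i => ⟨u i, hu1 i⟩, ?_, fun c => ?_⟩
      · exact LinearIndependent.of_comp (tests Om).subtype hu2
      · rw [massForm_self]
        have h1 := hu3 c
        have h2 : ((∑ i, c i • (⟨u i, hu1 i⟩ : tests Om) : tests Om) : Cyl → ℝ) =
            ∑ i, c i • u i := by
          simp
        rw [h2]
        exact h1)
  refine ⟨fun j => (w j : Cyl → ℝ), fun j => (w j).2, ⟨fun j => ?_, fun i j => ?_⟩, fun j =>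
    hw2 j j.2⟩
  · exact IsTest.tst (w j).2
  · have h1 := hw1 i i.2 j j.2
    rw [massForm_apply] at h1
    rw [h1]
    by_cases hij : i = j
    · rw [if_pos hij, if_pos (by rw [hij])]
    · rw [if_neg hij, if_neg fun h => hij (Fin.ext h)]

end Pool.Agent.Work.MP_33c50c_an.H54
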