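import Pool.Agent.Work.MP_33c50c_an.H54.Plane
import Pool.Agent.Work.MP_33c50c_an.H54.Forms

/-!
# Cutting the cylinder along a vertical line
-/

set_option autoImplicit false

open MeasureTheory Set Filter Topology Real

noncomputable section

namespace Pool.Agent.Work.MP_33c50c_an.H54

/-- A smooth angle, `0` for `t ≤ 1/4` and `pi/2` for `t ≥ 3/4`. -/
def ang (t : ℝ) : ℝ := π / 2 * Real.smoothTransition (2 * t - 1 / 2)

theorem ang_smooth : ContDiff ℝ ((⊤ : ℕ∞) : WithTop ℕ∞) ang :=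
  contDiff_const.mul (Real.smoothTransition.contDiff.comp
    ((contDiff_const.mul contDiff_id).sub contDiff_const))

theorem ang_lo {t : ℝ} (ht : t ≤ 1 / 4) : ang t = 0 := by
  unfold ang
  rw [Real.smoothTransition.zero_of_nonpos (by linarith), mul_zero]

theorem ang_hi {t : ℝ} (ht : 3 / 4 ≤ t) : ang t = π / 2 := by
  unfold ang
  rw [Real.smoothTransition.one_of_one_le (by linarith), mul_one]

theorem ang_hasDeriv (t : ℝ) : HasDerivAt ang (deriv ang t) t :=
  (ang_smooth.differentiable (by simp) t).hasDerivAt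

theorem ang_deriv_lo {t : ℝ} (ht : t < 1 / 4) : deriv ang t = 0 := by
  have : ang =ᶠ[𝓝 t] fun _ => 0 := by
    filter_upwards [Iio_mem_nhds ht] with s hs
    exact ang_lo (le_of_lt hs)
  rw [this.deriv_eq, deriv_const]

theorem ang_deriv_hi {t : ℝ} (ht : 3 / 4 < t) : deriv ang t = 0 := by
  have : ang =ᶠ[𝓝 t] fun _ => π / 2 := by
    filter_upwards [Ioi_mem_nhds ht] with s hs
    exact ang_hi (le_of_lt hs)
  rw [this.deriv_eq, deriv_const]

theorem ang_deriv_cont : Continuous (deriv ang) :=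
  ang_smooth.continuous_deriv (by simp)

/-- The derivative is bounded. -/
theorem exists_K : ∃ K : ℝ, 0 < K ∧ ∀ t, deriv ang t ^ 2 ≤ K := by
  obtain ⟨C, hC⟩ := (isCompact_Icc (a := (0 : ℝ)) (b := 1)).exists_bound_of_continuousOn
    ang_deriv_cont.continuousOn
  refine ⟨C ^ 2 + 1, by positivity, fun t => ?_⟩
  by_cases ht : t ∈ Icc (0 : ℝ) 1
  · have h1 := hC t ht
    rw [Real.norm_eq_abs] at h1
    have h2 : deriv ang t ^ 2 ≤ C ^ 2 := by
      rw [← sq_abs]
      exact pow_le_pow_left₀ (abs_nonneg _) h1 2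
    linarith
  · have : deriv ang t = 0 := by
      rw [mem_Icc, not_and_or, not_le, not_le] at ht
      rcases ht with h | h
      · exact ang_deriv_lo (by linarith)
      · exact ang_deriv_hi (by linarith)
    rw [this]
    nlinarith [sq_nonneg C]

/-- The cutoff. -/
def chi (x0 d x : ℝ) : ℝ :=
  Real.sin (ang ((x - x0) / d)) * Real.cos (ang ((x - x0 - 2 * π) / d))

/-- Its derivative. -/
def chiD (x0 d x : ℝ) : ℝ :=
  Real.cos (ang ((x - x0) / d)) * (deriv ang ((x - x0) / d) / d) *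
      Real.cos (ang ((x - x0 - 2 * π) / d)) -
    Real.sin (ang ((x - x0) / d)) *
      (Real.sin (ang ((x - x0 - 2 * π) / d)) * (deriv ang ((x - x0 - 2 * π) / d) / d))

theorem chi_smooth (x0 d : ℝ) : ContDiff ℝ ((⊤ : ℕ∞) : WithTop ℕ∞) (chi x0 d) := by
  refine ContDiff.mul ?_ ?_
  · exact Real.contDiff_sin.comp (ang_smooth.comp ((contDiff_id.sub contDiff_const).div_const d))
  · exact Real.contDiff_cos.comp (ang_smooth.comp
      (((contDiff_id.sub contDiff_const).sub contDiff_const).div_const d))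

theorem chi_hasDeriv (x0 d x : ℝ) : HasDerivAt (chi x0 d) (chiD x0 d x) x := by
  have h1 : HasDerivAt (fun x : ℝ => (x - x0) / d) (1 / d) x :=
    ((hasDerivAt_id x).sub_const x0).div_const d
  have h2 : HasDerivAt (fun x : ℝ => (x - x0 - 2 * π) / d) (1 / d) x :=
    (((hasDerivAt_id x).sub_const x0).sub_const (2 * π)).div_const d
  have h3 := ((ang_hasDeriv ((x - x0) / d)).comp x h1).sin
  have h4 := ((ang_hasDeriv ((x - x0 - 2 * π) / d)).comp x h2).cos
  have h5 := h3.mul h4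
  refine h5.congr_deriv ?_
  unfold chiD
  simp only [Function.comp_apply]
  ring

theorem chi_zero {x0 d x : ℝ} (hd : 0 < d) (hx : x ≤ x0 + d / 4 ∨ x0 + 2 * π + 3 * d / 4 ≤ x) :
    chi x0 d x = 0 := by
  unfold chi
  rcases hx with hx | hx
  · rw [ang_lo (t := (x - x0) / d), Real.sin_zero, zero_mul]
    rw [div_le_iff₀ hd]
    linarith
  · rw [ang_hi (t := (x - x0 - 2 * π) / d), Real.cos_pi_div_two, mul_zero]
    rw [le_div_iff₀ hd]
    linarith

section two

variable {x0 d x : ℝ} (hd : 0 < d) (hd' : d < 2 * π) (hx : x ∈ Ioc x0 (x0 + 2 * π))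

include hd hx in
theorem chi_a : chi x0 d x = Real.sin (ang ((x - x0) / d)) := by
  unfold chi
  have h : (x - x0 - 2 * π) / d ≤ 0 := div_nonpos_of_nonpos_of_nonneg (by linarith [hx.2]) hd.le
  rw [ang_lo (t := (x - x0 - 2 * π) / d) (by linarith), Real.cos_zero, mul_one]

include hd hd' hx in
theorem chi_b : chi x0 d (x + 2 * π) = Real.cos (ang ((x - x0) / d)) := by
  unfold chi
  have h : 3 / 4 ≤ (x + 2 * π - x0) / d := by
    rw [le_div_iff₀ hd]
    linarith [hx.1]
  rw [ang_hi h, Real.sin_pi_div_two, one_mul, show x + 2 * π - x0 - 2 * π = x - x0 by ring]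

include hd hx in
theorem chiD_a : chiD x0 d x =
    Real.cos (ang ((x - x0) / d)) * (deriv ang ((x - x0) / d) / d) := by
  unfold chiD
  have h : (x - x0 - 2 * π) / d ≤ 0 := div_nonpos_of_nonpos_of_nonneg (by linarith [hx.2]) hd.le
  rw [ang_lo (t := (x - x0 - 2 * π) / d) (by linarith), Real.cos_zero, Real.sin_zero]
  ring

include hd hd' hx in
theorem chiD_b : chiD x0 d (x + 2 * π) =
    -(Real.sin (ang ((x - x0) / d)) * (deriv ang ((x - x0) / d) / d)) := by
  unfold chiD
  have h : 1 < (x + 2 * π - x0) / d := by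
    rw [lt_div_iff₀ hd]
    linarith [hx.1]
  rw [ang_hi (t := (x + 2 * π - x0) / d) (by linarith), Real.sin_pi_div_two,
    Real.cos_pi_div_two, show x + 2 * π - x0 - 2 * π = x - x0 by ring]
  ring

include hd hd' hx in
/-- Partition of unity. -/
theorem chi_sq : chi x0 d x ^ 2 + chi x0 d (x + 2 * π) ^ 2 = 1 := by
  rw [chi_a hd hx, chi_b hd hd' hx]
  exact Real.sin_sq_add_cos_sq _

include hd hd' hx in
theorem chi_chiD : chi x0 d x * chiD x0 d x + chi x0 d (x + 2 * π) * chiD x0 d (x + 2 * π) =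
    0 := by
  rw [chi_a hd hx, chi_b hd hd' hx, chiD_a hd hx, chiD_b hd hd' hx]
  ring

include hd hd' hx in
theorem chiD_sq : chiD x0 d x ^ 2 + chiD x0 d (x + 2 * π) ^ 2 =
    deriv ang ((x - x0) / d) ^ 2 / d ^ 2 := by
  rw [chiD_a hd hx, chiD_b hd hd' hx]
  have := Real.sin_sq_add_cos_sq (ang ((x - x0) / d))
  have h2 : (Real.cos (ang ((x - x0) / d)) * (deriv ang ((x - x0) / d) / d)) ^ 2 +
      (-(Real.sin (ang ((x - x0) / d)) * (deriv ang ((x - x0) / d) / d))) ^ 2 =
      (Real.sin (ang ((x - x0) / d)) ^ 2 + Real.cos (ang ((x - x0) / d)) ^ 2) *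
        (deriv ang ((x - x0) / d) ^ 2 / d ^ 2) := by
    ring
  rw [h2, this, one_mul]

end two

end Pool.Agent.Work.MP_33c50c_an.H54
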