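import Pool.Agent.Work.MP_33c50c_an.H54.Bes

/-!
# Dirichlet eigenvalues on the flat cylinder
-/

set_option autoImplicit false

open MeasureTheory Set Filter Topology Real

noncomputable section

namespace Pool.Agent.Work.MP_33c50c_an.H54

instance factPi : Fact (0 < 2 * π) := ⟨Real.two_pi_pos⟩

/-- The flat cylinder `S^1 x R`, the circle having length `2 pi`. -/
abbrev Cyl : Type := AddCircle (2 * π) × ℝ

/-- The covering map. -/
def cover (p : ℝ × ℝ) : Cyl := ((p.1 : AddCircle (2 * π)), p.2)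

/-- A function on the cylinder, as a function on the plane. -/
def lift (u : Cyl → ℝ) (p : ℝ × ℝ) : ℝ := u (cover p)

/-- Smooth functions on the cylinder with compact support inside `Om`. -/
structure IsTest (Om : Set Cyl) (u : Cyl → ℝ) : Prop where
  smooth : ContDiff ℝ ((⊤ : ℕ∞) : WithTop ℕ∞) (lift u)
  compact : HasCompactSupport u
  supp : tsupport u ⊆ Om

/-- Squared norm of a function on the cylinder. -/
def mass (u : Cyl → ℝ) : ℝ := ∫ p in Ioc 0 (2 * π) ×ˢ univ, lift u p ^ 2

/-- Squared norm of the gradient of a function on the cylinder. -/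
def energy (u : Cyl → ℝ) : ℝ :=
  ∫ p in Ioc 0 (2 * π) ×ˢ univ,
    (fderiv ℝ (lift u) p (1, 0)) ^ 2 + (fderiv ℝ (lift u) p (0, 1)) ^ 2

/-- The numbers `L` for which there is a `k`-dimensional space of test functions with
Rayleigh quotients at most `L`. -/
def Adm (Om : Set Cyl) (k : ℕ) : Set ℝ :=
  {L | ∃ u : Fin k → Cyl → ℝ, (∀ j, IsTest Om (u j)) ∧ LinearIndependent ℝ u ∧
    ∀ c : Fin k → ℝ, energy (∑ j, c j • u j) ≤ L * mass (∑ j, c j • u j)}

/-- The `k`-th Dirichlet eigenvalue (min-max formula). -/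
def ev (Om : Set Cyl) (k : ℕ) : ℝ := sInf (Adm Om k)

theorem cover_cont : Continuous cover :=
  ((AddCircle.continuous_mk' (2 * π)).comp continuous_fst).prodMk continuous_snd

theorem cover_surj : Function.Surjective cover := by
  rintro ⟨x, y⟩
  obtain ⟨x', rfl⟩ := QuotientAddGroup.mk_surjective x
  exact ⟨(x', y), rfl⟩

theorem cover_per (x y : ℝ) : cover (x + 2 * π, y) = cover (x, y) := by
  unfold cover
  simp only [AddCircle.coe_add_period]

theorem lift_smul (c : ℝ) (u : Cyl → ℝ) : lift (c • u) = fun p => c * lift u p := by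
  funext p
  simp [lift]

theorem lift_add (u v : Cyl → ℝ) : lift (u + v) = fun p => lift u p + lift v p := by
  funext p
  simp [lift]

theorem lift_sum {k : ℕ} (c : Fin k → ℝ) (u : Fin k → Cyl → ℝ) :
    lift (∑ j, c j • u j) = fun p => ∑ j, c j * lift (u j) p := by
  funext p
  simp [lift]

theorem restrict_eq : (volume : Measure (ℝ × ℝ)).restrict (Ioc 0 (2 * π) ×ˢ univ) = mu := by
  rw [Measure.volume_eq_prod, ← Measure.prod_restrict, Measure.restrict_univ, mu]

theorem mass_eq (u : Cyl → ℝ) : mass u = ∫ p, lift u p ^ 2 ∂mu := by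
  rw [mass, restrict_eq]

theorem energy_eq (u : Cyl → ℝ) : energy u = en (lift u) := by
  rw [energy, restrict_eq]
  rfl

theorem en_zero : en (fun _ => 0) = 0 := by
  unfold en
  have : ∀ p, dx (fun _ => (0 : ℝ)) p ^ 2 + dy (fun _ => (0 : ℝ)) p ^ 2 = 0 := by
    intro p
    unfold dx dy
    simp
  simp [this]

namespace IsTest

variable {Om : Set Cyl} {u v : Cyl → ℝ}

theorem tst (h : IsTest Om u) : Tst (lift u) := by
  refine ⟨h.smooth, fun x y => ?_, ?_⟩
  · unfold lift
    rw [cover_per]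
  · obtain ⟨R, hR⟩ := (h.compact.isCompact.image continuous_snd).isBounded.subset_closedBall 0
    refine ⟨R + 1, fun x y hy => ?_⟩
    by_contra hne
    have h1 : cover (x, y) ∈ tsupport u := subset_tsupport _ hne
    have h2 := hR (mem_image_of_mem Prod.snd h1)
    rw [mem_closedBall_zero_iff, Real.norm_eq_abs] at h2
    have h3 : |y| ≤ R := h2
    linarith

theorem add (h : IsTest Om u) (h' : IsTest Om v) : IsTest Om (u + v) := by
  refine ⟨?_, h.compact.add h'.compact, (tsupport_add u v).trans (union_subset h.supp h'.supp)⟩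
  rw [lift_add]
  exact h.smooth.add h'.smooth

theorem smul (h : IsTest Om u) (c : ℝ) : IsTest Om (c • u) := by
  refine ⟨?_, h.compact.smul_left (f := fun _ => c), (tsupport_smul_subset_right (fun _ => c) u).trans h.supp⟩
  rw [lift_smul]
  exact contDiff_const.mul h.smooth

theorem zero : IsTest Om (0 : Cyl → ℝ) := by
  refine ⟨?_, HasCompactSupport.zero, ?_⟩
  · exact contDiff_const
  · simp

theorem mono {Om' : Set Cyl} (h : IsTest Om u) (hs : Om ⊆ Om') : IsTest Om' u :=
  ⟨h.smooth, h.compact, h.supp.trans hs⟩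

theorem sum {k : ℕ} {u : Fin k → Cyl → ℝ} (h : ∀ j, IsTest Om (u j)) (c : Fin k → ℝ) :
    IsTest Om (∑ j, c j • u j) := by
  classical
  have : ∀ s : Finset (Fin k), IsTest Om (∑ j ∈ s, c j • u j) := by
    intro s
    induction s using Finset.induction_on with
    | empty => simpa using zero
    | insert a s ha ih =>
      rw [Finset.sum_insert ha]
      exact ((h a).smul (c a)).add ih
  exact this _

end IsTest

/-- The space of test functions. -/
def tests (Om : Set Cyl) : Submodule ℝ (Cyl → ℝ) where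
  carrier := {u | IsTest Om u}
  add_mem' := IsTest.add
  zero_mem' := IsTest.zero
  smul_mem' c _ h := h.smul c

theorem Tst.mass_pos {U : ℝ × ℝ → ℝ} (h : Tst U) {p : ℝ × ℝ} (hp : U p ≠ 0) :
    0 < ∫ p, U p ^ 2 ∂mu := by
  -- move the point into the fundamental domain
  have hper : Function.Periodic (fun x => U (x, p.2)) (2 * π) := fun x => h.per x p.2
  obtain ⟨x, hx, hx'⟩ := hper.exists_mem_Ioc (by positivity) p.1 0
  rw [zero_add] at hx
  have hne : U (x, p.2) ≠ 0 := by rw [← hx']; exact hp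
  -- move it into the interior
  have hopen : IsOpen {q : ℝ × ℝ | U q ≠ 0} := isOpen_ne.preimage h.cont
  have hmem : (x, p.2) ∈ closure (Ioo 0 (2 * π) ×ˢ (univ : Set ℝ)) := by
    rw [closure_prod_eq, closure_Ioo (by positivity), closure_univ]
    exact ⟨⟨hx.1.le, hx.2⟩, mem_univ _⟩
  obtain ⟨q, hq1, hq2⟩ := mem_closure_iff.1 hmem _ hopen hne
  have hO : IsOpen (Ioo 0 (2 * π) ×ˢ (univ : Set ℝ)) := isOpen_Ioo.prod isOpen_univ
  rw [integral_pos_iff_support_of_nonneg (fun p => sq_nonneg _) h.integrable_sq]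
  have hsub : {q : ℝ × ℝ | U q ≠ 0} ∩ Ioo 0 (2 * π) ×ˢ (univ : Set ℝ) ⊆
      Function.support fun p => U p ^ 2 := by
    rintro r ⟨hr, _⟩
    exact pow_ne_zero 2 hr
  refine lt_of_lt_of_le ?_ (measure_mono hsub)
  rw [← restrict_eq, Measure.restrict_apply (hopen.inter hO).measurableSet]
  have hsub2 : {q : ℝ × ℝ | U q ≠ 0} ∩ Ioo 0 (2 * π) ×ˢ (univ : Set ℝ) ⊆
      ({q : ℝ × ℝ | U q ≠ 0} ∩ Ioo 0 (2 * π) ×ˢ (univ : Set ℝ)) ∩
        Ioc 0 (2 * π) ×ˢ (univ : Set ℝ) := by
    rintro r ⟨hr, hr'⟩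
    exact ⟨⟨hr, hr'⟩, ⟨Ioo_subset_Ioc_self hr'.1, hr'.2⟩⟩
  refine lt_of_lt_of_le ?_ (measure_mono hsub2)
  exact (hopen.inter hO).measure_pos _ ⟨q, hq1, hq2⟩

end Pool.Agent.Work.MP_33c50c_an.H54
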