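import Pool.Agent.Work.MP_33c50c_an.H54.Planch

/-!
# Fourier transform of derivatives on the flat cylinder
-/

set_option autoImplicit false

open MeasureTheory Set Filter Topology Real

noncomputable section

namespace Pool.Agent.Work.MP_33c50c_an.H54

namespace Tst

variable {U : ℝ × ℝ → ℝ}

theorem hasDerivAt_x (h : Tst U) (x y : ℝ) :
    HasDerivAt (fun x => U (x, y)) (H54.dx U (x, y)) x := by
  have h1 : HasDerivAt (fun x : ℝ => ((x, y) : ℝ × ℝ)) (1, 0) x :=
    (hasDerivAt_id x).prodMk (hasDerivAt_const x y)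
  exact (h.diff (x, y)).hasFDerivAt.comp_hasDerivAt x h1

theorem hasDerivAt_y (h : Tst U) (x y : ℝ) :
    HasDerivAt (fun y => U (x, y)) (H54.dy U (x, y)) y := by
  have h1 : HasDerivAt (fun y : ℝ => ((x, y) : ℝ × ℝ)) (0, 1) y :=
    (hasDerivAt_const y x).prodMk (hasDerivAt_id y)
  exact (h.diff (x, y)).hasFDerivAt.comp_hasDerivAt y h1

theorem ph_hasDerivAt_x (n : ℤ) (w x y : ℝ) :
    HasDerivAt (fun x => ph n w (x, y)) (Complex.I * n * ph n w (x, y)) x := by
  unfold ph
  have h1 : HasDerivAt (fun x : ℝ => ((n * x + 2 * π * w * y : ℝ) : ℂ) * Complex.I)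
      (((n : ℝ) : ℂ) * Complex.I) x := by
    have h2 : HasDerivAt (fun x : ℝ => (n * x + 2 * π * w * y : ℝ)) (n : ℝ) x := by
      simpa using ((hasDerivAt_id x).const_mul (n : ℝ)).add_const (2 * π * w * y)
    exact h2.ofReal_comp.mul_const _
  convert! h1.cexp using 1
  simp only [Complex.ofReal_intCast]
  ring

theorem ph_hasDerivAt_y (n : ℤ) (w x y : ℝ) :
    HasDerivAt (fun y => ph n w (x, y)) (Complex.I * (2 * π * w : ℝ) * ph n w (x, y)) y := by
  unfold ph
  have h1 : HasDerivAt (fun y : ℝ => ((n * x + 2 * π * w * y : ℝ) : ℂ) * Complex.I)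
      (((2 * π * w : ℝ) : ℂ) * Complex.I) y := by
    have h2 : HasDerivAt (fun y : ℝ => (n * x + 2 * π * w * y : ℝ)) (2 * π * w : ℝ) y := by
      simpa using ((hasDerivAt_id y).const_mul (2 * π * w : ℝ)).const_add ((n : ℝ) * x)
    exact h2.ofReal_comp.mul_const _
  convert! h1.cexp using 1
  ring

theorem ph_per (n : ℤ) (w y : ℝ) : ph n w (2 * π, y) = ph n w (0, y) := by
  unfold ph
  have h1 : (((n * (2 * π) + 2 * π * w * y : ℝ) : ℂ) * Complex.I) =
      ((n * 0 + 2 * π * w * y : ℝ) : ℂ) * Complex.I + n * (2 * π * Complex.I) := by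
    push_cast; ring
  dsimp only
  rw [h1, Complex.exp_add, Complex.exp_int_mul_two_pi_mul_I, mul_one]

theorem hat_dx (h : Tst U) (n : ℤ) (w : ℝ) :
    hat (H54.dx U) n w = Complex.I * n * hat U n w := by
  have h1 := h.dx.integrable_ph (-n) (-w)
  have h2 := h.integrable_ph (-n) (-w)
  unfold hat
  unfold mu at h1 h2 ⊢
  rw [integral_prod_symm _ h1, integral_prod_symm _ h2, ← integral_const_mul]
  refine integral_congr_ae (Eventually.of_forall fun y => ?_)
  dsimp only
  rw [← intervalIntegral.integral_of_le (by positivity),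
    ← intervalIntegral.integral_of_le (by positivity)]
  have hU : Continuous fun x : ℝ => U (x, y) := h.cont.comp (by fun_prop)
  have hU' : Continuous fun x : ℝ => H54.dx U (x, y) := h.dx.cont.comp (by fun_prop)
  have hp : Continuous fun x : ℝ => ph (-n) (-w) (x, y) := (ph_cont _ _).comp (by fun_prop)
  have hpd : Continuous fun x : ℝ => Complex.I * ((-n : ℤ) : ℂ) * ph (-n) (-w) (x, y) :=
    continuous_const.mul hp
  have h3 := intervalIntegral.integral_mul_deriv_eq_deriv_mul (a := 0) (b := 2 * π)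
    (u := fun x : ℝ => ph (-n) (-w) (x, y))
    (u' := fun x : ℝ => Complex.I * ((-n : ℤ) : ℂ) * ph (-n) (-w) (x, y))
    (v := fun x : ℝ => (U (x, y) : ℂ)) (v' := fun x : ℝ => (H54.dx U (x, y) : ℂ))
    (fun x _ => ph_hasDerivAt_x (-n) (-w) x y) (fun x _ => (h.hasDerivAt_x x y).ofReal_comp)
    (hpd.intervalIntegrable _ _) ((Complex.continuous_ofReal.comp hU').intervalIntegrable _ _)
  have h4 : U (2 * π, y) = U (0, y) := by
    have := h.per 0 y
    rwa [zero_add] at this
  rw [ph_per, h4, sub_self, zero_sub] at h3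
  calc ∫ x in (0 : ℝ)..(2 * π), (H54.dx U (x, y) : ℂ) * ph (-n) (-w) (x, y)
      = ∫ x in (0 : ℝ)..(2 * π), ph (-n) (-w) (x, y) * (H54.dx U (x, y) : ℂ) := by
        simp only [mul_comm]
    _ = - ∫ x in (0 : ℝ)..(2 * π), Complex.I * ((-n : ℤ) : ℂ) * ph (-n) (-w) (x, y) *
          (U (x, y) : ℂ) := h3
    _ = Complex.I * n * ∫ x in (0 : ℝ)..(2 * π), (U (x, y) : ℂ) * ph (-n) (-w) (x, y) := by
        rw [← intervalIntegral.integral_neg, ← intervalIntegral.integral_const_mul]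
        refine intervalIntegral.integral_congr fun x _ => ?_
        push_cast
        ring

theorem hat_dy (h : Tst U) (n : ℤ) (w : ℝ) :
    hat (H54.dy U) n w = Complex.I * (2 * π * w : ℝ) * hat U n w := by
  have h1 := h.dy.integrable_ph (-n) (-w)
  have h2 := h.integrable_ph (-n) (-w)
  unfold hat
  unfold mu at h1 h2 ⊢
  rw [integral_prod _ h1, integral_prod _ h2, ← integral_const_mul]
  refine integral_congr_ae (Eventually.of_forall fun x => ?_)
  dsimp only
  obtain ⟨R, hR⟩ := h.bdd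
  obtain ⟨R', hR'⟩ := h.dy.bdd
  have hU : Continuous fun y : ℝ => (U (x, y) : ℂ) :=
    Complex.continuous_ofReal.comp (h.cont.comp (by fun_prop))
  have hU' : Continuous fun y : ℝ => (H54.dy U (x, y) : ℂ) :=
    Complex.continuous_ofReal.comp (h.dy.cont.comp (by fun_prop))
  have hp : Continuous fun y : ℝ => ph (-n) (-w) (x, y) := (ph_cont _ _).comp (by fun_prop)
  have hs : HasCompactSupport fun y : ℝ => (U (x, y) : ℂ) := h.slice_supp x
  have hs' : HasCompactSupport fun y : ℝ => (H54.dy U (x, y) : ℂ) := h.dy.slice_supp x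
  have h3 := integral_mul_deriv_eq_deriv_mul_of_integrable
    (u := fun y : ℝ => ph (-n) (-w) (x, y))
    (u' := fun y : ℝ => Complex.I * (2 * π * (-w) : ℝ) * ph (-n) (-w) (x, y))
    (v := fun y : ℝ => (U (x, y) : ℂ)) (v' := fun y : ℝ => (H54.dy U (x, y) : ℂ))
    (fun y _ => ph_hasDerivAt_y (-n) (-w) x y) (fun y _ => (h.hasDerivAt_y x y).ofReal_comp)
    ((hp.mul hU').integrable_of_hasCompactSupport hs'.mul_left)
    (((continuous_const.mul hp).mul hU).integrable_of_hasCompactSupport hs.mul_left)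
    ((hp.mul hU).integrable_of_hasCompactSupport hs.mul_left)
  calc ∫ y : ℝ, (H54.dy U (x, y) : ℂ) * ph (-n) (-w) (x, y)
      = ∫ y : ℝ, ph (-n) (-w) (x, y) * (H54.dy U (x, y) : ℂ) := by
        simp only [mul_comm]
    _ = - ∫ y : ℝ, Complex.I * (2 * π * (-w) : ℝ) * ph (-n) (-w) (x, y) * (U (x, y) : ℂ) := h3
    _ = Complex.I * (2 * π * w : ℝ) * ∫ y : ℝ, (U (x, y) : ℂ) * ph (-n) (-w) (x, y) := by
        rw [← integral_neg, ← integral_const_mul]
        refine integral_congr_ae (Eventually.of_forall fun y => ?_)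
        dsimp only
        push_cast
        ring

/-- Energy. -/
def _root_.Pool.Agent.Work.MP_33c50c_an.H54.en (U : ℝ × ℝ → ℝ) : ℝ :=
  ∫ p, (H54.dx U p ^ 2 + H54.dy U p ^ 2) ∂mu

theorem aux (c z : ℂ) (r : ℝ) (h : ‖c‖ ^ 2 = r) :
    ENNReal.ofReal r * ‖z‖ₑ ^ 2 = ‖c * z‖ₑ ^ 2 := by
  rw [enorm_mul, mul_pow, ← h, ENNReal.ofReal_pow (norm_nonneg _), ofReal_norm]

/-- **Plancherel for the gradient.** -/
theorem planch_en (h : Tst U) :
    ∫⁻ z, ENNReal.ofReal ((z.1 : ℝ) ^ 2 + (2 * π * z.2) ^ 2) * ‖hat U z.1 z.2‖ₑ ^ 2 ∂nu =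
      ENNReal.ofReal (2 * π * en U) := by
  have h1 : ∀ z : ℤ × ℝ, ENNReal.ofReal ((z.1 : ℝ) ^ 2 + (2 * π * z.2) ^ 2) *
      ‖hat U z.1 z.2‖ₑ ^ 2 = ‖hat (H54.dx U) z.1 z.2‖ₑ ^ 2 + ‖hat (H54.dy U) z.1 z.2‖ₑ ^ 2 := by
    intro z
    rw [h.hat_dx, h.hat_dy, ENNReal.ofReal_add (by positivity) (by positivity), add_mul]
    congr 1
    · refine aux _ _ _ ?_
      rw [norm_mul, Complex.norm_I, one_mul, Complex.norm_intCast, sq_abs]
    · refine aux _ _ _ ?_
      rw [norm_mul, Complex.norm_I, one_mul, Complex.norm_real, Real.norm_eq_abs, sq_abs]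
  simp only [h1]
  rw [lintegral_add_left (h.dx.hat_meas.enorm.pow_const 2), h.dx.planch, h.dy.planch, en,
    integral_add h.dx.integrable_sq h.dy.integrable_sq, mul_add, ENNReal.ofReal_add]
  · exact mul_nonneg (by positivity) (integral_nonneg fun p => by positivity)
  · exact mul_nonneg (by positivity) (integral_nonneg fun p => by positivity)

end Tst

end Pool.Agent.Work.MP_33c50c_an.H54
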