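import Pool.Agent.Work.MP_33c50c_an.H54.Plane
import Pool.Agent.Work.MP_33c50c_an.H54.Forms

/-!
# Embedding small planar sets into the cylinder
-/

set_option autoImplicit false

open MeasureTheory Set Filter Topology Real

noncomputable section

namespace Pool.Agent.Work.MP_33c50c_an.H54

/-- The representative in the fundamental domain. -/
def rep (z : Cyl) : ℝ × ℝ := ((AddCircle.equivIoc (2 * π) 0 z.1 : ℝ), z.2)

theorem rep_cover {p : ℝ × ℝ} (hp : p.1 ∈ Ioc 0 (2 * π)) : rep (cover p) = p := by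
  unfold rep cover
  have h : p.1 ∈ Ioc 0 (0 + 2 * π) := by rwa [zero_add]
  exact Prod.ext (AddCircle.equivIoc_coe_of_mem (p := 2 * π) (a := 0) h) rfl

theorem cover_rep (z : Cyl) : cover (rep z) = z := by
  unfold rep cover
  rw [AddCircle.coe_equivIoc]

/-- A planar function pushed to the cylinder. -/
def push (f : ℝ × ℝ → ℝ) (z : Cyl) : ℝ := f (rep z)

theorem lift_push {f : ℝ × ℝ → ℝ} {p : ℝ × ℝ} (hp : p.1 ∈ Ioc 0 (2 * π)) :
    lift (push f) p = f p := by
  unfold lift push
  rw [rep_cover hp]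

/-- The open fundamental strip. -/
def fund : Set (ℝ × ℝ) := Ioo 0 (2 * π) ×ˢ univ

theorem fund_open : IsOpen fund := isOpen_Ioo.prod isOpen_univ

variable {V : Set (ℝ × ℝ)} {f : ℝ × ℝ → ℝ}

theorem margin (hV : V ⊆ fund) (h : IsTestP V f) :
    ∃ a : ℝ, 0 < a ∧ ∀ p, f p ≠ 0 → p.1 ∈ Icc a (2 * π - a) := by
  obtain ⟨a, ha, hsub⟩ := h.compact.isCompact.exists_thickening_subset_open fund_open
    (h.supp.trans hV)
  refine ⟨a / 2, by positivity, fun p hp => ?_⟩
  have hp' : p ∈ tsupport f := subset_tsupport _ hp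
  have h1 : (p.1 - a / 2, p.2) ∈ fund := by
    refine hsub (Metric.mem_thickening_iff.2 ⟨p, hp', ?_⟩)
    rw [Prod.dist_eq, max_lt_iff, Real.dist_eq, Real.dist_eq]
    constructor
    · dsimp only
      rw [show p.1 - a / 2 - p.1 = -(a / 2) by ring, abs_neg, abs_of_pos (by positivity)]
      linarith
    · simpa using ha
  have h2 : (p.1 + a / 2, p.2) ∈ fund := by
    refine hsub (Metric.mem_thickening_iff.2 ⟨p, hp', ?_⟩)
    rw [Prod.dist_eq, max_lt_iff, Real.dist_eq, Real.dist_eq]
    constructor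
    · dsimp only
      rw [show p.1 + a / 2 - p.1 = a / 2 by ring, abs_of_pos (by positivity)]
      linarith
    · simpa using ha
  have h3 := h1.1.1
  have h4 := h2.1.2
  dsimp only at h3 h4
  exact ⟨by linarith, by linarith⟩

theorem push_near (hV : V ⊆ fund) (h : IsTestP V f) {p : ℝ × ℝ} (hp : p.1 ∈ Ioc 0 (2 * π)) :
    lift (push f) =ᶠ[𝓝 p] f := by
  obtain ⟨a, ha, hmar⟩ := margin hV h
  rcases hp.2.lt_or_eq with h1 | h1
  · filter_upwards [continuous_fst.continuousAt.eventually (Ioo_mem_nhds hp.1 h1)] with q hq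
    exact lift_push ⟨hq.1, hq.2.le⟩
  · filter_upwards [continuous_fst.continuousAt.eventually (Ioo_mem_nhds
      (show max (2 * π - a) 0 < p.1 by
        rw [h1, max_lt_iff]; exact ⟨by linarith, by positivity⟩)
      (show p.1 < 2 * π + min a (2 * π) by
        rw [h1]; linarith [lt_min ha (show (0 : ℝ) < 2 * π by positivity)]))] with q hq
    obtain ⟨hq1, hq2⟩ := hq
    have hqa : 2 * π - a < q.1 := lt_of_le_of_lt (le_max_left _ _) hq1
    have hq0 : 0 < q.1 := lt_of_le_of_lt (le_max_right _ _) hq1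
    have hfq : f q = 0 := by
      by_contra hne
      have := (hmar q hne).2
      linarith
    rcases le_or_gt q.1 (2 * π) with h2 | h2
    · exact lift_push ⟨hq0, h2⟩
    · have h3 : q.1 - 2 * π ∈ Ioc 0 (2 * π) := by
        constructor
        · linarith
        · have := min_le_right a (2 * π)
          linarith
      have h4 : lift (push f) q = lift (push f) (q.1 - 2 * π, q.2) := by
        unfold lift
        have := cover_per (q.1 - 2 * π) q.2
        rw [sub_add_cancel] at this
        rw [← this]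
      rw [hfq, h4, lift_push h3]
      by_contra hne
      have h5 := (hmar _ hne).1
      dsimp only at h5
      have := min_le_left a (2 * π)
      linarith

theorem cover_zsmul (m : ℤ) (q : ℝ × ℝ) : cover (q + ((m : ℝ) * (2 * π), 0)) = cover q := by
  have hper : Function.Periodic (fun x => cover (x, q.2)) (2 * π) := fun x => cover_per x q.2
  have h1 := hper.zsmul m q.1
  have h2 : q + ((m : ℝ) * (2 * π), 0) = (q.1 + m • (2 * π), q.2) := by
    ext
    · simp
    · simp
  rw [h2]
  exact h1

theorem push_smooth (hV : V ⊆ fund) (h : IsTestP V f) :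
    ContDiff ℝ ((⊤ : ℕ∞) : WithTop ℕ∞) (lift (push f)) := by
  rw [contDiff_iff_contDiffAt]
  intro p
  obtain ⟨m, hm, -⟩ := existsUnique_add_zsmul_mem_Ioc (show (0 : ℝ) < 2 * π by positivity) p.1 0
  rw [zero_add, zsmul_eq_mul] at hm
  have h1 : lift (push f) = fun q => lift (push f) (q + ((m : ℝ) * (2 * π), 0)) := by
    funext q
    unfold lift
    rw [cover_zsmul]
  rw [h1]
  have h2 : ContDiffAt ℝ ((⊤ : ℕ∞) : WithTop ℕ∞) (lift (push f))
      (p + ((m : ℝ) * (2 * π), 0)) := by
    refine ContDiffAt.congr_of_eventuallyEq h.smooth.contDiffAt (push_near hV h ?_)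
    simpa using hm
  have h3 : ContDiffAt ℝ ((⊤ : ℕ∞) : WithTop ℕ∞)
      (fun q : ℝ × ℝ => q + ((m : ℝ) * (2 * π), 0)) p := contDiffAt_id.add contDiffAt_const
  exact ContDiffAt.comp (g := lift (push f)) p h2 h3

theorem push_test (hV : V ⊆ fund) (h : IsTestP V f) : IsTest (cover '' V) (push f) := by
  have hK : IsCompact (cover '' tsupport f) := h.compact.isCompact.image cover_cont
  have hs : Function.support (push f) ⊆ cover '' tsupport f := by
    intro z hz
    exact ⟨rep z, subset_tsupport _ hz, cover_rep z⟩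
  exact ⟨push_smooth hV h, HasCompactSupport.of_support_subset_isCompact hK hs,
    (closure_minimal hs hK.isClosed).trans (image_mono h.supp)⟩

theorem push_mass (hV : V ⊆ fund) (h : IsTestP V f) : mass (push f) = massP f := by
  unfold mass massP
  rw [setIntegral_congr_fun (g := fun p => f p ^ 2) (measurableSet_Ioc.prod MeasurableSet.univ)
    (fun p hp => by dsimp only; rw [lift_push hp.1])]
  refine setIntegral_eq_integral_of_forall_compl_eq_zero fun p hp => ?_
  have : f p = 0 := by
    by_contra hne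
    have h1 : p ∈ fund := hV (h.supp (subset_tsupport _ hne))
    exact hp ⟨⟨h1.1.1, h1.1.2.le⟩, mem_univ _⟩
  rw [this]
  simp

theorem push_energy (hV : V ⊆ fund) (h : IsTestP V f) : energy (push f) = energyP f := by
  unfold energy energyP
  rw [setIntegral_congr_fun
    (g := fun p => fderiv ℝ f p (1, 0) ^ 2 + fderiv ℝ f p (0, 1) ^ 2)
    (measurableSet_Ioc.prod MeasurableSet.univ)
    (fun p hp => by dsimp only; rw [(push_near hV h hp.1).fderiv_eq])]
  refine setIntegral_eq_integral_of_forall_compl_eq_zero fun p hp => ?_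
  have h0 : fderiv ℝ f p = 0 := by
    by_contra hne
    have h2 : p ∈ tsupport (fderiv ℝ f) := subset_tsupport _ hne
    have h1 : p ∈ fund := hV (h.supp (tsupport_fderiv_subset ℝ h2))
    exact hp ⟨⟨h1.1.1, h1.1.2.le⟩, mem_univ _⟩
  rw [h0]
  simp

theorem push_sum {k : ℕ} (c : Fin k → ℝ) (v : Fin k → ℝ × ℝ → ℝ) :
    ∑ j, c j • push (v j) = push (∑ j, c j • v j) := by
  funext z
  simp [push]

theorem adm_embed (hV : V ⊆ fund) {k : ℕ} {L : ℝ} (hL : L ∈ AdmP V k) :
    L ∈ Adm (cover '' V) k := by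
  obtain ⟨v, hv1, hv2, hv3⟩ := hL
  refine ⟨fun j => push (v j), fun j => push_test hV (hv1 j), ?_, fun c => ?_⟩
  · rw [Fintype.linearIndependent_iff]
    intro c hc
    rw [push_sum] at hc
    have h1 := push_mass hV (IsTestP.sum hv1 c)
    rw [hc] at h1
    have h2 : massP (∑ j, c j • v j) = 0 := by
      rw [← h1]
      simp [mass, lift]
    have h3 : (∑ j, c j • v j) = 0 := by
      by_contra h0
      exact ((IsTestP.sum hv1 c).mass_pos h0).ne' h2
    exact (Fintype.linearIndependent_iff.1 hv2) c h3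
  · rw [push_sum, push_mass hV (IsTestP.sum hv1 c), push_energy hV (IsTestP.sum hv1 c)]
    exact hv3 c

theorem ev_embed (hO : IsOpen V) (hne : V.Nonempty) (hV : V ⊆ fund) {k : ℕ} (hk : 0 < k) :
    ev (cover '' V) k ≤ evP V k :=
  csInf_le_csInf (adm_bddBelow _ hk) (admP_nonempty hO hne k) fun _ h => adm_embed hV h

theorem cover_open : IsOpenMap cover := by
  have h1 : IsOpenMap (fun x : ℝ => (x : AddCircle (2 * π))) := QuotientAddGroup.isOpenMap_coe
  exact h1.prodMap IsOpenMap.id

theorem embed_area (hO : IsOpen V) (hV : V ⊆ fund) : volume (cover '' V) = volume V := by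
  have hO' : IsOpen (cover '' V) := cover_open V hO
  rw [← mu_cover hO'.measurableSet, ← restrict_eq,
    Measure.restrict_apply (hO'.preimage cover_cont).measurableSet]
  congr 1
  ext p
  constructor
  · rintro ⟨⟨q, hq, hqp⟩, hp⟩
    have hq' : q.1 ∈ Ioc 0 (2 * π) := ⟨(hV hq).1.1, (hV hq).1.2.le⟩
    have h1 : rep (cover q) = rep (cover p) := by rw [hqp]
    rw [rep_cover hq', rep_cover hp.1] at h1
    rw [← h1]
    exact hq
  · intro hp
    exact ⟨mem_image_of_mem _ hp, ⟨(hV hp).1.1, (hV hp).1.2.le⟩, mem_univ _⟩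

end Pool.Agent.Work.MP_33c50c_an.H54
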