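import Pool.Agent.Work.MP_33c50c_an.H54.Plane

/-!
# An elementary Faber-Krahn type inequality in the plane
-/

set_option autoImplicit false

open MeasureTheory Set Filter Topology Real

noncomputable section

namespace Pool.Agent.Work.MP_33c50c_an.H54

variable {W : Set (ℝ × ℝ)} {v : ℝ × ℝ → ℝ}

theorem IsTestP.fderiv_off (h : IsTestP W v) {p : ℝ × ℝ} (hp : p ∉ W) (e : ℝ × ℝ) :
    fderiv ℝ v p e = 0 := by
  have h0 : fderiv ℝ v p = 0 := by
    by_contra hne
    have h2 : p ∈ tsupport (fderiv ℝ v) := subset_tsupport _ hne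
    exact hp (h.supp (tsupport_fderiv_subset ℝ h2))
  rw [h0]
  rfl

theorem line_bound_x (h : IsTestP W v) (x y : ℝ) :
    ‖v (x, y)‖ₑ ≤ ∫⁻ t, ‖fderiv ℝ v (t, y) (1, 0)‖ₑ := by
  have hd : ∀ t, HasDerivAt (fun t => v (t, y)) (fderiv ℝ v (t, y) (1, 0)) t := by
    intro t
    have h1 : HasDerivAt (fun t : ℝ => (t, y)) ((1 : ℝ), (0 : ℝ)) t :=
      (hasDerivAt_id t).prodMk (hasDerivAt_const t y)
    exact (h.diff (t, y)).hasFDerivAt.comp_hasDerivAt t h1
  have hs : ContDiff ℝ 1 fun t : ℝ => v (t, y) :=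
    (h.smooth.of_le (by simp)).comp (contDiff_id.prodMk contDiff_const)
  have hc : HasCompactSupport fun t : ℝ => v (t, y) := by
    refine HasCompactSupport.of_support_subset_isCompact
      (h.compact.isCompact.image continuous_fst) ?_
    intro t ht
    exact ⟨(t, y), subset_tsupport _ ht, rfl⟩
  refine (hc.enorm_le_lintegral_Ici_deriv hs x).trans ?_
  refine (setLIntegral_le_lintegral _ _).trans (lintegral_mono fun t => ?_)
  rw [(hd t).deriv]

theorem line_bound_y (h : IsTestP W v) (x y : ℝ) :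
    ‖v (x, y)‖ₑ ≤ ∫⁻ t, ‖fderiv ℝ v (x, t) (0, 1)‖ₑ := by
  have hd : ∀ t, HasDerivAt (fun t => v (x, t)) (fderiv ℝ v (x, t) (0, 1)) t := by
    intro t
    have h1 : HasDerivAt (fun t : ℝ => (x, t)) ((0 : ℝ), (1 : ℝ)) t :=
      (hasDerivAt_const t x).prodMk (hasDerivAt_id t)
    exact (h.diff (x, t)).hasFDerivAt.comp_hasDerivAt t h1
  have hs : ContDiff ℝ 1 fun t : ℝ => v (x, t) :=
    (h.smooth.of_le (by simp)).comp (contDiff_const.prodMk contDiff_id)
  have hc : HasCompactSupport fun t : ℝ => v (x, t) := by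
    refine HasCompactSupport.of_support_subset_isCompact
      (h.compact.isCompact.image continuous_snd) ?_
    intro t ht
    exact ⟨(x, t), subset_tsupport _ ht, rfl⟩
  refine (hc.enorm_le_lintegral_Ici_deriv hs y).trans ?_
  refine (setLIntegral_le_lintegral _ _).trans (lintegral_mono fun t => ?_)
  rw [(hd t).deriv]

/-- Gagliardo's inequality. -/
theorem gagliardo (h : IsTestP W v) :
    massP v ≤ (∫ p, |fderiv ℝ v p (1, 0)|) * ∫ p, |fderiv ℝ v p (0, 1)| := by
  have mx : Measurable fun p : ℝ × ℝ => ‖fderiv ℝ v p (1, 0)‖ₑ :=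
    (h.fderiv_cont (1, 0)).measurable.enorm
  have my : Measurable fun p : ℝ × ℝ => ‖fderiv ℝ v p (0, 1)‖ₑ :=
    (h.fderiv_cont (0, 1)).measurable.enorm
  have mv : Measurable fun p : ℝ × ℝ => ‖v p‖ₑ ^ 2 := h.cont.measurable.enorm.pow_const 2
  have ix : Integrable fun p => fderiv ℝ v p (1, 0) :=
    (h.fderiv_cont _).integrable_of_hasCompactSupport (h.fderiv_compact _)
  have iy : Integrable fun p => fderiv ℝ v p (0, 1) :=
    (h.fderiv_cont _).integrable_of_hasCompactSupport (h.fderiv_compact _)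
  have main : ∫⁻ p, ‖v p‖ₑ ^ 2 ≤ (∫⁻ p, ‖fderiv ℝ v p (1, 0)‖ₑ) *
      ∫⁻ p, ‖fderiv ℝ v p (0, 1)‖ₑ := by
    rw [Measure.volume_eq_prod, lintegral_prod _ mv.aemeasurable,
      lintegral_prod_symm _ mx.aemeasurable, lintegral_prod _ my.aemeasurable]
    calc ∫⁻ x, ∫⁻ y, ‖v (x, y)‖ₑ ^ 2
        ≤ ∫⁻ x, ∫⁻ y, (∫⁻ t, ‖fderiv ℝ v (x, t) (0, 1)‖ₑ) *
            ∫⁻ t, ‖fderiv ℝ v (t, y) (1, 0)‖ₑ := by
          refine lintegral_mono fun x => lintegral_mono fun y => ?_
          rw [_root_.sq]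
          exact mul_le_mul' (line_bound_y h x y) (line_bound_x h x y)
      _ = ∫⁻ x, (∫⁻ t, ‖fderiv ℝ v (x, t) (0, 1)‖ₑ) *
            ∫⁻ y, ∫⁻ t, ‖fderiv ℝ v (t, y) (1, 0)‖ₑ := by
          refine lintegral_congr fun x => ?_
          rw [lintegral_const_mul]
          exact mx.lintegral_prod_left'
      _ = (∫⁻ x, ∫⁻ t, ‖fderiv ℝ v (x, t) (0, 1)‖ₑ) *
            ∫⁻ y, ∫⁻ t, ‖fderiv ℝ v (t, y) (1, 0)‖ₑ := by
          rw [lintegral_mul_const]
          exact my.lintegral_prod_right'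
      _ = _ := mul_comm _ _
  have e1 : massP v = (∫⁻ p, ‖v p‖ₑ ^ 2).toReal := by
    rw [massP, integral_eq_lintegral_of_nonneg_ae (Eventually.of_forall fun p => sq_nonneg _)
      (h.cont.pow 2).aestronglyMeasurable]
    congr 1
    refine lintegral_congr fun p => ?_
    rw [← sq_abs, ← Real.norm_eq_abs, ENNReal.ofReal_pow (norm_nonneg _), ofReal_norm]
  have e2 : ∀ g : ℝ × ℝ → ℝ, Integrable g → ∫ p, |g p| = (∫⁻ p, ‖g p‖ₑ).toReal := by
    intro g hg
    have := integral_norm_eq_lintegral_enorm hg.aestronglyMeasurable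
    simpa only [Real.norm_eq_abs] using this
  rw [e1, e2 _ ix, e2 _ iy, ← ENNReal.toReal_mul]
  exact ENNReal.toReal_mono (ENNReal.mul_ne_top ix.2.ne iy.2.ne) main

/-- Cauchy-Schwarz on a set of finite measure. -/
theorem cs_set {S : Set (ℝ × ℝ)} (hS : MeasurableSet S) {a : ℝ} (ha : 0 < a)
    (hv : volume S ≤ ENNReal.ofReal a) {g : ℝ × ℝ → ℝ} (hg : Integrable g)
    (hg2 : Integrable fun p => g p ^ 2) (hoff : ∀ p, p ∉ S → g p = 0) :
    (∫ p, |g p|) ^ 2 ≤ a * ∫ p, g p ^ 2 := by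
  have hfin : volume S ≠ ⊤ := ne_top_of_le_ne_top ENNReal.ofReal_ne_top hv
  have hreal : (volume S).toReal ≤ a := by
    have := ENNReal.toReal_mono ENNReal.ofReal_ne_top hv
    rwa [ENNReal.toReal_ofReal ha.le] at this
  set I : ℝ := ∫ p, |g p| with hI
  set t : ℝ := I / a with ht
  have h0 : 0 ≤ ∫ p, (|g p| - t * S.indicator (fun _ => (1 : ℝ)) p) ^ 2 :=
    integral_nonneg fun p => sq_nonneg _
  have hind : Integrable (S.indicator fun _ : ℝ × ℝ => (1 : ℝ)) := by
    rw [integrable_indicator_iff hS]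
    exact integrableOn_const hfin
  have e1 : ∀ p, (|g p| - t * S.indicator (fun _ => (1 : ℝ)) p) ^ 2 =
      g p ^ 2 - 2 * t * |g p| + t ^ 2 * S.indicator (fun _ => (1 : ℝ)) p := by
    intro p
    by_cases hp : p ∈ S
    · rw [indicator_of_mem hp]
      have := sq_abs (g p)
      nlinarith
    · rw [indicator_of_notMem hp, hoff p hp]
      simp
  simp only [e1] at h0
  have i1 : Integrable fun p => g p ^ 2 - 2 * t * |g p| :=
    hg2.sub (hg.abs.const_mul _)
  rw [integral_add i1 (hind.const_mul _), integral_sub hg2 (hg.abs.const_mul _),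
    integral_const_mul, integral_const_mul, integral_indicator hS, setIntegral_const,
    smul_eq_mul, mul_one] at h0
  have h1 : t ^ 2 * (volume.real S) ≤ t ^ 2 * a := mul_le_mul_of_nonneg_left hreal (sq_nonneg _)
  have h2 : 0 ≤ (∫ p, g p ^ 2) - 2 * t * I + t ^ 2 * a := by linarith
  have h3 : 2 * t * I - t ^ 2 * a = I ^ 2 / a := by
    rw [ht]; field_simp; ring
  have h4 : I ^ 2 / a ≤ ∫ p, g p ^ 2 := by linarith
  rw [div_le_iff₀ ha] at h4
  linarith

/-- A Faber-Krahn type inequality. -/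
theorem fk (hW : IsOpen W) (h : IsTestP W v) {a : ℝ} (ha : 0 < a)
    (hv : volume W ≤ ENNReal.ofReal a) : 2 * massP v ≤ a * energyP v := by
  have ix : Integrable fun p => fderiv ℝ v p (1, 0) :=
    (h.fderiv_cont _).integrable_of_hasCompactSupport (h.fderiv_compact _)
  have iy : Integrable fun p => fderiv ℝ v p (0, 1) :=
    (h.fderiv_cont _).integrable_of_hasCompactSupport (h.fderiv_compact _)
  have hx := cs_set hW.measurableSet ha hv ix (h.int_dsq _) fun p hp => h.fderiv_off hp _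
  have hy := cs_set hW.measurableSet ha hv iy (h.int_dsq _) fun p hp => h.fderiv_off hp _
  have hg := gagliardo h
  set X := ∫ p, |fderiv ℝ v p (1, 0)|
  set Y := ∫ p, |fderiv ℝ v p (0, 1)|
  have e : energyP v = (∫ p, fderiv ℝ v p (1, 0) ^ 2) + ∫ p, fderiv ℝ v p (0, 1) ^ 2 :=
    integral_add (h.int_dsq _) (h.int_dsq _)
  rw [e]
  nlinarith [sq_nonneg (X - Y)]

end Pool.Agent.Work.MP_33c50c_an.H54
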