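import Pool.Agent.Work.MP_33c50c_an.H54.Forms
import Pool.Agent.Work.MP_33c50c_an.H54.Core

/-!
# Berezin-Li-Yau inequality for small domains of the cylinder
-/

set_option autoImplicit false

open MeasureTheory Set Filter Topology Real

noncomputable section

namespace Pool.Agent.Work.MP_33c50c_an.H54

theorem adm_mono {Om : Set Cyl} {j k : ℕ} (hjk : j ≤ k) : Adm Om k ⊆ Adm Om j := by
  rintro L ⟨u, hu1, hu2, hu3⟩
  refine ⟨fun i => u (Fin.castLE hjk i), fun i => hu1 _,
    hu2.comp _ (Fin.castLE_injective hjk), fun c => ?_⟩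
  set c' : Fin k → ℝ := fun i => if h : (i : ℕ) < j then c ⟨i, h⟩ else 0 with hc'
  have h1 : ∑ i, c i • u (Fin.castLE hjk i) = ∑ i, c' i • u i := by
    have h2 : ∀ i : Fin j, c i • u (Fin.castLE hjk i) =
        c' (Fin.castLE hjk i) • u (Fin.castLE hjk i) := by
      intro i
      have : c' (Fin.castLE hjk i) = c i := by
        simp only [hc', Fin.val_castLE, i.2, dif_pos]
      rw [this]
    rw [Finset.sum_congr rfl fun i _ => h2 i]
    rw [← Finset.sum_image (s := Finset.univ) (g := Fin.castLE hjk) (f := fun i => c' i • u i)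
      (fun a _ b _ h => Fin.castLE_injective hjk h)]
    refine Finset.sum_subset (Finset.subset_univ _) fun i _ hi => ?_
    have : ¬ (i : ℕ) < j := by
      intro h
      exact hi (Finset.mem_image.2 ⟨⟨i, h⟩, Finset.mem_univ _, Fin.ext rfl⟩)
    simp only [hc', this, dif_neg, not_false_iff, zero_smul]
  rw [h1]
  exact hu3 c'

theorem ev_mono {Om : Set Cyl} (hO : IsOpen Om) (hne : Om.Nonempty) {j k : ℕ} (hj : 0 < j)
    (hjk : j ≤ k) : ev Om j ≤ ev Om k :=
  csInf_le_csInf (adm_bddBelow Om hj) (adm_nonempty hO hne k) (adm_mono hjk)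

theorem vol_pos {Om : Set Cyl} (hO : IsOpen Om) (hne : Om.Nonempty) : 0 < volume Om := by
  rw [← mu_cover hO.measurableSet]
  obtain ⟨z, hz⟩ := hne
  obtain ⟨⟨x0, y0⟩, rfl⟩ := cover_surj z
  -- a representative in the closed fundamental domain
  have hper : Function.Periodic (fun x => cover (x, y0)) (2 * π) := fun x => cover_per x y0
  obtain ⟨x, hx, hx'⟩ := hper.exists_mem_Ioc (by positivity) x0 0
  rw [zero_add] at hx
  have hopen : IsOpen (cover ⁻¹' Om) := hO.preimage cover_cont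
  have hmem : (x, y0) ∈ closure (Ioo 0 (2 * π) ×ˢ (univ : Set ℝ)) := by
    rw [closure_prod_eq, closure_Ioo (by positivity), closure_univ]
    exact ⟨⟨hx.1.le, hx.2⟩, mem_univ _⟩
  have hin : (x, y0) ∈ cover ⁻¹' Om := by
    show cover (x, y0) ∈ Om
    rw [← hx']
    exact hz
  obtain ⟨q, hq1, hq2⟩ := mem_closure_iff.1 hmem _ hopen hin
  have hO' : IsOpen (Ioo 0 (2 * π) ×ˢ (univ : Set ℝ)) := isOpen_Ioo.prod isOpen_univ
  rw [← restrict_eq, Measure.restrict_apply hopen.measurableSet]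
  have hsub2 : cover ⁻¹' Om ∩ Ioo 0 (2 * π) ×ˢ (univ : Set ℝ) ⊆
      cover ⁻¹' Om ∩ Ioc 0 (2 * π) ×ˢ (univ : Set ℝ) := by
    rintro r ⟨hr, hr'⟩
    exact ⟨hr, ⟨Ioo_subset_Ioc_self hr'.1, hr'.2⟩⟩
  exact lt_of_lt_of_le ((hopen.inter hO').measure_pos _ ⟨q, hq1, hq2⟩) (measure_mono hsub2)

theorem sum_bound {Om : Set Cyl} (hO : IsOpen Om) (hne : Om.Nonempty)
    (hv : volume Om ≤ ENNReal.ofReal (1 / 10)) {k : ℕ} (hk : 0 < k) {L : ℕ → ℝ}
    (h : ∀ j < k, L j ∈ Adm Om (j + 1)) :
    2 * π * (k : ℝ) ^ 2 / (volume Om).toReal ≤ ∑ j ∈ Finset.range k, L j := by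
  obtain ⟨w, hw1, hw2, hw3⟩ := exists_ON h
  have hfin : volume Om ≠ ⊤ := ne_top_of_le_ne_top ENNReal.ofReal_ne_top hv
  have hS : MeasurableSet (cover ⁻¹' Om) := (hO.preimage cover_cont).measurableSet
  have ha0 : 0 < (volume Om).toReal := ENNReal.toReal_pos (vol_pos hO hne).ne' hfin
  have ha1 : (volume Om).toReal ≤ 1 / 10 := by
    have := ENNReal.toReal_mono ENNReal.ofReal_ne_top hv
    rwa [ENNReal.toReal_ofReal (by norm_num)] at this
  have h1 := bly hk hw2 hS
    (fun p => by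
      have : cover (p + (2 * π, 0)) = cover p := by
        have h2 : p + (2 * π, 0) = (p.1 + 2 * π, p.2) := by ext <;> simp
        rw [h2, cover_per p.1 p.2]
      rw [mem_preimage, mem_preimage, this])
    (fun j p hp => by
      by_contra hne'
      have h2 : cover p ∈ tsupport (w j) := subset_tsupport _ hne'
      exact hp ((hw1 j).supp h2))
    (a := (volume Om).toReal)
    (by rw [mu_cover hO.measurableSet, ENNReal.ofReal_toReal hfin]) ha0 ha1
  refine h1.trans ?_
  rw [← Fin.sum_univ_eq_sum_range (fun j => L j)]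
  refine Finset.sum_le_sum fun j _ => ?_
  rw [← energy_eq]
  exact hw3 j

/-- **Averaged Polya inequality** for all domains of area at most `1/10`. -/
theorem main_sum {Om : Set Cyl} (hO : IsOpen Om) (hne : Om.Nonempty)
    (hv : volume Om ≤ ENNReal.ofReal (1 / 10)) (k : ℕ) :
    2 * π * (k : ℝ) ^ 2 / (volume Om).toReal ≤ ∑ j ∈ Finset.range k, ev Om (j + 1) := by
  rcases Nat.eq_zero_or_pos k with rfl | hk
  · simp
  refine le_of_forall_pos_le_add fun e he => ?_
  have hk' : (0 : ℝ) < k := by exact_mod_cast hk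
  have h1 : ∀ j : ℕ, ∃ L ∈ Adm Om (j + 1), L < ev Om (j + 1) + e / k := fun j =>
    exists_lt_of_csInf_lt (adm_nonempty hO hne (j + 1))
      (by unfold ev; linarith [div_pos he hk'])
  choose L hL1 hL2 using h1
  have h2 := sum_bound hO hne hv hk (L := L) fun j _ => hL1 j
  refine h2.trans ?_
  calc ∑ j ∈ Finset.range k, L j ≤ ∑ j ∈ Finset.range k, (ev Om (j + 1) + e / k) :=
        Finset.sum_le_sum fun j _ => (hL2 j).le
    _ = ∑ j ∈ Finset.range k, ev Om (j + 1) + e := by
        rw [Finset.sum_add_distrib, Finset.sum_const, Finset.card_range, nsmul_eq_mul,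
          mul_div_cancel₀ _ hk'.ne']

/-- Half of Polya's inequality for every eigenvalue. -/
theorem main_half {Om : Set Cyl} (hO : IsOpen Om) (hne : Om.Nonempty)
    (hv : volume Om ≤ ENNReal.ofReal (1 / 10)) {k : ℕ} (hk : 0 < k) :
    2 * π * (k : ℝ) / (volume Om).toReal ≤ ev Om k := by
  have h1 := main_sum hO hne hv k
  have hk' : (0 : ℝ) < k := by exact_mod_cast hk
  have h2 : ∑ j ∈ Finset.range k, ev Om (j + 1) ≤ k * ev Om k := by
    calc ∑ j ∈ Finset.range k, ev Om (j + 1) ≤ ∑ _j ∈ Finset.range k, ev Om k :=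
          Finset.sum_le_sum fun j hj => ev_mono hO hne (by omega)
            (by have := Finset.mem_range.1 hj; omega)
      _ = k * ev Om k := by rw [Finset.sum_const, Finset.card_range, nsmul_eq_mul]
  have h3 : k * (2 * π * (k : ℝ) / (volume Om).toReal) ≤ k * ev Om k := by
    refine le_trans (le_of_eq ?_) (h1.trans h2)
    ring
  exact le_of_mul_le_mul_left h3 hk'

end Pool.Agent.Work.MP_33c50c_an.H54
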