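import Pool.Agent.Work.MP_33c50c_an.H54.Plane

/-!
# Scaling in the plane
-/

set_option autoImplicit false

open MeasureTheory Set Filter Topology Real

noncomputable section

namespace Pool.Agent.Work.MP_33c50c_an.H54

/-- The scaling map. -/
def zm (t : ℝ) (b p : ℝ × ℝ) : ℝ × ℝ := t⁻¹ • (p - b)

theorem zm_cont (t : ℝ) (b : ℝ × ℝ) : Continuous (zm t b) :=
  (continuous_id.sub continuous_const).const_smul t⁻¹

theorem zm_smooth (t : ℝ) (b : ℝ × ℝ) : ContDiff ℝ ((⊤ : ℕ∞) : WithTop ℕ∞) (zm t b) :=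
  (contDiff_id.sub contDiff_const).const_smul t⁻¹

theorem fin2 : Module.finrank ℝ (ℝ × ℝ) = 2 := by simp

theorem zm_integral (t : ℝ) (ht : 0 < t) (b : ℝ × ℝ) (g : ℝ × ℝ → ℝ) :
    ∫ p, g (zm t b p) = t ^ 2 * ∫ p, g p := by
  have h1 : ∫ p, g (zm t b p) = ∫ p : ℝ × ℝ, g (t⁻¹ • p) :=
    integral_sub_right_eq_self (fun p : ℝ × ℝ => g (t⁻¹ • p)) b
  rw [h1, Measure.integral_comp_smul volume g t⁻¹, fin2, smul_eq_mul]
  congr 1
  rw [inv_pow, inv_inv, abs_of_pos (by positivity)]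

theorem zm_area (t : ℝ) (ht : 0 < t) (b : ℝ × ℝ) (W : Set (ℝ × ℝ)) :
    volume (zm t b ⁻¹' W) = ENNReal.ofReal (t ^ 2) * volume W := by
  have h1 : zm t b ⁻¹' W = (fun p => p - b) ⁻¹' ((t⁻¹ • ·) ⁻¹' W) := rfl
  rw [h1]
  have h2 : volume ((fun p : ℝ × ℝ => p - b) ⁻¹' ((t⁻¹ • ·) ⁻¹' W)) =
      volume ((t⁻¹ • · : ℝ × ℝ → ℝ × ℝ) ⁻¹' W) := by
    simp only [sub_eq_add_neg]
    exact measure_preimage_add_right volume (-b) _
  rw [h2, Measure.addHaar_preimage_smul volume (inv_ne_zero ht.ne'), fin2]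
  congr 1
  rw [inv_pow, inv_inv, abs_of_pos (by positivity)]

/-- The scaling homeomorphism. -/
def zmH (t : ℝ) (ht : t ≠ 0) (b : ℝ × ℝ) : (ℝ × ℝ) ≃ₜ (ℝ × ℝ) :=
  (Homeomorph.subRight b).trans (Homeomorph.smulOfNeZero t⁻¹ (inv_ne_zero ht))

theorem zmH_apply (t : ℝ) (ht : t ≠ 0) (b p : ℝ × ℝ) : zmH t ht b p = zm t b p := rfl

variable {W : Set (ℝ × ℝ)} {v : ℝ × ℝ → ℝ}

theorem zm_test (t : ℝ) (ht : 0 < t) (b : ℝ × ℝ) (h : IsTestP W v) :
    IsTestP (zm t b ⁻¹' W) fun p => v (zm t b p) := by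
  have hc : HasCompactSupport fun p => v (zm t b p) := h.compact.comp_homeomorph (zmH t ht.ne' b)
  refine ⟨h.smooth.comp (zm_smooth t b), hc, ?_⟩
  have hs : Function.support (fun p => v (zm t b p)) ⊆ zm t b ⁻¹' tsupport v := fun p hp =>
    subset_tsupport _ hp
  exact (closure_minimal hs ((isClosed_tsupport v).preimage (zm_cont t b))).trans
    (preimage_mono h.supp)

theorem zm_fderiv (t : ℝ) (b : ℝ × ℝ) (h : IsTestP W v) (p e : ℝ × ℝ) :
    fderiv ℝ (fun p => v (zm t b p)) p e = t⁻¹ * fderiv ℝ v (zm t b p) e := by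
  have h1 : HasFDerivAt (zm t b) (t⁻¹ • ContinuousLinearMap.id ℝ (ℝ × ℝ)) p :=
    ((hasFDerivAt_id p).sub_const b).const_smul t⁻¹
  have h2 : HasFDerivAt (fun p => v (zm t b p)) _ p :=
    (h.diff (zm t b p)).hasFDerivAt.comp p h1
  rw [h2.fderiv]
  simp

theorem zm_massP (t : ℝ) (ht : 0 < t) (b : ℝ × ℝ) (v : ℝ × ℝ → ℝ) :
    massP (fun p => v (zm t b p)) = t ^ 2 * massP v :=
  zm_integral t ht b fun p => v p ^ 2

theorem zm_energyP (t : ℝ) (ht : 0 < t) (b : ℝ × ℝ) (h : IsTestP W v) :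
    energyP (fun p => v (zm t b p)) = energyP v := by
  unfold energyP
  simp only [zm_fderiv t b h]
  have h1 := zm_integral t ht b fun p =>
    (t⁻¹ * fderiv ℝ v p (1, 0)) ^ 2 + (t⁻¹ * fderiv ℝ v p (0, 1)) ^ 2
  rw [h1, ← integral_const_mul]
  congr 1
  funext p
  field_simp

theorem zm_adm (t : ℝ) (ht : 0 < t) (b : ℝ × ℝ) {k : ℕ} {L : ℝ} (hL : L ∈ AdmP W k) :
    L / t ^ 2 ∈ AdmP (zm t b ⁻¹' W) k := by
  obtain ⟨v, hv1, hv2, hv3⟩ := hL
  have hsum : ∀ c : Fin k → ℝ, (∑ j, c j • fun p => v j (zm t b p)) =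
      fun p => (∑ j, c j • v j) (zm t b p) := by
    intro c
    funext p
    simp
  refine ⟨fun j p => v j (zm t b p), fun j => zm_test t ht b (hv1 j), ?_, fun c => ?_⟩
  · rw [Fintype.linearIndependent_iff]
    intro c hc
    rw [hsum] at hc
    refine (Fintype.linearIndependent_iff.1 hv2) c ?_
    funext q
    obtain ⟨p, hp⟩ := (zmH t ht.ne' b).surjective q
    have h1 := congrFun hc p
    rw [← hp]
    exact h1
  · rw [hsum, zm_massP t ht b, zm_energyP t ht b (IsTestP.sum hv1 c)]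
    refine (hv3 c).trans (le_of_eq ?_)
    field_simp

theorem zm_evP (t : ℝ) (ht : 0 < t) (b : ℝ × ℝ) (hO : IsOpen W) (hne : W.Nonempty) {k : ℕ}
    (hk : 0 < k) : t ^ 2 * evP (zm t b ⁻¹' W) k ≤ evP W k := by
  refine le_csInf (admP_nonempty hO hne k) fun L hL => ?_
  have h1 : evP (zm t b ⁻¹' W) k ≤ L / t ^ 2 := csInf_le (admP_bddBelow _ hk) (zm_adm t ht b hL)
  rw [le_div_iff₀ (by positivity)] at h1
  linarith

end Pool.Agent.Work.MP_33c50c_an.H54
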