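import Pool.Agent.Work.MP_33c50c_an.H54.AreaB
import Pool.Agent.Work.MP_33c50c_an.H54.Embed
import Pool.Agent.Work.MP_33c50c_an.H54.Scale
import Pool.Agent.Work.MP_33c50c_an.H54.Conn

/-!
# Polya's conjecture in the plane and small domains of the cylinder
-/

set_option autoImplicit false

open MeasureTheory Set Filter Topology Real

noncomputable section

namespace Pool.Agent.Work.MP_33c50c_an.H54

/-- All bounded planar domains satisfy `lambda_k |W| ≥ m k` for all `k ≥ 1`. -/
def PlaneBound (m : ℕ → ℝ) : Prop :=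
  ∀ W : Set (ℝ × ℝ), IsOpen W → IsConnected W → Bornology.IsBounded W → ∀ k : ℕ, 0 < k →
    m k / (volume W).toReal ≤ evP W k

/-- All bounded domains of the cylinder of area at most `A` satisfy `lambda_k |Om| ≥ m k`
for all `k ≥ 1`. -/
def CylBound (A : ℝ) (m : ℕ → ℝ) : Prop :=
  ∀ Om : Set Cyl, IsOpen Om → IsConnected Om → Bornology.IsBounded Om →
    volume Om ≤ ENNReal.ofReal A → ∀ k : ℕ, 0 < k → m k / (volume Om).toReal ≤ ev Om k

theorem vol_lt_top_of_bdd {W : Set (ℝ × ℝ)} (hb : Bornology.IsBounded W) : volume W < ⊤ :=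
  hb.measure_lt_top

theorem plane_open {m : ℕ → ℝ} (hm : PlaneBound m) {W : Set (ℝ × ℝ)} (hO : IsOpen W)
    (hne : W.Nonempty) (hb : Bornology.IsBounded W) {k : ℕ} (hk : 0 < k) (hmk : 0 ≤ m k) :
    m k / (volume W).toReal ≤ evP W k := by
  set a : ℝ := (volume W).toReal with ha
  have hfin : volume W ≠ ⊤ := hb.measure_lt_top.ne
  have ha0 : 0 < a := ENNReal.toReal_pos (hO.measure_pos _ hne).ne' hfin
  have key : ∀ e : ℝ, 0 < e → m k / (a + e) ≤ evP W k := by
    intro e he
    obtain ⟨W', h1, h2, h3, h4, h5⟩ := connect hO hb (e := ENNReal.ofReal e)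
      (ENNReal.ofReal_pos.2 he)
    have h6 : (volume W').toReal ≤ a + e := by
      have := ENNReal.toReal_mono (ENNReal.add_ne_top.2 ⟨hfin, ENNReal.ofReal_ne_top⟩) h5
      rwa [ENNReal.toReal_add hfin ENNReal.ofReal_ne_top, ENNReal.toReal_ofReal he.le] at this
    have h7 : a ≤ (volume W').toReal := ENNReal.toReal_mono h3.measure_lt_top.ne (measure_mono h4)
    calc m k / (a + e) ≤ m k / (volume W').toReal :=
          div_le_div_of_nonneg_left hmk (by linarith) h6
      _ ≤ evP W' k := hm W' h1 h2 h3 k hk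
      _ ≤ evP W k := evP_anti hO hne h4 hk
  have hlim : Tendsto (fun e : ℝ => m k / (a + e)) (𝓝[>] 0) (𝓝 (m k / a)) := by
    have h1 : ContinuousAt (fun e : ℝ => m k / (a + e)) 0 :=
      continuousAt_const.div (continuousAt_const.add continuousAt_id) (by simpa using ha0.ne')
    have h2 := h1.tendsto
    rw [add_zero] at h2
    exact h2.mono_left nhdsWithin_le_nhds
  refine le_of_tendsto hlim ?_
  filter_upwards [self_mem_nhdsWithin] with e he
  exact key e he

theorem unroll_bdd {Om : Set Cyl} (hb : Bornology.IsBounded Om) (x0 d : ℝ) :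
    Bornology.IsBounded (unroll Om x0 d) := by
  have h1 : Bornology.IsBounded (Prod.snd '' Om) := by
    have := hb.image_snd
    exact this
  refine ((Metric.isBounded_Ioo x0 (x0 + 2 * π + d)).prod h1).subset ?_
  rintro p ⟨hp1, hp2, -⟩
  exact ⟨hp2, cover p, hp1, rfl⟩

theorem unroll_nonempty {Om : Set Cyl} (hne : Om.Nonempty) (x0 : ℝ) {d : ℝ}
    (hd : 0 < d) : (unroll Om x0 d).Nonempty := by
  obtain ⟨z, hz⟩ := hne
  obtain ⟨⟨x, y⟩, rfl⟩ := cover_surj z
  have hper : Function.Periodic (fun x => cover (x, y)) (2 * π) := fun x => cover_per x y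
  obtain ⟨x', hx', he⟩ := hper.exists_mem_Ioc (by positivity) x x0
  change cover (x, y) = cover (x', y) at he
  refine ⟨(x', y), ?_, ⟨hx'.1, by linarith [hx'.2]⟩, mem_univ _⟩
  rw [mem_preimage, ← he]
  exact hz

/-- The transfer inequality. -/
theorem transfer {m : ℕ → ℝ} (hm : PlaneBound m) {K : ℝ} (hK0 : 0 < K)
    (hK : ∀ t, deriv ang t ^ 2 ≤ K) {Om : Set Cyl} (hO : IsOpen Om) (hne : Om.Nonempty)
    (hb : Bornology.IsBounded Om) (hfin : volume Om ≠ ⊤) {k : ℕ} (hk : 0 < k) (hmk : 0 ≤ m k)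
    {d : ℝ} (hd : 0 < d) (hd' : d < 2 * π) :
    m k / ((1 + d / (2 * π)) * (volume Om).toReal) - K / d ^ 2 ≤ ev Om k := by
  have hpi := Real.pi_pos
  obtain ⟨x0, hx0⟩ := exists_cut hO hd hd'
  have hWo := unroll_open hO x0 d
  have hWn := unroll_nonempty hne x0 hd
  have hWb := unroll_bdd hb x0 d
  have h1 := plane_open hm hWo hWn hWb hk hmk
  have h2 := evP_unroll (x0 := x0) hO hne hd hd' hK0 hK hk
  have h3 : (volume (unroll Om x0 d)).toReal ≤ (1 + d / (2 * π)) * (volume Om).toReal := by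
    have := ENNReal.toReal_mono (ENNReal.mul_ne_top ENNReal.ofReal_ne_top hfin) hx0
    rwa [ENNReal.toReal_mul, ENNReal.toReal_ofReal (by positivity)] at this
  have h4 : 0 < (volume (unroll Om x0 d)).toReal :=
    ENNReal.toReal_pos (hWo.measure_pos _ hWn).ne' hWb.measure_lt_top.ne
  have h5 : m k / ((1 + d / (2 * π)) * (volume Om).toReal) ≤
      m k / (volume (unroll Om x0 d)).toReal := div_le_div_of_nonneg_left hmk h4 h3
  linarith

theorem vol_fin {Om : Set Cyl} (hb : Bornology.IsBounded Om) : volume Om < ⊤ :=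
  hb.measure_lt_top

theorem vol_pos' {Om : Set Cyl} (hO : IsOpen Om) (hne : Om.Nonempty) : 0 < volume Om :=
  hO.measure_pos _ hne

theorem ev_nonneg (Om : Set Cyl) {k : ℕ} (hk : 0 < k) : 0 ≤ ev Om k :=
  Real.sInf_nonneg fun _ h => adm_nonneg hk h

/-- The quantitative bound. -/
theorem quant (M : ℝ) (hM : 0 ≤ M) : ∃ C : ℝ, 0 < C ∧ ∀ m : ℕ → ℝ,
    (∀ k, 0 ≤ m k ∧ m k ≤ M * k) → PlaneBound m → ∀ Om : Set Cyl, IsOpen Om → Om.Nonempty →
      Bornology.IsBounded Om → ∀ k : ℕ, 0 < k →
        (m k - C * k * ((volume Om).toReal / k) ^ (1 / 3 : ℝ)) / (volume Om).toReal ≤ ev Om k := by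
  obtain ⟨K, hK0, hK⟩ := exists_K
  have hpi := Real.pi_pos
  refine ⟨M / (2 * π) + K, by positivity, fun m hmM hm Om hO hne hb k hk => ?_⟩
  set a : ℝ := (volume Om).toReal with ha
  have hfin : volume Om ≠ ⊤ := hb.measure_lt_top.ne
  have ha0 : 0 < a := ENNReal.toReal_pos (vol_pos' hO hne).ne' hfin
  have hk' : (0 : ℝ) < k := by exact_mod_cast hk
  obtain ⟨hm0, hm1⟩ := hmM k
  set x : ℝ := (a / k) ^ (1 / 3 : ℝ) with hx
  have hx0 : 0 < x := Real.rpow_pos_of_pos (by positivity) _
  have hx3 : x ^ 3 = a / k := by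
    rw [hx, ← Real.rpow_natCast, ← Real.rpow_mul (by positivity)]
    norm_num
  rcases le_or_gt (2 * π) x with hbig | hsmall
  · refine le_trans ?_ (ev_nonneg Om hk)
    refine div_nonpos_of_nonpos_of_nonneg ?_ ha0.le
    have h1 : M * k ≤ (M / (2 * π) + K) * k * x := by
      have h2 : M / (2 * π) * k * (2 * π) ≤ (M / (2 * π) + K) * k * x := by
        gcongr
        linarith
      have h3 : M / (2 * π) * k * (2 * π) = M * k := by field_simp
      linarith
    linarith
  · have h1 := transfer hm hK0 hK hO hne hb hfin hk hm0 hx0 hsmall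
    rw [← ha] at h1
    refine le_trans ?_ h1
    have hak : a = k * x ^ 3 := by rw [hx3]; field_simp
    have h2 : m k * (1 - x / (2 * π)) / a ≤ m k / ((1 + x / (2 * π)) * a) := by
      rw [div_le_div_iff₀ ha0 (by positivity)]
      have h3 : (1 - x / (2 * π)) * (1 + x / (2 * π)) ≤ 1 := by nlinarith [sq_nonneg (x / (2 * π))]
      calc m k * (1 - x / (2 * π)) * ((1 + x / (2 * π)) * a)
          = m k * a * ((1 - x / (2 * π)) * (1 + x / (2 * π))) := by ring
        _ ≤ m k * a * 1 := mul_le_mul_of_nonneg_left h3 (by positivity)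
        _ = m k * a := mul_one _
    have h4 : K / x ^ 2 = K * k * x / a := by
      rw [hak]; field_simp
    rw [h4]
    have h5 : m k * (x / (2 * π)) ≤ M * k * (x / (2 * π)) :=
      mul_le_mul_of_nonneg_right hm1 (by positivity)
    have h6 : (m k - (M / (2 * π) + K) * k * x) / a ≤
        m k * (1 - x / (2 * π)) / a - K * k * x / a := by
      rw [← sub_div]
      refine div_le_div_of_nonneg_right ?_ ha0.le
      have h7 : M * k * (x / (2 * π)) = M / (2 * π) * k * x := by ring
      linarith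
    linarith

/-- The asymptotic form. -/
theorem asym {M : ℝ} (hM : 0 ≤ M) {m : ℕ → ℝ} (hmM : ∀ k, 0 ≤ m k ∧ m k ≤ M * k)
    (hm : PlaneBound m) {e : ℝ} (he : 0 < e) :
    ∃ A : ℝ, 0 < A ∧ CylBound A fun k => m k - e * k := by
  obtain ⟨C, hC, hq⟩ := quant M hM
  refine ⟨(e / C) ^ 3, by positivity, fun Om hO hc hb hv k hk => ?_⟩
  refine le_trans ?_ (hq m hmM hm Om hO hc.nonempty hb k hk)
  set a : ℝ := (volume Om).toReal with ha
  have ha1 : a ≤ (e / C) ^ 3 := by
    have := ENNReal.toReal_mono ENNReal.ofReal_ne_top hv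
    rwa [ENNReal.toReal_ofReal (by positivity)] at this
  have ha0 : 0 ≤ a := ENNReal.toReal_nonneg
  have hk1 : (1 : ℝ) ≤ k := by exact_mod_cast hk
  have h1 : (a / k) ^ (1 / 3 : ℝ) ≤ e / C := by
    have h2 : a / k ≤ (e / C) ^ 3 := (div_le_self ha0 hk1).trans ha1
    calc (a / k) ^ (1 / 3 : ℝ) ≤ ((e / C) ^ 3) ^ (1 / 3 : ℝ) :=
          Real.rpow_le_rpow (by positivity) h2 (by norm_num)
      _ = e / C := by
          rw [← Real.rpow_natCast, ← Real.rpow_mul (by positivity)]
          norm_num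
  refine div_le_div_of_nonneg_right ?_ ha0
  have h3 : C * k * (a / k) ^ (1 / 3 : ℝ) ≤ C * k * (e / C) :=
    mul_le_mul_of_nonneg_left h1 (by positivity)
  have h4 : C * k * (e / C) = e * k := by field_simp
  linarith

/-- The converse: small domains of the cylinder contain scaled copies of planar ones. -/
theorem converse {m : ℕ → ℝ} (h : ∀ e : ℝ, 0 < e → ∃ A : ℝ, 0 < A ∧
    CylBound A fun k => m k - e * k) : PlaneBound m := by
  intro W hO hc hb k hk
  have hpi := Real.pi_pos
  set w : ℝ := (volume W).toReal with hw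
  have hfin : volume W ≠ ⊤ := hb.measure_lt_top.ne
  have hw0 : 0 < w := ENNReal.toReal_pos (hO.measure_pos _ hc.nonempty).ne' hfin
  have hk' : (0 : ℝ) < k := by exact_mod_cast hk
  have key : ∀ e : ℝ, 0 < e → (m k - e * k) / w ≤ evP W k := by
    intro e he
    obtain ⟨A, hA, hcyl⟩ := h e he
    obtain ⟨R, hR⟩ := hb.subset_ball (0 : ℝ × ℝ)
    set R' : ℝ := max R 1 with hR'
    have hR0 : 0 < R' := lt_of_lt_of_le one_pos (le_max_right _ _)
    set t : ℝ := min (1 / R') (√(A / w)) with ht
    have ht0 : 0 < t := lt_min (by positivity) (Real.sqrt_pos.2 (by positivity))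
    have ht1 : t * R' ≤ 1 := by
      have : t ≤ 1 / R' := min_le_left _ _
      rwa [le_div_iff₀ hR0] at this
    have ht2 : t ^ 2 * w ≤ A := by
      have h1 : t ≤ √(A / w) := min_le_right _ _
      have h2 : t ^ 2 ≤ A / w := by
        calc t ^ 2 ≤ √(A / w) ^ 2 := pow_le_pow_left₀ ht0.le h1 2
          _ = A / w := Real.sq_sqrt (by positivity)
      rwa [le_div_iff₀ hw0] at h2
    set b : ℝ × ℝ := (π, 0) with hbd
    set V : Set (ℝ × ℝ) := zm t b ⁻¹' W with hV
    have hVo : IsOpen V := hO.preimage (zm_cont t b)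
    have hVeq : V = (zmH t ht0.ne' b).symm '' W := by
      rw [Homeomorph.image_symm]
      rfl
    have hVc : IsConnected V := by
      rw [hVeq]
      exact hc.image _ (zmH t ht0.ne' b).symm.continuous.continuousOn
    have hVf : V ⊆ fund := by
      intro p hp
      have h1 := hR hp
      rw [mem_ball_zero_iff, Prod.norm_def, max_lt_iff, Real.norm_eq_abs] at h1
      have h2 : |t⁻¹ * (p.1 - π)| < R := h1.1
      have h3 : |p.1 - π| < t * R' := by
        rw [abs_mul, abs_of_pos (by positivity : 0 < t⁻¹), inv_mul_lt_iff₀ ht0] at h2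
        exact lt_of_lt_of_le h2 (mul_le_mul_of_nonneg_left (le_max_left _ _) ht0.le)
      have h4 : |p.1 - π| < π := by
        have := Real.pi_gt_three
        linarith
      rw [abs_lt] at h4
      exact ⟨⟨by linarith, by linarith⟩, mem_univ _⟩
    have hVb : Bornology.IsBounded V := by
      rw [hVeq]
      refine ((hb.isCompact_closure.image (zmH t ht0.ne' b).symm.continuous).isBounded).subset ?_
      exact image_mono subset_closure
    have hOb : Bornology.IsBounded (cover '' V) :=
      ((hVb.isCompact_closure.image cover_cont).isBounded).subset (image_mono subset_closure)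
    have hvol : volume (cover '' V) = ENNReal.ofReal (t ^ 2) * volume W := by
      rw [embed_area hVo hVf, zm_area t ht0 b]
    have hvol' : (volume (cover '' V)).toReal = t ^ 2 * w := by
      rw [hvol, ENNReal.toReal_mul, ENNReal.toReal_ofReal (by positivity)]
    have h1 := hcyl (cover '' V) (cover_open V hVo) (hVc.image _ cover_cont.continuousOn) hOb
      (by rw [← ENNReal.ofReal_toReal (hOb.measure_lt_top.ne), hvol']
          exact ENNReal.ofReal_le_ofReal ht2) k hk
    rw [hvol'] at h1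
    have h2 := ev_embed hVo hVc.nonempty hVf hk
    have h3 := zm_evP t ht0 b hO hc.nonempty hk
    have h4 : (m k - e * k) / w = t ^ 2 * ((m k - e * k) / (t ^ 2 * w)) := by field_simp
    rw [h4]
    refine le_trans (mul_le_mul_of_nonneg_left (h1.trans h2) (by positivity)) h3
  have hlim : Tendsto (fun e : ℝ => (m k - e * k) / w) (𝓝[>] 0) (𝓝 (m k / w)) := by
    have h1 : ContinuousAt (fun e : ℝ => (m k - e * k) / w) 0 := by fun_prop
    have h2 := h1.tendsto
    rw [zero_mul, sub_zero] at h2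
    exact h2.mono_left nhdsWithin_le_nhds
  refine le_of_tendsto hlim ?_
  filter_upwards [self_mem_nhdsWithin] with e he
  exact key e he

end Pool.Agent.Work.MP_33c50c_an.H54
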