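import Pool.Agent.Work.MP_33c50c_an.H54.MZoneC

/-!
# Exact transfer below the propagation threshold: the recursion
-/

set_option autoImplicit false

open MeasureTheory Set Filter Topology Real

noncomputable section

namespace Pool.Agent.Work.MP_33c50c_an.H54

/-- One stage. -/
theorem stage {m : ℕ → ℝ} (hm : PlaneBound m) {Om : Set Cyl} (hO : IsOpen Om)
    (hne : Om.Nonempty) (hb : Bornology.IsBounded Om) {k : ℕ} (hk : 0 < k) (hmk : 0 ≤ m k)
    {n : ℕ} {w0 : ℝ} (hw0 : 0 < w0) (hn : n * w0 = 2 * π) {sg r : ℝ} (hsg : 0 ≤ sg)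
    (hr : 0 < r) (hw : 2 * r ≤ w0 - 2 * sg) {K : ℝ} (hK1 : 1 ≤ K) (hK : ∀ t, deriv stp t ^ 2 ≤ K)
    {b : ℝ} (hb0 : 0 < b) {J : Finset ℕ} (hJn : J.Nonempty) (hJ : J ⊆ Finset.range n)
    (hvol : ∀ j ∈ J, volume (slab Om (j * w0 + sg) (j * w0 + w0 - sg)) ≤ ENNReal.ofReal b)
    {T : ℝ} (hT : T = (23 * K) ^ 3 * b ^ 2 / r ^ 6) (hLb : ev Om k + T < 1 / b) :
    m k ≤ ((volume Om).toReal - ∑ j ∈ J, (volume (slab Om (j * w0 + (sg + r))
      (j * w0 + w0 - (sg + r)))).toReal) * (ev Om k + T) := by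
  have hpi := Real.pi_pos
  set j0 := J.min' hJn with hj0
  have hj0J : j0 ∈ J := J.min'_mem hJn
  have hmin : ∀ j ∈ J, j0 ≤ j := fun j hj => J.min'_le j hj
  set w : ℝ := w0 - 2 * sg with hwdef
  set l : ℕ → ℝ := fun j => j * w0 + sg with hl
  have hsucc : ∀ i j : ℕ, i < j → (i : ℝ) * w0 + w0 ≤ j * w0 := by
    intro i j hij
    have h1 : (i : ℝ) + 1 ≤ j := by exact_mod_cast hij
    nlinarith
  have hnn : ∀ j ∈ J, (j : ℝ) * w0 + w0 ≤ 2 * π := by
    intro j hj
    rw [← hn]
    exact hsucc j n (Finset.mem_range.1 (hJ hj))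
  have hP : Pos (l j0) w r (J.erase j0) l := by
    refine ⟨hr, hw, ?_, ?_, ?_, ?_⟩
    · have h1 := hnn j0 hj0J
      have h2 : (0 : ℝ) ≤ j0 * w0 := by positivity
      linarith
    · intro j hj
      obtain ⟨h1, h2⟩ := Finset.mem_erase.1 hj
      have h3 := hsucc j0 j (lt_of_le_of_ne (hmin j h2) (Ne.symm h1))
      simp only [hl]
      linarith
    · intro j hj
      obtain ⟨h1, h2⟩ := Finset.mem_erase.1 hj
      have h3 := hnn j h2
      have h4 : (0 : ℝ) ≤ j0 * w0 := by positivity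
      simp only [hl]
      linarith
    · intro i hi j hj hij
      simp only [hl]
      rcases lt_or_gt_of_ne hij with h | h
      · left
        have := hsucc i j h
        linarith
      · right
        have := hsucc j i h
        linarith
  have e1 : ∀ j : ℕ, slab Om (l j) (l j + w) = slab Om (j * w0 + sg) (j * w0 + w0 - sg) := by
    intro j
    have : l j + w = j * w0 + w0 - sg := by simp only [hl, hwdef]; ring
    rw [this]
  have e2 : ∀ j : ℕ, slab Om (l j + r) (l j + w - r) =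
      slab Om (j * w0 + (sg + r)) (j * w0 + w0 - (sg + r)) := by
    intro j
    have h1 : l j + w - r = j * w0 + w0 - (sg + r) := by simp only [hl, hwdef]; ring
    have h2 : l j + r = j * w0 + (sg + r) := by simp only [hl]; ring
    rw [h1, h2]
  obtain ⟨hWn, hW⟩ := evP_mzone hP hO hne hK1 hK hb0 (by rw [e1]; exact hvol j0 hj0J)
    (fun j hj => by rw [e1]; exact hvol j (Finset.mem_of_mem_erase hj)) hT hk hLb
  have harea := rest_area hP hO
  set W := rest Om (l j0) w r (J.erase j0) l with hWdef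
  have hWo : IsOpen W := rest_open hO _ _ _ _ _
  have hWb : Bornology.IsBounded W := rest_bdd hb _ _ _ _ _
  have hpl := plane_open hm hWo hWn hWb hk hmk
  have hWfin : volume W ≠ ⊤ := hWb.measure_lt_top.ne
  have hWpos : 0 < (volume W).toReal := ENNReal.toReal_pos (hWo.measure_pos _ hWn).ne' hWfin
  have hZfin : ∀ p q : ℝ, volume (slab Om p q) ≠ ⊤ := fun p q =>
    (slab_bdd hb _ _).measure_lt_top.ne
  have hfin : volume Om ≠ ⊤ := hb.measure_lt_top.ne
  have h1 : (volume W).toReal + ∑ j ∈ J, (volume (slab Om (j * w0 + (sg + r))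
      (j * w0 + w0 - (sg + r)))).toReal ≤ (volume Om).toReal := by
    rw [add_assoc] at harea
    simp only [e2] at harea
    rw [Finset.add_sum_erase J (fun j : ℕ => volume (slab Om (j * w0 + (sg + r))
      (j * w0 + w0 - (sg + r)))) hj0J] at harea
    rw [← ENNReal.toReal_sum (fun j _ => hZfin _ _), ← ENNReal.toReal_add hWfin
      (ENNReal.sum_ne_top.2 fun j _ => hZfin _ _)]
    exact ENNReal.toReal_mono hfin harea
  have h2 : m k ≤ (volume W).toReal * (ev Om k + T) := by
    have h3 := hpl.trans hW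
    rw [div_le_iff₀ hWpos] at h3
    linarith
  have h4 : 0 ≤ ev Om k + T := by
    have h5 : 0 ≤ ev Om k := ev_nonneg Om hk
    have h6 : 0 ≤ T := by rw [hT]; positivity
    linarith
  exact h2.trans (mul_le_mul_of_nonneg_right (by linarith) h4)

/-- Markov. -/
theorem markov {J : Finset ℕ} {f : ℕ → ℝ} (hf : ∀ j ∈ J, 0 ≤ f j) {b t : ℝ} (hb : 0 < b)
    (h : ∑ j ∈ J, f j ≤ b * t) :
    (J.card : ℝ) - t ≤ ((J.filter fun j => f j ≤ b).card : ℝ) := by
  have h1 : b * ((J.filter fun j => ¬ f j ≤ b).card : ℝ) ≤ ∑ j ∈ J, f j := by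
    calc b * ((J.filter fun j => ¬ f j ≤ b).card : ℝ) =
        ∑ _j ∈ J.filter (fun j => ¬ f j ≤ b), b := by
          rw [Finset.sum_const, nsmul_eq_mul]; ring
      _ ≤ ∑ j ∈ J.filter (fun j => ¬ f j ≤ b), f j := by
          refine Finset.sum_le_sum fun j hj => ?_
          have := (Finset.mem_filter.1 hj).2
          push Not at this
          exact this.le
      _ ≤ ∑ j ∈ J, f j := Finset.sum_le_sum_of_subset_of_nonneg (Finset.filter_subset _ _)
          fun j hj _ => hf j hj
  have h2 : (J.filter fun j => f j ≤ b).card + (J.filter fun j => ¬ f j ≤ b).card = J.card :=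
    Finset.card_filter_add_card_filter_not _
  have h3 : ((J.filter fun j => f j ≤ b).card : ℝ) + ((J.filter fun j => ¬ f j ≤ b).card : ℝ) =
      J.card := by exact_mod_cast h2
  have h4 : ((J.filter fun j => ¬ f j ≤ b).card : ℝ) ≤ t := le_of_mul_le_mul_left (h1.trans h) hb
  linarith


/-- All `k` with `k |Om|` small: planar bounds hold without loss. -/
theorem exact2 (M : ℝ) (hM : 1 ≤ M) : ∃ c : ℝ, 0 < c ∧ ∀ m : ℕ → ℝ,
    (∀ k, 0 ≤ m k ∧ m k ≤ M * k) → PlaneBound m → ∀ Om : Set Cyl, IsOpen Om → Om.Nonempty →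
      Bornology.IsBounded Om → ∀ k : ℕ, 0 < k → (volume Om).toReal * (k : ℝ) ≤ c →
        m k / (volume Om).toReal ≤ ev Om k := by
  obtain ⟨K, hK1, hK⟩ := stp_K
  have hpi := Real.pi_pos
  have hpi3 := Real.pi_gt_three
  have hpi4 := Real.pi_lt_four
  set Q : ℝ := 24000000 * (23 * K) ^ 3 with hQ
  have hQ1 : 1000 ≤ Q := by
    have : (23 : ℝ) ^ 3 ≤ (23 * K) ^ 3 := pow_le_pow_left₀ (by norm_num) (by linarith) 3
    rw [hQ]; nlinarith
  have hQ0 : 0 < Q := by linarith
  have hM0 : 0 < M := by linarith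
  have hM4 : 1 ≤ M ^ 4 := one_le_pow₀ hM
  refine ⟨1 / (32 * Q * M ^ 4), by positivity, fun m hmM hm Om hO hne hb k hk hsmall => ?_⟩
  set c : ℝ := 1 / (32 * Q * M ^ 4) with hc
  have hc1 : c ≤ 1 / 32000 := by
    rw [hc]
    refine one_div_le_one_div_of_le (by norm_num) ?_
    nlinarith
  have hc0 : 0 < c := by positivity
  have hcQ : 32 * Q * M ^ 4 * c = 1 := by rw [hc]; field_simp
  set a : ℝ := (volume Om).toReal with ha
  have hfin : volume Om ≠ ⊤ := hb.measure_lt_top.ne
  have ha0 : 0 < a := ENNReal.toReal_pos (vol_pos' hO hne).ne' hfin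
  have hk0 : (0 : ℝ) < k := by exact_mod_cast hk
  have hk1 : (1 : ℝ) ≤ k := by exact_mod_cast hk
  set kk : ℝ := (k : ℝ) with hkk
  set lam : ℝ := ev Om k with hlam
  obtain ⟨hm0, hm1⟩ := hmM k
  have hak0 : 0 < a * kk := by positivity
  -- the smallness condition
  have hS : 32 * Q * M ^ 4 * (a * kk) ^ 3 ≤ 1 := by
    have h1 : (a * kk) ^ 3 ≤ c := by
      calc (a * kk) ^ 3 ≤ c ^ 3 := pow_le_pow_left₀ hak0.le hsmall 3
        _ = c ^ 2 * c := by ring
        _ ≤ 1 * c := mul_le_mul_of_nonneg_right (by nlinarith) hc0.le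
        _ = c := one_mul c
    calc 32 * Q * M ^ 4 * (a * kk) ^ 3 ≤ 32 * Q * M ^ 4 * c :=
          mul_le_mul_of_nonneg_left h1 (by positivity)
      _ = 1 := hcQ
  have ha1 : a ≤ 1 / 10 := by nlinarith
  -- lower bound for the eigenvalue
  have hlow : 2 * π * kk / a ≤ lam := main_half hO hne (by
    rw [← ENNReal.ofReal_toReal hfin]
    exact ENNReal.ofReal_le_ofReal ha1) hk
  have hlam0 : 0 < lam := lt_of_lt_of_le (by positivity) hlow
  by_contra hcon
  push Not at hcon
  rw [lt_div_iff₀ ha0] at hcon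
  have hlamM : lam ≤ M * kk / a := by
    rw [le_div_iff₀ ha0]; linarith
  have hMk1 : 1 ≤ M * kk := by nlinarith
  -- parameters
  set n : ℕ := ⌈16 * M * kk⌉₊ with hn
  have hn1 : 16 * (M * kk) ≤ n := by
    have := Nat.le_ceil (16 * M * kk)
    linarith
  have hn2 : (n : ℝ) ≤ 17 * (M * kk) := by
    have := Nat.ceil_lt_add_one (show 0 ≤ 16 * M * kk by positivity)
    linarith
  have hn0 : (0 : ℝ) < n := by linarith
  set w0 : ℝ := 2 * π / n with hw0
  have hw0p : 0 < w0 := by positivity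
  have hnw : n * w0 = 2 * π := by rw [hw0]; field_simp
  set sg : ℕ → ℝ := fun i => w0 / 4 * (1 - 1 / 2 ^ i) with hsg
  set rr : ℕ → ℝ := fun i => w0 / 8 / 2 ^ i with hrr
  have hsgr : ∀ i, sg i + rr i = sg (i + 1) := by
    intro i
    simp only [hsg, hrr]
    rw [pow_succ]
    field_simp
    ring
  have h2i : ∀ i : ℕ, 0 < 1 / (2 : ℝ) ^ i ∧ 1 / (2 : ℝ) ^ i ≤ 1 := fun i =>
    ⟨by positivity, by rw [div_le_one (by positivity)]; exact one_le_pow₀ (by norm_num)⟩
  have hsg0 : ∀ i, 0 ≤ sg i := fun i => by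
    simp only [hsg]
    have := (h2i i).2
    exact mul_nonneg (by positivity) (by linarith)
  have hsg1 : ∀ i, sg i ≤ w0 / 4 := fun i => by
    simp only [hsg]
    have := (h2i i).1
    nlinarith
  have hrr0 : ∀ i, 0 < rr i := fun i => by simp only [hrr]; positivity
  have hrr1 : ∀ i, rr i ≤ w0 / 8 := fun i => by
    simp only [hrr]
    exact div_le_self (by positivity) (one_le_pow₀ (by norm_num))
  have hrw : ∀ i, 2 * rr i ≤ w0 - 2 * sg i := fun i => by
    have := hsg1 i
    have := hrr1 i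
    linarith
  set be : ℕ → ℝ := fun i => 8 * a / n / 128 ^ i with hbe
  have hbe0 : ∀ i, 0 < be i := fun i => by simp only [hbe]; positivity
  set T : ℕ → ℝ := fun i => (23 * K) ^ 3 * be i ^ 2 / rr i ^ 6 with hT
  have hT0 : ∀ i, 0 ≤ T i := fun i => by
    simp only [hT]
    have := hrr0 i
    positivity
  have hTle : ∀ i, T i ≤ Q * a ^ 2 * (M * kk) ^ 4 / 256 ^ i := by
    intro i
    simp only [hT, hrr, hbe, hw0]
    have e1 : (23 * K) ^ 3 * (8 * a / n / 128 ^ i) ^ 2 / (2 * π / n / 8 / 2 ^ i) ^ 6 =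
        262144 / π ^ 6 * (23 * K) ^ 3 * a ^ 2 * (n : ℝ) ^ 4 / 256 ^ i := by
      have p1 : (128 : ℝ) ^ i = 2 ^ (7 * i) := by rw [pow_mul]; norm_num
      have p2 : (256 : ℝ) ^ i = 2 ^ (8 * i) := by rw [pow_mul]; norm_num
      rw [p1, p2]
      have p3 : (2 : ℝ) ^ (7 * i) = (2 ^ i) ^ 7 := by rw [← pow_mul]; ring_nf
      have p4 : (2 : ℝ) ^ (8 * i) = (2 ^ i) ^ 8 := by rw [← pow_mul]; ring_nf
      rw [p3, p4]
      have h2 : (2 : ℝ) ^ i ≠ 0 := by positivity
      field_simp
      ring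
    rw [e1]
    have e4 : 262144 / π ^ 6 ≤ 280 := by
      rw [div_le_iff₀ (by positivity)]
      have h1 := Real.pi_gt_d2
      have h2 : (3.14 : ℝ) ^ 6 ≤ π ^ 6 := pow_le_pow_left₀ (by norm_num) h1.le 6
      norm_num at h2
      linarith
    have e5 : (n : ℝ) ^ 4 ≤ 83521 * (M * kk) ^ 4 := by
      calc (n : ℝ) ^ 4 ≤ (17 * (M * kk)) ^ 4 := pow_le_pow_left₀ hn0.le hn2 4
        _ = 83521 * (M * kk) ^ 4 := by ring
    refine div_le_div_of_nonneg_right ?_ (by positivity)
    calc 262144 / π ^ 6 * (23 * K) ^ 3 * a ^ 2 * (n : ℝ) ^ 4 ≤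
          280 * (23 * K) ^ 3 * a ^ 2 * (83521 * (M * kk) ^ 4) := by
          refine mul_le_mul ?_ e5 (by positivity) (by positivity)
          refine mul_le_mul_of_nonneg_right ?_ (by positivity)
          exact mul_le_mul_of_nonneg_right e4 (by positivity)
      _ = 23385880 * ((23 * K) ^ 3 * a ^ 2 * (M * kk) ^ 4) := by ring
      _ ≤ 24000000 * ((23 * K) ^ 3 * a ^ 2 * (M * kk) ^ 4) :=
          mul_le_mul_of_nonneg_right (by norm_num) (by positivity)
      _ = Q * a ^ 2 * (M * kk) ^ 4 := by rw [hQ]; ring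
  have h256 : ∀ i : ℕ, (1 : ℝ) ≤ 256 ^ i := fun i => one_le_pow₀ (by norm_num)
  have hTsmall : ∀ i, T i ≤ M * kk / (2 * a) := by
    intro i
    refine (hTle i).trans ((div_le_self (by positivity) (h256 i)).trans ?_)
    rw [le_div_iff₀ (by positivity)]
    have h1 : 2 * Q * (M ^ 3 * (a * kk) ^ 3) ≤ 1 := by
      have h3 : M ^ 3 ≤ M ^ 4 := pow_le_pow_right₀ hM (by norm_num)
      have h4 : 2 * Q * (M ^ 3 * (a * kk) ^ 3) ≤ 2 * Q * (M ^ 4 * (a * kk) ^ 3) :=
        mul_le_mul_of_nonneg_left (mul_le_mul_of_nonneg_right h3 (by positivity)) (by positivity)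
      have h5 : 0 ≤ Q * (M ^ 4 * (a * kk) ^ 3) := by positivity
      nlinarith
    calc Q * a ^ 2 * (M * kk) ^ 4 * (2 * a) = 2 * Q * (M ^ 3 * (a * kk) ^ 3) * (M * kk) := by ring
      _ ≤ 1 * (M * kk) := mul_le_mul_of_nonneg_right h1 (by positivity)
      _ = M * kk := one_mul _
  have hcond : ∀ i, lam + T i < 1 / be i := by
    intro i
    have h1 : 1 / be 0 ≤ 1 / be i := by
      refine one_div_le_one_div_of_le (hbe0 i) ?_
      simp only [hbe, pow_zero, div_one]
      exact div_le_self (by positivity) (one_le_pow₀ (by norm_num))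
    have h2 : 2 * (M * kk / a) ≤ 1 / be 0 := by
      simp only [hbe, pow_zero, div_one]
      rw [one_div_div, ← mul_div_assoc, div_le_div_iff₀ ha0 (by positivity)]
      nlinarith
    have h3 : M * kk / (2 * a) = 1 / 2 * (M * kk / a) := by ring
    have h4 := hTsmall i
    rw [h3] at h4
    have h5 : 0 < M * kk / a := by positivity
    linarith
  -- the zones
  set vz : ℕ → ℕ → ℝ := fun i j =>
    (volume (slab Om (j * w0 + sg i) (j * w0 + w0 - sg i))).toReal with hvz
  have hZfin : ∀ p q : ℝ, volume (slab Om p q) ≠ ⊤ := fun p q =>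
    (slab_bdd hb _ _).measure_lt_top.ne
  have hvz0 : ∀ i j, 0 ≤ vz i j := fun i j => ENNReal.toReal_nonneg
  have hvzle : ∀ i j, vz i j ≤ be i →
      volume (slab Om (j * w0 + sg i) (j * w0 + w0 - sg i)) ≤ ENNReal.ofReal (be i) := by
    intro i j h
    rw [← ENNReal.ofReal_toReal (hZfin _ _)]
    exact ENNReal.ofReal_le_ofReal h
  have hstage : ∀ i, ∀ J : Finset ℕ, J.Nonempty → J ⊆ Finset.range n → (∀ j ∈ J, vz i j ≤ be i) →
      m k ≤ (a - ∑ j ∈ J, vz (i + 1) j) * (lam + T i) := by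
    intro i J hJn hJ hJv
    have h1 := stage hm hO hne hb hk hm0 hw0p hnw (hsg0 i) (hrr0 i) (hrw i) hK1 hK (hbe0 i) hJn hJ
      (fun j hj => hvzle i j (hJv j hj)) (T := T i) rfl (hcond i)
    rw [hsgr i] at h1
    exact h1
  -- the recursion
  have hind : ∀ i, ∃ J : Finset ℕ, J ⊆ Finset.range n ∧ (∀ j ∈ J, vz i j ≤ be i) ∧
      n * (5 / 8 + 1 / 4 * (1 / 2 ^ i)) ≤ (J.card : ℝ) := by
    intro i
    induction i with
    | zero =>
      refine ⟨(Finset.range n).filter fun j => vz 0 j ≤ be 0, Finset.filter_subset _ _,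
        fun j hj => (Finset.mem_filter.1 hj).2, ?_⟩
      have h1 : ∑ j ∈ Finset.range n, vz 0 j ≤ be 0 * (n / 8) := by
        have e1 : be 0 * (n / 8) = a := by
          simp only [hbe, pow_zero, div_one]
          field_simp
        rw [e1]
        simp only [hvz]
        rw [← ENNReal.toReal_sum (fun j _ => hZfin _ _)]
        refine ENNReal.toReal_mono hfin ?_
        have hsucc : ∀ i j : ℕ, i < j → (i : ℝ) * w0 + w0 ≤ j * w0 := by
          intro i j hij
          have h1 : (i : ℝ) + 1 ≤ j := by exact_mod_cast hij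
          nlinarith
        have hs0 := hsg0 0
        refine sum_slab hO (a := 0) (Finset.range n) _ _ ?_ ?_ ?_
        · intro j _
          positivity
        · intro j hj
          have := hsucc j n (Finset.mem_range.1 hj)
          rw [hnw] at this
          linarith
        · intro i _ j _ hij
          rcases lt_or_gt_of_ne hij with h | h
          · left
            have := hsucc i j h
            linarith
          · right
            have := hsucc j i h
            linarith
      have h2 := markov (fun j _ => hvz0 0 j) (hbe0 0) h1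
      rw [Finset.card_range] at h2
      rw [pow_zero]
      linarith
    | succ i ih =>
      obtain ⟨J, hJ1, hJ2, hJ3⟩ := ih
      have hJn : J.Nonempty := by
        rw [← Finset.card_pos]
        have h1 : (0 : ℝ) < J.card := by
          have := (h2i i).1
          nlinarith
        exact_mod_cast h1
      refine ⟨J.filter fun j => vz (i + 1) j ≤ be (i + 1), (Finset.filter_subset _ _).trans hJ1,
        fun j hj => (Finset.mem_filter.1 hj).2, ?_⟩
      have h1 := hstage i J hJn hJ1 hJ2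
      set z : ℝ := ∑ j ∈ J, vz (i + 1) j with hz
      have hz0 : 0 ≤ z := Finset.sum_nonneg fun j _ => hvz0 _ j
      have h2 : z * lam ≤ a * T i := by
        have h3 : 0 ≤ z * T i := mul_nonneg hz0 (hT0 i)
        nlinarith
      have h4 : z * (2 * π * kk / a) ≤ a * T i :=
        (mul_le_mul_of_nonneg_left hlow hz0).trans h2
      have h5 : z * (2 * π * kk) ≤ a ^ 2 * T i := by
        have h6 := mul_le_mul_of_nonneg_left h4 ha0.le
        have e1 : a * (z * (2 * π * kk / a)) = z * (2 * π * kk) := by field_simp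
        have e2 : a * (a * T i) = a ^ 2 * T i := by ring
        rwa [e1, e2] at h6
      have h7 : z ≤ be (i + 1) * (n / 8 * (1 / 2 ^ i)) := by
        have e0 : be (i + 1) * (n / 8 * (1 / 2 ^ i)) = a / 128 / 256 ^ i := by
          simp only [hbe]
          rw [pow_succ]
          have p2 : (256 : ℝ) ^ i = 2 ^ i * 128 ^ i := by rw [← mul_pow]; norm_num
          rw [p2]
          field_simp
        rw [e0]
        have h8 : z * (2 * π * kk) ≤ a ^ 2 * (Q * a ^ 2 * (M * kk) ^ 4 / 256 ^ i) :=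
          h5.trans (mul_le_mul_of_nonneg_left (hTle i) (by positivity))
        have e4 : a ^ 2 * (Q * a ^ 2 * (M * kk) ^ 4 / 256 ^ i) =
            (32 * Q * M ^ 4 * (a * kk) ^ 3) * (a * kk / 32 / 256 ^ i) := by
          field_simp
        have h9 : z * (2 * π * kk) ≤ a * kk / 32 / 256 ^ i := by
          refine h8.trans ?_
          rw [e4]
          calc _ ≤ 1 * (a * kk / 32 / 256 ^ i) := mul_le_mul_of_nonneg_right hS (by positivity)
            _ = _ := one_mul _
        have h10 : z * 4 * kk ≤ z * (2 * π * kk) := by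
          have : 0 ≤ z * kk := by positivity
          nlinarith
        have h11 : z * (4 * kk) ≤ a / 128 / 256 ^ i * (4 * kk) := by
          have e5 : a / 128 / 256 ^ i * (4 * kk) = a * kk / 32 / 256 ^ i := by ring
          rw [e5]
          linarith
        exact le_of_mul_le_mul_right h11 (by positivity)
      have h8 := markov (fun j _ => hvz0 (i + 1) j) (hbe0 (i + 1)) h7
      have e6 : (1 : ℝ) / 2 ^ (i + 1) = 1 / 2 * (1 / 2 ^ i) := by
        rw [pow_succ]; field_simp
      rw [e6]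
      linarith
  -- conclusion
  have hfinal : ∀ i : ℕ, m k ≤ a * lam + a * (Q * a ^ 2 * (M * kk) ^ 4) / 256 ^ i := by
    intro i
    obtain ⟨J, hJ1, hJ2, hJ3⟩ := hind i
    have hJn : J.Nonempty := by
      rw [← Finset.card_pos]
      have h1 : (0 : ℝ) < J.card := by
        have := (h2i i).1
        nlinarith
      exact_mod_cast h1
    have h1 := hstage i J hJn hJ1 hJ2
    have hz0 : 0 ≤ ∑ j ∈ J, vz (i + 1) j := Finset.sum_nonneg fun j _ => hvz0 _ j
    have h2 : 0 ≤ lam + T i := by have := hT0 i; linarith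
    have h3 : m k ≤ a * (lam + T i) := h1.trans (mul_le_mul_of_nonneg_right (by linarith) h2)
    have h4 := mul_le_mul_of_nonneg_left (hTle i) ha0.le
    rw [mul_div_assoc]
    linarith
  have hlim : Tendsto (fun i : ℕ => a * lam + a * (Q * a ^ 2 * (M * kk) ^ 4) / 256 ^ i) atTop
      (𝓝 (a * lam)) := by
    have h1 : Tendsto (fun i : ℕ => ((1 : ℝ) / 256) ^ i) atTop (𝓝 0) :=
      tendsto_pow_atTop_nhds_zero_of_lt_one (by norm_num) (by norm_num)
    have h2 := (h1.const_mul (a * (Q * a ^ 2 * (M * kk) ^ 4))).const_add (a * lam)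
    rw [mul_zero, add_zero] at h2
    refine h2.congr fun i => ?_
    rw [one_div, inv_pow]
    rfl
  have := ge_of_tendsto' hlim hfinal
  linarith

end Pool.Agent.Work.MP_33c50c_an.H54
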