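import Pool.Agent.Work.MP_33c50c_an.H54.Der

/-!
# Translations on the flat cylinder
-/

set_option autoImplicit false

open MeasureTheory Set Filter Topology Real

noncomputable section

namespace Pool.Agent.Work.MP_33c50c_an.H54

theorem per_lint (G : ℝ → ENNReal) (hG : ∀ x, G (x + 2 * π) = G x) (a b : ℝ) :
    ∫⁻ x in Ioc a (a + 2 * π), G x = ∫⁻ x in Ioc b (b + 2 * π), G x := by
  have hT : (0 : ℝ) < 2 * π := by positivity
  refine (isAddFundamentalDomain_Ioc hT a).setLIntegral_eq (isAddFundamentalDomain_Ioc hT b) G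
    fun g x => ?_
  obtain ⟨n, hn⟩ := AddSubgroup.mem_zmultiples_iff.1 g.2
  have h1 : g +ᵥ x = x + n • (2 * π) := by
    change (g : ℝ) + x = _
    rw [← hn, add_comm]
  rw [h1]
  exact (show Function.Periodic G (2 * π) from hG).zsmul n x

theorem shift_lint (f : ℝ × ℝ → ENNReal) (hf : Measurable f)
    (hp : ∀ x y, f (x + 2 * π, y) = f (x, y)) (v : ℝ × ℝ) :
    ∫⁻ p, f (p + v) ∂mu = ∫⁻ p, f p ∂mu := by
  unfold mu
  have hfv : Measurable fun p : ℝ × ℝ => f (p + v) := hf.comp (measurable_add_const v)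
  rw [lintegral_prod _ hfv.aemeasurable, lintegral_prod _ hf.aemeasurable]
  have h1 : ∀ x : ℝ, ∫⁻ y, f ((x, y) + v) = ∫⁻ y, f (x + v.1, y) := by
    intro x
    exact lintegral_add_right_eq_self (fun y => f (x + v.1, y)) v.2
  simp only [h1]
  have h2 : ∫⁻ x in Ioc 0 (2 * π), ∫⁻ y, f (x + v.1, y) =
      ∫⁻ x in Ioc v.1 (v.1 + 2 * π), ∫⁻ y, f (x, y) := by
    rw [← lintegral_indicator measurableSet_Ioc, ← lintegral_indicator measurableSet_Ioc,
      ← lintegral_add_right_eq_self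
        ((Ioc v.1 (v.1 + 2 * π)).indicator fun x => ∫⁻ y, f (x, y)) v.1]
    refine lintegral_congr fun x => ?_
    by_cases hx : x ∈ Ioc 0 (2 * π)
    · rw [indicator_of_mem hx, indicator_of_mem]
      exact ⟨by linarith [hx.1], by linarith [hx.2]⟩
    · rw [indicator_of_notMem hx, indicator_of_notMem]
      intro hx'
      exact hx ⟨by linarith [hx'.1], by linarith [hx'.2]⟩
  rw [h2, per_lint (fun x => ∫⁻ y, f (x, y)) (fun x => by simp only [hp]) v.1 0, zero_add]

theorem sq_le_lint (f f' : ℝ → ℝ) (hf : ∀ t, HasDerivAt f (f' t) t) (hc : Continuous f') :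
    ENNReal.ofReal ((f 1 - f 0) ^ 2) ≤ ∫⁻ t in Ioc (0 : ℝ) 1, ENNReal.ofReal (f' t ^ 2) := by
  have hi : IntegrableOn f' (Ioc 0 1) := (hc.intervalIntegrable 0 1).1
  have hi2 : IntegrableOn (fun t => f' t ^ 2) (Ioc 0 1) :=
    ((hc.pow 2).intervalIntegrable 0 1).1
  have h1 : f 1 - f 0 = ∫ t in Ioc (0 : ℝ) 1, f' t := by
    rw [← intervalIntegral.integral_of_le zero_le_one]
    exact (intervalIntegral.integral_eq_sub_of_hasDerivAt (fun t _ => hf t)
      (hc.intervalIntegrable 0 1)).symm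
  rw [← ofReal_integral_eq_lintegral_ofReal hi2 (Eventually.of_forall fun t => by positivity)]
  refine ENNReal.ofReal_le_ofReal ?_
  set c := f 1 - f 0 with hcdef
  have h2 : 0 ≤ ∫ t in Ioc (0 : ℝ) 1, (f' t - c) ^ 2 :=
    integral_nonneg fun t => by positivity
  have h3 : ∫ t in Ioc (0 : ℝ) 1, (f' t - c) ^ 2 = (∫ t in Ioc (0 : ℝ) 1, f' t ^ 2) - c ^ 2 := by
    have e : ∀ t, (f' t - c) ^ 2 = f' t ^ 2 - 2 * c * f' t + c ^ 2 := fun t => by ring
    simp only [e]
    have hic : IntegrableOn (fun _ : ℝ => c ^ 2) (Ioc 0 1) := integrableOn_const (by simp)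
    have his : IntegrableOn (fun t => f' t ^ 2 - 2 * c * f' t) (Ioc 0 1) :=
      hi2.sub (hi.const_mul _)
    rw [integral_add his hic, integral_sub hi2 (hi.const_mul _), integral_const_mul, ← h1]
    simp
    ring
  rw [h3] at h2
  linarith

namespace Tst

variable {U : ℝ × ℝ → ℝ}

theorem fderiv_apply (U : ℝ × ℝ → ℝ) (q v : ℝ × ℝ) :
    fderiv ℝ U q v = v.1 * H54.dx U q + v.2 * H54.dy U q := by
  have h1 : v = v.1 • ((1, 0) : ℝ × ℝ) + v.2 • ((0, 1) : ℝ × ℝ) := by ext <;> simp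
  conv_lhs => rw [h1]
  rw [map_add, map_smul, map_smul]
  rfl

theorem line (h : Tst U) (p v : ℝ × ℝ) (t : ℝ) :
    HasDerivAt (fun t : ℝ => U (p + t • v)) (fderiv ℝ U (p + t • v) v) t := by
  have h1 : HasDerivAt (fun t : ℝ => p + t • v) v t := by
    simpa using ((hasDerivAt_id t).smul_const v).const_add p
  exact (h.diff (p + t • v)).hasFDerivAt.comp_hasDerivAt t h1

/-- **Translation inequality.** -/
theorem trans (h : Tst U) (v : ℝ × ℝ) :
    ∫⁻ p, ENNReal.ofReal ((U (p + v) - U p) ^ 2) ∂mu ≤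
      ENNReal.ofReal ((v.1 ^ 2 + v.2 ^ 2) * en U) := by
  set g : ℝ × ℝ → ENNReal := fun q => ENNReal.ofReal
    ((v.1 ^ 2 + v.2 ^ 2) * (H54.dx U q ^ 2 + H54.dy U q ^ 2)) with hg
  have hgc : Continuous fun q => (v.1 ^ 2 + v.2 ^ 2) * (H54.dx U q ^ 2 + H54.dy U q ^ 2) :=
    continuous_const.mul ((h.dx.cont.pow 2).add (h.dy.cont.pow 2))
  have hgm : Measurable g := hgc.measurable.ennreal_ofReal
  have hgp : ∀ x y, g (x + 2 * π, y) = g (x, y) := fun x y => by
    simp only [hg, h.dx.per, h.dy.per]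
  have h1 : ∀ p, ENNReal.ofReal ((U (p + v) - U p) ^ 2) ≤
      ∫⁻ t in Ioc (0 : ℝ) 1, g (p + t • v) := by
    intro p
    have hc : Continuous fun t : ℝ => fderiv ℝ U (p + t • v) v :=
      (h.dir v).cont.comp (by fun_prop)
    have h2 := sq_le_lint (fun t => U (p + t • v)) _ (h.line p v) hc
    simp only [one_smul, zero_smul, add_zero] at h2
    refine h2.trans (lintegral_mono fun t => ENNReal.ofReal_le_ofReal ?_)
    rw [fderiv_apply]
    nlinarith [sq_nonneg (v.1 * H54.dy U (p + t • v) - v.2 * H54.dx U (p + t • v))]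
  calc ∫⁻ p, ENNReal.ofReal ((U (p + v) - U p) ^ 2) ∂mu
      ≤ ∫⁻ p, (∫⁻ t in Ioc (0 : ℝ) 1, g (p + t • v)) ∂mu := lintegral_mono h1
    _ = ∫⁻ t in Ioc (0 : ℝ) 1, (∫⁻ p, g (p + t • v) ∂mu) := by
        rw [lintegral_lintegral_swap]
        refine (hgm.comp ?_).aemeasurable
        fun_prop
    _ = ∫⁻ _ in Ioc (0 : ℝ) 1, (∫⁻ p, g p ∂mu) :=
        lintegral_congr fun t => shift_lint g hgm hgp (t • v)
    _ = ∫⁻ p, g p ∂mu := by simp
    _ = ENNReal.ofReal ((v.1 ^ 2 + v.2 ^ 2) * en U) := by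
        rw [en, ← integral_const_mul, ofReal_integral_eq_lintegral_ofReal]
        · exact (h.dx.integrable_sq.add h.dy.integrable_sq).const_mul _
        · exact Eventually.of_forall fun p => by positivity

end Tst

end Pool.Agent.Work.MP_33c50c_an.H54
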