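import Pool.Agent.Work.MP_33c50c_an.H54.Cut
import Pool.Agent.Work.MP_33c50c_an.H54.Shift

/-!
# Folding the plane onto the cylinder
-/

set_option autoImplicit false

open MeasureTheory Set Filter Topology Real

noncomputable section

namespace Pool.Agent.Work.MP_33c50c_an.H54

theorem fold (G : ℝ × ℝ → ENNReal) (hG : Measurable G) (x0 : ℝ)
    (hz : ∀ p : ℝ × ℝ, p.1 ∉ Ioc x0 (x0 + 4 * π) → G p = 0) :
    ∫⁻ p, G p = ∫⁻ x in Ioc x0 (x0 + 2 * π), ∫⁻ y, (G (x, y) + G (x + 2 * π, y)) := by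
  have hpi := Real.pi_pos
  set g : ℝ → ENNReal := fun x => ∫⁻ y, G (x, y) with hg
  have hgm : Measurable g := hG.lintegral_prod_right'
  have h1 : ∫⁻ p, G p = ∫⁻ x, g x := by
    rw [Measure.volume_eq_prod, lintegral_prod _ hG.aemeasurable]
  have h2 : ∀ x, x ∉ Ioc x0 (x0 + 4 * π) → g x = 0 := by
    intro x hx
    rw [hg]
    simp only [fun y => hz (x, y) hx, lintegral_zero]
  have h3 : ∫⁻ x, g x = ∫⁻ x in Ioc x0 (x0 + 4 * π), g x := by
    rw [← lintegral_indicator measurableSet_Ioc]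
    refine lintegral_congr fun x => ?_
    by_cases hx : x ∈ Ioc x0 (x0 + 4 * π)
    · rw [indicator_of_mem hx]
    · rw [indicator_of_notMem hx, h2 x hx]
  have h4 : Ioc x0 (x0 + 4 * π) = Ioc x0 (x0 + 2 * π) ∪ Ioc (x0 + 2 * π) (x0 + 4 * π) :=
    (Ioc_union_Ioc_eq_Ioc (by linarith) (by linarith)).symm
  have h5 : ∫⁻ x in Ioc (x0 + 2 * π) (x0 + 4 * π), g x =
      ∫⁻ x in Ioc x0 (x0 + 2 * π), g (x + 2 * π) := by
    rw [← lintegral_indicator measurableSet_Ioc, ← lintegral_indicator measurableSet_Ioc,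
      ← lintegral_add_right_eq_self
        ((Ioc (x0 + 2 * π) (x0 + 4 * π)).indicator g) (2 * π)]
    refine lintegral_congr fun x => ?_
    by_cases hx : x ∈ Ioc x0 (x0 + 2 * π)
    · rw [indicator_of_mem hx, indicator_of_mem]
      exact ⟨by linarith [hx.1], by linarith [hx.2]⟩
    · rw [indicator_of_notMem hx, indicator_of_notMem]
      intro hx'
      exact hx ⟨by linarith [hx'.1], by linarith [hx'.2]⟩
  rw [h1, h3, h4, lintegral_union measurableSet_Ioc
    (Ioc_disjoint_Ioc_of_le le_rfl), h5, ← lintegral_add_left hgm]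
  refine lintegral_congr fun x => ?_
  have hm1 : Measurable fun y => G (x, y) := hG.comp (measurable_const.prodMk measurable_id)
  rw [hg]
  simp only
  rw [← lintegral_add_left hm1]

theorem mu_lint (H : ℝ × ℝ → ENNReal) (hH : Measurable H)
    (hp : ∀ x y, H (x + 2 * π, y) = H (x, y)) (x0 : ℝ) :
    ∫⁻ p, H p ∂mu = ∫⁻ x in Ioc x0 (x0 + 2 * π), ∫⁻ y, H (x, y) := by
  unfold mu
  rw [lintegral_prod _ hH.aemeasurable,
    per_lint (fun x => ∫⁻ y, H (x, y)) (fun x => by simp only [hp]) x0 0, zero_add]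

theorem fold_le {G H : ℝ × ℝ → ENNReal} (hG : Measurable G) (hH : Measurable H)
    (hp : ∀ x y, H (x + 2 * π, y) = H (x, y)) (x0 : ℝ)
    (hz : ∀ p : ℝ × ℝ, p.1 ∉ Ioc x0 (x0 + 4 * π) → G p = 0)
    (hle : ∀ x ∈ Ioc x0 (x0 + 2 * π), ∀ y, G (x, y) + G (x + 2 * π, y) ≤ H (x, y)) :
    ∫⁻ p, G p ≤ ∫⁻ p, H p ∂mu := by
  rw [fold G hG x0 hz, mu_lint H hH hp x0]
  exact setLIntegral_mono' measurableSet_Ioc fun x hx => lintegral_mono fun y => hle x hx y

theorem fold_eq {G H : ℝ × ℝ → ENNReal} (hG : Measurable G) (hH : Measurable H)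
    (hp : ∀ x y, H (x + 2 * π, y) = H (x, y)) (x0 : ℝ)
    (hz : ∀ p : ℝ × ℝ, p.1 ∉ Ioc x0 (x0 + 4 * π) → G p = 0)
    (hle : ∀ x ∈ Ioc x0 (x0 + 2 * π), ∀ y, G (x, y) + G (x + 2 * π, y) = H (x, y)) :
    ∫⁻ p, G p = ∫⁻ p, H p ∂mu := by
  rw [fold G hG x0 hz, mu_lint H hH hp x0]
  exact setLIntegral_congr_fun measurableSet_Ioc fun x hx => lintegral_congr fun y => hle x hx y

/-- The strip in which the cutoff lives. -/
def strip (x0 d : ℝ) : Set (ℝ × ℝ) := Ioo x0 (x0 + 2 * π + d) ×ˢ univ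

theorem strip_open (x0 d : ℝ) : IsOpen (strip x0 d) := isOpen_Ioo.prod isOpen_univ

/-- The function times the cutoff. -/
def cut (x0 d : ℝ) (U : ℝ × ℝ → ℝ) (p : ℝ × ℝ) : ℝ := chi x0 d p.1 * U p

section cut

variable {x0 d : ℝ} {U : ℝ × ℝ → ℝ}

theorem cut_dir (h : Tst U) (p e : ℝ × ℝ) :
    fderiv ℝ (cut x0 d U) p e = e.1 * chiD x0 d p.1 * U p + chi x0 d p.1 * fderiv ℝ U p e := by
  have h1 : HasFDerivAt (fun q : ℝ × ℝ => chi x0 d q.1)
      (chiD x0 d p.1 • ContinuousLinearMap.fst ℝ ℝ ℝ) p := by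
    have h2 := (chi_hasDeriv x0 d p.1).comp_hasFDerivAt p
      (hasFDerivAt_fst (𝕜 := ℝ) (E := ℝ) (F := ℝ) (p := p))
    exact h2
  have h3 := h1.mul (h.diff p).hasFDerivAt
  have h4 : HasFDerivAt (cut x0 d U) _ p := h3
  rw [h4.fderiv]
  have h5 : (ContinuousLinearMap.fst ℝ ℝ ℝ) e = e.1 := rfl
  simp only [_root_.add_apply, _root_.smul_apply, smul_eq_mul, h5]
  ring

theorem cut_smooth (h : Tst U) : ContDiff ℝ ((⊤ : ℕ∞) : WithTop ℕ∞) (cut x0 d U) :=
  ((chi_smooth x0 d).comp contDiff_fst).mul h.smooth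

/-- Mass is preserved. -/
theorem cut_mass (hd : 0 < d) (hd' : d < 2 * π) (h : Tst U) :
    ∫⁻ p, ENNReal.ofReal (cut x0 d U p ^ 2) = ∫⁻ p, ENNReal.ofReal (U p ^ 2) ∂mu := by
  have hpi := Real.pi_pos
  refine fold_eq (((cut_smooth h).continuous.pow 2).measurable.ennreal_ofReal)
    ((h.cont.pow 2).measurable.ennreal_ofReal) (fun x y => by rw [h.per]) x0 ?_ ?_
  · intro p hp
    have : chi x0 d p.1 = 0 := by
      refine chi_zero hd ?_
      rw [mem_Ioc, not_and_or, not_lt, not_le] at hp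
      rcases hp with hp | hp
      · left; linarith
      · right; linarith
    rw [cut, this, zero_mul, zero_pow two_ne_zero, ENNReal.ofReal_zero]
  · intro x hx y
    rw [← ENNReal.ofReal_add (sq_nonneg _) (sq_nonneg _)]
    congr 1
    unfold cut
    simp only
    rw [h.per, mul_pow, mul_pow, ← add_mul, chi_sq hd hd' hx, one_mul]

/-- The energy grows by a controlled amount. -/
theorem cut_energy (hd : 0 < d) (hd' : d < 2 * π) {K : ℝ}
    (hK : ∀ t, deriv ang t ^ 2 ≤ K) (h : Tst U) :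
    ∫⁻ p, ENNReal.ofReal (fderiv ℝ (cut x0 d U) p (1, 0) ^ 2 +
      fderiv ℝ (cut x0 d U) p (0, 1) ^ 2) ≤
      ∫⁻ p, ENNReal.ofReal (dx U p ^ 2 + dy U p ^ 2 + K / d ^ 2 * U p ^ 2) ∂mu := by
  have hpi := Real.pi_pos
  have hc : ∀ e : ℝ × ℝ, Continuous fun p => fderiv ℝ (cut x0 d U) p e := fun e =>
    ((cut_smooth h).continuous_fderiv (by simp)).clm_apply continuous_const
  refine fold_le (((hc _).pow 2).add ((hc _).pow 2)).measurable.ennreal_ofReal
    (((h.dx.cont.pow 2).add (h.dy.cont.pow 2)).add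
      (continuous_const.mul (h.cont.pow 2))).measurable.ennreal_ofReal
    (fun x y => by rw [h.per, h.dx.per, h.dy.per]) x0 ?_ ?_
  · intro p hp
    have hp' : p.1 ≤ x0 + d / 8 ∨ x0 + 2 * π + 7 * d / 8 ≤ p.1 := by
      rw [mem_Ioc, not_and_or, not_lt, not_le] at hp
      rcases hp with hp | hp
      · left; linarith
      · right; linarith
    have h1 : cut x0 d U =ᶠ[𝓝 p] fun _ => 0 := by
      rcases hp' with hp' | hp'
      · filter_upwards [continuous_fst.continuousAt.eventually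
          (Iio_mem_nhds (show p.1 < x0 + d / 4 by linarith))] with q hq
        have hq' : q.1 < x0 + d / 4 := hq
        rw [cut, chi_zero hd (Or.inl hq'.le), zero_mul]
      · filter_upwards [continuous_fst.continuousAt.eventually
          (Ioi_mem_nhds (show x0 + 2 * π + 3 * d / 4 < p.1 by linarith))] with q hq
        have hq' : x0 + 2 * π + 3 * d / 4 < q.1 := hq
        rw [cut, chi_zero hd (Or.inr hq'.le), zero_mul]
    rw [h1.fderiv_eq]
    simp
  · intro x hx y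
    rw [← ENNReal.ofReal_add (by positivity) (by positivity)]
    refine ENNReal.ofReal_le_ofReal ?_
    simp only [cut_dir h, one_mul, zero_mul, zero_add]
    have e1 : fderiv ℝ U (x + 2 * π, y) (1, 0) = fderiv ℝ U (x, y) (1, 0) := h.dx.per x y
    have e2 : fderiv ℝ U (x + 2 * π, y) (0, 1) = fderiv ℝ U (x, y) (0, 1) := h.dy.per x y
    rw [h.per, e1, e2]
    unfold dx dy
    have s1 := chi_sq hd hd' hx
    have s2 := chi_chiD hd hd' hx
    have s3 := chiD_sq hd hd' hx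
    have s4 : deriv ang ((x - x0) / d) ^ 2 / d ^ 2 ≤ K / d ^ 2 :=
      div_le_div_of_nonneg_right (hK _) (by positivity)
    set a := chi x0 d x
    set b := chi x0 d (x + 2 * π)
    set a' := chiD x0 d x
    set b' := chiD x0 d (x + 2 * π)
    set ux := fderiv ℝ U (x, y) (1, 0)
    set uy := fderiv ℝ U (x, y) (0, 1)
    set w := U (x, y)
    have e3 : (a' * w + a * ux) ^ 2 + (a * uy) ^ 2 + ((b' * w + b * ux) ^ 2 + (b * uy) ^ 2) =
        (a ^ 2 + b ^ 2) * (ux ^ 2 + uy ^ 2) + 2 * (a * a' + b * b') * w * ux +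
          (a' ^ 2 + b' ^ 2) * w ^ 2 := by ring
    rw [e3, s1, s2, s3]
    have e4 : deriv ang ((x - x0) / d) ^ 2 / d ^ 2 * w ^ 2 ≤ K / d ^ 2 * w ^ 2 :=
      mul_le_mul_of_nonneg_right s4 (sq_nonneg _)
    linarith

end cut

end Pool.Agent.Work.MP_33c50c_an.H54
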