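import Pool.Agent.Work.MP_33c50c_an.H54.Zone

/-!
# Cutoffs for several zones
-/

set_option autoImplicit false

open MeasureTheory Set Filter Topology Real

noncomputable section

namespace Pool.Agent.Work.MP_33c50c_an.H54

/-- The angle of one zone. -/
def phi (w r l x : ℝ) : ℝ := π / 2 * (stp ((x - l) / r) * stp ((l + w - x) / r)) ^ 3

/-- Its derivative. -/
def phiD (w r l x : ℝ) : ℝ :=
  π / 2 * (3 * (stp ((x - l) / r) * stp ((l + w - x) / r)) ^ 2 *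
    (deriv stp ((x - l) / r) / r * stp ((l + w - x) / r) -
      stp ((x - l) / r) * (deriv stp ((l + w - x) / r) / r)))

theorem phi_smooth (w r l : ℝ) : ContDiff ℝ ((⊤ : ℕ∞) : WithTop ℕ∞) (phi w r l) :=
  contDiff_const.mul (((stp_smooth.comp ((contDiff_id.sub contDiff_const).div_const r)).mul
    (stp_smooth.comp ((contDiff_const.sub contDiff_id).div_const r))).pow 3)

theorem phi_hasDeriv (w r l x : ℝ) : HasDerivAt (phi w r l) (phiD w r l x) x := by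
  have h1 : HasDerivAt (fun x : ℝ => (x - l) / r) (1 / r) x :=
    ((hasDerivAt_id x).sub_const l).div_const r
  have h2 : HasDerivAt (fun x : ℝ => (l + w - x) / r) (-1 / r) x :=
    ((hasDerivAt_id x).const_sub (l + w)).div_const r
  have h3 := (stp_hasDeriv ((x - l) / r)).comp x h1
  have h4 := (stp_hasDeriv ((l + w - x) / r)).comp x h2
  have h5 := (((h3.mul h4).pow 3).const_mul (π / 2))
  refine h5.congr_deriv ?_
  unfold phiD
  simp only [Function.comp_apply, Pi.mul_apply]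
  push_cast
  ring

section one

variable {w r l x : ℝ} (hr : 0 < r)

include hr

theorem phi_off (hx : x ≤ l + r / 4 ∨ l + w - r / 4 ≤ x) : phi w r l x = 0 := by
  unfold phi
  rcases hx with hx | hx
  · rw [stp_zero' (t := (x - l) / r)]
    · ring
    · rw [div_le_iff₀ hr]; linarith
  · rw [stp_zero' (t := (l + w - x) / r)]
    · ring
    · rw [div_le_iff₀ hr]; linarith

theorem phiD_off (hx : x ≤ l ∨ l + w ≤ x) : phiD w r l x = 0 := by
  unfold phiD
  rcases hx with hx | hx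
  · have h : (x - l) / r ≤ 0 := div_nonpos_of_nonpos_of_nonneg (by linarith) hr.le
    rw [stp_zero h]
    ring
  · have h : (l + w - x) / r ≤ 0 := div_nonpos_of_nonpos_of_nonneg (by linarith) hr.le
    rw [stp_zero h]
    ring

theorem phi_mid (h1 : l + 3 * r / 4 ≤ x) (h2 : x ≤ l + w - 3 * r / 4) : phi w r l x = π / 2 := by
  unfold phi
  rw [stp_one' (t := (x - l) / r), stp_one' (t := (l + w - x) / r)]
  · ring
  · rw [le_div_iff₀ hr]; linarith
  · rw [le_div_iff₀ hr]; linarith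

theorem phi_err (hw : 2 * r ≤ w) {K : ℝ} (hK1 : 1 ≤ K) (hK : ∀ t, deriv stp t ^ 2 ≤ K) {n : ℝ}
    (hn : 0 < n) :
    phiD w r l x ^ 2 ≤ n * Real.sin (phi w r l x) ^ 2 + (23 * K) ^ 3 / (r ^ 6 * n ^ 2) := by
  have key : ∀ s : ℝ, 0 ≤ s → 23 * K * s ^ 4 / r ^ 2 ≤
      n * s ^ 6 + (23 * K) ^ 3 / (r ^ 6 * n ^ 2) := by
    intro s hs
    have hC : 0 < 23 * K := by linarith
    rcases le_or_gt (23 * K / (r ^ 2 * n)) (s ^ 2) with h | h
    · have h1 : 23 * K / r ^ 2 ≤ n * s ^ 2 := by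
        rw [div_le_iff₀ (by positivity)] at h ⊢
        nlinarith
      have h2 : 23 * K * s ^ 4 / r ^ 2 ≤ n * s ^ 6 := by
        calc 23 * K * s ^ 4 / r ^ 2 = 23 * K / r ^ 2 * s ^ 4 := by ring
          _ ≤ n * s ^ 2 * s ^ 4 := mul_le_mul_of_nonneg_right h1 (by positivity)
          _ = n * s ^ 6 := by ring
      have : 0 ≤ (23 * K) ^ 3 / (r ^ 6 * n ^ 2) := by positivity
      linarith
    · have h1 : s ^ 4 ≤ (23 * K / (r ^ 2 * n)) ^ 2 := by
        calc s ^ 4 = (s ^ 2) ^ 2 := by ring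
          _ ≤ _ := pow_le_pow_left₀ (sq_nonneg _) h.le 2
      have h2 : 23 * K * s ^ 4 / r ^ 2 ≤ (23 * K) ^ 3 / (r ^ 6 * n ^ 2) := by
        calc 23 * K * s ^ 4 / r ^ 2 ≤ 23 * K * (23 * K / (r ^ 2 * n)) ^ 2 / r ^ 2 := by gcongr
          _ = _ := by field_simp
      have : 0 ≤ n * s ^ 6 := by positivity
      linarith
  have hsin : ∀ t, stp t ^ 6 ≤ Real.sin (prf t) ^ 2 := by
    intro t
    have h3 : (stp t ^ 3) ^ 2 ≤ Real.sin (prf t) ^ 2 :=
      pow_le_pow_left₀ (pow_nonneg (stp_nonneg t) 3) (sin_prf t) 2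
    have h4 : (stp t ^ 3) ^ 2 = stp t ^ 6 := by ring
    rwa [h4] at h3
  have fin : ∀ t, (prfD t / r) ^ 2 ≤ n * Real.sin (prf t) ^ 2 +
      (23 * K) ^ 3 / (r ^ 6 * n ^ 2) := by
    intro t
    have h1 : (prfD t / r) ^ 2 ≤ 23 * K * stp t ^ 4 / r ^ 2 := by
      rw [div_pow]
      exact div_le_div_of_nonneg_right (prfD_sq hK t) (by positivity)
    have h5 := key (stp t) (stp_nonneg t)
    have h6 := mul_le_mul_of_nonneg_left (hsin t) hn.le
    linarith
  rcases le_or_gt (l + r) x with h | h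
  · have h1 : 1 ≤ (x - l) / r := by rw [le_div_iff₀ hr]; linarith
    have e1 : phi w r l x = prf ((l + w - x) / r) := by
      unfold phi prf; rw [stp_one h1, one_mul]
    have e2 : phiD w r l x = -(prfD ((l + w - x) / r) / r) := by
      unfold phiD prfD; rw [stp_one h1, stp_deriv_one h1]; ring
    rw [e1, e2, neg_sq]
    exact fin _
  · have h1 : 1 ≤ (l + w - x) / r := by rw [le_div_iff₀ hr]; linarith
    have e1 : phi w r l x = prf ((x - l) / r) := by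
      unfold phi prf; rw [stp_one h1, mul_one]
    have e2 : phiD w r l x = prfD ((x - l) / r) / r := by
      unfold phiD prfD; rw [stp_one h1, stp_deriv_one h1]; ring
    rw [e1, e2]
    exact fin _

end one

/-- The total angle. -/
def Phi (w r : ℝ) (s : Finset ℕ) (l : ℕ → ℝ) (x : ℝ) : ℝ := ∑ j ∈ s, phi w r (l j) x

def PhiD (w r : ℝ) (s : Finset ℕ) (l : ℕ → ℝ) (x : ℝ) : ℝ := ∑ j ∈ s, phiD w r (l j) x

theorem Phi_smooth (w r : ℝ) (s : Finset ℕ) (l : ℕ → ℝ) :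
    ContDiff ℝ ((⊤ : ℕ∞) : WithTop ℕ∞) (Phi w r s l) :=
  ContDiff.sum fun j _ => phi_smooth w r (l j)

theorem Phi_hasDeriv (w r : ℝ) (s : Finset ℕ) (l : ℕ → ℝ) (x : ℝ) :
    HasDerivAt (Phi w r s l) (PhiD w r s l x) x :=
  HasDerivAt.fun_sum fun j _ => phi_hasDeriv w r (l j) x

/-- The outer cutoff. -/
def gg (x0 w r : ℝ) (s : Finset ℕ) (l : ℕ → ℝ) (x : ℝ) : ℝ :=
  out x0 w r x * Real.cos (Phi w r s l x)

def ggD (x0 w r : ℝ) (s : Finset ℕ) (l : ℕ → ℝ) (x : ℝ) : ℝ :=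
  outD x0 w r x * Real.cos (Phi w r s l x) +
    out x0 w r x * (-Real.sin (Phi w r s l x) * PhiD w r s l x)

theorem gg_smooth (x0 w r : ℝ) (s : Finset ℕ) (l : ℕ → ℝ) :
    ContDiff ℝ ((⊤ : ℕ∞) : WithTop ℕ∞) (gg x0 w r s l) :=
  (out_smooth x0 w r).mul (Real.contDiff_cos.comp (Phi_smooth w r s l))

theorem gg_hasDeriv (x0 w r : ℝ) (s : Finset ℕ) (l : ℕ → ℝ) (x : ℝ) :
    HasDerivAt (gg x0 w r s l) (ggD x0 w r s l x) x :=
  (out_hasDeriv x0 w r x).mul (Phi_hasDeriv w r s l x).cos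

/-- The inner cutoffs. -/
def hh (w r l x : ℝ) : ℝ := Real.sin (phi w r l x)

def hhD (w r l x : ℝ) : ℝ := Real.cos (phi w r l x) * phiD w r l x

theorem hh_smooth (w r l : ℝ) : ContDiff ℝ ((⊤ : ℕ∞) : WithTop ℕ∞) (hh w r l) :=
  Real.contDiff_sin.comp (phi_smooth w r l)

theorem hh_hasDeriv (w r l x : ℝ) : HasDerivAt (hh w r l) (hhD w r l x) x :=
  (phi_hasDeriv w r l x).sin

theorem hh_off {w r l x : ℝ} (hr : 0 < r) (hx : x ≤ l + r / 4 ∨ l + w - r / 4 ≤ x) :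
    hh w r l x = 0 := by
  unfold hh; rw [phi_off hr hx, Real.sin_zero]

theorem hhD_off {w r l x : ℝ} (hr : 0 < r) (hx : x ≤ l ∨ l + w ≤ x) : hhD w r l x = 0 := by
  unfold hhD; rw [phiD_off hr hx, mul_zero]

/-- Admissible positions of the zones. -/
structure Pos (x0 w r : ℝ) (s : Finset ℕ) (l : ℕ → ℝ) : Prop where
  hr : 0 < r
  hw : 2 * r ≤ w
  hw' : w ≤ 2 * π
  lo : ∀ j ∈ s, x0 + w ≤ l j
  hi : ∀ j ∈ s, l j + w ≤ x0 + 2 * π
  sep : ∀ i ∈ s, ∀ j ∈ s, i ≠ j → l i + w ≤ l j ∨ l j + w ≤ l i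

section pos

variable {x0 w r : ℝ} {s : Finset ℕ} {l : ℕ → ℝ} (P : Pos x0 w r s l)

include P

theorem Pos.quiet {x : ℝ} (hx : ∀ j ∈ s, x ≤ l j ∨ l j + w ≤ x) :
    Phi w r s l x = 0 ∧ PhiD w r s l x = 0 ∧ (∀ j ∈ s, hh w r (l j) x = 0) ∧
      ∀ j ∈ s, hhD w r (l j) x = 0 := by
  have h1 : ∀ j ∈ s, phi w r (l j) x = 0 := fun j hj => phi_off P.hr (by
    have := P.hr
    rcases hx j hj with h | h
    · left; linarith
    · right; linarith)
  have h2 : ∀ j ∈ s, phiD w r (l j) x = 0 := fun j hj => phiD_off P.hr (hx j hj)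
  refine ⟨Finset.sum_eq_zero h1, Finset.sum_eq_zero h2, fun j hj => ?_, fun j hj => ?_⟩
  · unfold hh; rw [h1 j hj, Real.sin_zero]
  · unfold hhD; rw [h2 j hj, mul_zero]

/-- Structure at a point. -/
theorem Pos.cases (x : ℝ) : (∀ j ∈ s, x ≤ l j ∨ l j + w ≤ x) ∨
    ∃ j₀ ∈ s, ∀ j ∈ s, j ≠ j₀ → x ≤ l j ∨ l j + w ≤ x := by
  by_cases h : ∀ j ∈ s, x ≤ l j ∨ l j + w ≤ x
  · exact Or.inl h
  · right
    push Not at h
    obtain ⟨j₀, hj₀, h1, h2⟩ := h
    refine ⟨j₀, hj₀, fun j hj hne => ?_⟩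
    rcases P.sep j hj j₀ hj₀ hne with h3 | h3
    · right; linarith
    · left; linarith

theorem Pos.single {x : ℝ} {j₀ : ℕ} (hj₀ : j₀ ∈ s)
    (hx : ∀ j ∈ s, j ≠ j₀ → x ≤ l j ∨ l j + w ≤ x) :
    Phi w r s l x = phi w r (l j₀) x ∧ PhiD w r s l x = phiD w r (l j₀) x ∧
      (∀ j ∈ s, j ≠ j₀ → hh w r (l j) x = 0) ∧ ∀ j ∈ s, j ≠ j₀ → hhD w r (l j) x = 0 := by
  have h1 : ∀ j ∈ s, j ≠ j₀ → phi w r (l j) x = 0 := fun j hj hne => phi_off P.hr (by
    have := P.hr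
    rcases hx j hj hne with h | h
    · left; linarith
    · right; linarith)
  have h2 : ∀ j ∈ s, j ≠ j₀ → phiD w r (l j) x = 0 := fun j hj hne =>
    phiD_off P.hr (hx j hj hne)
  refine ⟨Finset.sum_eq_single j₀ h1 fun h => absurd hj₀ h,
    Finset.sum_eq_single j₀ h2 fun h => absurd hj₀ h, fun j hj hne => ?_, fun j hj hne => ?_⟩
  · unfold hh; rw [h1 j hj hne, Real.sin_zero]
  · unfold hhD; rw [h2 j hj hne, mul_zero]

/-- Beyond the special zone. -/
theorem Pos.beyond {x : ℝ} (h1 : x0 + w ≤ x) (h2 : x ≤ x0 + 2 * π) :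
    out x0 w r x = 1 ∧ outD x0 w r x = 0 ∧ out x0 w r (x + 2 * π) = 0 ∧
      outD x0 w r (x + 2 * π) = 0 ∧ inn x0 w r x = 0 ∧ innD x0 w r x = 0 := by
  have hr := P.hr
  have hw := P.hw
  have hw' := P.hw'
  have hpi := Real.pi_pos
  have a1 : (x0 + w - x) / r ≤ 0 := div_nonpos_of_nonpos_of_nonneg (by linarith) hr.le
  have a2 : (x - 2 * π - x0) / r ≤ 0 := div_nonpos_of_nonpos_of_nonneg (by linarith) hr.le
  have a3 : 1 ≤ (x + 2 * π - 2 * π - x0) / r := by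
    rw [le_div_iff₀ hr]; linarith
  have a4 : (x0 + w - (x + 2 * π)) / r ≤ 0 := div_nonpos_of_nonpos_of_nonneg (by linarith) hr.le
  refine ⟨?_, ?_, ?_, ?_, inn_off hr (Or.inr (by linarith)), innD_off hr h1⟩
  · unfold out angA angB
    rw [prf_zero a1, prf_zero a2, Real.cos_zero, one_mul]
  · unfold outD angA angB dA dB
    rw [prf_zero a1, prf_zero a2, prfD_zero a1, prfD_zero a2]
    simp
  · unfold out angA angB
    rw [prf_one a3, Real.cos_pi_div_two, mul_zero]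
  · unfold outD angA angB dA dB
    rw [prf_one a3, prfD_one a3, prf_zero a4, prfD_zero a4, Real.cos_pi_div_two]
    simp

theorem Pos.far {x : ℝ} (h : x0 + 2 * π ≤ x) : ∀ j ∈ s, x ≤ l j ∨ l j + w ≤ x :=
  fun j hj => Or.inr (by have := P.hi j hj; linarith)

theorem Pos.near {x : ℝ} (h : x ≤ x0 + w) : ∀ j ∈ s, x ≤ l j ∨ l j + w ≤ x :=
  fun j hj => Or.inl (by have := P.lo j hj; linarith)

theorem Pos.inn_far {x : ℝ} (hx : x ∈ Ioc x0 (x0 + 2 * π)) :
    inn x0 w r (x + 2 * π) = 0 ∧ innD x0 w r (x + 2 * π) = 0 ∧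
      (∀ j ∈ s, hh w r (l j) (x + 2 * π) = 0) ∧ ∀ j ∈ s, hhD w r (l j) (x + 2 * π) = 0 := by
  have hr := P.hr
  have hw' := P.hw'
  obtain ⟨-, -, h3, h4⟩ := P.quiet (P.far (x := x + 2 * π) (by linarith [hx.1]))
  exact ⟨inn_off hr (Or.inr (by linarith [hx.1])), innD_off hr (by linarith [hx.1]), h3, h4⟩

theorem Pos.sq {x : ℝ} (hx : x ∈ Ioc x0 (x0 + 2 * π)) :
    gg x0 w r s l x ^ 2 + gg x0 w r s l (x + 2 * π) ^ 2 + inn x0 w r x ^ 2 +
      ∑ j ∈ s, hh w r (l j) x ^ 2 = 1 := by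
  obtain ⟨f1, -, -, -⟩ := P.quiet (P.far (x := x + 2 * π) (by linarith [hx.1]))
  rcases le_or_gt x (x0 + w) with h | h
  · obtain ⟨q1, -, q3, -⟩ := P.quiet (P.near h)
    unfold gg
    rw [q1, f1, Real.cos_zero, mul_one, mul_one, Finset.sum_eq_zero fun j hj => by
      rw [q3 j hj]; norm_num, add_zero]
    exact part_sq P.hr P.hw P.hw' hx
  · obtain ⟨b1, -, b3, -, b5, -⟩ := P.beyond h.le hx.2
    unfold gg
    rw [b1, b3, b5]
    rcases P.cases x with hq | ⟨j₀, hj₀, hq⟩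
    · obtain ⟨q1, -, q3, -⟩ := P.quiet hq
      rw [q1, Real.cos_zero, Finset.sum_eq_zero fun j hj => by rw [q3 j hj]; norm_num]
      norm_num
    · obtain ⟨q1, -, q3, -⟩ := P.single hj₀ hq
      rw [q1, Finset.sum_eq_single j₀ (fun j hj hne => by rw [q3 j hj hne]; norm_num)
        fun h => absurd hj₀ h]
      unfold hh
      have := Real.sin_sq_add_cos_sq (phi w r (l j₀) x)
      linarith

theorem Pos.cross {x : ℝ} (hx : x ∈ Ioc x0 (x0 + 2 * π)) :
    gg x0 w r s l x * ggD x0 w r s l x + gg x0 w r s l (x + 2 * π) * ggD x0 w r s l (x + 2 * π) +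
      inn x0 w r x * innD x0 w r x + ∑ j ∈ s, hh w r (l j) x * hhD w r (l j) x = 0 := by
  obtain ⟨f1, f2, -, -⟩ := P.quiet (P.far (x := x + 2 * π) (by linarith [hx.1]))
  rcases le_or_gt x (x0 + w) with h | h
  · obtain ⟨q1, q2, q3, q4⟩ := P.quiet (P.near h)
    have h1 := part_cross P.hr P.hw P.hw' hx
    unfold gg ggD
    rw [q1, q2, f1, f2, Real.cos_zero, Real.sin_zero, Finset.sum_eq_zero fun j hj => by
      rw [q3 j hj, zero_mul]]
    linarith
  · obtain ⟨b1, b2, b3, b4, b5, b6⟩ := P.beyond h.le hx.2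
    unfold gg ggD
    rw [b1, b2, b3, b4, b5, b6]
    rcases P.cases x with hq | ⟨j₀, hj₀, hq⟩
    · obtain ⟨q1, q2, q3, q4⟩ := P.quiet hq
      rw [q1, q2, Real.cos_zero, Real.sin_zero, Finset.sum_eq_zero fun j hj => by
        rw [q3 j hj, zero_mul]]
      norm_num
    · obtain ⟨q1, q2, q3, q4⟩ := P.single hj₀ hq
      rw [q1, q2, Finset.sum_eq_single j₀ (fun j hj hne => by rw [q3 j hj hne, zero_mul])
        fun h => absurd hj₀ h]
      unfold hh hhD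
      ring

theorem Pos.err {x : ℝ} (hx : x ∈ Ioc x0 (x0 + 2 * π)) {K : ℝ} (hK1 : 1 ≤ K)
    (hK : ∀ t, deriv stp t ^ 2 ≤ K) {n : ℝ} (hn : 0 < n) :
    ggD x0 w r s l x ^ 2 + ggD x0 w r s l (x + 2 * π) ^ 2 + innD x0 w r x ^ 2 +
      ∑ j ∈ s, hhD w r (l j) x ^ 2 ≤
      n * (inn x0 w r x ^ 2 + ∑ j ∈ s, hh w r (l j) x ^ 2) +
        (23 * K) ^ 3 / (r ^ 6 * n ^ 2) := by
  have hT : 0 ≤ (23 * K) ^ 3 / (r ^ 6 * n ^ 2) := by
    have := P.hr
    have : 0 ≤ 23 * K := by linarith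
    positivity
  obtain ⟨f1, f2, -, -⟩ := P.quiet (P.far (x := x + 2 * π) (by linarith [hx.1]))
  rcases le_or_gt x (x0 + w) with h | h
  · obtain ⟨q1, q2, q3, q4⟩ := P.quiet (P.near h)
    have h1 := part_err P.hr P.hw P.hw' hx hK1 hK hn
    unfold ggD
    rw [q1, q2, f1, f2, Real.cos_zero, Real.sin_zero, Finset.sum_eq_zero fun j hj => by
      rw [q4 j hj]; norm_num, Finset.sum_eq_zero (f := fun j => hh w r (l j) x ^ 2) fun j hj => by
      rw [q3 j hj]; norm_num]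
    simp only [mul_one, neg_zero, mul_zero, zero_mul, add_zero]
    exact h1
  · obtain ⟨b1, b2, b3, b4, b5, b6⟩ := P.beyond h.le hx.2
    unfold ggD
    rw [b1, b2, b3, b4, b5, b6]
    rcases P.cases x with hq | ⟨j₀, hj₀, hq⟩
    · obtain ⟨q1, q2, q3, q4⟩ := P.quiet hq
      rw [q1, q2, Real.cos_zero, Real.sin_zero, Finset.sum_eq_zero fun j hj => by
        rw [q4 j hj]; norm_num, Finset.sum_eq_zero (f := fun j => hh w r (l j) x ^ 2) fun j hj => by
        rw [q3 j hj]; norm_num]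
      simp only [mul_one, neg_zero, mul_zero, zero_mul, add_zero]
      norm_num
      exact hT
    · obtain ⟨q1, q2, q3, q4⟩ := P.single hj₀ hq
      rw [q1, q2, Finset.sum_eq_single j₀ (fun j hj hne => by rw [q4 j hj hne]; norm_num)
        fun h => absurd hj₀ h, Finset.sum_eq_single (f := fun j => hh w r (l j) x ^ 2) j₀
        (fun j hj hne => by rw [q3 j hj hne]; norm_num) fun h => absurd hj₀ h]
      have h1 := phi_err (l := l j₀) (x := x) P.hr P.hw hK1 hK hn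
      have h2 := Real.sin_sq_add_cos_sq (phi w r (l j₀) x)
      unfold hh hhD
      have e : (0 * Real.cos (phi w r (l j₀) x) +
          1 * (-Real.sin (phi w r (l j₀) x) * phiD w r (l j₀) x)) ^ 2 +
          (0 * Real.cos (Phi w r s l (x + 2 * π)) +
            0 * (-Real.sin (Phi w r s l (x + 2 * π)) * PhiD w r s l (x + 2 * π))) ^ 2 +
          0 ^ 2 + (Real.cos (phi w r (l j₀) x) * phiD w r (l j₀) x) ^ 2 =
          (Real.sin (phi w r (l j₀) x) ^ 2 + Real.cos (phi w r (l j₀) x) ^ 2) *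
            phiD w r (l j₀) x ^ 2 := by ring
      rw [e, h2, one_mul]
      norm_num
      exact h1

end pos

end Pool.Agent.Work.MP_33c50c_an.H54
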