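import Pool.Agent.Work.MP_33c50c_an.H54.Zone
import Pool.Agent.Work.MP_33c50c_an.H54.AreaB
import Pool.Agent.Work.MP_33c50c_an.H54.FK

/-!
# Cutting in a forbidden zone
-/

set_option autoImplicit false

open MeasureTheory Set Filter Topology Real

noncomputable section

namespace Pool.Agent.Work.MP_33c50c_an.H54

/-- Part of the unrolled domain. -/
def slab (Om : Set Cyl) (a b : ℝ) : Set (ℝ × ℝ) := cover ⁻¹' Om ∩ (Ioo a b ×ˢ univ)

theorem slab_open {Om : Set Cyl} (hO : IsOpen Om) (a b : ℝ) : IsOpen (slab Om a b) :=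
  (hO.preimage cover_cont).inter (isOpen_Ioo.prod isOpen_univ)

theorem slab_bdd {Om : Set Cyl} (hb : Bornology.IsBounded Om) (a b : ℝ) :
    Bornology.IsBounded (slab Om a b) := by
  have h1 : Bornology.IsBounded (Prod.snd '' Om) := hb.image_snd
  refine ((Metric.isBounded_Ioo a b).prod h1).subset ?_
  rintro p ⟨hp1, hp2, -⟩
  exact ⟨hp2, cover p, hp1, rfl⟩

/-- Multiplication by a function of `x`. -/
def mulx (g : ℝ → ℝ) (U : ℝ × ℝ → ℝ) (p : ℝ × ℝ) : ℝ := g p.1 * U p

theorem mulx_dir {g g' : ℝ → ℝ} (hg : ∀ x, HasDerivAt g (g' x) x) {U : ℝ × ℝ → ℝ} (h : Tst U)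
    (p e : ℝ × ℝ) :
    fderiv ℝ (mulx g U) p e = e.1 * g' p.1 * U p + g p.1 * fderiv ℝ U p e := by
  have h1 : HasFDerivAt (fun q : ℝ × ℝ => g q.1)
      (g' p.1 • ContinuousLinearMap.fst ℝ ℝ ℝ) p := by
    have h2 := (hg p.1).comp_hasFDerivAt p
      (hasFDerivAt_fst (𝕜 := ℝ) (E := ℝ) (F := ℝ) (p := p))
    exact h2
  have h3 := h1.mul (h.diff p).hasFDerivAt
  have h4 : HasFDerivAt (mulx g U) _ p := h3
  rw [h4.fderiv]
  have h5 : (ContinuousLinearMap.fst ℝ ℝ ℝ) e = e.1 := rfl
  simp only [_root_.add_apply, _root_.smul_apply, smul_eq_mul, h5]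
  ring

theorem mulx_smooth {g : ℝ → ℝ} (hg : ContDiff ℝ ((⊤ : ℕ∞) : WithTop ℕ∞) g) {U : ℝ × ℝ → ℝ}
    (h : Tst U) : ContDiff ℝ ((⊤ : ℕ∞) : WithTop ℕ∞) (mulx g U) :=
  (hg.comp contDiff_fst).mul h.smooth

theorem mulx_test {Om : Set Cyl} {u : Cyl → ℝ} (h : IsTest Om u) {g : ℝ → ℝ}
    (hg : ContDiff ℝ ((⊤ : ℕ∞) : WithTop ℕ∞) g) {a b a' b' : ℝ} (ha : a < a') (hb : b' < b)
    (hoff : ∀ x, x ≤ a' ∨ b' ≤ x → g x = 0) : IsTestP (slab Om a b) (mulx g (lift u)) := by
  obtain ⟨R, hR⟩ := (h.compact.isCompact.image continuous_snd).isBounded.subset_closedBall 0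
  set F : Set (ℝ × ℝ) := (Icc a' b' ×ˢ Icc (-R) R) ∩ cover ⁻¹' (tsupport u) with hF
  have hFc : IsCompact F :=
    (isCompact_Icc.prod isCompact_Icc).inter_right ((isClosed_tsupport u).preimage cover_cont)
  have hs : Function.support (mulx g (lift u)) ⊆ F := by
    intro p hp
    have hp' : g p.1 * lift u p ≠ 0 := hp
    have h1 : g p.1 ≠ 0 := left_ne_zero_of_mul hp'
    have h2 : lift u p ≠ 0 := right_ne_zero_of_mul hp'
    have h3 : cover p ∈ tsupport u := subset_tsupport _ h2
    have h4 := hR (mem_image_of_mem Prod.snd h3)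
    rw [mem_closedBall_zero_iff, Real.norm_eq_abs] at h4
    have h5 : |p.2| ≤ R := h4
    rw [abs_le] at h5
    refine ⟨⟨⟨?_, ?_⟩, h5⟩, h3⟩
    · by_contra hc
      push Not at hc
      exact h1 (hoff _ (Or.inl hc.le))
    · by_contra hc
      push Not at hc
      exact h1 (hoff _ (Or.inr hc.le))
  refine ⟨mulx_smooth hg h.tst, HasCompactSupport.of_support_subset_isCompact hFc hs, ?_⟩
  refine (closure_minimal hs hFc.isClosed).trans ?_
  rintro p ⟨⟨hp1, hp2⟩, hp3⟩
  exact ⟨h.supp hp3, ⟨lt_of_lt_of_le ha hp1.1, lt_of_le_of_lt hp1.2 hb⟩, mem_univ _⟩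

section

variable {x0 w r : ℝ} {Om : Set Cyl} {u : Cyl → ℝ} (hr : 0 < r) (hw : 2 * r ≤ w)
  (hw' : w ≤ 2 * π)

include hr in
theorem inn_test (h : IsTest Om u) :
    IsTestP (slab Om x0 (x0 + w)) (mulx (inn x0 w r) (lift u)) :=
  mulx_test h (inn_smooth x0 w r) (a' := x0 + r / 4) (b' := x0 + w - r / 4) (by linarith)
    (by linarith) fun _ hx => inn_off hr hx

include hr in
theorem out_test (h : IsTest Om u) :
    IsTestP (slab Om (x0 + w - r) (x0 + 2 * π + r)) (mulx (out x0 w r) (lift u)) :=
  mulx_test h (out_smooth x0 w r) (a' := x0 + w - 3 * r / 4) (b' := x0 + 2 * π + 3 * r / 4)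
    (by linarith) (by linarith) fun _ hx => out_off hr hx

include hr hw hw' in
theorem zone_mass (h : IsTest Om u) :
    massP (mulx (out x0 w r) (lift u)) + massP (mulx (inn x0 w r) (lift u)) = mass u := by
  have hpi := Real.pi_pos
  have ho := out_test (x0 := x0) (w := w) hr h
  have hi := inn_test (x0 := x0) (w := w) hr h
  have hU := h.tst
  have mo : Measurable fun p => ENNReal.ofReal (mulx (out x0 w r) (lift u) p ^ 2) :=
    (ho.cont.pow 2).measurable.ennreal_ofReal
  have key : ∫⁻ p, (ENNReal.ofReal (mulx (out x0 w r) (lift u) p ^ 2) +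
      ENNReal.ofReal (mulx (inn x0 w r) (lift u) p ^ 2)) =
      ∫⁻ p, ENNReal.ofReal (lift u p ^ 2) ∂mu := by
    refine fold_eq (((ho.cont.pow 2).measurable.ennreal_ofReal).add
      ((hi.cont.pow 2).measurable.ennreal_ofReal))
      ((hU.cont.pow 2).measurable.ennreal_ofReal) (fun x y => by rw [hU.per]) x0 ?_ ?_
    · intro p hp
      rw [mem_Ioc, not_and_or, not_lt, not_le] at hp
      have h1 : out x0 w r p.1 = 0 := by
        refine out_off hr ?_
        rcases hp with hp | hp
        · left; linarith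
        · right; linarith
      have h2 : inn x0 w r p.1 = 0 := by
        refine inn_off hr ?_
        rcases hp with hp | hp
        · left; linarith
        · right; linarith
      simp [mulx, h1, h2]
    · intro x hx y
      have h2 : inn x0 w r (x + 2 * π) = 0 := inn_off hr (Or.inr (by linarith [hx.1]))
      rw [← ENNReal.ofReal_add (sq_nonneg _) (sq_nonneg _),
        ← ENNReal.ofReal_add (sq_nonneg _) (sq_nonneg _),
        ← ENNReal.ofReal_add (by positivity) (by positivity)]
      congr 1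
      unfold mulx
      simp only
      rw [hU.per, h2]
      have := part_sq hr hw hw' hx
      have e : (out x0 w r x * lift u (x, y)) ^ 2 + (inn x0 w r x * lift u (x, y)) ^ 2 +
          ((out x0 w r (x + 2 * π) * lift u (x, y)) ^ 2 + (0 * lift u (x, y)) ^ 2) =
          (out x0 w r x ^ 2 + out x0 w r (x + 2 * π) ^ 2 + inn x0 w r x ^ 2) *
            lift u (x, y) ^ 2 := by ring
      rw [e, this, one_mul]
  rw [lintegral_add_left mo,
    ← ofReal_integral_eq_lintegral_ofReal ho.int_sq (Eventually.of_forall fun p => sq_nonneg _),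
    ← ofReal_integral_eq_lintegral_ofReal hi.int_sq (Eventually.of_forall fun p => sq_nonneg _),
    ← ofReal_integral_eq_lintegral_ofReal hU.integrable_sq
      (Eventually.of_forall fun p => sq_nonneg _),
    ← ENNReal.ofReal_add (integral_nonneg fun p => sq_nonneg _)
      (integral_nonneg fun p => sq_nonneg _),
    ENNReal.ofReal_eq_ofReal_iff (add_nonneg (integral_nonneg fun p => sq_nonneg _)
      (integral_nonneg fun p => sq_nonneg _)) (integral_nonneg fun p => sq_nonneg _)] at key
  rw [mass_eq]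
  exact key

include hr hw hw' in
theorem zone_energy (h : IsTest Om u) {K : ℝ} (hK1 : 1 ≤ K) (hK : ∀ t, deriv stp t ^ 2 ≤ K)
    {n : ℝ} (hn : 0 < n) :
    energyP (mulx (out x0 w r) (lift u)) + energyP (mulx (inn x0 w r) (lift u)) ≤
      energy u + (23 * K) ^ 3 / (r ^ 6 * n ^ 2) * mass u +
        n * massP (mulx (inn x0 w r) (lift u)) := by
  have hpi := Real.pi_pos
  have ho := out_test (x0 := x0) (w := w) hr h
  have hi := inn_test (x0 := x0) (w := w) hr h
  have hU := h.tst
  set T : ℝ := (23 * K) ^ 3 / (r ^ 6 * n ^ 2) with hT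
  have hT0 : 0 ≤ T := by
    have : 0 ≤ 23 * K := by linarith
    positivity
  have mo : Measurable fun p => ENNReal.ofReal (fderiv ℝ (mulx (out x0 w r) (lift u)) p (1, 0) ^ 2 +
      fderiv ℝ (mulx (out x0 w r) (lift u)) p (0, 1) ^ 2) :=
    (((ho.fderiv_cont _).pow 2).add ((ho.fderiv_cont _).pow 2)).measurable.ennreal_ofReal
  have mi : Measurable fun p => ENNReal.ofReal (fderiv ℝ (mulx (inn x0 w r) (lift u)) p (1, 0) ^ 2 +
      fderiv ℝ (mulx (inn x0 w r) (lift u)) p (0, 1) ^ 2) :=
    (((hi.fderiv_cont _).pow 2).add ((hi.fderiv_cont _).pow 2)).measurable.ennreal_ofReal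
  have mP : Measurable fun p => ENNReal.ofReal (dx (lift u) p ^ 2 + dy (lift u) p ^ 2 +
      T * lift u p ^ 2) :=
    (((hU.dx.cont.pow 2).add (hU.dy.cont.pow 2)).add
      (continuous_const.mul (hU.cont.pow 2))).measurable.ennreal_ofReal
  have mQ : Measurable fun p => ENNReal.ofReal (n * mulx (inn x0 w r) (lift u) p ^ 2) :=
    (continuous_const.mul (hi.cont.pow 2)).measurable.ennreal_ofReal
  have key : ∫⁻ p, (ENNReal.ofReal (fderiv ℝ (mulx (out x0 w r) (lift u)) p (1, 0) ^ 2 +
      fderiv ℝ (mulx (out x0 w r) (lift u)) p (0, 1) ^ 2) +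
      ENNReal.ofReal (fderiv ℝ (mulx (inn x0 w r) (lift u)) p (1, 0) ^ 2 +
      fderiv ℝ (mulx (inn x0 w r) (lift u)) p (0, 1) ^ 2)) ≤
      (∫⁻ p, ENNReal.ofReal (dx (lift u) p ^ 2 + dy (lift u) p ^ 2 + T * lift u p ^ 2) ∂mu) +
      ∫⁻ p, ENNReal.ofReal (n * mulx (inn x0 w r) (lift u) p ^ 2) := by
    have mG : Measurable fun p =>
        (ENNReal.ofReal (fderiv ℝ (mulx (out x0 w r) (lift u)) p (1, 0) ^ 2 +
          fderiv ℝ (mulx (out x0 w r) (lift u)) p (0, 1) ^ 2) +
        ENNReal.ofReal (fderiv ℝ (mulx (inn x0 w r) (lift u)) p (1, 0) ^ 2 +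
          fderiv ℝ (mulx (inn x0 w r) (lift u)) p (0, 1) ^ 2)) := mo.add mi
    rw [fold _ mG x0]
    · calc _ ≤ ∫⁻ x in Ioc x0 (x0 + 2 * π), ∫⁻ y,
            (ENNReal.ofReal (dx (lift u) (x, y) ^ 2 + dy (lift u) (x, y) ^ 2 +
              T * lift u (x, y) ^ 2) +
            ENNReal.ofReal (n * mulx (inn x0 w r) (lift u) (x, y) ^ 2)) := by
            refine setLIntegral_mono' measurableSet_Ioc fun x hx => lintegral_mono fun y => ?_
            have h2 : inn x0 w r (x + 2 * π) = 0 := inn_off hr (Or.inr (by linarith [hx.1]))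
            have h3 : innD x0 w r (x + 2 * π) = 0 := innD_off hr (by linarith [hx.1])
            dsimp only
            rw [← ENNReal.ofReal_add (by positivity) (by positivity),
              ← ENNReal.ofReal_add (by positivity) (by positivity),
              ← ENNReal.ofReal_add (by positivity) (by positivity),
              ← ENNReal.ofReal_add (by positivity) (by positivity)]
            refine ENNReal.ofReal_le_ofReal ?_
            simp only [mulx_dir (out_hasDeriv x0 w r) hU, mulx_dir (inn_hasDeriv x0 w r) hU,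
              one_mul, zero_mul, zero_add]
            have e1 : fderiv ℝ (lift u) (x + 2 * π, y) (1, 0) =
                fderiv ℝ (lift u) (x, y) (1, 0) := hU.dx.per x y
            have e2 : fderiv ℝ (lift u) (x + 2 * π, y) (0, 1) =
                fderiv ℝ (lift u) (x, y) (0, 1) := hU.dy.per x y
            rw [hU.per, e1, e2, h2, h3]
            unfold dx dy mulx
            have s1 := part_sq hr hw hw' hx
            have s2 := part_cross hr hw hw' hx
            have s3 := part_err hr hw hw' hx hK1 hK hn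
            rw [← hT] at s3
            dsimp only
            set a := out x0 w r x
            set b := out x0 w r (x + 2 * π)
            set c := inn x0 w r x
            set a' := outD x0 w r x
            set b' := outD x0 w r (x + 2 * π)
            set c' := innD x0 w r x
            set ux := fderiv ℝ (lift u) (x, y) (1, 0)
            set uy := fderiv ℝ (lift u) (x, y) (0, 1)
            set z := lift u (x, y)
            have e3 : (a' * z + a * ux) ^ 2 + (a * uy) ^ 2 + ((c' * z + c * ux) ^ 2 + (c * uy) ^ 2) +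
                ((b' * z + b * ux) ^ 2 + (b * uy) ^ 2 + ((0 * z + 0 * ux) ^ 2 + (0 * uy) ^ 2)) =
                (a ^ 2 + b ^ 2 + c ^ 2) * (ux ^ 2 + uy ^ 2) +
                2 * (a * a' + b * b' + c * c') * z * ux + (a' ^ 2 + b' ^ 2 + c' ^ 2) * z ^ 2 := by
              ring
            have e4 : (a' ^ 2 + b' ^ 2 + c' ^ 2) * z ^ 2 ≤ (n * c ^ 2 + T) * z ^ 2 :=
              mul_le_mul_of_nonneg_right s3 (sq_nonneg _)
            have e5 : (a ^ 2 + b ^ 2 + c ^ 2) * (ux ^ 2 + uy ^ 2) +
                2 * (a * a' + b * b' + c * c') * z * ux + (a' ^ 2 + b' ^ 2 + c' ^ 2) * z ^ 2 ≤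
                ux ^ 2 + uy ^ 2 + T * z ^ 2 + n * (c * z) ^ 2 := by
              rw [s1, s2]
              nlinarith [e4]
            exact le_trans (le_of_eq e3) e5
        _ = (∫⁻ x in Ioc x0 (x0 + 2 * π), ∫⁻ y,
              ENNReal.ofReal (dx (lift u) (x, y) ^ 2 + dy (lift u) (x, y) ^ 2 +
                T * lift u (x, y) ^ 2)) +
            ∫⁻ x in Ioc x0 (x0 + 2 * π), ∫⁻ y,
              ENNReal.ofReal (n * mulx (inn x0 w r) (lift u) (x, y) ^ 2) := by
            rw [← lintegral_add_left mP.lintegral_prod_right']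
            refine lintegral_congr fun x => ?_
            exact lintegral_add_left (mP.comp (measurable_const.prodMk measurable_id)) _
        _ ≤ _ := by
            refine add_le_add (le_of_eq ?_) ?_
            · exact (mu_lint _ mP (fun x y => by rw [hU.per, hU.dx.per, hU.dy.per]) x0).symm
            · rw [Measure.volume_eq_prod, lintegral_prod _ mQ.aemeasurable]
              exact setLIntegral_le_lintegral _ _
    · intro p hp
      rw [mem_Ioc, not_and_or, not_lt, not_le] at hp
      have h1 : mulx (out x0 w r) (lift u) =ᶠ[𝓝 p] fun _ => 0 := by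
        rcases hp with hp | hp
        · filter_upwards [continuous_fst.continuousAt.eventually
            (Iio_mem_nhds (show p.1 < x0 + w - 3 * r / 4 by linarith))] with q hq
          have hq' : q.1 < x0 + w - 3 * r / 4 := hq
          rw [mulx, out_off hr (Or.inl hq'.le), zero_mul]
        · filter_upwards [continuous_fst.continuousAt.eventually
            (Ioi_mem_nhds (show x0 + 2 * π + 3 * r / 4 < p.1 by linarith))] with q hq
          have hq' : x0 + 2 * π + 3 * r / 4 < q.1 := hq
          rw [mulx, out_off hr (Or.inr hq'.le), zero_mul]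
      have h2 : mulx (inn x0 w r) (lift u) =ᶠ[𝓝 p] fun _ => 0 := by
        rcases hp with hp | hp
        · filter_upwards [continuous_fst.continuousAt.eventually
            (Iio_mem_nhds (show p.1 < x0 + r / 4 by linarith))] with q hq
          have hq' : q.1 < x0 + r / 4 := hq
          rw [mulx, inn_off hr (Or.inl hq'.le), zero_mul]
        · filter_upwards [continuous_fst.continuousAt.eventually
            (Ioi_mem_nhds (show x0 + w - r / 4 < p.1 by linarith))] with q hq
          have hq' : x0 + w - r / 4 < q.1 := hq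
          rw [mulx, inn_off hr (Or.inr hq'.le), zero_mul]
      rw [h1.fderiv_eq, h2.fderiv_eq]
      simp
  have io : Integrable fun p => fderiv ℝ (mulx (out x0 w r) (lift u)) p (1, 0) ^ 2 +
      fderiv ℝ (mulx (out x0 w r) (lift u)) p (0, 1) ^ 2 := (ho.int_dsq _).add (ho.int_dsq _)
  have ii : Integrable fun p => fderiv ℝ (mulx (inn x0 w r) (lift u)) p (1, 0) ^ 2 +
      fderiv ℝ (mulx (inn x0 w r) (lift u)) p (0, 1) ^ 2 := (hi.int_dsq _).add (hi.int_dsq _)
  have i1 : Integrable (fun p => dx (lift u) p ^ 2 + dy (lift u) p ^ 2) mu :=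
    hU.dx.integrable_sq.add hU.dy.integrable_sq
  have i2 : Integrable (fun p => T * lift u p ^ 2) mu := hU.integrable_sq.const_mul _
  have iP : Integrable (fun p => dx (lift u) p ^ 2 + dy (lift u) p ^ 2 + T * lift u p ^ 2) mu :=
    i1.add i2
  have iQ : Integrable fun p => n * mulx (inn x0 w r) (lift u) p ^ 2 := hi.int_sq.const_mul _
  have eP : ∫ p, (dx (lift u) p ^ 2 + dy (lift u) p ^ 2 + T * lift u p ^ 2) ∂mu =
      energy u + T * mass u := by
    rw [integral_add i1 i2, integral_const_mul, ← mass_eq, energy_eq]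
    rfl
  have nn : ∀ v : ℝ × ℝ → ℝ, 0 ≤ ∫ p, (fderiv ℝ v p (1, 0) ^ 2 + fderiv ℝ v p (0, 1) ^ 2) :=
    fun v => integral_nonneg fun p => by positivity
  have nP : 0 ≤ ∫ p, (dx (lift u) p ^ 2 + dy (lift u) p ^ 2 + T * lift u p ^ 2) ∂mu :=
    integral_nonneg fun p => by positivity
  have nQ : 0 ≤ ∫ p, n * mulx (inn x0 w r) (lift u) p ^ 2 := integral_nonneg fun p => by positivity
  rw [lintegral_add_left mo,
    ← ofReal_integral_eq_lintegral_ofReal io (Eventually.of_forall fun p => by
      dsimp only [Pi.zero_apply]; positivity),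
    ← ofReal_integral_eq_lintegral_ofReal ii (Eventually.of_forall fun p => by
      dsimp only [Pi.zero_apply]; positivity),
    ← ofReal_integral_eq_lintegral_ofReal iP (Eventually.of_forall fun p => by
      dsimp only [Pi.zero_apply]; positivity),
    ← ofReal_integral_eq_lintegral_ofReal iQ (Eventually.of_forall fun p => by
      dsimp only [Pi.zero_apply]; positivity),
    ← ENNReal.ofReal_add (nn _) (nn _), ← ENNReal.ofReal_add nP nQ,
    ENNReal.ofReal_le_ofReal_iff (add_nonneg nP nQ), eP, integral_const_mul] at key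
  exact key

end

end Pool.Agent.Work.MP_33c50c_an.H54
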