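import Pool.Agent.Work.MP_33c50c_an.H54.MZone
import Pool.Agent.Work.MP_33c50c_an.H54.ZoneB

/-!
# Removing several forbidden zones
-/

set_option autoImplicit false

open MeasureTheory Set Filter Topology Real

noncomputable section

namespace Pool.Agent.Work.MP_33c50c_an.H54

/-- The planar set which is left. -/
def rest (Om : Set Cyl) (x0 w r : ℝ) (s : Finset ℕ) (l : ℕ → ℝ) : Set (ℝ × ℝ) :=
  slab Om (x0 + w - r) (x0 + 2 * π + r) ∩
    {p | ∀ j ∈ s, p.1 ∉ Icc (l j + r) (l j + w - r)}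

theorem rest_open {Om : Set Cyl} (hO : IsOpen Om) (x0 w r : ℝ) (s : Finset ℕ) (l : ℕ → ℝ) :
    IsOpen (rest Om x0 w r s l) := by
  refine (slab_open hO _ _).inter ?_
  have : {p : ℝ × ℝ | ∀ j ∈ s, p.1 ∉ Icc (l j + r) (l j + w - r)} =
      ⋂ j ∈ s, {p : ℝ × ℝ | p.1 ∈ (Icc (l j + r) (l j + w - r))ᶜ} := by
    ext p
    simp only [mem_ofPred_eq, mem_iInter, mem_compl_iff]
  rw [this]
  exact isOpen_biInter_finset fun j _ => isClosed_Icc.isOpen_compl.preimage continuous_fst

theorem rest_bdd {Om : Set Cyl} (hb : Bornology.IsBounded Om) (x0 w r : ℝ) (s : Finset ℕ)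
    (l : ℕ → ℝ) : Bornology.IsBounded (rest Om x0 w r s l) :=
  (slab_bdd hb _ _).subset inter_subset_left

section

variable {x0 w r : ℝ} {s : Finset ℕ} {l : ℕ → ℝ} {Om : Set Cyl} {u : Cyl → ℝ}
  (P : Pos x0 w r s l)

include P

theorem hh_test (h : IsTest Om u) (j : ℕ) :
    IsTestP (slab Om (l j) (l j + w)) (mulx (hh w r (l j)) (lift u)) :=
  mulx_test h (hh_smooth w r (l j)) (a' := l j + r / 4) (b' := l j + w - r / 4)
    (by linarith [P.hr]) (by linarith [P.hr]) fun _ hx => hh_off P.hr hx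

theorem gg_off {x : ℝ} (hx : x ≤ x0 + w - 3 * r / 4 ∨ x0 + 2 * π + 3 * r / 4 ≤ x) :
    gg x0 w r s l x = 0 := by
  unfold gg; rw [out_off P.hr hx, zero_mul]

theorem gg_mid {x : ℝ} {j : ℕ} (hj : j ∈ s) (h1 : l j + 3 * r / 4 ≤ x)
    (h2 : x ≤ l j + w - 3 * r / 4) : gg x0 w r s l x = 0 := by
  have hr := P.hr
  have hne : ∀ i ∈ s, i ≠ j → x ≤ l i ∨ l i + w ≤ x := by
    intro i hi hij
    rcases P.sep i hi j hj hij with h3 | h3
    · right; linarith
    · left; linarith
  obtain ⟨q1, -, -, -⟩ := P.single hj hne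
  unfold gg
  rw [q1, phi_mid hr h1 h2, Real.cos_pi_div_two, mul_zero]

theorem gg_test (h : IsTest Om u) : IsTestP (rest Om x0 w r s l) (mulx (gg x0 w r s l) (lift u)) := by
  have hr := P.hr
  have h1 : IsTestP (slab Om (x0 + w - r) (x0 + 2 * π + r)) (mulx (gg x0 w r s l) (lift u)) :=
    mulx_test h (gg_smooth x0 w r s l) (a' := x0 + w - 3 * r / 4) (b' := x0 + 2 * π + 3 * r / 4)
      (by linarith) (by linarith) fun _ hx => gg_off P hx
  refine ⟨h1.smooth, h1.compact, subset_inter h1.supp ?_⟩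
  intro p hp j hj hmem
  have hopen : IsOpen {q : ℝ × ℝ | q.1 ∈ Ioo (l j + 3 * r / 4) (l j + w - 3 * r / 4)} :=
    isOpen_Ioo.preimage continuous_fst
  obtain ⟨q, hq1, hq2⟩ := _root_.mem_closure_iff.1 hp _ hopen
    (show p.1 ∈ Ioo (l j + 3 * r / 4) (l j + w - 3 * r / 4) from
      ⟨by linarith [hmem.1], by linarith [hmem.2]⟩)
  have hq3 : mulx (gg x0 w r s l) (lift u) q ≠ 0 := hq2
  refine hq3 ?_
  unfold mulx
  rw [gg_mid P hj hq1.1.le hq1.2.le, zero_mul]

theorem mzone_mass (h : IsTest Om u) :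
    massP (mulx (gg x0 w r s l) (lift u)) + massP (mulx (inn x0 w r) (lift u)) +
      ∑ j ∈ s, massP (mulx (hh w r (l j)) (lift u)) = mass u := by
  have hpi := Real.pi_pos
  have hr := P.hr
  have hw := P.hw
  have hw' := P.hw'
  have ho := gg_test P h
  have hi := inn_test (x0 := x0) (w := w) hr h
  have hj := fun j => hh_test P h j
  have hU := h.tst
  have nF : ∀ p, 0 ≤ mulx (gg x0 w r s l) (lift u) p ^ 2 +
      mulx (inn x0 w r) (lift u) p ^ 2 + ∑ j ∈ s, mulx (hh w r (l j)) (lift u) p ^ 2 := fun p =>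
    add_nonneg (add_nonneg (sq_nonneg _) (sq_nonneg _)) (Finset.sum_nonneg fun j _ => sq_nonneg _)
  have cF : Continuous fun p => mulx (gg x0 w r s l) (lift u) p ^ 2 +
      mulx (inn x0 w r) (lift u) p ^ 2 + ∑ j ∈ s, mulx (hh w r (l j)) (lift u) p ^ 2 :=
    ((ho.cont.pow 2).add (hi.cont.pow 2)).add (continuous_finsetSum _ fun j _ =>
      (hj j).cont.pow 2)
  have key : ∫⁻ p, ENNReal.ofReal (mulx (gg x0 w r s l) (lift u) p ^ 2 +
      mulx (inn x0 w r) (lift u) p ^ 2 + ∑ j ∈ s, mulx (hh w r (l j)) (lift u) p ^ 2) =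
      ∫⁻ p, ENNReal.ofReal (lift u p ^ 2) ∂mu := by
    refine fold_eq cF.measurable.ennreal_ofReal
      ((hU.cont.pow 2).measurable.ennreal_ofReal) (fun x y => by rw [hU.per]) x0 ?_ ?_
    · intro p hp
      rw [mem_Ioc, not_and_or, not_lt, not_le] at hp
      have h1 : gg x0 w r s l p.1 = 0 := by
        refine gg_off P ?_
        rcases hp with hp | hp
        · left; linarith
        · right; linarith
      have h2 : inn x0 w r p.1 = 0 := by
        refine inn_off hr ?_
        rcases hp with hp | hp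
        · left; linarith
        · right; linarith
      have h3 : ∀ j ∈ s, hh w r (l j) p.1 = 0 := by
        intro j hj'
        refine hh_off hr ?_
        have := P.lo j hj'
        have := P.hi j hj'
        rcases hp with hp | hp
        · left; linarith
        · right; linarith
      unfold mulx
      rw [h1, h2, Finset.sum_eq_zero fun j hj' => by rw [h3 j hj', zero_mul]; norm_num]
      simp
    · intro x hx y
      obtain ⟨e1, e2, e3, e4⟩ := P.inn_far hx
      rw [← ENNReal.ofReal_add (nF (x, y)) (nF (x + 2 * π, y))]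
      congr 1
      unfold mulx
      simp only
      rw [hU.per, e1, Finset.sum_eq_zero (f := fun j =>
        (hh w r (l j) (x + 2 * π) * lift u (x, y)) ^ 2) fun j hj' => by
          rw [e3 j hj', zero_mul]; norm_num]
      have := P.sq hx
      have e : (gg x0 w r s l x * lift u (x, y)) ^ 2 + (inn x0 w r x * lift u (x, y)) ^ 2 +
          ∑ j ∈ s, (hh w r (l j) x * lift u (x, y)) ^ 2 +
          ((gg x0 w r s l (x + 2 * π) * lift u (x, y)) ^ 2 + (0 * lift u (x, y)) ^ 2 + 0) =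
          (gg x0 w r s l x ^ 2 + gg x0 w r s l (x + 2 * π) ^ 2 + inn x0 w r x ^ 2 +
            ∑ j ∈ s, hh w r (l j) x ^ 2) * lift u (x, y) ^ 2 := by
        simp only [mul_pow, ← Finset.sum_mul]
        ring
      rw [e, this, one_mul]
  have i0 : Integrable fun p => mulx (gg x0 w r s l) (lift u) p ^ 2 +
      mulx (inn x0 w r) (lift u) p ^ 2 := ho.int_sq.add hi.int_sq
  have i1 : Integrable fun p => ∑ j ∈ s, mulx (hh w r (l j)) (lift u) p ^ 2 :=
    integrable_finsetSum _ fun j _ => (hj j).int_sq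
  have i2 : Integrable fun p => mulx (gg x0 w r s l) (lift u) p ^ 2 +
      mulx (inn x0 w r) (lift u) p ^ 2 + ∑ j ∈ s, mulx (hh w r (l j)) (lift u) p ^ 2 := i0.add i1
  rw [← ofReal_integral_eq_lintegral_ofReal i2 (Eventually.of_forall nF),
    ← ofReal_integral_eq_lintegral_ofReal hU.integrable_sq
      (Eventually.of_forall fun p => sq_nonneg _),
    ENNReal.ofReal_eq_ofReal_iff (integral_nonneg nF)
      (integral_nonneg fun p => sq_nonneg _), integral_add i0 i1,
    integral_add ho.int_sq hi.int_sq, integral_finsetSum _ fun j _ => (hj j).int_sq] at key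
  rw [mass_eq]
  exact key

theorem mzone_energy (h : IsTest Om u) {K : ℝ} (hK1 : 1 ≤ K) (hK : ∀ t, deriv stp t ^ 2 ≤ K)
    {n : ℝ} (hn : 0 < n) :
    energyP (mulx (gg x0 w r s l) (lift u)) + energyP (mulx (inn x0 w r) (lift u)) +
      ∑ j ∈ s, energyP (mulx (hh w r (l j)) (lift u)) ≤
      energy u + (23 * K) ^ 3 / (r ^ 6 * n ^ 2) * mass u +
        n * (massP (mulx (inn x0 w r) (lift u)) +
          ∑ j ∈ s, massP (mulx (hh w r (l j)) (lift u))) := by
  have hpi := Real.pi_pos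
  have hr := P.hr
  have hw := P.hw
  have hw' := P.hw'
  have ho := gg_test P h
  have hi := inn_test (x0 := x0) (w := w) hr h
  have hj := fun j => hh_test P h j
  have hU := h.tst
  set T : ℝ := (23 * K) ^ 3 / (r ^ 6 * n ^ 2) with hT
  have hT0 : 0 ≤ T := by
    have : 0 ≤ 23 * K := by linarith
    positivity
  have cD : ∀ {W : Set (ℝ × ℝ)} {v : ℝ × ℝ → ℝ}, IsTestP W v → Continuous fun p =>
      fderiv ℝ v p (1, 0) ^ 2 + fderiv ℝ v p (0, 1) ^ 2 := fun hv =>
    ((hv.fderiv_cont _).pow 2).add ((hv.fderiv_cont _).pow 2)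
  have iD : ∀ {W : Set (ℝ × ℝ)} {v : ℝ × ℝ → ℝ}, IsTestP W v → Integrable fun p =>
      fderiv ℝ v p (1, 0) ^ 2 + fderiv ℝ v p (0, 1) ^ 2 := fun hv =>
    (hv.int_dsq _).add (hv.int_dsq _)
  have cF : Continuous fun p => (fderiv ℝ (mulx (gg x0 w r s l) (lift u)) p (1, 0) ^ 2 +
      fderiv ℝ (mulx (gg x0 w r s l) (lift u)) p (0, 1) ^ 2) +
      (fderiv ℝ (mulx (inn x0 w r) (lift u)) p (1, 0) ^ 2 +
      fderiv ℝ (mulx (inn x0 w r) (lift u)) p (0, 1) ^ 2) +
      ∑ j ∈ s, (fderiv ℝ (mulx (hh w r (l j)) (lift u)) p (1, 0) ^ 2 +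
      fderiv ℝ (mulx (hh w r (l j)) (lift u)) p (0, 1) ^ 2) :=
    ((cD ho).add (cD hi)).add (continuous_finsetSum _ fun j _ => cD (hj j))
  have nD : ∀ (v : ℝ × ℝ → ℝ) (p : ℝ × ℝ),
      0 ≤ fderiv ℝ v p (1, 0) ^ 2 + fderiv ℝ v p (0, 1) ^ 2 := fun v p =>
    add_nonneg (sq_nonneg _) (sq_nonneg _)
  have nF : ∀ p, 0 ≤ (fderiv ℝ (mulx (gg x0 w r s l) (lift u)) p (1, 0) ^ 2 +
      fderiv ℝ (mulx (gg x0 w r s l) (lift u)) p (0, 1) ^ 2) +
      (fderiv ℝ (mulx (inn x0 w r) (lift u)) p (1, 0) ^ 2 +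
      fderiv ℝ (mulx (inn x0 w r) (lift u)) p (0, 1) ^ 2) +
      ∑ j ∈ s, (fderiv ℝ (mulx (hh w r (l j)) (lift u)) p (1, 0) ^ 2 +
      fderiv ℝ (mulx (hh w r (l j)) (lift u)) p (0, 1) ^ 2) := fun p =>
    add_nonneg (add_nonneg (nD _ _) (nD _ _)) (Finset.sum_nonneg fun j _ => nD _ _)
  have nPp : ∀ p, 0 ≤ dx (lift u) p ^ 2 + dy (lift u) p ^ 2 + T * lift u p ^ 2 := fun p =>
    add_nonneg (add_nonneg (sq_nonneg _) (sq_nonneg _)) (mul_nonneg hT0 (sq_nonneg _))
  have nQp : ∀ p, 0 ≤ n * (mulx (inn x0 w r) (lift u) p ^ 2 +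
      ∑ j ∈ s, mulx (hh w r (l j)) (lift u) p ^ 2) := fun p =>
    mul_nonneg hn.le (add_nonneg (sq_nonneg _) (Finset.sum_nonneg fun j _ => sq_nonneg _))
  have mP : Measurable fun p => ENNReal.ofReal (dx (lift u) p ^ 2 + dy (lift u) p ^ 2 +
      T * lift u p ^ 2) :=
    (((hU.dx.cont.pow 2).add (hU.dy.cont.pow 2)).add
      (continuous_const.mul (hU.cont.pow 2))).measurable.ennreal_ofReal
  have cQ : Continuous fun p => n * (mulx (inn x0 w r) (lift u) p ^ 2 +
      ∑ j ∈ s, mulx (hh w r (l j)) (lift u) p ^ 2) :=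
    continuous_const.mul ((hi.cont.pow 2).add (continuous_finsetSum _ fun j _ =>
      (hj j).cont.pow 2))
  have mQ : Measurable fun p => ENNReal.ofReal (n * (mulx (inn x0 w r) (lift u) p ^ 2 +
      ∑ j ∈ s, mulx (hh w r (l j)) (lift u) p ^ 2)) := cQ.measurable.ennreal_ofReal
  have key : ∫⁻ p, ENNReal.ofReal ((fderiv ℝ (mulx (gg x0 w r s l) (lift u)) p (1, 0) ^ 2 +
      fderiv ℝ (mulx (gg x0 w r s l) (lift u)) p (0, 1) ^ 2) +
      (fderiv ℝ (mulx (inn x0 w r) (lift u)) p (1, 0) ^ 2 +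
      fderiv ℝ (mulx (inn x0 w r) (lift u)) p (0, 1) ^ 2) +
      ∑ j ∈ s, (fderiv ℝ (mulx (hh w r (l j)) (lift u)) p (1, 0) ^ 2 +
      fderiv ℝ (mulx (hh w r (l j)) (lift u)) p (0, 1) ^ 2)) ≤
      (∫⁻ p, ENNReal.ofReal (dx (lift u) p ^ 2 + dy (lift u) p ^ 2 + T * lift u p ^ 2) ∂mu) +
      ∫⁻ p, ENNReal.ofReal (n * (mulx (inn x0 w r) (lift u) p ^ 2 +
        ∑ j ∈ s, mulx (hh w r (l j)) (lift u) p ^ 2)) := by
    rw [fold _ cF.measurable.ennreal_ofReal x0]
    · calc _ ≤ ∫⁻ x in Ioc x0 (x0 + 2 * π), ∫⁻ y,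
            (ENNReal.ofReal (dx (lift u) (x, y) ^ 2 + dy (lift u) (x, y) ^ 2 +
              T * lift u (x, y) ^ 2) +
            ENNReal.ofReal (n * (mulx (inn x0 w r) (lift u) (x, y) ^ 2 +
              ∑ j ∈ s, mulx (hh w r (l j)) (lift u) (x, y) ^ 2))) := by
            refine setLIntegral_mono' measurableSet_Ioc fun x hx => lintegral_mono fun y => ?_
            obtain ⟨f1, f2, f3, f4⟩ := P.inn_far hx
            rw [← ENNReal.ofReal_add (nF (x, y)) (nF (x + 2 * π, y)),
              ← ENNReal.ofReal_add (nPp (x, y)) (nQp (x, y))]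
            refine ENNReal.ofReal_le_ofReal ?_
            simp only [mulx_dir (gg_hasDeriv x0 w r s l) hU, mulx_dir (inn_hasDeriv x0 w r) hU,
              fun j => mulx_dir (hh_hasDeriv w r (l j)) hU, one_mul, zero_mul, zero_add]
            have e1 : fderiv ℝ (lift u) (x + 2 * π, y) (1, 0) =
                fderiv ℝ (lift u) (x, y) (1, 0) := hU.dx.per x y
            have e2 : fderiv ℝ (lift u) (x + 2 * π, y) (0, 1) =
                fderiv ℝ (lift u) (x, y) (0, 1) := hU.dy.per x y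
            rw [hU.per, e1, e2, f1, f2, Finset.sum_eq_zero (f := fun j =>
              (hhD w r (l j) (x + 2 * π) * lift u (x, y) +
                hh w r (l j) (x + 2 * π) * fderiv ℝ (lift u) (x, y) (1, 0)) ^ 2 +
              (hh w r (l j) (x + 2 * π) * fderiv ℝ (lift u) (x, y) (0, 1)) ^ 2) fun j hj' => by
                rw [f3 j hj', f4 j hj']; simp]
            have s1 := P.sq hx
            have s2 := P.cross hx
            have s3 := P.err hx hK1 hK hn
            rw [← hT] at s3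
            unfold dx dy mulx
            dsimp only
            set a := gg x0 w r s l x
            set b := gg x0 w r s l (x + 2 * π)
            set c := inn x0 w r x
            set a' := ggD x0 w r s l x
            set b' := ggD x0 w r s l (x + 2 * π)
            set c' := innD x0 w r x
            set ux := fderiv ℝ (lift u) (x, y) (1, 0)
            set uy := fderiv ℝ (lift u) (x, y) (0, 1)
            set z := lift u (x, y)
            set S1 := ∑ j ∈ s, hh w r (l j) x ^ 2 with hS1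
            set S2 := ∑ j ∈ s, hh w r (l j) x * hhD w r (l j) x with hS2
            set S3 := ∑ j ∈ s, hhD w r (l j) x ^ 2 with hS3
            have g1 : ∑ j ∈ s, ((hhD w r (l j) x * z + hh w r (l j) x * ux) ^ 2 +
                (hh w r (l j) x * uy) ^ 2) =
                S1 * (ux ^ 2 + uy ^ 2) + 2 * S2 * z * ux + S3 * z ^ 2 := by
              rw [hS1, hS2, hS3, Finset.sum_mul, Finset.sum_mul, Finset.mul_sum, Finset.sum_mul,
                Finset.sum_mul, ← Finset.sum_add_distrib, ← Finset.sum_add_distrib]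
              exact Finset.sum_congr rfl fun j _ => by ring
            have g2 : ∑ j ∈ s, (hh w r (l j) x * z) ^ 2 = S1 * z ^ 2 := by
              rw [hS1, Finset.sum_mul]
              exact Finset.sum_congr rfl fun j _ => by ring
            rw [g1, g2]
            have e4 : (a' ^ 2 + b' ^ 2 + c' ^ 2 + S3) * z ^ 2 ≤ (n * (c ^ 2 + S1) + T) * z ^ 2 :=
              mul_le_mul_of_nonneg_right s3 (sq_nonneg _)
            have e5 : (a ^ 2 + b ^ 2 + c ^ 2 + S1) * (ux ^ 2 + uy ^ 2) +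
                2 * (a * a' + b * b' + c * c' + S2) * z * ux +
                (a' ^ 2 + b' ^ 2 + c' ^ 2 + S3) * z ^ 2 ≤
                ux ^ 2 + uy ^ 2 + T * z ^ 2 + n * ((c * z) ^ 2 + S1 * z ^ 2) := by
              rw [s1, s2]
              nlinarith [e4]
            refine le_trans (le_of_eq ?_) e5
            ring
        _ = (∫⁻ x in Ioc x0 (x0 + 2 * π), ∫⁻ y,
              ENNReal.ofReal (dx (lift u) (x, y) ^ 2 + dy (lift u) (x, y) ^ 2 +
                T * lift u (x, y) ^ 2)) +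
            ∫⁻ x in Ioc x0 (x0 + 2 * π), ∫⁻ y,
              ENNReal.ofReal (n * (mulx (inn x0 w r) (lift u) (x, y) ^ 2 +
                ∑ j ∈ s, mulx (hh w r (l j)) (lift u) (x, y) ^ 2)) := by
            rw [← lintegral_add_left mP.lintegral_prod_right']
            refine lintegral_congr fun x => ?_
            exact lintegral_add_left (mP.comp (measurable_const.prodMk measurable_id)) _
        _ ≤ _ := by
            refine add_le_add (le_of_eq ?_) ?_
            · exact (mu_lint _ mP (fun x y => by rw [hU.per, hU.dx.per, hU.dy.per]) x0).symm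
            · rw [Measure.volume_eq_prod, lintegral_prod _ mQ.aemeasurable]
              exact setLIntegral_le_lintegral _ _
    · intro p hp
      rw [mem_Ioc, not_and_or, not_lt, not_le] at hp
      have zero_of : ∀ {g : ℝ → ℝ} {α β : ℝ}, (∀ x, x ≤ α ∨ β ≤ x → g x = 0) →
          (p.1 < α ∨ β < p.1) → mulx g (lift u) =ᶠ[𝓝 p] fun _ => 0 := by
        intro g α β hg hp'
        rcases hp' with hp' | hp'
        · filter_upwards [continuous_fst.continuousAt.eventually (Iio_mem_nhds hp')] with q hq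
          have hq' : q.1 < α := hq
          rw [mulx, hg _ (Or.inl hq'.le), zero_mul]
        · filter_upwards [continuous_fst.continuousAt.eventually (Ioi_mem_nhds hp')] with q hq
          have hq' : β < q.1 := hq
          rw [mulx, hg _ (Or.inr hq'.le), zero_mul]
      have h1 := zero_of (fun x hx => gg_off P (x := x) hx) (by
        rcases hp with hp | hp
        · left; linarith
        · right; linarith)
      have h2 := zero_of (fun x hx => inn_off (x0 := x0) (w := w) hr (x := x) hx) (by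
        rcases hp with hp | hp
        · left; linarith
        · right; linarith)
      have h3 : ∀ j ∈ s, mulx (hh w r (l j)) (lift u) =ᶠ[𝓝 p] fun _ => 0 := by
        intro j hj'
        have := P.lo j hj'
        have := P.hi j hj'
        refine zero_of (fun x hx => hh_off (w := w) (l := l j) hr (x := x) hx) ?_
        rcases hp with hp | hp
        · left; linarith
        · right; linarith
      rw [h1.fderiv_eq, h2.fderiv_eq, Finset.sum_eq_zero fun j hj' => by
        rw [(h3 j hj').fderiv_eq]; simp]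
      simp
  have i1 : Integrable (fun p => dx (lift u) p ^ 2 + dy (lift u) p ^ 2) mu :=
    hU.dx.integrable_sq.add hU.dy.integrable_sq
  have i2 : Integrable (fun p => T * lift u p ^ 2) mu := hU.integrable_sq.const_mul _
  have iP : Integrable (fun p => dx (lift u) p ^ 2 + dy (lift u) p ^ 2 + T * lift u p ^ 2) mu :=
    i1.add i2
  have iH : Integrable fun p => ∑ j ∈ s, mulx (hh w r (l j)) (lift u) p ^ 2 :=
    integrable_finsetSum _ fun j _ => (hj j).int_sq
  have iQ : Integrable fun p => n * (mulx (inn x0 w r) (lift u) p ^ 2 +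
      ∑ j ∈ s, mulx (hh w r (l j)) (lift u) p ^ 2) := (hi.int_sq.add iH).const_mul _
  have iO : Integrable fun p => (fderiv ℝ (mulx (gg x0 w r s l) (lift u)) p (1, 0) ^ 2 +
      fderiv ℝ (mulx (gg x0 w r s l) (lift u)) p (0, 1) ^ 2) +
      (fderiv ℝ (mulx (inn x0 w r) (lift u)) p (1, 0) ^ 2 +
      fderiv ℝ (mulx (inn x0 w r) (lift u)) p (0, 1) ^ 2) := (iD ho).add (iD hi)
  have iS : Integrable fun p => ∑ j ∈ s, (fderiv ℝ (mulx (hh w r (l j)) (lift u)) p (1, 0) ^ 2 +
      fderiv ℝ (mulx (hh w r (l j)) (lift u)) p (0, 1) ^ 2) :=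
    integrable_finsetSum _ fun j _ => iD (hj j)
  have iF := iO.add iS
  have iF' : Integrable fun p => (fderiv ℝ (mulx (gg x0 w r s l) (lift u)) p (1, 0) ^ 2 +
      fderiv ℝ (mulx (gg x0 w r s l) (lift u)) p (0, 1) ^ 2) +
      (fderiv ℝ (mulx (inn x0 w r) (lift u)) p (1, 0) ^ 2 +
      fderiv ℝ (mulx (inn x0 w r) (lift u)) p (0, 1) ^ 2) +
      ∑ j ∈ s, (fderiv ℝ (mulx (hh w r (l j)) (lift u)) p (1, 0) ^ 2 +
      fderiv ℝ (mulx (hh w r (l j)) (lift u)) p (0, 1) ^ 2) := iF
  have eP : ∫ p, (dx (lift u) p ^ 2 + dy (lift u) p ^ 2 + T * lift u p ^ 2) ∂mu =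
      energy u + T * mass u := by
    rw [integral_add i1 i2, integral_const_mul, ← mass_eq, energy_eq]
    rfl
  have eQ : ∫ p, n * (mulx (inn x0 w r) (lift u) p ^ 2 +
      ∑ j ∈ s, mulx (hh w r (l j)) (lift u) p ^ 2) =
      n * (massP (mulx (inn x0 w r) (lift u)) +
          ∑ j ∈ s, massP (mulx (hh w r (l j)) (lift u))) := by
    rw [integral_const_mul, integral_add hi.int_sq iH,
      integral_finsetSum _ fun j _ => (hj j).int_sq]
    rfl
  have eF : ∫ p, ((fderiv ℝ (mulx (gg x0 w r s l) (lift u)) p (1, 0) ^ 2 +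
      fderiv ℝ (mulx (gg x0 w r s l) (lift u)) p (0, 1) ^ 2) +
      (fderiv ℝ (mulx (inn x0 w r) (lift u)) p (1, 0) ^ 2 +
      fderiv ℝ (mulx (inn x0 w r) (lift u)) p (0, 1) ^ 2) +
      ∑ j ∈ s, (fderiv ℝ (mulx (hh w r (l j)) (lift u)) p (1, 0) ^ 2 +
      fderiv ℝ (mulx (hh w r (l j)) (lift u)) p (0, 1) ^ 2)) =
      energyP (mulx (gg x0 w r s l) (lift u)) + energyP (mulx (inn x0 w r) (lift u)) +
      ∑ j ∈ s, energyP (mulx (hh w r (l j)) (lift u)) := by
    rw [integral_add iO iS, integral_add (iD ho) (iD hi),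
      integral_finsetSum _ fun j _ => iD (hj j)]
    rfl
  have nP : 0 ≤ ∫ p, (dx (lift u) p ^ 2 + dy (lift u) p ^ 2 + T * lift u p ^ 2) ∂mu :=
    integral_nonneg nPp
  have nQ : 0 ≤ ∫ p, n * (mulx (inn x0 w r) (lift u) p ^ 2 +
      ∑ j ∈ s, mulx (hh w r (l j)) (lift u) p ^ 2) := integral_nonneg nQp
  rw [← ofReal_integral_eq_lintegral_ofReal iF' (Eventually.of_forall nF),
    ← ofReal_integral_eq_lintegral_ofReal iP (Eventually.of_forall nPp),
    ← ofReal_integral_eq_lintegral_ofReal iQ (Eventually.of_forall nQp),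
    ← ENNReal.ofReal_add nP nQ,
    ENNReal.ofReal_le_ofReal_iff (add_nonneg nP nQ), eP, eQ, eF] at key
  exact key

end

end Pool.Agent.Work.MP_33c50c_an.H54
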