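import Pool.Agent.Work.MP_33c50c_an.H54.ZoneB
import Pool.Agent.Work.MP_33c50c_an.H54.FinB
import Pool.Agent.Work.MP_33c50c_an.H54.Fin

/-!
# Exact transfer for low eigenvalues
-/

set_option autoImplicit false

open MeasureTheory Set Filter Topology Real

noncomputable section

namespace Pool.Agent.Work.MP_33c50c_an.H54

theorem mulx_sum {k : ℕ} (g : ℝ → ℝ) (c : Fin k → ℝ) (u : Fin k → Cyl → ℝ) :
    ∑ j, c j • mulx g (lift (u j)) = mulx g (lift (∑ j, c j • u j)) := by
  funext p
  simp only [Finset.sum_apply, Pi.smul_apply, smul_eq_mul, mulx, lift_sum]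
  rw [Finset.mul_sum]
  exact Finset.sum_congr rfl fun j _ => by ring

theorem nonempty_of_admP {W : Set (ℝ × ℝ)} {k : ℕ} (hk : 0 < k) {L : ℝ} (h : L ∈ AdmP W k) :
    W.Nonempty := by
  obtain ⟨u, hu1, hu2, -⟩ := h
  obtain ⟨p, hp⟩ := Function.ne_iff.1 (hu2.ne_zero ⟨0, hk⟩)
  exact ⟨p, (hu1 _).supp (subset_tsupport _ hp)⟩

section

variable {x0 w r : ℝ} {Om : Set Cyl}

/-- Admissible bounds survive the removal of a forbidden zone. -/
theorem adm_zone (hO : IsOpen Om) (hr : 0 < r) (hw : 2 * r ≤ w) (hw' : w ≤ 2 * π) {K : ℝ}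
    (hK1 : 1 ≤ K) (hK : ∀ t, deriv stp t ^ 2 ≤ K) {b : ℝ} (hb : 0 < b)
    (hvol : volume (slab Om x0 (x0 + w)) ≤ ENNReal.ofReal b) {T : ℝ}
    (hT : T = (23 * K) ^ 3 * b ^ 2 / r ^ 6) {k : ℕ} {L : ℝ} (hL : L ∈ Adm Om k)
    (hLb : L + T < 1 / b) : L + T ∈ AdmP (slab Om (x0 + w - r) (x0 + 2 * π + r)) k := by
  obtain ⟨u, hu1, hu2, hu3⟩ := hL
  have main : ∀ c : Fin k → ℝ, energyP (mulx (out x0 w r) (lift (∑ j, c j • u j))) ≤
      (L + T) * massP (mulx (out x0 w r) (lift (∑ j, c j • u j))) +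
        (L + T - 1 / b) * massP (mulx (inn x0 w r) (lift (∑ j, c j • u j))) := by
    intro c
    have ht := IsTest.sum hu1 c
    have h1 := zone_mass (x0 := x0) hr hw hw' ht
    have h2 := zone_energy (x0 := x0) hr hw hw' ht hK1 hK (n := 1 / b) (by positivity)
    have h3 := fk (slab_open hO x0 (x0 + w)) (inn_test (x0 := x0) (w := w) hr ht) hb hvol
    have h4 : (23 * K) ^ 3 / (r ^ 6 * (1 / b) ^ 2) = T := by
      rw [hT]; field_simp
    rw [h4] at h2
    have h5 : 2 / b * massP (mulx (inn x0 w r) (lift (∑ j, c j • u j))) ≤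
        energyP (mulx (inn x0 w r) (lift (∑ j, c j • u j))) := by
      rw [div_mul_eq_mul_div, div_le_iff₀ hb]
      linarith
    have h6 := hu3 c
    rw [← h1] at h6 h2
    have h7 : 2 / b = 1 / b + 1 / b := by ring
    rw [h7] at h5
    nlinarith
  have nn : ∀ v : ℝ × ℝ → ℝ, 0 ≤ massP v := fun v => integral_nonneg fun p => sq_nonneg _
  refine ⟨fun j => mulx (out x0 w r) (lift (u j)), fun j => out_test hr (hu1 j), ?_, fun c => ?_⟩
  · rw [Fintype.linearIndependent_iff]
    intro c hc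
    rw [mulx_sum] at hc
    have h1 := main c
    have h2 := zone_mass (x0 := x0) hr hw hw' (IsTest.sum hu1 c)
    have h3 : massP (mulx (out x0 w r) (lift (∑ j, c j • u j))) = 0 := by
      rw [hc]; simp [massP]
    rw [h3, mul_zero, zero_add] at h1
    rw [h3, zero_add] at h2
    have h4 := energyP_nonneg (mulx (out x0 w r) (lift (∑ j, c j • u j)))
    have h5 := nn (mulx (inn x0 w r) (lift (∑ j, c j • u j)))
    have h6 : massP (mulx (inn x0 w r) (lift (∑ j, c j • u j))) = 0 := by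
      by_contra hne
      have h7 : 0 < massP (mulx (inn x0 w r) (lift (∑ j, c j • u j))) :=
        lt_of_le_of_ne h5 (Ne.symm hne)
      have h8 : (L + T - 1 / b) * massP (mulx (inn x0 w r) (lift (∑ j, c j • u j))) < 0 :=
        mul_neg_of_neg_of_pos (by linarith) h7
      linarith
    rw [h6] at h2
    have h9 : (∑ j, c j • u j) = 0 := by
      by_contra h0
      exact (mass_pos (IsTest.sum hu1 c) h0).ne' h2.symm
    exact (Fintype.linearIndependent_iff.1 hu2) c h9
  · rw [mulx_sum]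
    have h1 := main c
    have h2 : (L + T - 1 / b) * massP (mulx (inn x0 w r) (lift (∑ j, c j • u j))) ≤ 0 :=
      mul_nonpos_of_nonpos_of_nonneg (by linarith) (nn _)
    linarith

theorem evP_zone (hO : IsOpen Om) (hne : Om.Nonempty) (hr : 0 < r) (hw : 2 * r ≤ w)
    (hw' : w ≤ 2 * π) {K : ℝ} (hK1 : 1 ≤ K) (hK : ∀ t, deriv stp t ^ 2 ≤ K) {b : ℝ} (hb : 0 < b)
    (hvol : volume (slab Om x0 (x0 + w)) ≤ ENNReal.ofReal b) {T : ℝ}
    (hT : T = (23 * K) ^ 3 * b ^ 2 / r ^ 6) {k : ℕ} (hk : 0 < k) (hLb : ev Om k + T < 1 / b) :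
    (slab Om (x0 + w - r) (x0 + 2 * π + r)).Nonempty ∧
      evP (slab Om (x0 + w - r) (x0 + 2 * π + r)) k ≤ ev Om k + T := by
  have step : ∀ e : ℝ, 0 < e → ∃ L, L ∈ AdmP (slab Om (x0 + w - r) (x0 + 2 * π + r)) k ∧
      L < ev Om k + T + e := by
    intro e he
    obtain ⟨L, hL1, hL2⟩ := exists_lt_of_csInf_lt (adm_nonempty hO hne k)
      (show sInf (Adm Om k) < ev Om k + min e (1 / b - (ev Om k + T)) by
        have : 0 < min e (1 / b - (ev Om k + T)) := lt_min he (by linarith)
        unfold ev at this ⊢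
        linarith)
    have h1 : min e (1 / b - (ev Om k + T)) ≤ e := min_le_left _ _
    have h2 : min e (1 / b - (ev Om k + T)) ≤ 1 / b - (ev Om k + T) := min_le_right _ _
    exact ⟨L + T, adm_zone hO hr hw hw' hK1 hK hb hvol hT hL1 (by linarith), by linarith⟩
  constructor
  · obtain ⟨L, hL, -⟩ := step 1 one_pos
    exact nonempty_of_admP hk hL
  · refine le_of_forall_pos_le_add fun e he => ?_
    obtain ⟨L, hL, hLe⟩ := step e he
    exact (csInf_le (admP_bddBelow _ hk) hL).trans hLe.le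

theorem slab_area (hO : IsOpen Om) (a b : ℝ) :
    volume (slab Om a b) = ∫⁻ x in Ioo a b, len Om x := by
  have hm : MeasurableSet (slab Om a b) := (slab_open hO a b).measurableSet
  rw [← lintegral_indicator_one hm, Measure.volume_eq_prod,
    lintegral_prod _ (measurable_one.indicator hm).aemeasurable,
    ← lintegral_indicator measurableSet_Ioo]
  refine lintegral_congr fun x => ?_
  by_cases hx : x ∈ Ioo a b
  · rw [indicator_of_mem hx, len]
    refine lintegral_congr fun y => ?_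
    by_cases hy : (x, y) ∈ cover ⁻¹' Om
    · have hxy : (x, y) ∈ slab Om a b := ⟨hy, hx, mem_univ _⟩
      rw [indicator_of_mem hy, indicator_of_mem hxy]
      rfl
    · rw [indicator_of_notMem hy, indicator_of_notMem]
      exact fun h => hy h.1
  · rw [indicator_of_notMem hx]
    have : ∀ y, (slab Om a b).indicator (1 : ℝ × ℝ → ENNReal) (x, y) = 0 := fun y =>
      indicator_of_notMem (fun h => hx h.2.1) _
    simp only [this, lintegral_zero]

theorem area_zone (hO : IsOpen Om) (hr : 0 < r) (hw : 2 * r ≤ w) (hw' : w ≤ 2 * π) :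
    volume (slab Om (x0 + w - r) (x0 + 2 * π + r)) + volume (slab Om (x0 + r) (x0 + w - r)) ≤
      volume Om := by
  rw [slab_area hO, slab_area hO, ← len_total hO (x0 + r), add_comm]
  rw [← lintegral_union measurableSet_Ioo]
  · refine lintegral_mono_set ?_
    rintro x (⟨h1, h2⟩ | ⟨h1, h2⟩)
    · exact ⟨h1, by linarith⟩
    · exact ⟨by linarith, by linarith⟩
  · rw [Set.disjoint_left]
    rintro x ⟨_, h1⟩ ⟨h2, _⟩
    linarith

/-- A thin zone. -/
theorem exists_thin (hO : IsOpen Om) (d : ℝ) :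
    ∃ x0 : ℝ, volume (slab Om x0 (x0 + d)) ≤ ENNReal.ofReal (d / (2 * π)) * volume Om := by
  have hpi := Real.pi_pos
  have hmm : Measurable fun q : ℝ × ℝ => len Om (q.1 + q.2) :=
    (len_meas hO).comp (measurable_fst.add measurable_snd)
  have hm1 : Measurable fun x0 : ℝ => ∫⁻ s in Ioc 0 d, len Om (x0 + s) :=
    hmm.lintegral_prod_right'
  have htot : ∫⁻ x0 in Ioc 0 (2 * π), ∫⁻ s in Ioc 0 d, len Om (x0 + s) =
      ENNReal.ofReal d * volume Om := by
    rw [lintegral_lintegral_swap hmm.aemeasurable]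
    have h1 : ∀ s, ∫⁻ x0 in Ioc 0 (2 * π), len Om (x0 + s) = volume Om := by
      intro s
      rw [← len_total hO s, ← lintegral_indicator measurableSet_Ioc,
        ← lintegral_indicator measurableSet_Ioc,
        ← lintegral_add_right_eq_self ((Ioc s (s + 2 * π)).indicator (len Om)) s]
      refine lintegral_congr fun x => ?_
      by_cases hx : x ∈ Ioc 0 (2 * π)
      · rw [indicator_of_mem hx, indicator_of_mem]
        exact ⟨by linarith [hx.1], by linarith [hx.2]⟩
      · rw [indicator_of_notMem hx, indicator_of_notMem]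
        intro h
        exact hx ⟨by linarith [h.1], by linarith [h.2]⟩
    simp only [h1]
    rw [setLIntegral_const, Real.volume_Ioc, sub_zero, mul_comm]
  obtain ⟨x0, _, hx0⟩ := exists_le_setLAverage (μ := volume) (s := Ioc 0 (2 * π))
    (f := fun x0 : ℝ => ∫⁻ s in Ioc 0 d, len Om (x0 + s))
    (by rw [Real.volume_Ioc, sub_zero]; simpa using hpi)
    (by rw [Real.volume_Ioc]; exact ENNReal.ofReal_ne_top) hm1.aemeasurable
  rw [setLAverage_eq, htot, Real.volume_Ioc, sub_zero] at hx0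
  refine ⟨x0, ?_⟩
  rw [slab_area hO]
  have h2 : ∫⁻ x in Ioo x0 (x0 + d), len Om x ≤ ∫⁻ s in Ioc 0 d, len Om (x0 + s) := by
    rw [← lintegral_indicator measurableSet_Ioo, ← lintegral_indicator measurableSet_Ioc,
      ← lintegral_add_right_eq_self ((Ioo x0 (x0 + d)).indicator (len Om)) x0]
    refine lintegral_mono fun s => ?_
    by_cases hs : s + x0 ∈ Ioo x0 (x0 + d)
    · have hs' : s ∈ Ioc 0 d := ⟨by linarith [hs.1], by linarith [hs.2]⟩
      rw [indicator_of_mem hs, indicator_of_mem hs', add_comm]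
    · rw [indicator_of_notMem hs]
      exact zero_le
  refine h2.trans (hx0.trans (le_of_eq ?_))
  rw [ENNReal.ofReal_div_of_pos (by positivity), ENNReal.div_eq_inv_mul, ENNReal.div_eq_inv_mul]
  ring

end

end Pool.Agent.Work.MP_33c50c_an.H54
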