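import Pool.Agent.Work.MP_33c50c_an.H54.MZoneB
import Pool.Agent.Work.MP_33c50c_an.H54.ZoneC

/-!
# Exact transfer below the propagation threshold: the several-zone step
-/

set_option autoImplicit false

open MeasureTheory Set Filter Topology Real

noncomputable section

namespace Pool.Agent.Work.MP_33c50c_an.H54

section

variable {x0 w r : ℝ} {s : Finset ℕ} {l : ℕ → ℝ} {Om : Set Cyl} (P : Pos x0 w r s l)

include P

theorem adm_mzone (hO : IsOpen Om) {K : ℝ} (hK1 : 1 ≤ K) (hK : ∀ t, deriv stp t ^ 2 ≤ K)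
    {b : ℝ} (hb : 0 < b) (hvol : volume (slab Om x0 (x0 + w)) ≤ ENNReal.ofReal b)
    (hvols : ∀ j ∈ s, volume (slab Om (l j) (l j + w)) ≤ ENNReal.ofReal b) {T : ℝ}
    (hT : T = (23 * K) ^ 3 * b ^ 2 / r ^ 6) {k : ℕ} {L : ℝ} (hL : L ∈ Adm Om k)
    (hLb : L + T < 1 / b) : L + T ∈ AdmP (rest Om x0 w r s l) k := by
  have hr := P.hr
  obtain ⟨u, hu1, hu2, hu3⟩ := hL
  have nn : ∀ v : ℝ × ℝ → ℝ, 0 ≤ massP v := fun v => integral_nonneg fun p => sq_nonneg _
  set H : (Fin k → ℝ) → ℝ := fun c => massP (mulx (inn x0 w r) (lift (∑ j, c j • u j))) +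
    ∑ i ∈ s, massP (mulx (hh w r (l i)) (lift (∑ j, c j • u j))) with hH
  have hHn : ∀ c, 0 ≤ H c := fun c => add_nonneg (nn _) (Finset.sum_nonneg fun i _ => nn _)
  have hmass : ∀ c : Fin k → ℝ, massP (mulx (gg x0 w r s l) (lift (∑ j, c j • u j))) + H c =
      mass (∑ j, c j • u j) := by
    intro c
    rw [← mzone_mass P (IsTest.sum hu1 c), hH]
    ring
  have main : ∀ c : Fin k → ℝ, energyP (mulx (gg x0 w r s l) (lift (∑ j, c j • u j))) ≤
      (L + T) * massP (mulx (gg x0 w r s l) (lift (∑ j, c j • u j))) + (L + T - 1 / b) * H c := by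
    intro c
    have ht := IsTest.sum hu1 c
    have h2 := mzone_energy P ht hK1 hK (n := 1 / b) (by positivity)
    have h4 : (23 * K) ^ 3 / (r ^ 6 * (1 / b) ^ 2) = T := by
      rw [hT]; field_simp
    rw [h4] at h2
    have h5 : 2 / b * massP (mulx (inn x0 w r) (lift (∑ j, c j • u j))) ≤
        energyP (mulx (inn x0 w r) (lift (∑ j, c j • u j))) := by
      have h3 := fk (slab_open hO x0 (x0 + w)) (inn_test (x0 := x0) (w := w) hr ht) hb hvol
      rw [div_mul_eq_mul_div, div_le_iff₀ hb]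
      linarith
    have h6 : 2 / b * ∑ i ∈ s, massP (mulx (hh w r (l i)) (lift (∑ j, c j • u j))) ≤
        ∑ i ∈ s, energyP (mulx (hh w r (l i)) (lift (∑ j, c j • u j))) := by
      rw [Finset.mul_sum]
      refine Finset.sum_le_sum fun i hi => ?_
      have h3 := fk (slab_open hO (l i) (l i + w)) (hh_test P ht i) hb (hvols i hi)
      rw [div_mul_eq_mul_div, div_le_iff₀ hb]
      linarith
    have h7 := hu3 c
    have h8 := hmass c
    have h9 : 2 / b * H c ≤ energyP (mulx (inn x0 w r) (lift (∑ j, c j • u j))) +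
        ∑ i ∈ s, energyP (mulx (hh w r (l i)) (lift (∑ j, c j • u j))) := by
      simp only [hH]
      rw [mul_add]
      linarith
    have h10 : 1 / b * (massP (mulx (inn x0 w r) (lift (∑ j, c j • u j))) +
        ∑ i ∈ s, massP (mulx (hh w r (l i)) (lift (∑ j, c j • u j)))) = 1 / b * H c := rfl
    rw [h10, ← h8] at h2
    rw [← h8] at h7
    have h11 : 2 / b * H c = 1 / b * H c + 1 / b * H c := by ring
    rw [h11] at h9
    nlinarith
  refine ⟨fun j => mulx (gg x0 w r s l) (lift (u j)), fun j => gg_test P (hu1 j), ?_,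
    fun c => ?_⟩
  · rw [Fintype.linearIndependent_iff]
    intro c hc
    rw [mulx_sum] at hc
    have h1 := main c
    have h2 := hmass c
    have h3 : massP (mulx (gg x0 w r s l) (lift (∑ j, c j • u j))) = 0 := by
      rw [hc]; simp [massP]
    rw [h3, mul_zero, zero_add] at h1
    rw [h3, zero_add] at h2
    have h4 := energyP_nonneg (mulx (gg x0 w r s l) (lift (∑ j, c j • u j)))
    have h6 : H c = 0 := by
      by_contra hne
      have h7 : 0 < H c := lt_of_le_of_ne (hHn c) (Ne.symm hne)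
      have h8 : (L + T - 1 / b) * H c < 0 := mul_neg_of_neg_of_pos (by linarith) h7
      linarith
    rw [h6] at h2
    have h9 : (∑ j, c j • u j) = 0 := by
      by_contra h0
      exact (mass_pos (IsTest.sum hu1 c) h0).ne' h2.symm
    exact (Fintype.linearIndependent_iff.1 hu2) c h9
  · rw [mulx_sum]
    have h1 := main c
    have h2 : (L + T - 1 / b) * H c ≤ 0 :=
      mul_nonpos_of_nonpos_of_nonneg (by linarith) (hHn c)
    linarith

theorem evP_mzone (hO : IsOpen Om) (hne : Om.Nonempty) {K : ℝ} (hK1 : 1 ≤ K)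
    (hK : ∀ t, deriv stp t ^ 2 ≤ K) {b : ℝ} (hb : 0 < b)
    (hvol : volume (slab Om x0 (x0 + w)) ≤ ENNReal.ofReal b)
    (hvols : ∀ j ∈ s, volume (slab Om (l j) (l j + w)) ≤ ENNReal.ofReal b) {T : ℝ}
    (hT : T = (23 * K) ^ 3 * b ^ 2 / r ^ 6) {k : ℕ} (hk : 0 < k) (hLb : ev Om k + T < 1 / b) :
    (rest Om x0 w r s l).Nonempty ∧ evP (rest Om x0 w r s l) k ≤ ev Om k + T := by
  have step : ∀ e : ℝ, 0 < e → ∃ L, L ∈ AdmP (rest Om x0 w r s l) k ∧
      L < ev Om k + T + e := by
    intro e he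
    obtain ⟨L, hL1, hL2⟩ := exists_lt_of_csInf_lt (adm_nonempty hO hne k)
      (show sInf (Adm Om k) < ev Om k + min e (1 / b - (ev Om k + T)) by
        have : 0 < min e (1 / b - (ev Om k + T)) := lt_min he (by linarith)
        unfold ev at this ⊢
        linarith)
    have h1 : min e (1 / b - (ev Om k + T)) ≤ e := min_le_left _ _
    have h2 : min e (1 / b - (ev Om k + T)) ≤ 1 / b - (ev Om k + T) := min_le_right _ _
    exact ⟨L + T, adm_mzone P hO hK1 hK hb hvol hvols hT hL1 (by linarith), by linarith⟩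
  constructor
  · obtain ⟨L, hL, -⟩ := step 1 one_pos
    exact nonempty_of_admP hk hL
  · refine le_of_forall_pos_le_add fun e he => ?_
    obtain ⟨L, hL, hLe⟩ := step e he
    exact (csInf_le (admP_bddBelow _ hk) hL).trans hLe.le

end

/-- Area over a measurable set. -/
theorem over_area {Om : Set Cyl} (hO : IsOpen Om) {X : Set ℝ} (hX : MeasurableSet X) :
    volume (cover ⁻¹' Om ∩ (X ×ˢ (univ : Set ℝ))) = ∫⁻ x in X, len Om x := by
  have hm : MeasurableSet (cover ⁻¹' Om ∩ (X ×ˢ (univ : Set ℝ))) :=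
    (hO.preimage cover_cont).measurableSet.inter (hX.prod MeasurableSet.univ)
  rw [← lintegral_indicator_one hm, Measure.volume_eq_prod,
    lintegral_prod _ (measurable_one.indicator hm).aemeasurable, ← lintegral_indicator hX]
  refine lintegral_congr fun x => ?_
  by_cases hx : x ∈ X
  · rw [indicator_of_mem hx, len]
    refine lintegral_congr fun y => ?_
    by_cases hy : (x, y) ∈ cover ⁻¹' Om
    · have hxy : (x, y) ∈ cover ⁻¹' Om ∩ (X ×ˢ (univ : Set ℝ)) := ⟨hy, hx, mem_univ _⟩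
      rw [indicator_of_mem hy, indicator_of_mem hxy]
      rfl
    · rw [indicator_of_notMem hy, indicator_of_notMem]
      exact fun h => hy h.1
  · rw [indicator_of_notMem hx]
    have : ∀ y, (cover ⁻¹' Om ∩ (X ×ˢ (univ : Set ℝ))).indicator (1 : ℝ × ℝ → ENNReal) (x, y) =
        0 := fun y => indicator_of_notMem (fun h => hx h.2.1) _
    simp only [this, lintegral_zero]

theorem sum_slab {Om : Set Cyl} (hO : IsOpen Om) {a : ℝ} (s : Finset ℕ) (p q : ℕ → ℝ)
    (hlo : ∀ j ∈ s, a ≤ p j) (hhi : ∀ j ∈ s, q j ≤ a + 2 * π)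
    (hsep : ∀ i ∈ s, ∀ j ∈ s, i ≠ j → q i ≤ p j ∨ q j ≤ p i) :
    ∑ j ∈ s, volume (slab Om (p j) (q j)) ≤ volume Om := by
  have h1 : ∀ j, volume (slab Om (p j) (q j)) = ∫⁻ x in Ioo (p j) (q j), len Om x := fun j =>
    slab_area hO _ _
  simp only [h1]
  rw [← lintegral_biUnion_finset (s := s) (t := fun j => Ioo (p j) (q j)) ?_
    (fun j _ => measurableSet_Ioo), ← len_total hO a]
  · refine lintegral_mono_set ?_
    intro x hx
    simp only [mem_iUnion] at hx
    obtain ⟨j, hj, hx1, hx2⟩ := hx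
    have := hlo j hj
    have := hhi j hj
    exact ⟨by linarith, by linarith⟩
  · intro i hi j hj hij
    rw [Function.onFun, Set.disjoint_left]
    rintro x ⟨h1, h2⟩ ⟨h3, h4⟩
    rcases hsep i hi j hj hij with h | h
    · linarith
    · linarith

theorem rest_area {x0 w r : ℝ} {s : Finset ℕ} {l : ℕ → ℝ} {Om : Set Cyl} (P : Pos x0 w r s l)
    (hO : IsOpen Om) :
    volume (rest Om x0 w r s l) + volume (slab Om (x0 + r) (x0 + w - r)) +
      ∑ j ∈ s, volume (slab Om (l j + r) (l j + w - r)) ≤ volume Om := by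
  have hr := P.hr
  have hw := P.hw
  have hw' := P.hw'
  set X0 : Set ℝ := Ioo (x0 + w - r) (x0 + 2 * π + r) ∩
    {x | ∀ j ∈ s, x ∉ Icc (l j + r) (l j + w - r)} with hX0
  have hX0m : MeasurableSet X0 := by
    refine measurableSet_Ioo.inter ?_
    have : {x : ℝ | ∀ j ∈ s, x ∉ Icc (l j + r) (l j + w - r)} =
        ⋂ j ∈ s, (Icc (l j + r) (l j + w - r))ᶜ := by
      ext x
      simp only [mem_ofPred_eq, mem_iInter, mem_compl_iff]
    rw [this]
    exact Finset.measurableSet_biInter s fun j _ => measurableSet_Icc.compl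
  have e0 : rest Om x0 w r s l = cover ⁻¹' Om ∩ (X0 ×ˢ (univ : Set ℝ)) := by
    ext p
    constructor
    · rintro ⟨⟨h1, h2, _⟩, h3⟩
      exact ⟨h1, ⟨h2, h3⟩, mem_univ _⟩
    · rintro ⟨h1, ⟨h2, h3⟩, _⟩
      exact ⟨⟨h1, h2, mem_univ _⟩, h3⟩
  rw [e0, over_area hO hX0m]
  have h1 : ∀ a b, volume (slab Om a b) = ∫⁻ x in Ioo a b, len Om x := fun a b =>
    slab_area hO _ _
  simp only [h1]
  rw [← lintegral_biUnion_finset (s := s) (t := fun j => Ioo (l j + r) (l j + w - r)) ?_
    (fun j _ => measurableSet_Ioo), ← lintegral_union measurableSet_Ioo ?_,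
    ← lintegral_union (Finset.measurableSet_biUnion s fun j _ => measurableSet_Ioo) ?_,
    ← len_total hO (x0 + r)]
  · refine lintegral_mono_set ?_
    rintro x ((⟨⟨h2, h3⟩, -⟩ | ⟨h2, h3⟩) | hx)
    · exact ⟨by linarith, by linarith⟩
    · exact ⟨by linarith, by linarith⟩
    · simp only [mem_iUnion] at hx
      obtain ⟨j, hj, hx1, hx2⟩ := hx
      have := P.lo j hj
      have := P.hi j hj
      exact ⟨by linarith, by linarith⟩
  · rw [Set.disjoint_left]
    rintro x hx hx'
    simp only [mem_iUnion] at hx'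
    obtain ⟨j, hj, hx1, hx2⟩ := hx'
    rcases hx with ⟨-, h3⟩ | ⟨h2, h3⟩
    · exact h3 j hj ⟨hx1.le, hx2.le⟩
    · have := P.lo j hj
      linarith
  · rw [Set.disjoint_left]
    rintro x ⟨⟨h2, -⟩, -⟩ ⟨_, h5⟩
    linarith
  · intro i hi j hj hij
    rw [Function.onFun, Set.disjoint_left]
    rintro x ⟨h2, h3⟩ ⟨h4, h5⟩
    rcases P.sep i hi j hj hij with h | h
    · linarith
    · linarith

end Pool.Agent.Work.MP_33c50c_an.H54
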