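import Pool.Agent.Work.MP_33c50c_an.H54.Base

/-!
# Plancherel on the flat cylinder
-/

set_option autoImplicit false

open MeasureTheory Set Filter Topology Real

open scoped FourierTransform

noncomputable section

namespace Pool.Agent.Work.MP_33c50c_an.H54

/-- The phase `exp (i (n x + 2 pi w y))`. -/
def ph (n : ℤ) (w : ℝ) (p : ℝ × ℝ) : ℂ :=
  Complex.exp (((n * p.1 + 2 * π * w * p.2 : ℝ) : ℂ) * Complex.I)

/-- Fourier transform on the cylinder. -/
def hat (U : ℝ × ℝ → ℝ) (n : ℤ) (w : ℝ) : ℂ := ∫ p, (U p : ℂ) * ph (-n) (-w) p ∂mu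

/-- Fourier transform in the second variable. -/
def bb (U : ℝ × ℝ → ℝ) (x w : ℝ) : ℂ :=
  ∫ y : ℝ, Complex.exp (((-2 * π * y * w : ℝ) : ℂ) * Complex.I) * (U (x, y) : ℂ)

theorem norm_ph (n : ℤ) (w : ℝ) (p : ℝ × ℝ) : ‖ph n w p‖ = 1 :=
  Complex.norm_exp_ofReal_mul_I _

theorem ph_cont (n : ℤ) (w : ℝ) : Continuous (ph n w) := by
  unfold ph; fun_prop

namespace Tst

variable {U : ℝ × ℝ → ℝ}

theorem slice_smooth (h : Tst U) (x : ℝ) :
    ContDiff ℝ ((⊤ : ℕ∞) : WithTop ℕ∞) fun y : ℝ => (U (x, y) : ℂ) := by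
  have h1 : ContDiff ℝ ((⊤ : ℕ∞) : WithTop ℕ∞) fun y : ℝ => U (x, y) :=
    h.smooth.comp (contDiff_const.prodMk contDiff_id)
  exact Complex.ofRealCLM.contDiff.comp h1

theorem slice_supp (h : Tst U) (x : ℝ) : HasCompactSupport fun y : ℝ => (U (x, y) : ℂ) := by
  obtain ⟨R, hR⟩ := h.bdd
  refine HasCompactSupport.intro (isCompact_Icc (a := -|R|) (b := |R|)) fun y hy => ?_
  rw [mem_Icc, ← abs_le, not_le] at hy
  rw [hR x y ((le_abs_self R).trans hy.le)]
  rfl

theorem bb_eq (h : Tst U) (x w : ℝ) :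
    bb U x w = 𝓕 ((h.slice_supp x).toSchwartzMap (h.slice_smooth x)) w := by
  rw [SchwartzMap.fourier_coe, Real.fourier_real_eq_integral_exp_smul]
  rfl

/-- Plancherel in the second variable. -/
theorem planch1 (h : Tst U) (x : ℝ) :
    ∫⁻ w, ‖bb U x w‖ₑ ^ 2 = ∫⁻ y, ENNReal.ofReal (U (x, y) ^ 2) := by
  set f := (h.slice_supp x).toSchwartzMap (h.slice_smooth x) with hf
  have h1 := SchwartzMap.integral_norm_sq_fourier f
  have h2 : ∫⁻ w, ‖bb U x w‖ₑ ^ 2 = ENNReal.ofReal (∫ w, ‖𝓕 f w‖ ^ 2) := by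
    rw [ofReal_integral_eq_lintegral_ofReal]
    · refine lintegral_congr fun w => ?_
      rw [h.bb_eq, ← ofReal_norm, ENNReal.ofReal_pow (norm_nonneg _)]
    · exact ((𝓕 f).memLp 2).integrable_norm_pow (by norm_num)
    · exact Eventually.of_forall fun w => by positivity
  have h3 : ∫⁻ y, ENNReal.ofReal (U (x, y) ^ 2) = ENNReal.ofReal (∫ y, ‖f y‖ ^ 2) := by
    rw [ofReal_integral_eq_lintegral_ofReal]
    · refine lintegral_congr fun y => ?_
      congr 1
      change U (x, y) ^ 2 = ‖(U (x, y) : ℂ)‖ ^ 2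
      rw [Complex.norm_real, Real.norm_eq_abs, sq_abs]
    · exact (f.memLp 2).integrable_norm_pow (by norm_num)
    · exact Eventually.of_forall fun w => by positivity
  rw [h2, h1, h3]

theorem bb_cont (h : Tst U) : Continuous fun p : ℝ × ℝ => bb U p.1 p.2 := by
  obtain ⟨C, R, hC0, _, hC, hR⟩ := h.bound
  unfold bb
  refine continuous_of_dominated (bound := (Icc (-|R|) |R|).indicator fun _ => C)
    (fun p => ?_) (fun p => Eventually.of_forall fun y => ?_) ?_
    (Eventually.of_forall fun y => ?_)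
  · refine Continuous.aestronglyMeasurable ?_
    have := h.cont
    fun_prop
  · rw [norm_mul, Complex.norm_exp_ofReal_mul_I, one_mul, Complex.norm_real]
    by_cases hy : y ∈ Icc (-|R|) |R|
    · rw [indicator_of_mem hy]; exact hC _ _
    · rw [indicator_of_notMem hy, hR, norm_zero]
      rw [mem_Icc, ← abs_le, not_le] at hy
      exact (le_abs_self R).trans hy.le
  · rw [integrable_indicator_iff measurableSet_Icc]
    exact integrableOn_const (by simp)
  · have := h.cont
    fun_prop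

theorem integrable_ph (h : Tst U) (n : ℤ) (w : ℝ) :
    Integrable (fun p => (U p : ℂ) * ph n w p) mu := by
  obtain ⟨C, R, _, _, hC, hR⟩ := h.bound
  refine integrable_of ?_ (C := C) (R := R) (fun p => ?_) fun p hp => ?_
  · exact (Complex.continuous_ofReal.comp h.cont).mul (ph_cont n w)
  · rw [norm_mul, norm_ph, mul_one, Complex.norm_real]; exact hC p.1 p.2
  · have := hR p.1 p.2 hp
    rw [Prod.mk.eta] at this
    rw [this]; simp

theorem hat_eq (h : Tst U) (n : ℤ) (w : ℝ) :
    hat U n w = ∫ x in (0 : ℝ)..(2 * π), Complex.exp (((-(n * x) : ℝ) : ℂ) * Complex.I) *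
      bb U x w := by
  unfold hat
  have h1 := h.integrable_ph (-n) (-w)
  unfold mu at h1 ⊢
  rw [integral_prod _ h1, intervalIntegral.integral_of_le (by positivity)]
  refine integral_congr_ae (Eventually.of_forall fun x => ?_)
  dsimp only
  unfold bb
  rw [← integral_const_mul]
  refine integral_congr_ae (Eventually.of_forall fun y => ?_)
  dsimp only
  unfold ph
  rw [← mul_assoc, ← Complex.exp_add, mul_comm (U (x, y) : ℂ)]
  congr 2
  push_cast
  ring

/-- Parseval in the first variable. -/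
theorem pars (h : Tst U) (w : ℝ) :
    ∑' n : ℤ, ‖hat U n w‖ₑ ^ 2 = ENNReal.ofReal (2 * π) *
      ∫⁻ x in Ioc 0 (2 * π), ‖bb U x w‖ₑ ^ 2 := by
  have hpos : (0 : ℝ) < 2 * π := by positivity
  have hcont : Continuous fun x => bb U x w :=
    h.bb_cont.comp (continuous_id.prodMk continuous_const)
  have hL2 : MemLp (fun x => bb U x w) 2 (volume.restrict (Ioc 0 (2 * π))) := by
    obtain ⟨B, hB⟩ := (isCompact_Icc (a := (0 : ℝ)) (b := 2 * π)).exists_bound_of_continuousOn
      hcont.continuousOn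
    refine MemLp.of_bound hcont.aestronglyMeasurable B ?_
    refine (ae_restrict_iff' measurableSet_Ioc).2 (Eventually.of_forall fun x hx => ?_)
    exact hB x (Ioc_subset_Icc_self hx)
  have h1 := hasSum_sq_fourierCoeffOn hpos hL2
  have hcoef : ∀ n : ℤ, hat U n w = ((2 * π : ℝ) : ℂ) * fourierCoeffOn hpos (fun x => bb U x w) n := by
    intro n
    rw [h.hat_eq, fourierCoeffOn_eq_integral]
    have h2 : ∀ x : ℝ, (fourier (-n)) ((x : ℝ) : AddCircle (2 * π - 0)) =
        Complex.exp (((-(n * x) : ℝ) : ℂ) * Complex.I) := by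
      intro x
      rw [fourier_coe_apply]
      congr 1
      have : (π : ℂ) ≠ 0 := by exact_mod_cast Real.pi_ne_zero
      push_cast
      field_simp
      ring
    simp only [h2, smul_eq_mul, sub_zero]
    rw [Complex.real_smul, ← mul_assoc]
    have h3 : ((2 * π : ℝ) : ℂ) * ((1 / (2 * π) : ℝ) : ℂ) = 1 := by
      rw [← Complex.ofReal_mul, mul_one_div_cancel hpos.ne', Complex.ofReal_one]
    rw [h3, one_mul]
  have h4 : ∀ n : ℤ, ‖hat U n w‖ ^ 2 =
      (2 * π) ^ 2 * ‖fourierCoeffOn hpos (fun x => bb U x w) n‖ ^ 2 := by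
    intro n
    rw [hcoef n, norm_mul, Complex.norm_real, Real.norm_of_nonneg hpos.le, mul_pow]
  have h5 := h1.mul_left ((2 * π) ^ 2)
  simp only [← h4] at h5
  have h6 : ∑' n : ℤ, ‖hat U n w‖ₑ ^ 2 = ENNReal.ofReal (∑' n : ℤ, ‖hat U n w‖ ^ 2) := by
    rw [ENNReal.ofReal_tsum_of_nonneg (fun n => by positivity) h5.summable]
    refine tsum_congr fun n => ?_
    rw [← ofReal_norm, ENNReal.ofReal_pow (norm_nonneg _)]
  rw [h6, h5.tsum_eq, intervalIntegral.integral_of_le hpos.le, smul_eq_mul]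
  have h7 : (2 * π) ^ 2 * ((2 * π - 0)⁻¹ * ∫ x in Ioc 0 (2 * π), ‖bb U x w‖ ^ 2) =
      2 * π * ∫ x in Ioc 0 (2 * π), ‖bb U x w‖ ^ 2 := by
    rw [sub_zero]; field_simp
  rw [h7, ENNReal.ofReal_mul hpos.le, ofReal_integral_eq_lintegral_ofReal]
  · congr 1
    refine lintegral_congr fun x => ?_
    rw [← ofReal_norm, ENNReal.ofReal_pow (norm_nonneg _)]
  · exact hL2.integrable_norm_pow (by norm_num)
  · exact Eventually.of_forall fun w => by positivity

/-- The dual of the cylinder. -/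
def _root_.Pool.Agent.Work.MP_33c50c_an.H54.nu : Measure (ℤ × ℝ) := Measure.count.prod volume

theorem hat_meas (h : Tst U) : Measurable fun z : ℤ × ℝ => hat U z.1 z.2 := by
  refine measurable_from_prod_countable_right fun n => ?_
  have h1 : (fun w => hat U n w) = fun w => ∫ x in (0 : ℝ)..(2 * π),
      Complex.exp (((-(n * x) : ℝ) : ℂ) * Complex.I) * bb U x w := funext fun w => h.hat_eq n w
  have h2 : Continuous fun w => hat U n w := by
    rw [h1]
    refine intervalIntegral.continuous_parametric_intervalIntegral_of_continuous' ?_ _ _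
    have := h.bb_cont
    have h3 : Continuous fun q : ℝ × ℝ => bb U q.2 q.1 := this.comp continuous_swap
    exact Continuous.mul (by fun_prop) h3
  exact h2.measurable

/-- **Plancherel.** -/
theorem planch (h : Tst U) :
    ∫⁻ z, ‖hat U z.1 z.2‖ₑ ^ 2 ∂nu = ENNReal.ofReal (2 * π * ∫ p, U p ^ 2 ∂mu) := by
  unfold nu
  rw [lintegral_prod_symm _ (by exact (h.hat_meas.enorm.pow_const 2).aemeasurable)]
  simp only [lintegral_count, h.pars]
  rw [lintegral_const_mul']
  · rw [lintegral_lintegral_swap]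
    · simp only [h.planch1]
      rw [ENNReal.ofReal_mul (p := 2 * π) (q := ∫ p, U p ^ 2 ∂mu) (by positivity),
        ofReal_integral_eq_lintegral_ofReal h.integrable_sq
        (Eventually.of_forall fun p => by positivity)]
      congr 1
      unfold mu
      rw [lintegral_prod]
      exact ((h.cont.pow 2).measurable.ennreal_ofReal).aemeasurable
    · have h3 : Continuous fun q : ℝ × ℝ => bb U q.2 q.1 := h.bb_cont.comp continuous_swap
      exact (h3.measurable.enorm.pow_const 2).aemeasurable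
  · exact ENNReal.ofReal_ne_top

end Tst

end Pool.Agent.Work.MP_33c50c_an.H54
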