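import Pool.Agent.Work.MP_33c50c_an.H54.Bump

/-!
# Dirichlet eigenvalues of planar open sets
-/

set_option autoImplicit false

open MeasureTheory Set Filter Topology Real

noncomputable section

namespace Pool.Agent.Work.MP_33c50c_an.H54

/-- Smooth functions on the plane with compact support inside `W`. -/
structure IsTestP (W : Set (ℝ × ℝ)) (v : ℝ × ℝ → ℝ) : Prop where
  smooth : ContDiff ℝ ((⊤ : ℕ∞) : WithTop ℕ∞) v
  compact : HasCompactSupport v
  supp : tsupport v ⊆ W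

/-- Squared norm of a function on the plane. -/
def massP (v : ℝ × ℝ → ℝ) : ℝ := ∫ p, v p ^ 2

/-- Squared norm of the gradient of a function on the plane. -/
def energyP (v : ℝ × ℝ → ℝ) : ℝ :=
  ∫ p, (fderiv ℝ v p (1, 0)) ^ 2 + (fderiv ℝ v p (0, 1)) ^ 2

/-- The numbers `L` for which there is a `k`-dimensional space of test functions with
Rayleigh quotients at most `L`. -/
def AdmP (W : Set (ℝ × ℝ)) (k : ℕ) : Set ℝ :=
  {L | ∃ v : Fin k → ℝ × ℝ → ℝ, (∀ j, IsTestP W (v j)) ∧ LinearIndependent ℝ v ∧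
    ∀ c : Fin k → ℝ, energyP (∑ j, c j • v j) ≤ L * massP (∑ j, c j • v j)}

/-- The `k`-th Dirichlet eigenvalue (min-max formula). -/
def evP (W : Set (ℝ × ℝ)) (k : ℕ) : ℝ := sInf (AdmP W k)

namespace IsTestP

variable {W : Set (ℝ × ℝ)} {u v : ℝ × ℝ → ℝ}

theorem cont (h : IsTestP W v) : Continuous v := h.smooth.continuous

theorem diff (h : IsTestP W v) : Differentiable ℝ v := h.smooth.differentiable (by simp)

theorem add (h : IsTestP W u) (h' : IsTestP W v) : IsTestP W (u + v) :=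
  ⟨h.smooth.add h'.smooth, h.compact.add h'.compact,
    (tsupport_add u v).trans (union_subset h.supp h'.supp)⟩

theorem smul (h : IsTestP W v) (c : ℝ) : IsTestP W (c • v) :=
  ⟨contDiff_const.mul h.smooth, h.compact.smul_left (f := fun _ => c),
    (tsupport_smul_subset_right (fun _ => c) v).trans h.supp⟩

theorem zero : IsTestP W (0 : ℝ × ℝ → ℝ) :=
  ⟨contDiff_const, HasCompactSupport.zero, by simp⟩

theorem mono {W' : Set (ℝ × ℝ)} (h : IsTestP W v) (hs : W ⊆ W') : IsTestP W' v :=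
  ⟨h.smooth, h.compact, h.supp.trans hs⟩

theorem sum {k : ℕ} {v : Fin k → ℝ × ℝ → ℝ} (h : ∀ j, IsTestP W (v j)) (c : Fin k → ℝ) :
    IsTestP W (∑ j, c j • v j) := by
  classical
  have : ∀ s : Finset (Fin k), IsTestP W (∑ j ∈ s, c j • v j) := by
    intro s
    induction s using Finset.induction_on with
    | empty => simpa using zero
    | insert a s ha ih =>
      rw [Finset.sum_insert ha]
      exact ((h a).smul (c a)).add ih
  exact this _

theorem fderiv_cont (h : IsTestP W v) (e : ℝ × ℝ) : Continuous fun p => fderiv ℝ v p e :=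
  (h.smooth.continuous_fderiv (by simp)).clm_apply continuous_const

theorem fderiv_compact (h : IsTestP W v) (e : ℝ × ℝ) :
    HasCompactSupport fun p => fderiv ℝ v p e :=
  h.compact.fderiv_apply (𝕜 := ℝ) e

theorem int_mul (h : IsTestP W u) (h' : IsTestP W v) : Integrable fun p => u p * v p :=
  (h.cont.mul h'.cont).integrable_of_hasCompactSupport h.compact.mul_right

theorem int_sq (h : IsTestP W v) : Integrable fun p => v p ^ 2 := by
  simpa [sq] using h.int_mul h

theorem int_dd (h : IsTestP W u) (h' : IsTestP W v) (e : ℝ × ℝ) :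
    Integrable fun p => fderiv ℝ u p e * fderiv ℝ v p e :=
  ((h.fderiv_cont e).mul (h'.fderiv_cont e)).integrable_of_hasCompactSupport
    (h.fderiv_compact e).mul_right

theorem int_dsq (h : IsTestP W v) (e : ℝ × ℝ) : Integrable fun p => fderiv ℝ v p e ^ 2 := by
  simpa [sq] using h.int_dd h e

theorem mass_pos (h : IsTestP W v) (hv : v ≠ 0) : 0 < massP v := by
  obtain ⟨p, hp⟩ := Function.ne_iff.1 hv
  refine Continuous.integral_pos_of_hasCompactSupport_nonneg_nonzero (x := p)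
    (h.cont.pow 2) ?_ (fun q => sq_nonneg _) (pow_ne_zero 2 hp)
  have : HasCompactSupport fun p => v p * v p := h.compact.mul_right
  simpa [sq] using this

end IsTestP

theorem energyP_nonneg (v : ℝ × ℝ → ℝ) : 0 ≤ energyP v :=
  integral_nonneg fun p => by positivity

theorem massP_expand {W : Set (ℝ × ℝ)} {k : ℕ} {v : Fin k → ℝ × ℝ → ℝ}
    (h : ∀ j, IsTestP W (v j)) (c : Fin k → ℝ) :
    massP (∑ j, c j • v j) = ∑ i, ∑ j, c i * c j * ∫ p, v i p * v j p := by
  have h1 : ∀ p, (∑ j, c j • v j) p ^ 2 = ∑ i, ∑ j, c i * c j * (v i p * v j p) := by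
    intro p
    simp only [Finset.sum_apply, Pi.smul_apply, smul_eq_mul]
    rw [_root_.sq, Finset.sum_mul_sum]
    exact Finset.sum_congr rfl fun i _ => Finset.sum_congr rfl fun j _ => by ring
  unfold massP
  simp only [h1]
  have hint : ∀ i j, Integrable (fun p => c i * c j * (v i p * v j p)) := fun i j =>
    ((h i).int_mul (h j)).const_mul _
  rw [integral_finsetSum _ fun i _ => integrable_finsetSum _ fun j _ => hint i j]
  refine Finset.sum_congr rfl fun i _ => ?_
  rw [integral_finsetSum _ fun j _ => hint i j]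
  simp only [integral_const_mul]

theorem fderivP_comb {W : Set (ℝ × ℝ)} {k : ℕ} {v : Fin k → ℝ × ℝ → ℝ}
    (h : ∀ j, IsTestP W (v j)) (c : Fin k → ℝ) (p e : ℝ × ℝ) :
    fderiv ℝ (∑ j, c j • v j) p e = ∑ j, c j * fderiv ℝ (v j) p e := by
  have h1 : HasFDerivAt (∑ j, c j • v j) (∑ j, c j • fderiv ℝ (v j) p) p :=
    HasFDerivAt.sum fun j _ => ((h j).diff p).hasFDerivAt.const_smul (c j)
  rw [h1.fderiv]
  simp only [_root_.sum_apply, _root_.smul_apply, smul_eq_mul]

theorem energyP_expand {W : Set (ℝ × ℝ)} {k : ℕ} {v : Fin k → ℝ × ℝ → ℝ}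
    (h : ∀ j, IsTestP W (v j)) (c : Fin k → ℝ) :
    energyP (∑ j, c j • v j) = ∑ i, ∑ j, c i * c j *
      ((∫ p, fderiv ℝ (v i) p (1, 0) * fderiv ℝ (v j) p (1, 0)) +
        ∫ p, fderiv ℝ (v i) p (0, 1) * fderiv ℝ (v j) p (0, 1)) := by
  have key : ∀ e : ℝ × ℝ, ∫ p, (∑ j, c j * fderiv ℝ (v j) p e) ^ 2 =
      ∑ i, ∑ j, c i * c j * ∫ p, fderiv ℝ (v i) p e * fderiv ℝ (v j) p e := by
    intro e
    have h1 : ∀ p, (∑ j, c j * fderiv ℝ (v j) p e) ^ 2 =
        ∑ i, ∑ j, c i * c j * (fderiv ℝ (v i) p e * fderiv ℝ (v j) p e) := by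
      intro p
      rw [_root_.sq, Finset.sum_mul_sum]
      exact Finset.sum_congr rfl fun i _ => Finset.sum_congr rfl fun j _ => by ring
    simp only [h1]
    have hint : ∀ i j, Integrable
        (fun p => c i * c j * (fderiv ℝ (v i) p e * fderiv ℝ (v j) p e)) := fun i j =>
      ((h i).int_dd (h j) e).const_mul _
    rw [integral_finsetSum _ fun i _ => integrable_finsetSum _ fun j _ => hint i j]
    refine Finset.sum_congr rfl fun i _ => ?_
    rw [integral_finsetSum _ fun j _ => hint i j]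
    simp only [integral_const_mul]
  have hint : ∀ e : ℝ × ℝ, Integrable fun p => (∑ j, c j * fderiv ℝ (v j) p e) ^ 2 := by
    intro e
    have := (IsTestP.sum h c).int_dsq e
    simpa only [fderivP_comb h c] using this
  unfold energyP
  simp only [fderivP_comb h c]
  rw [integral_add (hint _) (hint _), key, key]
  simp only [mul_add, Finset.sum_add_distrib]

/-- The planar bump. -/
def bumpP (x0 y0 d : ℝ) (z : ℝ × ℝ) : ℝ :=
  expNegInvGlue (d ^ 2 - (z.1 - x0) ^ 2) * expNegInvGlue (d ^ 2 - (z.2 - y0) ^ 2)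

theorem bumpP_supp {x0 y0 d : ℝ} (hd0 : 0 < d) :
    Function.support (bumpP x0 y0 d) ⊆ Icc (x0 - d) (x0 + d) ×ˢ Icc (y0 - d) (y0 + d) := by
  rintro ⟨x, y⟩ hz
  have hz' : expNegInvGlue (d ^ 2 - (x - x0) ^ 2) * expNegInvGlue (d ^ 2 - (y - y0) ^ 2) ≠ 0 := hz
  have h1 := expNegInvGlue_ne.1 (left_ne_zero_of_mul hz')
  have h2 := expNegInvGlue_ne.1 (right_ne_zero_of_mul hz')
  have h3 : |x - x0| < d := by
    rw [← abs_of_pos hd0]
    exact sq_lt_sq.1 (by linarith)
  have h4 : |y - y0| < d := by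
    rw [← abs_of_pos hd0]
    exact sq_lt_sq.1 (by linarith)
  rw [abs_lt] at h3 h4
  exact ⟨⟨by dsimp only; linarith, by dsimp only; linarith⟩,
    ⟨by dsimp only; linarith, by dsimp only; linarith⟩⟩

theorem exists_indepP {W : Set (ℝ × ℝ)} (hO : IsOpen W) (hne : W.Nonempty) (k : ℕ) :
    ∃ u : Fin k → ℝ × ℝ → ℝ, (∀ j, IsTestP W (u j)) ∧ LinearIndependent ℝ u := by
  obtain ⟨⟨x0, y0⟩, hz⟩ := hne
  obtain ⟨e, he, hball⟩ := Metric.isOpen_iff.1 hO (x0, y0) hz
  set d : ℝ := e / 2 with hd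
  have hd0 : 0 < d := by positivity
  have hbox : Icc (x0 - d) (x0 + d) ×ˢ Icc (y0 - d) (y0 + d) ⊆ W := by
    rintro ⟨x, y⟩ ⟨hx, hy⟩
    refine hball ?_
    rw [Metric.mem_ball, Prod.dist_eq, max_lt_iff, Real.dist_eq, Real.dist_eq]
    dsimp only at hx hy ⊢
    constructor <;> rw [abs_lt] <;> constructor <;> linarith [hx.1, hx.2, hy.1, hy.2]
  have hK : IsCompact (Icc (x0 - d) (x0 + d) ×ˢ Icc (y0 - d) (y0 + d)) :=
    isCompact_Icc.prod isCompact_Icc
  refine ⟨fun j z => bumpP x0 y0 d z * z.2 ^ (j : ℕ), fun j => ?_, ?_⟩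
  · have hs : Function.support (fun z : ℝ × ℝ => bumpP x0 y0 d z * z.2 ^ (j : ℕ)) ⊆
        Icc (x0 - d) (x0 + d) ×ˢ Icc (y0 - d) (y0 + d) :=
      (Function.support_mul_subset_left _ _).trans (bumpP_supp hd0)
    refine ⟨?_, HasCompactSupport.of_support_subset_isCompact hK hs, ?_⟩
    · refine ContDiff.mul (ContDiff.mul ?_ ?_) (contDiff_snd.pow _)
      · exact expNegInvGlue.contDiff.comp
          (contDiff_const.sub ((contDiff_fst.sub contDiff_const).pow 2))
      · exact expNegInvGlue.contDiff.comp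
          (contDiff_const.sub ((contDiff_snd.sub contDiff_const).pow 2))
    · exact (closure_minimal hs hK.isClosed).trans hbox
  · refine indep_pow (bumpP x0 y0 d) (fun z => z.2) ?_ k
    refine (Ioo_infinite (show y0 - d < y0 + d by linarith)).mono ?_
    intro y hy
    refine ⟨(x0, y), ?_, rfl⟩
    refine mul_ne_zero (expNegInvGlue_ne.2 ?_) (expNegInvGlue_ne.2 ?_)
    · dsimp only
      rw [sub_self]
      have := pow_pos hd0 2
      simpa using this
    · dsimp only
      have : |y - y0| < d := by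
        rw [abs_lt]; constructor <;> linarith [hy.1, hy.2]
      nlinarith [sq_abs (y - y0), abs_nonneg (y - y0)]

theorem admP_nonempty {W : Set (ℝ × ℝ)} (hO : IsOpen W) (hne : W.Nonempty) (k : ℕ) :
    (AdmP W k).Nonempty := by
  obtain ⟨u, hu1, hu2⟩ := exists_indepP hO hne k
  obtain ⟨L, hL⟩ := rayleigh_bound
    (fun i j => (∫ p, fderiv ℝ (u i) p (1, 0) * fderiv ℝ (u j) p (1, 0)) +
        ∫ p, fderiv ℝ (u i) p (0, 1) * fderiv ℝ (u j) p (0, 1))
    (fun i j => ∫ p, u i p * u j p) (fun c hc => by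
      rw [← massP_expand hu1]
      refine (IsTestP.sum hu1 c).mass_pos fun h0 => hc ?_
      exact funext fun i => (Fintype.linearIndependent_iff.1 hu2) c h0 i)
  refine ⟨L, u, hu1, hu2, fun c => ?_⟩
  rw [massP_expand hu1, energyP_expand hu1]
  exact hL c

theorem admP_nonneg {W : Set (ℝ × ℝ)} {k : ℕ} (hk : 0 < k) {L : ℝ} (h : L ∈ AdmP W k) :
    0 ≤ L := by
  obtain ⟨u, hu1, hu2, hu3⟩ := h
  have h1 : u ⟨0, hk⟩ ≠ 0 := hu2.ne_zero _
  have h2 := hu3 (Pi.single ⟨0, hk⟩ 1)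
  have h3 : (∑ j, (Pi.single (⟨0, hk⟩ : Fin k) (1 : ℝ) : Fin k → ℝ) j • u j) = u ⟨0, hk⟩ := by
    rw [Finset.sum_eq_single (⟨0, hk⟩ : Fin k)]
    · simp
    · intro j _ hj
      rw [Pi.single_eq_of_ne hj, zero_smul]
    · intro h
      exact absurd (Finset.mem_univ _) h
  rw [h3] at h2
  have h4 := (hu1 _).mass_pos h1
  by_contra hL
  push Not at hL
  have h5 := energyP_nonneg (u ⟨0, hk⟩)
  have h6 : L * massP (u ⟨0, hk⟩) < 0 := mul_neg_of_neg_of_pos hL h4
  linarith

theorem admP_bddBelow (W : Set (ℝ × ℝ)) {k : ℕ} (hk : 0 < k) : BddBelow (AdmP W k) :=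
  ⟨0, fun _ h => admP_nonneg hk h⟩

theorem admP_subset {W W' : Set (ℝ × ℝ)} (h : W ⊆ W') (k : ℕ) : AdmP W k ⊆ AdmP W' k := by
  rintro L ⟨u, hu1, hu2, hu3⟩
  exact ⟨u, fun j => (hu1 j).mono h, hu2, hu3⟩

theorem evP_anti {W W' : Set (ℝ × ℝ)} (hO : IsOpen W) (hne : W.Nonempty) (h : W ⊆ W') {k : ℕ}
    (hk : 0 < k) : evP W' k ≤ evP W k :=
  csInf_le_csInf (admP_bddBelow W' hk) (admP_nonempty hO hne k) (admP_subset h k)

end Pool.Agent.Work.MP_33c50c_an.H54
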