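import Pool.Agent.Work.MP_33c50c_an.H54.FinM

/-!
# Small domains of the cylinder and Polya's conjecture in the plane
-/

set_option autoImplicit false

open MeasureTheory Set Filter Topology Real

noncomputable section

namespace Pool.Agent.Work.MP_33c50c_an.H54

/-- Bounded domains of the plane. -/
def PlaneDomain (W : Set (ℝ × ℝ)) : Prop := IsOpen W ∧ IsConnected W ∧ Bornology.IsBounded W

/-- Bounded domains of the cylinder. -/
def CylDomain (Om : Set Cyl) : Prop := IsOpen Om ∧ IsConnected Om ∧ Bornology.IsBounded Om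

/-- Polya's conjecture for all bounded planar domains. -/
def PolyaPlane : Prop :=
  ∀ W : Set (ℝ × ℝ), PlaneDomain W → ∀ k : ℕ, 0 < k → 4 * π * k / (volume W).toReal ≤ evP W k

theorem evP_nonneg (W : Set (ℝ × ℝ)) {k : ℕ} (hk : 0 < k) : 0 ≤ evP W k :=
  Real.sInf_nonneg fun _ h => admP_nonneg hk h

theorem planeBound_iff : PlaneBound (fun k => 4 * π * k) ↔ PolyaPlane :=
  ⟨fun h W hW k hk => h W hW.1 hW.2.1 hW.2.2 k hk,
    fun h W h1 h2 h3 k hk => h W ⟨h1, h2, h3⟩ k hk⟩

/-- The trivial upper bound for planar eigenvalues, linear in `k`. -/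
theorem plane_upper : ∃ M : ℝ, 1 ≤ M ∧ ∀ k : ℕ, 0 < k → ∀ m : ℝ,
    (∀ W : Set (ℝ × ℝ), PlaneDomain W → m / (volume W).toReal ≤ evP W k) → m ≤ M * k := by
  set W1 : Set (ℝ × ℝ) := Ioo 0 1 ×ˢ Ioo 0 1 with hW1
  have hO1 : IsOpen W1 := isOpen_Ioo.prod isOpen_Ioo
  have hne1 : W1.Nonempty := ⟨(1 / 2, 1 / 2), by norm_num [hW1]⟩
  obtain ⟨u0, hu0, hind0⟩ := exists_indepP hO1 hne1 1
  set u := u0 0 with hu
  have hut : IsTestP W1 u := hu0 0
  have hune : u ≠ 0 := hind0.ne_zero _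
  have hmp : 0 < massP u := hut.mass_pos hune
  set R : ℝ := energyP u / massP u with hR
  have hR0 : 0 ≤ R := div_nonneg (energyP_nonneg u) hmp.le
  have hRe : R * massP u = energyP u := by rw [hR]; field_simp
  refine ⟨R + 1, by linarith, fun k hk m hm => ?_⟩
  have hk0 : (0 : ℝ) < k := by exact_mod_cast hk
  set W : Set (ℝ × ℝ) := Ioo 0 (k : ℝ) ×ˢ Ioo 0 1 with hW
  have hWo : IsOpen W := isOpen_Ioo.prod isOpen_Ioo
  have hWc : IsConnected W :=
    (isConnected_Ioo hk0).prod (isConnected_Ioo zero_lt_one)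
  have hWb : Bornology.IsBounded W := (Metric.isBounded_Ioo _ _).prod (Metric.isBounded_Ioo _ _)
  have hvol : (volume W).toReal = k := by
    rw [hW, Measure.volume_eq_prod, Measure.prod_prod, Real.volume_Ioo, Real.volume_Ioo]
    simp
  have h0 := hm W ⟨hWo, hWc, hWb⟩
  rw [hvol, div_le_iff₀ hk0] at h0
  -- the translates
  set v : Fin k → ℝ × ℝ → ℝ := fun j p => u (zm 1 ((j : ℕ), 0) p) with hv
  have hcell : ∀ j : Fin k, ∀ p, zm 1 (((j : ℕ) : ℝ), 0) p ∈ W1 →
      ((j : ℕ) : ℝ) < p.1 ∧ p.1 < (j : ℕ) + 1 ∧ 0 < p.2 ∧ p.2 < 1 := by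
    intro j p hp
    simp only [zm, inv_one, one_smul, hW1, mem_prod, mem_Ioo, Prod.fst_sub, Prod.snd_sub] at hp
    obtain ⟨⟨h1, h2⟩, h3, h4⟩ := hp
    exact ⟨by linarith, by linarith, by linarith, by linarith⟩
  have hvt' : ∀ j : Fin k, IsTestP (zm 1 (((j : ℕ) : ℝ), 0) ⁻¹' W1) (v j) := fun j =>
    zm_test 1 one_pos _ hut
  have hvt : ∀ j, IsTestP W (v j) := fun j => (hvt' j).mono (by
    intro p hp
    obtain ⟨h1, h2, h3, h4⟩ := hcell j p hp
    have h5 : ((j : ℕ) : ℝ) + 1 ≤ k := by exact_mod_cast j.2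
    have h6 : (0 : ℝ) ≤ (j : ℕ) := by positivity
    exact ⟨⟨by linarith, by linarith⟩, h3, h4⟩)
  have hdisj : ∀ i j : Fin k, i ≠ j → ∀ p, p ∈ tsupport (v i) → p ∈ tsupport (v j) → False := by
    intro i j hij p hi hj
    obtain ⟨h1, h2, -, -⟩ := hcell i p ((hvt' i).supp hi)
    obtain ⟨h3, h4, -, -⟩ := hcell j p ((hvt' j).supp hj)
    have h5 : (i : ℕ) ≠ (j : ℕ) := fun h => hij (Fin.ext h)
    rcases lt_or_gt_of_ne h5 with h | h
    · have : ((i : ℕ) : ℝ) + 1 ≤ (j : ℕ) := by exact_mod_cast h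
      linarith
    · have : ((j : ℕ) : ℝ) + 1 ≤ (i : ℕ) := by exact_mod_cast h
      linarith
  have hcross : ∀ i j : Fin k, i ≠ j → ∫ p, v i p * v j p = 0 := by
    intro i j hij
    have : ∀ p, v i p * v j p = 0 := by
      intro p
      by_contra hne
      exact hdisj i j hij p (subset_tsupport _ (left_ne_zero_of_mul hne))
        (subset_tsupport _ (right_ne_zero_of_mul hne))
    simp [this]
  have hcrossd : ∀ i j : Fin k, i ≠ j → ∀ e : ℝ × ℝ,
      ∫ p, fderiv ℝ (v i) p e * fderiv ℝ (v j) p e = 0 := by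
    intro i j hij e
    have hs : ∀ l : Fin k, ∀ p, fderiv ℝ (v l) p e ≠ 0 → p ∈ tsupport (v l) := by
      intro l p hp
      refine support_fderiv_subset ℝ (f := v l) ?_
      rw [Function.mem_support]
      intro h0
      exact hp (by rw [h0]; rfl)
    have : ∀ p, fderiv ℝ (v i) p e * fderiv ℝ (v j) p e = 0 := by
      intro p
      by_contra hne
      exact hdisj i j hij p (hs i p (left_ne_zero_of_mul hne)) (hs j p (right_ne_zero_of_mul hne))
    simp [this]
  have hself : ∀ j, ∫ p, v j p * v j p = massP u := by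
    intro j
    have h1 := zm_massP 1 one_pos (((j : ℕ) : ℝ), (0 : ℝ)) u
    rw [one_pow, one_mul] at h1
    rw [← h1, massP]
    simp only [hv, _root_.sq]
  have hselfd : ∀ j, (∫ p, fderiv ℝ (v j) p (1, 0) * fderiv ℝ (v j) p (1, 0)) +
      (∫ p, fderiv ℝ (v j) p (0, 1) * fderiv ℝ (v j) p (0, 1)) = energyP u := by
    intro j
    have h1 := zm_energyP 1 one_pos (((j : ℕ) : ℝ), (0 : ℝ)) hut
    rw [← h1, energyP, ← integral_add ((hvt j).int_dd (hvt j) _) ((hvt j).int_dd (hvt j) _)]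
    simp only [hv, _root_.sq]
  have hmass : ∀ c : Fin k → ℝ, massP (∑ j, c j • v j) = (∑ j, c j ^ 2) * massP u := by
    intro c
    rw [massP_expand hvt, Finset.sum_mul]
    refine Finset.sum_congr rfl fun i _ => ?_
    rw [Finset.sum_eq_single i]
    · rw [hself i]; ring
    · intro j _ hj
      rw [hcross i j (Ne.symm hj), mul_zero]
    · intro h; exact absurd (Finset.mem_univ _) h
  have henergy : ∀ c : Fin k → ℝ, energyP (∑ j, c j • v j) = (∑ j, c j ^ 2) * energyP u := by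
    intro c
    rw [energyP_expand hvt, Finset.sum_mul]
    refine Finset.sum_congr rfl fun i _ => ?_
    rw [Finset.sum_eq_single i]
    · rw [hselfd i]; ring
    · intro j _ hj
      rw [hcrossd i j (Ne.symm hj), hcrossd i j (Ne.symm hj), add_zero, mul_zero]
    · intro h; exact absurd (Finset.mem_univ _) h
  have hadm : R ∈ AdmP W k := by
    refine ⟨v, hvt, ?_, fun c => ?_⟩
    · rw [Fintype.linearIndependent_iff]
      intro c hc i
      have h1 := hmass c
      rw [hc] at h1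
      have h2 : massP (0 : ℝ × ℝ → ℝ) = 0 := by simp [massP]
      rw [h2] at h1
      have h3 : ∑ j, c j ^ 2 = 0 := by
        rcases mul_eq_zero.1 h1.symm with h | h
        · exact h
        · exact absurd h hmp.ne'
      have h4 := (Finset.sum_eq_zero_iff_of_nonneg fun j _ => sq_nonneg (c j)).1 h3 i
        (Finset.mem_univ i)
      exact pow_eq_zero_iff (two_ne_zero) |>.1 h4
    · rw [hmass, henergy, ← hRe]
      exact le_of_eq (by ring)
  have h1 : evP W k ≤ R := csInf_le (admP_bddBelow _ hk) hadm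
  nlinarith

theorem index_conv {k : ℕ} (hk : 0 < k) {m : ℝ} {A : ℝ} (hA : 0 < A)
    (h : ∀ Om : Set Cyl, CylDomain Om → (volume Om).toReal ≤ A →
        m / (volume Om).toReal ≤ ev Om k) :
    ∀ W : Set (ℝ × ℝ), PlaneDomain W → m / (volume W).toReal ≤ evP W k := by
  have hk1 : (1 : ℝ) ≤ k := by exact_mod_cast hk
  by_cases hm0 : m < 0
  · intro W hW
    exact (div_nonpos_of_nonpos_of_nonneg hm0.le ENNReal.toReal_nonneg).trans (evP_nonneg W hk)
  push Not at hm0
  set m' : ℕ → ℝ := fun j => if j = k then m else 0 with hm'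
  have hpl : PlaneBound m' := by
    refine converse fun e he => ⟨A, hA, fun Om h1 h2 h3 hv j hj => ?_⟩
    have hv' : (volume Om).toReal ≤ A := by
      have := ENNReal.toReal_mono ENNReal.ofReal_ne_top hv
      rwa [ENNReal.toReal_ofReal hA.le] at this
    have hj0 : (0 : ℝ) ≤ j := by positivity
    by_cases hjk : j = k
    · subst hjk
      refine le_trans (div_le_div_of_nonneg_right ?_ ENNReal.toReal_nonneg)
        (h Om ⟨h1, h2, h3⟩ hv')
      simp only [hm', if_true]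
      nlinarith
    · refine le_trans (div_nonpos_of_nonpos_of_nonneg ?_ ENNReal.toReal_nonneg) (ev_nonneg Om hj)
      simp only [hm', hjk, if_false]
      nlinarith
  intro W hW
  have := hpl W hW.1 hW.2.1 hW.2.2 k hk
  simpa only [hm', if_true] using this

/-- The sharp constants agree below the threshold `k |Om| = c`. -/
theorem sharp : ∃ c : ℝ, 0 < c ∧ ∀ k : ℕ, 0 < k → ∀ m : ℝ,
    (∀ W : Set (ℝ × ℝ), PlaneDomain W → m / (volume W).toReal ≤ evP W k) →
      ∀ Om : Set Cyl, CylDomain Om → (volume Om).toReal * (k : ℝ) ≤ c →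
        m / (volume Om).toReal ≤ ev Om k := by
  obtain ⟨M, hM, hup⟩ := plane_upper
  obtain ⟨c, hc, hE⟩ := exact2 M hM
  refine ⟨c, hc, fun k hk m h Om hOm hs => ?_⟩
  by_cases hm0 : m < 0
  · exact (div_nonpos_of_nonpos_of_nonneg hm0.le ENNReal.toReal_nonneg).trans (ev_nonneg Om hk)
  push Not at hm0
  have hmk := hup k hk m h
  set m' : ℕ → ℝ := fun j => if j = k then m else 0 with hm'
  have hm1 : ∀ j, 0 ≤ m' j ∧ m' j ≤ M * j := by
    intro j
    by_cases hj : j = k
    · simp only [hm', hj, if_true]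
      exact ⟨hm0, hmk⟩
    · simp only [hm', hj, if_false]
      exact ⟨le_rfl, by positivity⟩
  have hm2 : PlaneBound m' := by
    intro W h1 h2 h3 j hj
    by_cases hjk : j = k
    · simp only [hm', hjk, if_true]
      exact h W ⟨h1, h2, h3⟩
    · simp only [hm', hjk, if_false, zero_div]
      exact evP_nonneg W hj
  have := hE m' hm1 hm2 Om hOm.1 hOm.2.1.nonempty hOm.2.2 k hk hs
  simpa only [hm', if_true] using this

theorem sharp_conv {k : ℕ} (hk : 0 < k) {m c : ℝ} (hc : 0 < c)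
    (h : ∀ Om : Set Cyl, CylDomain Om → (volume Om).toReal * (k : ℝ) ≤ c →
        m / (volume Om).toReal ≤ ev Om k) :
    ∀ W : Set (ℝ × ℝ), PlaneDomain W → m / (volume W).toReal ≤ evP W k := by
  have hk0 : (0 : ℝ) < k := by exact_mod_cast hk
  refine index_conv hk (A := c / k) (by positivity) fun Om hOm hv => h Om hOm ?_
  rwa [le_div_iff₀ hk0] at hv

theorem all_iff : PolyaPlane ↔ ∃ C : ℝ, 0 < C ∧ ∀ Om : Set Cyl, CylDomain Om → ∀ k : ℕ, 0 < k →
    (1 - C * ((volume Om).toReal / k) ^ (1 / 3 : ℝ)) * (4 * π * k / (volume Om).toReal) ≤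
      ev Om k := by
  constructor
  · intro h
    obtain ⟨C, hC, hq⟩ := quant (4 * π) (by positivity)
    refine ⟨C / (4 * π), by positivity, fun Om hOm k hk => ?_⟩
    have h1 := hq _ (fun k => ⟨by positivity, le_rfl⟩) (planeBound_iff.2 h) Om hOm.1
      hOm.2.1.nonempty hOm.2.2 k hk
    refine le_trans (le_of_eq ?_) h1
    field_simp
  · rintro ⟨C, hC, h⟩
    rw [← planeBound_iff]
    refine converse fun e he => ?_
    refine ⟨(e / (4 * π * C)) ^ 3, by positivity, fun Om h1 h2 h3 hv k hk => ?_⟩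
    refine le_trans ?_ (h Om ⟨h1, h2, h3⟩ k hk)
    set a : ℝ := (volume Om).toReal with ha
    have ha1 : a ≤ (e / (4 * π * C)) ^ 3 := by
      have := ENNReal.toReal_mono ENNReal.ofReal_ne_top hv
      rwa [ENNReal.toReal_ofReal (by positivity)] at this
    have ha0 : 0 ≤ a := ENNReal.toReal_nonneg
    have hk1 : (1 : ℝ) ≤ k := by exact_mod_cast hk
    have h4 : (a / k) ^ (1 / 3 : ℝ) ≤ e / (4 * π * C) := by
      have h5 : a / k ≤ (e / (4 * π * C)) ^ 3 := (div_le_self ha0 hk1).trans ha1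
      calc (a / k) ^ (1 / 3 : ℝ) ≤ ((e / (4 * π * C)) ^ 3) ^ (1 / 3 : ℝ) :=
            Real.rpow_le_rpow (by positivity) h5 (by norm_num)
        _ = e / (4 * π * C) := by
            rw [← Real.rpow_natCast, ← Real.rpow_mul (by positivity)]
            norm_num
    have h6 : (1 - C * (a / k) ^ (1 / 3 : ℝ)) * (4 * π * k / a) =
        (4 * π * k - 4 * π * C * k * (a / k) ^ (1 / 3 : ℝ)) / a := by ring
    rw [h6]
    refine div_le_div_of_nonneg_right ?_ ha0
    have h7 : 4 * π * C * k * (a / k) ^ (1 / 3 : ℝ) ≤ 4 * π * C * k * (e / (4 * π * C)) :=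
      mul_le_mul_of_nonneg_left h4 (by positivity)
    have h8 : 4 * π * C * k * (e / (4 * π * C)) = e * k := by field_simp
    linarith

/-- The four equivalences. -/
theorem main : ∃ c : ℝ, 0 < c ∧
    (∀ k : ℕ, 0 < k → ∀ m : ℝ,
      ((∀ W : Set (ℝ × ℝ), PlaneDomain W → m / (volume W).toReal ≤ evP W k) ↔
        ∀ Om : Set Cyl, CylDomain Om → (volume Om).toReal * k ≤ c →
          m / (volume Om).toReal ≤ ev Om k)) ∧
    (PolyaPlane ↔ ∀ Om : Set Cyl, CylDomain Om → ∀ k : ℕ, 0 < k →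
      (volume Om).toReal * k ≤ c → 4 * π * k / (volume Om).toReal ≤ ev Om k) ∧
    (∀ A : ℝ, 0 < A → ((∀ Om : Set Cyl, CylDomain Om → (volume Om).toReal ≤ A →
        ∀ k : ℕ, 0 < k → 4 * π * k / (volume Om).toReal ≤ ev Om k) ↔
      PolyaPlane ∧ ∀ Om : Set Cyl, CylDomain Om → (volume Om).toReal ≤ A →
        ∀ k : ℕ, 0 < k → c < (volume Om).toReal * k →
          4 * π * k / (volume Om).toReal ≤ ev Om k)) ∧
    (PolyaPlane ↔ ∃ C : ℝ, 0 < C ∧ ∀ Om : Set Cyl, CylDomain Om → ∀ k : ℕ, 0 < k →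
      (1 - C * ((volume Om).toReal / k) ^ (1 / 3 : ℝ)) * (4 * π * k / (volume Om).toReal) ≤
        ev Om k) := by
  obtain ⟨c, hc, hs⟩ := sharp
  have h2 : PolyaPlane ↔ ∀ Om : Set Cyl, CylDomain Om → ∀ k : ℕ, 0 < k →
      (volume Om).toReal * k ≤ c → 4 * π * k / (volume Om).toReal ≤ ev Om k :=
    ⟨fun h Om hOm k hk hv => hs k hk _ (fun W hW => h W hW k hk) Om hOm hv,
      fun h W hW k hk => sharp_conv hk hc (fun Om hOm hv => h Om hOm k hk hv) W hW⟩
  refine ⟨c, hc, fun k hk m => ⟨hs k hk m, sharp_conv hk hc⟩, h2, fun A hA => ?_, all_iff⟩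
  constructor
  · intro h
    exact ⟨fun W hW k hk => index_conv hk hA (fun Om hOm hv => h Om hOm hv k hk) W hW,
      fun Om hOm hv k hk _ => h Om hOm hv k hk⟩
  · rintro ⟨hp, h⟩ Om hOm hv k hk
    rcases le_or_gt ((volume Om).toReal * k) c with h3 | h3
    · exact h2.1 hp Om hOm k hk h3
    · exact h Om hOm hv k hk h3

end Pool.Agent.Work.MP_33c50c_an.H54
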