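import Pool.Agent.Work.MP_33c50c_an.H54.Fold

/-!
# From the cylinder to the plane
-/

set_option autoImplicit false

open MeasureTheory Set Filter Topology Real

noncomputable section

namespace Pool.Agent.Work.MP_33c50c_an.H54

/-- Part of the unrolled domain. -/
def unroll (Om : Set Cyl) (x0 d : ℝ) : Set (ℝ × ℝ) := cover ⁻¹' Om ∩ strip x0 d

theorem unroll_open {Om : Set Cyl} (hO : IsOpen Om) (x0 d : ℝ) : IsOpen (unroll Om x0 d) :=
  (hO.preimage cover_cont).inter (strip_open x0 d)

section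

variable {x0 d : ℝ} {Om : Set Cyl} {u : Cyl → ℝ}

theorem cut_test (hd : 0 < d) (h : IsTest Om u) :
    IsTestP (unroll Om x0 d) (cut x0 d (lift u)) := by
  have hpi := Real.pi_pos
  obtain ⟨R, hR⟩ := (h.compact.isCompact.image continuous_snd).isBounded.subset_closedBall 0
  set F : Set (ℝ × ℝ) := (Icc (x0 + d / 4) (x0 + 2 * π + 3 * d / 4) ×ˢ Icc (-R) R) ∩
    cover ⁻¹' (tsupport u) with hF
  have hFc : IsCompact F :=
    (isCompact_Icc.prod isCompact_Icc).inter_right ((isClosed_tsupport u).preimage cover_cont)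
  have hs : Function.support (cut x0 d (lift u)) ⊆ F := by
    intro p hp
    have hp' : chi x0 d p.1 * lift u p ≠ 0 := hp
    have h1 : chi x0 d p.1 ≠ 0 := left_ne_zero_of_mul hp'
    have h2 : lift u p ≠ 0 := right_ne_zero_of_mul hp'
    have h3 : cover p ∈ tsupport u := subset_tsupport _ h2
    have h4 := hR (mem_image_of_mem Prod.snd h3)
    rw [mem_closedBall_zero_iff, Real.norm_eq_abs] at h4
    have h5 : |p.2| ≤ R := h4
    rw [abs_le] at h5
    refine ⟨⟨⟨?_, ?_⟩, h5⟩, h3⟩
    · by_contra hc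
      push Not at hc
      exact h1 (chi_zero hd (Or.inl hc.le))
    · by_contra hc
      push Not at hc
      exact h1 (chi_zero hd (Or.inr hc.le))
  refine ⟨cut_smooth h.tst, HasCompactSupport.of_support_subset_isCompact hFc hs, ?_⟩
  refine (closure_minimal hs hFc.isClosed).trans ?_
  rintro p ⟨⟨hp1, hp2⟩, hp3⟩
  refine ⟨h.supp hp3, ⟨?_, ?_⟩, mem_univ _⟩
  · linarith [hp1.1]
  · linarith [hp1.2]

theorem cut_massP (hd : 0 < d) (hd' : d < 2 * π) (h : IsTest Om u) :
    massP (cut x0 d (lift u)) = mass u := by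
  rw [mass_eq, massP, integral_eq_lintegral_of_nonneg_ae (Eventually.of_forall fun p => sq_nonneg _)
    ((cut_smooth h.tst).continuous.pow 2).aestronglyMeasurable,
    integral_eq_lintegral_of_nonneg_ae (Eventually.of_forall fun p => sq_nonneg _)
    (h.tst.cont.pow 2).aestronglyMeasurable, cut_mass hd hd' h.tst]

theorem cut_energyP (hd : 0 < d) (hd' : d < 2 * π) {K : ℝ} (hK0 : 0 < K)
    (hK : ∀ t, deriv ang t ^ 2 ≤ K) (h : IsTest Om u) :
    energyP (cut x0 d (lift u)) ≤ energy u + K / d ^ 2 * mass u := by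
  have hc : ∀ e : ℝ × ℝ, Continuous fun p => fderiv ℝ (cut x0 d (lift u)) p e := fun e =>
    ((cut_smooth h.tst).continuous_fderiv (by simp)).clm_apply continuous_const
  have h1 : Integrable (fun p => dx (lift u) p ^ 2 + dy (lift u) p ^ 2 +
      K / d ^ 2 * lift u p ^ 2) mu :=
    (h.tst.dx.integrable_sq.add h.tst.dy.integrable_sq).add (h.tst.integrable_sq.const_mul _)
  have h2 : energy u + K / d ^ 2 * mass u = ∫ p, (dx (lift u) p ^ 2 + dy (lift u) p ^ 2 +
      K / d ^ 2 * lift u p ^ 2) ∂mu := by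
    have i1 : Integrable (fun p => dx (lift u) p ^ 2 + dy (lift u) p ^ 2) mu :=
      h.tst.dx.integrable_sq.add h.tst.dy.integrable_sq
    have i2 : Integrable (fun p => K / d ^ 2 * lift u p ^ 2) mu := h.tst.integrable_sq.const_mul _
    rw [integral_add i1 i2, integral_const_mul, ← mass_eq, energy_eq]
    rfl
  have hm : AEStronglyMeasurable (fun p => fderiv ℝ (cut x0 d (lift u)) p (1, 0) ^ 2 +
      fderiv ℝ (cut x0 d (lift u)) p (0, 1) ^ 2) volume :=
    (((hc _).pow 2).add ((hc _).pow 2)).aestronglyMeasurable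
  rw [h2, energyP, integral_eq_lintegral_of_nonneg_ae (Eventually.of_forall fun p => by
    dsimp only [Pi.zero_apply]; positivity) hm,
    integral_eq_lintegral_of_nonneg_ae (Eventually.of_forall fun p => by
      dsimp only [Pi.zero_apply]; positivity) h1.aestronglyMeasurable]
  refine ENNReal.toReal_mono ?_ (cut_energy hd hd' hK h.tst)
  rw [← ofReal_integral_eq_lintegral_ofReal h1 (Eventually.of_forall fun p => by
    dsimp only [Pi.zero_apply]; positivity)]
  exact ENNReal.ofReal_ne_top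

theorem cut_sum {k : ℕ} (c : Fin k → ℝ) (u : Fin k → Cyl → ℝ) :
    ∑ j, c j • cut x0 d (lift (u j)) = cut x0 d (lift (∑ j, c j • u j)) := by
  funext p
  simp only [Finset.sum_apply, Pi.smul_apply, smul_eq_mul, cut, lift_sum]
  rw [Finset.mul_sum]
  exact Finset.sum_congr rfl fun j _ => by ring

/-- Admissible bounds transfer to the unrolled domain. -/
theorem adm_unroll (hd : 0 < d) (hd' : d < 2 * π) {K : ℝ} (hK0 : 0 < K)
    (hK : ∀ t, deriv ang t ^ 2 ≤ K) {k : ℕ} {L : ℝ} (hL : L ∈ Adm Om k) :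
    L + K / d ^ 2 ∈ AdmP (unroll Om x0 d) k := by
  obtain ⟨u, hu1, hu2, hu3⟩ := hL
  refine ⟨fun j => cut x0 d (lift (u j)), fun j => cut_test hd (hu1 j), ?_, fun c => ?_⟩
  · rw [Fintype.linearIndependent_iff]
    intro c hc
    rw [cut_sum] at hc
    have h1 := cut_massP (x0 := x0) hd hd' (IsTest.sum hu1 c)
    rw [hc] at h1
    have h2 : mass (∑ j, c j • u j) = 0 := by
      rw [← h1]
      simp [massP]
    have h3 : (∑ j, c j • u j) = 0 := by
      by_contra h0
      exact (mass_pos (IsTest.sum hu1 c) h0).ne' h2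
    exact (Fintype.linearIndependent_iff.1 hu2) c h3
  · rw [cut_sum, cut_massP hd hd' (IsTest.sum hu1 c), add_mul]
    exact (cut_energyP hd hd' hK0 hK (IsTest.sum hu1 c)).trans (by linarith [hu3 c])

/-- Eigenvalues of the cylinder domain from those of the unrolled domain. -/
theorem evP_unroll (hO : IsOpen Om) (hne : Om.Nonempty) (hd : 0 < d) (hd' : d < 2 * π) {K : ℝ}
    (hK0 : 0 < K) (hK : ∀ t, deriv ang t ^ 2 ≤ K) {k : ℕ} (hk : 0 < k) :
    evP (unroll Om x0 d) k ≤ ev Om k + K / d ^ 2 := by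
  rw [← sub_le_iff_le_add]
  refine le_csInf (adm_nonempty hO hne k) fun L hL => ?_
  rw [sub_le_iff_le_add]
  exact csInf_le (admP_bddBelow _ hk) (adm_unroll hd hd' hK0 hK hL)

end

end Pool.Agent.Work.MP_33c50c_an.H54
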