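import Mathlib

/-!
# Cutoffs for a zone
-/

set_option autoImplicit false

open MeasureTheory Set Filter Topology Real

noncomputable section

namespace Pool.Agent.Work.MP_33c50c_an.H54

/-- Smooth step, `0` for `t ≤ 1/4` and `1` for `t ≥ 3/4`. -/
def stp (t : ℝ) : ℝ := Real.smoothTransition (2 * t - 1 / 2)

theorem stp_smooth : ContDiff ℝ ((⊤ : ℕ∞) : WithTop ℕ∞) stp :=
  Real.smoothTransition.contDiff.comp ((contDiff_const.mul contDiff_id).sub contDiff_const)

theorem stp_nonneg (t : ℝ) : 0 ≤ stp t := Real.smoothTransition.nonneg _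

theorem stp_le_one (t : ℝ) : stp t ≤ 1 := Real.smoothTransition.le_one _

theorem stp_zero' {t : ℝ} (ht : t ≤ 1 / 4) : stp t = 0 :=
  Real.smoothTransition.zero_of_nonpos (by linarith)

theorem stp_one' {t : ℝ} (ht : 3 / 4 ≤ t) : stp t = 1 :=
  Real.smoothTransition.one_of_one_le (by linarith)

theorem stp_zero {t : ℝ} (ht : t ≤ 0) : stp t = 0 := stp_zero' (by linarith)

theorem stp_one {t : ℝ} (ht : 1 ≤ t) : stp t = 1 := stp_one' (by linarith)

theorem stp_hasDeriv (t : ℝ) : HasDerivAt stp (deriv stp t) t :=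
  (stp_smooth.differentiable (by simp) t).hasDerivAt

theorem stp_deriv_cont : Continuous (deriv stp) := stp_smooth.continuous_deriv (by simp)

theorem stp_deriv_zero {t : ℝ} (ht : t ≤ 0) : deriv stp t = 0 := by
  -- minimum of a differentiable function
  have h : IsLocalMin stp t := by
    refine Eventually.of_forall fun s => ?_
    show stp t ≤ stp s
    rw [stp_zero ht]
    exact stp_nonneg s
  exact h.deriv_eq_zero

theorem stp_deriv_one {t : ℝ} (ht : 1 ≤ t) : deriv stp t = 0 := by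
  have h : IsLocalMax stp t := by
    refine Eventually.of_forall fun s => ?_
    show stp s ≤ stp t
    rw [stp_one ht]
    exact stp_le_one s
  exact h.deriv_eq_zero

/-- The derivative is bounded. -/
theorem stp_K : ∃ K : ℝ, 1 ≤ K ∧ ∀ t, deriv stp t ^ 2 ≤ K := by
  obtain ⟨C, hC⟩ := (isCompact_Icc (a := (0 : ℝ)) (b := 1)).exists_bound_of_continuousOn
    stp_deriv_cont.continuousOn
  refine ⟨C ^ 2 + 1, by nlinarith [sq_nonneg C], fun t => ?_⟩
  by_cases ht : t ∈ Icc (0 : ℝ) 1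
  · have h1 := hC t ht
    rw [Real.norm_eq_abs] at h1
    have h2 : deriv stp t ^ 2 ≤ C ^ 2 := by
      rw [← sq_abs]
      exact pow_le_pow_left₀ (abs_nonneg _) h1 2
    linarith
  · have : deriv stp t = 0 := by
      rw [mem_Icc, not_and_or, not_le, not_le] at ht
      rcases ht with h | h
      · exact stp_deriv_zero h.le
      · exact stp_deriv_one h.le
    rw [this]
    nlinarith [sq_nonneg C]

/-- The profile. -/
def prf (t : ℝ) : ℝ := π / 2 * stp t ^ 3

/-- Its derivative. -/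
def prfD (t : ℝ) : ℝ := π / 2 * (3 * stp t ^ 2 * deriv stp t)

theorem prf_smooth : ContDiff ℝ ((⊤ : ℕ∞) : WithTop ℕ∞) prf :=
  contDiff_const.mul (stp_smooth.pow 3)

theorem prf_hasDeriv (t : ℝ) : HasDerivAt prf (prfD t) t := by
  have h := ((stp_hasDeriv t).pow 3).const_mul (π / 2)
  refine h.congr_deriv ?_
  unfold prfD
  norm_num

theorem prf_zero' {t : ℝ} (ht : t ≤ 1 / 4) : prf t = 0 := by
  unfold prf; rw [stp_zero' ht]; simp

theorem prf_one' {t : ℝ} (ht : 3 / 4 ≤ t) : prf t = π / 2 := by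
  unfold prf; rw [stp_one' ht]; simp

theorem prf_zero {t : ℝ} (ht : t ≤ 0) : prf t = 0 := prf_zero' (by linarith)

theorem prf_one {t : ℝ} (ht : 1 ≤ t) : prf t = π / 2 := prf_one' (by linarith)

theorem prfD_zero {t : ℝ} (ht : t ≤ 0) : prfD t = 0 := by
  unfold prfD; rw [stp_deriv_zero ht]; simp

theorem prfD_one {t : ℝ} (ht : 1 ≤ t) : prfD t = 0 := by
  unfold prfD; rw [stp_deriv_one ht]; simp

/-- The sine of the profile is at least the cube. -/
theorem sin_prf (t : ℝ) : stp t ^ 3 ≤ Real.sin (prf t) := by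
  have h0 := stp_nonneg t
  have h1 := stp_le_one t
  have h2 : stp t ^ 3 ≤ 1 := pow_le_one₀ h0 h1
  have h3 : 0 ≤ stp t ^ 3 := by positivity
  have := Real.mul_le_sin (x := prf t) (by unfold prf; positivity)
    (by unfold prf; nlinarith [Real.pi_pos])
  refine le_trans (le_of_eq ?_) this
  unfold prf
  field_simp

theorem prfD_sq {K : ℝ} (hK : ∀ t, deriv stp t ^ 2 ≤ K) (t : ℝ) :
    prfD t ^ 2 ≤ 23 * K * stp t ^ 4 := by
  have hpi : π ^ 2 ≤ 10 := by nlinarith [Real.pi_lt_d2, Real.pi_pos]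
  have h1 : prfD t ^ 2 = 9 / 4 * π ^ 2 * (stp t ^ 4 * deriv stp t ^ 2) := by
    unfold prfD; ring
  have hK0 : 0 ≤ K := (sq_nonneg _).trans (hK t)
  have h2 : stp t ^ 4 * deriv stp t ^ 2 ≤ stp t ^ 4 * K :=
    mul_le_mul_of_nonneg_left (hK t) (by positivity)
  have h3 : 0 ≤ stp t ^ 4 * K := by positivity
  rw [h1]
  calc 9 / 4 * π ^ 2 * (stp t ^ 4 * deriv stp t ^ 2) ≤ 9 / 4 * π ^ 2 * (stp t ^ 4 * K) :=
        mul_le_mul_of_nonneg_left h2 (by positivity)
    _ ≤ 9 / 4 * 10 * (stp t ^ 4 * K) := by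
        refine mul_le_mul_of_nonneg_right ?_ h3
        linarith
    _ ≤ 23 * K * stp t ^ 4 := by nlinarith

/-- The angles. -/
def angA (x0 r x : ℝ) : ℝ := prf ((x - x0) / r)

def angB (x0 w r x : ℝ) : ℝ := prf ((x0 + w - x) / r)

def dA (x0 r x : ℝ) : ℝ := prfD ((x - x0) / r) / r

def dB (x0 w r x : ℝ) : ℝ := -(prfD ((x0 + w - x) / r) / r)

theorem angA_smooth (x0 r : ℝ) : ContDiff ℝ ((⊤ : ℕ∞) : WithTop ℕ∞) (angA x0 r) :=
  prf_smooth.comp ((contDiff_id.sub contDiff_const).div_const r)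

theorem angB_smooth (x0 w r : ℝ) : ContDiff ℝ ((⊤ : ℕ∞) : WithTop ℕ∞) (angB x0 w r) :=
  prf_smooth.comp ((contDiff_const.sub contDiff_id).div_const r)

theorem angA_hasDeriv (x0 r x : ℝ) : HasDerivAt (angA x0 r) (dA x0 r x) x := by
  have h1 : HasDerivAt (fun x : ℝ => (x - x0) / r) (1 / r) x :=
    ((hasDerivAt_id x).sub_const x0).div_const r
  refine ((prf_hasDeriv ((x - x0) / r)).comp x h1).congr_deriv ?_
  unfold dA; ring

theorem angB_hasDeriv (x0 w r x : ℝ) : HasDerivAt (angB x0 w r) (dB x0 w r x) x := by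
  have h1 : HasDerivAt (fun x : ℝ => (x0 + w - x) / r) (-1 / r) x :=
    ((hasDerivAt_id x).const_sub (x0 + w)).div_const r
  refine ((prf_hasDeriv ((x0 + w - x) / r)).comp x h1).congr_deriv ?_
  unfold dB; ring

/-- The inner cutoff. -/
def inn (x0 w r x : ℝ) : ℝ := Real.sin (angA x0 r x) * Real.sin (angB x0 w r x)

def innD (x0 w r x : ℝ) : ℝ :=
  Real.cos (angA x0 r x) * dA x0 r x * Real.sin (angB x0 w r x) +
    Real.sin (angA x0 r x) * (Real.cos (angB x0 w r x) * dB x0 w r x)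

/-- The outer cutoff. -/
def out (x0 w r x : ℝ) : ℝ := Real.cos (angB x0 w r x) * Real.cos (angA x0 r (x - 2 * π))

def outD (x0 w r x : ℝ) : ℝ :=
  -Real.sin (angB x0 w r x) * dB x0 w r x * Real.cos (angA x0 r (x - 2 * π)) +
    Real.cos (angB x0 w r x) * (-Real.sin (angA x0 r (x - 2 * π)) * dA x0 r (x - 2 * π))

theorem inn_smooth (x0 w r : ℝ) : ContDiff ℝ ((⊤ : ℕ∞) : WithTop ℕ∞) (inn x0 w r) :=
  (Real.contDiff_sin.comp (angA_smooth x0 r)).mul (Real.contDiff_sin.comp (angB_smooth x0 w r))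

theorem out_smooth (x0 w r : ℝ) : ContDiff ℝ ((⊤ : ℕ∞) : WithTop ℕ∞) (out x0 w r) :=
  (Real.contDiff_cos.comp (angB_smooth x0 w r)).mul
    (Real.contDiff_cos.comp ((angA_smooth x0 r).comp (contDiff_id.sub contDiff_const)))

theorem inn_hasDeriv (x0 w r x : ℝ) : HasDerivAt (inn x0 w r) (innD x0 w r x) x :=
  (angA_hasDeriv x0 r x).sin.mul (angB_hasDeriv x0 w r x).sin

theorem out_hasDeriv (x0 w r x : ℝ) : HasDerivAt (out x0 w r) (outD x0 w r x) x := by
  have h1 : HasDerivAt (fun x => angA x0 r (x - 2 * π)) (dA x0 r (x - 2 * π)) x := by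
    have h2 := (angA_hasDeriv x0 r (x - 2 * π)).comp x ((hasDerivAt_id x).sub_const (2 * π))
    rw [mul_one] at h2
    exact h2
  exact (angB_hasDeriv x0 w r x).cos.mul h1.cos

section zone

variable {x0 w r : ℝ} (hr : 0 < r)

include hr

theorem inn_off {x : ℝ} (hx : x ≤ x0 + r / 4 ∨ x0 + w - r / 4 ≤ x) : inn x0 w r x = 0 := by
  unfold inn angA angB
  rcases hx with hx | hx
  · rw [prf_zero' (t := (x - x0) / r), Real.sin_zero, zero_mul]
    rw [div_le_iff₀ hr]; linarith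
  · rw [prf_zero' (t := (x0 + w - x) / r), Real.sin_zero, mul_zero]
    rw [div_le_iff₀ hr]; linarith

theorem out_off {x : ℝ} (hx : x ≤ x0 + w - 3 * r / 4 ∨ x0 + 2 * π + 3 * r / 4 ≤ x) :
    out x0 w r x = 0 := by
  unfold out angA angB
  rcases hx with hx | hx
  · rw [prf_one' (t := (x0 + w - x) / r), Real.cos_pi_div_two, zero_mul]
    rw [le_div_iff₀ hr]; linarith
  · rw [prf_one' (t := (x - 2 * π - x0) / r), Real.cos_pi_div_two, mul_zero]
    rw [le_div_iff₀ hr]; linarith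

theorem innD_off {x : ℝ} (hx : x0 + w ≤ x) : innD x0 w r x = 0 := by
  unfold innD angA angB dB
  have h : (x0 + w - x) / r ≤ 0 := div_nonpos_of_nonpos_of_nonneg (by linarith) hr.le
  rw [prf_zero h, prfD_zero h]
  simp

variable {x : ℝ} (hw : 2 * r ≤ w) (hw' : w ≤ 2 * π) (hx : x ∈ Ioc x0 (x0 + 2 * π))

include hx in
theorem out_a : out x0 w r x = Real.cos (angB x0 w r x) := by
  unfold out
  have h : (x - 2 * π - x0) / r ≤ 0 :=
    div_nonpos_of_nonpos_of_nonneg (by linarith [hx.2]) hr.le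
  unfold angA
  rw [prf_zero h, Real.cos_zero, mul_one]

include hx in
theorem outD_a : outD x0 w r x = -Real.sin (angB x0 w r x) * dB x0 w r x := by
  unfold outD
  have h : (x - 2 * π - x0) / r ≤ 0 :=
    div_nonpos_of_nonpos_of_nonneg (by linarith [hx.2]) hr.le
  unfold angA dA
  rw [prf_zero h, prfD_zero h, Real.cos_zero]
  ring

include hw' hx in
theorem out_b : out x0 w r (x + 2 * π) = Real.cos (angA x0 r x) := by
  unfold out angB
  have h : (x0 + w - (x + 2 * π)) / r ≤ 0 :=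
    div_nonpos_of_nonpos_of_nonneg (by linarith [hx.1]) hr.le
  rw [prf_zero h, Real.cos_zero, one_mul, add_sub_cancel_right]

include hw' hx in
theorem outD_b : outD x0 w r (x + 2 * π) = -Real.sin (angA x0 r x) * dA x0 r x := by
  unfold outD angB dB
  have h : (x0 + w - (x + 2 * π)) / r ≤ 0 :=
    div_nonpos_of_nonpos_of_nonneg (by linarith [hx.1]) hr.le
  rw [prf_zero h, prfD_zero h, Real.cos_zero, add_sub_cancel_right]
  ring

include hw in
/-- One of the two angles is a right angle. -/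
theorem right_angle : (angA x0 r x = π / 2 ∧ dA x0 r x = 0) ∨
    (angB x0 w r x = π / 2 ∧ dB x0 w r x = 0) := by
  rcases le_or_gt (x0 + r) x with h | h
  · left
    have h1 : 1 ≤ (x - x0) / r := by rw [le_div_iff₀ hr]; linarith
    exact ⟨prf_one h1, by unfold dA; rw [prfD_one h1, zero_div]⟩
  · right
    have h1 : 1 ≤ (x0 + w - x) / r := by rw [le_div_iff₀ hr]; linarith
    exact ⟨prf_one h1, by unfold dB; rw [prfD_one h1, zero_div, neg_zero]⟩

include hw hw' hx in
theorem part_sq : out x0 w r x ^ 2 + out x0 w r (x + 2 * π) ^ 2 + inn x0 w r x ^ 2 = 1 := by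
  rw [out_a hr hx, out_b hr hw' hx, inn]
  have sA := Real.sin_sq_add_cos_sq (angA x0 r x)
  have sB := Real.sin_sq_add_cos_sq (angB x0 w r x)
  rcases right_angle hr (x := x) hw with ⟨h, -⟩ | ⟨h, -⟩
  · rw [h, Real.cos_pi_div_two, Real.sin_pi_div_two]
    linarith
  · rw [h, Real.cos_pi_div_two, Real.sin_pi_div_two]
    linarith

include hw hw' hx in
theorem part_cross : out x0 w r x * outD x0 w r x +
    out x0 w r (x + 2 * π) * outD x0 w r (x + 2 * π) + inn x0 w r x * innD x0 w r x = 0 := by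
  rw [out_a hr hx, out_b hr hw' hx, outD_a hr hx, outD_b hr hw' hx, inn, innD]
  rcases right_angle hr (x := x) hw with ⟨h, h'⟩ | ⟨h, h'⟩
  · rw [h, h', Real.cos_pi_div_two, Real.sin_pi_div_two]
    ring
  · rw [h, h', Real.cos_pi_div_two, Real.sin_pi_div_two]
    ring

include hw hw' hx in
/-- The localisation error is controlled by the inner cutoff. -/
theorem part_err {K : ℝ} (hK1 : 1 ≤ K) (hK : ∀ t, deriv stp t ^ 2 ≤ K) {n : ℝ} (hn : 0 < n) :
    outD x0 w r x ^ 2 + outD x0 w r (x + 2 * π) ^ 2 + innD x0 w r x ^ 2 ≤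
      n * inn x0 w r x ^ 2 + (23 * K) ^ 3 / (r ^ 6 * n ^ 2) := by
  have key : ∀ s : ℝ, 0 ≤ s → 23 * K * s ^ 4 / r ^ 2 ≤
      n * s ^ 6 + (23 * K) ^ 3 / (r ^ 6 * n ^ 2) := by
    intro s hs
    have hC : 0 < 23 * K := by linarith
    rcases le_or_gt (23 * K / (r ^ 2 * n)) (s ^ 2) with h | h
    · have h1 : 23 * K / r ^ 2 ≤ n * s ^ 2 := by
        rw [div_le_iff₀ (by positivity)] at h ⊢
        nlinarith
      have h2 : 23 * K * s ^ 4 / r ^ 2 ≤ n * s ^ 6 := by
        calc 23 * K * s ^ 4 / r ^ 2 = 23 * K / r ^ 2 * s ^ 4 := by ring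
          _ ≤ n * s ^ 2 * s ^ 4 := mul_le_mul_of_nonneg_right h1 (by positivity)
          _ = n * s ^ 6 := by ring
      have : 0 ≤ (23 * K) ^ 3 / (r ^ 6 * n ^ 2) := by positivity
      linarith
    · have h1 : s ^ 4 ≤ (23 * K / (r ^ 2 * n)) ^ 2 := by
        calc s ^ 4 = (s ^ 2) ^ 2 := by ring
          _ ≤ _ := pow_le_pow_left₀ (sq_nonneg _) h.le 2
      have h2 : 23 * K * s ^ 4 / r ^ 2 ≤ (23 * K) ^ 3 / (r ^ 6 * n ^ 2) := by
        calc 23 * K * s ^ 4 / r ^ 2 ≤ 23 * K * (23 * K / (r ^ 2 * n)) ^ 2 / r ^ 2 := by gcongr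
          _ = _ := by field_simp
      have : 0 ≤ n * s ^ 6 := by positivity
      linarith
  have sA := Real.sin_sq_add_cos_sq (angA x0 r x)
  have sB := Real.sin_sq_add_cos_sq (angB x0 w r x)
  rw [outD_a hr hx, outD_b hr hw' hx, inn, innD]
  rcases right_angle hr (x := x) hw with ⟨h, h'⟩ | ⟨h, h'⟩
  · rw [h, h', Real.cos_pi_div_two, Real.sin_pi_div_two]
    have e : (-Real.sin (angB x0 w r x) * dB x0 w r x) ^ 2 + (-1 * 0) ^ 2 +
        (0 * 0 * Real.sin (angB x0 w r x) + 1 * (Real.cos (angB x0 w r x) * dB x0 w r x)) ^ 2 =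
        (Real.sin (angB x0 w r x) ^ 2 + Real.cos (angB x0 w r x) ^ 2) * dB x0 w r x ^ 2 := by
      ring
    rw [e, sB, one_mul, one_mul]
    set t := (x0 + w - x) / r with ht
    have h1 : dB x0 w r x ^ 2 ≤ 23 * K * stp t ^ 4 / r ^ 2 := by
      have : dB x0 w r x ^ 2 = prfD t ^ 2 / r ^ 2 := by
        unfold dB; rw [neg_sq, div_pow]
      rw [this]
      exact div_le_div_of_nonneg_right (prfD_sq hK t) (by positivity)
    have h2 : stp t ^ 6 ≤ Real.sin (angB x0 w r x) ^ 2 := by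
      have h3 : (stp t ^ 3) ^ 2 ≤ Real.sin (prf t) ^ 2 :=
        pow_le_pow_left₀ (pow_nonneg (stp_nonneg t) 3) (sin_prf t) 2
      have h4 : (stp t ^ 3) ^ 2 = stp t ^ 6 := by ring
      rw [h4] at h3
      exact h3
    have h5 := key (stp t) (stp_nonneg t)
    have h6 := mul_le_mul_of_nonneg_left h2 hn.le
    linarith
  · rw [h, h', Real.cos_pi_div_two, Real.sin_pi_div_two]
    have e : (-1 * 0) ^ 2 + (-Real.sin (angA x0 r x) * dA x0 r x) ^ 2 +
        (Real.cos (angA x0 r x) * dA x0 r x * 1 + Real.sin (angA x0 r x) * (0 * 0)) ^ 2 =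
        (Real.sin (angA x0 r x) ^ 2 + Real.cos (angA x0 r x) ^ 2) * dA x0 r x ^ 2 := by
      ring
    rw [e, sA, one_mul, mul_one]
    set t := (x - x0) / r with ht
    have h1 : dA x0 r x ^ 2 ≤ 23 * K * stp t ^ 4 / r ^ 2 := by
      have : dA x0 r x ^ 2 = prfD t ^ 2 / r ^ 2 := by
        unfold dA; rw [div_pow]
      rw [this]
      exact div_le_div_of_nonneg_right (prfD_sq hK t) (by positivity)
    have h2 : stp t ^ 6 ≤ Real.sin (angA x0 r x) ^ 2 := by
      have h3 : (stp t ^ 3) ^ 2 ≤ Real.sin (prf t) ^ 2 :=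
        pow_le_pow_left₀ (pow_nonneg (stp_nonneg t) 3) (sin_prf t) 2
      have h4 : (stp t ^ 3) ^ 2 = stp t ^ 6 := by ring
      rw [h4] at h3
      exact h3
    have h5 := key (stp t) (stp_nonneg t)
    have h6 := mul_le_mul_of_nonneg_left h2 hn.le
    linarith

end zone

end Pool.Agent.Work.MP_33c50c_an.H54
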